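import Mathlib

namespace GSR

open Filter Topology

/-- Word length of `g` with respect to `S ∪ S⁻¹`. -/
noncomputable def len {G : Type} [Group G] (S : Finset G) (g : G) : ℕ :=
  sInf {n : ℕ | ∃ l : List G, l.length = n ∧ (∀ s ∈ l, s ∈ S ∨ s⁻¹ ∈ S) ∧ l.prod = g}

/-- Spherical growth function: the number of elements of length exactly `n`. -/
noncomputable def sph {G : Type} [Group G] (S : Finset G) (n : ℕ) : ℕ :=
  Nat.card {g : G // len S g = n}

/-- Growth function: the number of elements of length at most `n`. -/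
noncomputable def ballc {G : Type} [Group G] (S : Finset G) (n : ℕ) : ℕ :=
  Nat.card {g : G // len S g ≤ n}

/-- The abstract structure used: a group with finite subgroups `U ≤ K`, an involution `a`
normalising `U`, and a decomposition `g = (c0 g, c1 g) τ ^ w g`. -/
structure Dat (G : Type) [Group G] where
  K : Subgroup G
  U : Subgroup G
  a : G
  χ : G → Bool
  c0 : G → G
  c1 : G → G
  w : G → Bool
  τ : G
  K_fin : (K : Set G).Finite
  U_le : U ≤ K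
  a_sq : a * a = 1
  a_norm : ∀ u ∈ U, a * u * a ∈ U
  χ_mul : ∀ g h, χ (g * h) = xor (χ g) (χ h)
  χ_K : ∀ k ∈ K, χ k = false
  χ_a : χ a = true
  gen : Subgroup.closure ((K : Set G) ∪ {a}) = ⊤
  c0_mul : ∀ g h, c0 (g * h) = c0 g * (if w g then c1 h else c0 h)
  c1_mul : ∀ g h, c1 (g * h) = c1 g * (if w g then c0 h else c1 h)
  w_mul : ∀ g h, w (g * h) = xor (w g) (w h)
  dec_inj : ∀ g h, c0 g = c0 h → c1 g = c1 h → w g = w h → g = h
  c0_τ : c0 τ = 1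
  c1_τ : c1 τ = 1
  w_τ : w τ = true
  H0 : ∀ x y : G, ∃ u ∈ U, ∃ v ∈ U, ∃ g, c0 g = x * u ∧ c1 g = y * v ∧ w g = false

namespace Dat
variable {G : Type} [Group G] (D : Dat G)

/-- Elements written `U a K a K ...` with `n` letters. -/
def Wp : ℕ → Set G
  | 0 => D.U
  | n + 1 => if n % 2 = 0 then {g | g * D.a ∈ Wp n} else {g | ∃ k ∈ D.K, g * k ∈ Wp n}

/-- Elements written `U K a K a ...` with `n` letters. -/
def Wn : ℕ → Set G
  | 0 => D.U
  | n + 1 => if n % 2 = 0 then {g | ∃ k ∈ D.K, g * k ∈ Wn n} else {g | g * D.a ∈ Wn n}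

def W (X : ℤ) : Set G := if 0 ≤ X then D.Wp X.toNat else D.Wn (-X).toNat

/-- One coordinate length. -/
noncomputable def lW (g : G) : ℕ := sInf {n : ℕ | ∃ X : ℤ, g ∈ D.W X ∧ X.natAbs = n}

noncomputable def Gam (n : ℕ) : ℕ := Nat.card {g : G // D.lW g = n}
noncomputable def A (n : ℕ) : ℕ := Nat.card {g : G // D.lW g = n ∧ g ∉ D.W (-(n : ℤ))}
noncomputable def B (n : ℕ) : ℕ := Nat.card {g : G // D.lW g = n ∧ g ∈ D.W (-(n : ℤ))}
/-- `P`/`M` : elements of length `n` with / without a positive representation of length `n`. -/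
noncomputable def P (n : ℕ) : ℕ := Nat.card {g : G // D.lW g = n ∧ g ∈ D.W (n : ℤ)}
noncomputable def M (n : ℕ) : ℕ := Nat.card {g : G // D.lW g = n ∧ g ∉ D.W (n : ℤ)}

end Dat

/-- The `s`-partner of an integer. -/
def sP (X : ℤ) : ℤ := if X % 2 = 0 then X + 1 else X - 1
/-- The `T`-partner of an integer. -/
def tP (X : ℤ) : ℤ := if X % 2 = 0 then X - 1 else X + 1

def bi (e : Bool) : ℤ := if e then 1 else 0

/-- numerator correction for the four inner faces -/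
def kk (s0 s1 : ℤ) (X Y : ℤ) (e : Bool) : ℤ :=
  2 - s0 * ((X + bi e) % 2) + s1 * ((Y + bi e) % 2)

/-- inner face value with signs `s0, s1` -/
def inn (s0 s1 : ℤ) (X Y : ℤ) (e : Bool) : ℤ := (3 * (s0 * X + s1 * Y) + kk s0 s1 X Y e) / 4

/-- The exact length formula. -/
def Lam (X Y : ℤ) (e : Bool) : ℤ :=
  max (max |X| |Y|) (max (max (inn 1 1 X Y e) (inn (-1) 1 X Y e))
    (max (inn 1 (-1) X Y e) (inn (-1) (-1) X Y e)))

/-- The moves of the model graph. -/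
def Mv (X Y : ℤ) (e : Bool) (X' Y' : ℤ) (e' : Bool) : Prop :=
  (e' = !e ∧ ((X' = X ∧ Y' = Y) ∨ (X' = sP X ∧ Y' = Y) ∨ (X' = X ∧ Y' = sP Y) ∨
      (X' = tP X ∧ Y' = Y) ∨ (X' = X ∧ Y' = tP Y))) ∨
  (e' = e ∧ ((X' = sP X ∧ Y' = Y) ∨ (X' = X ∧ Y' = sP Y) ∨
      (e = false ∧ X' = tP X ∧ Y' = Y) ∨ (e = false ∧ X' = sP X ∧ Y' = tP Y) ∨
      (e = true ∧ X' = X ∧ Y' = tP Y) ∨ (e = true ∧ X' = tP X ∧ Y' = sP Y)))


/-! ### Real sequences -/

def sg (s : Bool) : ℤ := if s then 1 else -1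

/-- The combinatorial count: `P, M` weigh the first coordinate (sign `+`, `-`), `A, B` the second. -/
noncomputable def FF (P M A B : ℕ → ℝ) (n : ℕ) : ℝ :=
  ∑ e : Bool, ∑ i ∈ Finset.range (n + 1), ∑ j ∈ Finset.range (n + 1), ∑ s0 : Bool, ∑ s1 : Bool,
    if Lam (sg s0 * (i : ℤ)) (sg s1 * (j : ℤ)) e = (n : ℤ) then
      (if s0 then P i else M i) * (if s1 then A j else B j) else 0

noncomputable def Ga (A B : ℕ → ℝ) (n : ℕ) : ℝ := A n + B n
noncomputable def Bl (A B : ℕ → ℝ) (n : ℕ) : ℝ := ∑ i ∈ Finset.range (n + 1), (A i + B i)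
noncomputable def Pq (A B : ℕ → ℝ) (i : ℕ) : ℝ := if i % 2 = 0 then B i else A i
noncomputable def Mq (A B : ℕ → ℝ) (i : ℕ) : ℝ := if i % 2 = 0 then A i else B i
noncomputable def TT (x y : ℕ → ℝ) (s : ℕ) : ℝ :=
  ∑ i ∈ Finset.range (s + 1), if i ≤ 3 * (s - i) ∧ s - i ≤ 3 * i then x i * y (s - i) else 0
/-- pairing on the line `i + j = 4 m` -/
noncomputable def pr (x y : ℕ → ℝ) (m : ℕ) : ℝ :=
  ∑ i ∈ Finset.Icc m (3 * m), x i * y (4 * m - i)

structure SmH (A B : ℕ → ℝ) : Prop where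
  A0 : ∀ n, 0 ≤ A n
  B0 : ∀ n, 0 ≤ B n
  Aodd : ∀ k, 1 ≤ k → A (2 * k + 1) = A (2 * k)
  Bodd : ∀ k, B (2 * k + 1) = B (2 * k + 2)
  AB : ∀ k, A (2 * k) ≤ B (2 * k)
  pos : ∀ n, 1 ≤ A n + B n
  lim : Tendsto (fun n => Ga A B (n + 1) / Ga A B n) atTop (𝓝 1)

end GSR
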