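import Pool.Agent.Helper242.GSR.Defs

namespace GSR

/-- The automorphism `a`: it changes the first letter of a nonempty word (`false` is 0, `true` is 1). -/
def aFun : List Bool → List Bool
  | [] => []
  | x :: w => (!x) :: w

mutual
/-- `b(0w) = 0 a(w)`, `b(1w) = 1 c(w)`. -/
def bFun : List Bool → List Bool
  | [] => []
  | false :: w => false :: aFun w
  | true :: w => true :: cFun w
/-- `c(0w) = 0 a(w)`, `c(1w) = 1 d(w)`. -/
def cFun : List Bool → List Bool
  | [] => []
  | false :: w => false :: aFun w
  | true :: w => true :: dFun w
/-- `d(0w) = 0 w`, `d(1w) = 1 b(w)`. -/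
def dFun : List Bool → List Bool
  | [] => []
  | false :: w => false :: w
  | true :: w => true :: bFun w
end

theorem aFun_invol : Function.Involutive aFun := by
  intro w
  cases w <;> simp [aFun]

theorem bcd_invol (w : List Bool) :
    bFun (bFun w) = w ∧ cFun (cFun w) = w ∧ dFun (dFun w) = w := by
  induction w with
  | nil => simp [bFun, cFun, dFun]
  | cons x w ih =>
    obtain ⟨h1, h2, h3⟩ := ih
    cases x
    · simp [bFun, cFun, dFun, aFun_invol w]
    · simp [bFun, cFun, dFun, h1, h2, h3]

/-- The four generators as permutations of the set of finite binary words. -/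
def a : Equiv.Perm (List Bool) := Function.Involutive.toPerm aFun aFun_invol
def b : Equiv.Perm (List Bool) := Function.Involutive.toPerm bFun (fun w => (bcd_invol w).1)
def c : Equiv.Perm (List Bool) := Function.Involutive.toPerm cFun (fun w => (bcd_invol w).2.1)
def d : Equiv.Perm (List Bool) := Function.Involutive.toPerm dFun (fun w => (bcd_invol w).2.2)

/-- The first Grigorchuk group. -/
def Gr : Subgroup (Equiv.Perm (List Bool)) := Subgroup.closure {a, b, c, d}

/-- `g = (g0, g1) σ ^ w` : first apply the swap `w` times, then act by `g0` and `g1`. -/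
def Dec (g g0 g1 : Equiv.Perm (List Bool)) (w : Bool) : Prop :=
  ∀ (x : Bool) (v : List Bool), g (x :: v) = (xor x w) :: (if xor x w then g1 v else g0 v)

end GSR
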