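import Pool.Agent.Helper242.GSR.Defs

namespace GSR

open Filter Topology

theorem sP_sP (X : ℤ) : sP (sP X) = X := by
  unfold sP; split_ifs <;> omega

theorem tP_tP (X : ℤ) : tP (tP X) = X := by
  unfold tP; split_ifs <;> omega

theorem lam_le_iff (X Y n : ℤ) (e : Bool) : Lam X Y e ≤ n ↔
    (X ≤ n ∧ -X ≤ n) ∧ (Y ≤ n ∧ -Y ≤ n) ∧ (inn 1 1 X Y e ≤ n ∧ inn (-1) 1 X Y e ≤ n) ∧
      (inn 1 (-1) X Y e ≤ n ∧ inn (-1) (-1) X Y e ≤ n) := by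
  unfold Lam
  simp only [max_le_iff, abs_le']
  tauto

theorem aux_sP0 (x : ℤ) : sP (2 * x) = 2 * x + 1 := by unfold sP; split_ifs <;> omega

theorem aux_sP1 (x : ℤ) : sP (2 * x + 1) = 2 * x := by unfold sP; split_ifs <;> omega

theorem aux_tP0 (x : ℤ) : tP (2 * x) = 2 * x - 1 := by unfold tP; split_ifs <;> omega

theorem aux_tP1 (x : ℤ) : tP (2 * x + 1) = 2 * x + 2 := by unfold tP; split_ifs <;> omega

set_option maxHeartbeats 4000000 in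
-- TARGET: prove this

theorem lam_lip {X Y X' Y' : ℤ} {e e' : Bool} (h : Mv X Y e X' Y' e') :
    Lam X' Y' e' ≤ Lam X Y e + 1 := by
  rw [lam_le_iff]
  have hn := (lam_le_iff X Y (Lam X Y e) e).1 le_rfl
  generalize Lam X Y e = L at hn ⊢
  obtain ⟨⟨h1, h2⟩, ⟨h3, h4⟩, ⟨h5, h6⟩, ⟨h7, h8⟩⟩ := hn
  unfold Mv at h
  unfold inn kk at *
  rcases Int.even_or_odd' X with ⟨x, rfl | rfl⟩ <;> rcases Int.even_or_odd' Y with ⟨y, rfl | rfl⟩ <;>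
    simp only [aux_sP0, aux_sP1, aux_tP0, aux_tP1] at h <;> cases e <;> cases e' <;>
    simp only [bi, Bool.not_false, Bool.not_true, Bool.false_eq_true, Bool.true_eq_false,
      if_true, if_false, false_and, true_and, or_false, false_or, reduceCtorEq] at h h5 h6 h7 h8 ⊢ <;>
    rcases h with ⟨rfl, rfl⟩ | ⟨rfl, rfl⟩ | ⟨rfl, rfl⟩ | ⟨rfl, rfl⟩ | ⟨rfl, rfl⟩ <;>
    refine ⟨⟨?_, ?_⟩, ⟨?_, ?_⟩, ⟨?_, ?_⟩, ⟨?_, ?_⟩⟩ <;> omega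

theorem lam_one {X Y : ℤ} {e : Bool} (h : Lam X Y e ≤ 1) (hn : ¬ (X = 0 ∧ Y = -1 ∧ e = false))
    (h0 : ¬ (X = 0 ∧ Y = 0 ∧ e = false)) : Mv X Y e 0 0 false := by
  obtain ⟨⟨h1, h2⟩, ⟨h3, h4⟩, ⟨h5, h6⟩, ⟨h7, h8⟩⟩ := (lam_le_iff X Y 1 e).1 h
  clear h
  have hX : -1 ≤ X := by omega
  have hY : -1 ≤ Y := by omega
  interval_cases X <;> interval_cases Y <;> cases e <;>
    simp [inn, kk, bi, Mv, sP, tP] at *

end GSR
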