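import Pool.Agent.Helper242.GSR.Defs
import Pool.Agent.Helper242.GSR.J31045

namespace GSR

open Filter Topology

theorem lam_outer0 {X Y : ℤ} (e : Bool) (h : 3 * |Y| < |X|) : Lam X Y e = |X| := by
  apply le_antisymm
  · rw [lam_le_iff]
    rcases abs_cases X with ⟨hX, hX'⟩ | ⟨hX, hX'⟩ <;> rcases abs_cases Y with ⟨hY, hY'⟩ | ⟨hY, hY'⟩ <;>
      rw [hX, hY] at h <;> rw [hX] <;> cases e <;>
      simp only [inn, kk, bi, if_true, if_false, Bool.false_eq_true] <;>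
      refine ⟨⟨?_, ?_⟩, ⟨?_, ?_⟩, ⟨?_, ?_⟩, ?_, ?_⟩ <;> omega
  · unfold Lam
    exact le_trans (le_max_left _ _) (le_max_left _ _)

theorem lam_outer1 {X Y : ℤ} (e : Bool) (h : 3 * |X| < |Y|) : Lam X Y e = |Y| := by
  apply le_antisymm
  · rw [lam_le_iff]
    rcases abs_cases X with ⟨hX, hX'⟩ | ⟨hX, hX'⟩ <;> rcases abs_cases Y with ⟨hY, hY'⟩ | ⟨hY, hY'⟩ <;>
      rw [hX, hY] at h <;> rw [hY] <;> cases e <;>
      simp only [inn, kk, bi, if_true, if_false, Bool.false_eq_true] <;>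
      refine ⟨⟨?_, ?_⟩, ⟨?_, ?_⟩, ⟨?_, ?_⟩, ?_, ?_⟩ <;> omega
  · unfold Lam
    exact le_trans (le_max_right _ _) (le_max_left _ _)

theorem lam_inner (s0 s1 : Bool) (i j : ℕ) (e : Bool) (hi : 0 < i) (h1 : i ≤ 3 * j) (h2 : j ≤ 3 * i) :
    Lam (sg s0 * (i : ℤ)) (sg s1 * (j : ℤ)) e =
      (3 * ((i : ℤ) + j) + kk (sg s0) (sg s1) (sg s0 * i) (sg s1 * j) e) / 4 := by
  have key : inn (sg s0) (sg s1) (sg s0 * (i : ℤ)) (sg s1 * (j : ℤ)) e =
      (3 * ((i : ℤ) + j) + kk (sg s0) (sg s1) (sg s0 * i) (sg s1 * j) e) / 4 := by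
    unfold inn
    congr 1
    cases s0 <;> cases s1 <;> simp [sg]
  rw [← key]
  apply le_antisymm
  · rw [lam_le_iff]
    cases s0 <;> cases s1 <;> cases e <;>
      simp only [inn, kk, bi, sg, if_true, if_false, Bool.false_eq_true] <;>
      refine ⟨⟨?_, ?_⟩, ⟨?_, ?_⟩, ⟨?_, ?_⟩, ?_, ?_⟩ <;> omega
  · unfold Lam
    cases s0 <;> cases s1 <;> simp only [sg, if_true, if_false, Bool.false_eq_true, neg_mul, one_mul]
    · exact le_trans (le_trans (le_max_right _ _) (le_max_right _ _)) (le_max_right _ _)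
    · exact le_trans (le_trans (le_max_right _ _) (le_max_left _ _)) (le_max_right _ _)
    · exact le_trans (le_trans (le_max_left _ _) (le_max_right _ _)) (le_max_right _ _)
    · exact le_trans (le_trans (le_max_left _ _) (le_max_left _ _)) (le_max_right _ _)

end GSR
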