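import Pool.Agent.Helper242.GSR.Defs
import Pool.Agent.Helper242.GSR.J31005

namespace GSR

open Filter Topology

theorem lam_00_j30967 (s0 s1 e : Bool) :
    Lam (sg s0 * ((0 : ℕ) : ℤ)) (sg s1 * ((0 : ℕ) : ℤ)) e = bi e := by
  cases s0 <;> cases s1 <;> cases e <;> simp [sg, Lam, inn, kk, bi]

theorem lam_iff1 (m i j : ℕ) (s0 s1 e : Bool) (h1 : i ≤ 3 * j) (h2 : j ≤ 3 * i) (hm : 1 ≤ m) :
    Lam (sg s0 * (i : ℤ)) (sg s1 * (j : ℤ)) e = ((3 * m + 1 : ℕ) : ℤ) ↔
      (i + j = 4 * m ∧ s0 = false ∧ s1 = true ∧ (e = true ↔ i % 2 = 0)) ∨ (i + j = 4 * m + 1) ∨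
      (i + j = 4 * m + 2 ∧ s0 = true ∧ s1 = false ∧ (e = true ↔ i % 2 = 0)) := by
  rcases Nat.eq_zero_or_pos i with hi0 | hi0
  · subst hi0
    have hj0 : j = 0 := by omega
    subst hj0
    rw [lam_00_j30967]
    cases e <;> simp [bi] <;> omega
  rw [lam_inner s0 s1 i j e hi0 h1 h2]
  unfold kk
  cases s0 <;> cases s1 <;> cases e <;> simp [sg, bi] <;> omega

theorem abs_sg (s : Bool) (i : ℕ) : |sg s * (i : ℤ)| = (i : ℤ) := by
  cases s <;> simp [sg]

theorem W_inner1 (P M A B : ℕ → ℝ) (hG : ∀ i, P i + M i = A i + B i) (m : ℕ) (hm : 1 ≤ m) (i j : ℕ)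
    (h1 : i ≤ 3 * j) (h2 : j ≤ 3 * i) :
    (∑ e : Bool, ∑ s0 : Bool, ∑ s1 : Bool,
      if Lam (sg s0 * (i : ℤ)) (sg s1 * (j : ℤ)) e = ((3 * m + 1 : ℕ) : ℤ) then
      (if s0 then P i else M i) * (if s1 then A j else B j) else 0) =
    (if i + j = 4 * m then M i * A j else 0)
      + (if i + j = 4 * m + 1 then 2 * (Ga A B i * Ga A B j) else 0)
      + (if i + j = 4 * m + 2 then P i * B j else 0) := by
  simp only [lam_iff1 m i j _ _ _ h1 h2 hm, Fintype.sum_bool]
  have hP : P i = A i + B i - M i := by linarith [hG i]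
  rcases Nat.mod_two_eq_zero_or_one i with hi | hi
  · by_cases c0 : i + j = 4 * m
    · simp [c0, hi]
    · by_cases c1 : i + j = 4 * m + 1
      · simp [c1, Ga, hP]; ring
      · by_cases c2 : i + j = 4 * m + 2
        · simp [c2, hi]
        · simp [c0, c1, c2]
  · by_cases c0 : i + j = 4 * m
    · simp [c0, hi]
    · by_cases c1 : i + j = 4 * m + 1
      · simp [c1, Ga, hP]; ring
      · by_cases c2 : i + j = 4 * m + 2
        · simp [c2, hi]
        · simp [c0, c1, c2]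

theorem W_outer (P M A B : ℕ → ℝ) (hG : ∀ i, P i + M i = A i + B i) (n i j q : ℕ)
    (h : ∀ (s0 s1 e : Bool), Lam (sg s0 * (i : ℤ)) (sg s1 * (j : ℤ)) e = (q : ℤ)) :
    (∑ e : Bool, ∑ s0 : Bool, ∑ s1 : Bool,
      if Lam (sg s0 * (i : ℤ)) (sg s1 * (j : ℤ)) e = ((n : ℕ) : ℤ) then
      (if s0 then P i else M i) * (if s1 then A j else B j) else 0) =
    (if q = n then 2 * (Ga A B i * Ga A B j) else 0) := by
  simp only [h, Fintype.sum_bool]
  have hP : P i = A i + B i - M i := by linarith [hG i]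
  by_cases c : q = n
  · simp [c, Ga, hP]; ring
  · have c' : ¬ ((q : ℤ) = (n : ℤ)) := by exact_mod_cast c
    simp [c, c']

theorem W_all1 (P M A B : ℕ → ℝ) (hG : ∀ i, P i + M i = A i + B i) (m : ℕ) (hm : 1 ≤ m) (i j : ℕ) :
    (∑ e : Bool, ∑ s0 : Bool, ∑ s1 : Bool,
      if Lam (sg s0 * (i : ℤ)) (sg s1 * (j : ℤ)) e = ((3 * m + 1 : ℕ) : ℤ) then
      (if s0 then P i else M i) * (if s1 then A j else B j) else 0) =
    (if 3 * j < i ∧ i = 3 * m + 1 then 2 * (Ga A B i * Ga A B j) else 0)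
      + (if 3 * i < j ∧ j = 3 * m + 1 then 2 * (Ga A B i * Ga A B j) else 0)
      + (if i ≤ 3 * j ∧ j ≤ 3 * i ∧ i + j = 4 * m then M i * A j else 0)
      + 2 * (if i ≤ 3 * j ∧ j ≤ 3 * i ∧ i + j = 4 * m + 1 then (Ga A B i * Ga A B j) else 0)
      + (if i ≤ 3 * j ∧ j ≤ 3 * i ∧ i + j = 4 * m + 2 then P i * B j else 0) := by
  by_cases h1 : 3 * j < i
  · rw [W_outer P M A B hG (3 * m + 1) i j i (by
      intro s0 s1 e
      rw [lam_outer0 e (by rw [abs_sg, abs_sg]; exact_mod_cast h1), abs_sg])]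
    have c1 : ¬ (3 * i < j) := by omega
    have c2 : ¬ (i ≤ 3 * j) := by omega
    simp only [h1, c1, c2, true_and, false_and, if_false, add_zero, mul_zero]
  · by_cases h2 : 3 * i < j
    · rw [W_outer P M A B hG (3 * m + 1) i j j (by
        intro s0 s1 e
        rw [lam_outer1 e (by rw [abs_sg, abs_sg]; exact_mod_cast h2), abs_sg])]
      have c2 : ¬ (j ≤ 3 * i) := by omega
      simp only [h1, h2, c2, true_and, false_and, and_false, if_false, add_zero, zero_add, mul_zero]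
    · have c1 : i ≤ 3 * j := by omega
      have c2 : j ≤ 3 * i := by omega
      rw [W_inner1 P M A B hG m hm i j c1 c2]
      simp only [h1, h2, c1, c2, true_and, false_and, if_false, zero_add]
      split_ifs <;> ring

theorem TT_double (x y : ℕ → ℝ) (s N : ℕ) (hN : 3 * s ≤ 4 * N + 3) :
    ∑ i ∈ Finset.range (N + 1), ∑ j ∈ Finset.range (N + 1),
      (if i ≤ 3 * j ∧ j ≤ 3 * i ∧ i + j = s then x i * y j else 0) = TT x y s := by
  have h1 : ∀ i, ∑ j ∈ Finset.range (N + 1),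
      (if i ≤ 3 * j ∧ j ≤ 3 * i ∧ i + j = s then x i * y j else 0)
      = if i ≤ s ∧ i ≤ 3 * (s - i) ∧ s - i ≤ 3 * i then x i * y (s - i) else 0 := by
    intro i
    by_cases hc : i ≤ s ∧ i ≤ 3 * (s - i) ∧ s - i ≤ 3 * i
    · obtain ⟨ha, hb, hd⟩ := hc
      rw [if_pos ⟨ha, hb, hd⟩]
      rw [Finset.sum_eq_single (s - i)]
      · rw [if_pos ⟨hb, hd, by omega⟩]
      · intro j _ hj
        rw [if_neg]
        rintro ⟨_, _, h⟩
        omega
      · intro h
        exfalso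
        apply h
        rw [Finset.mem_range]
        omega
    · rw [if_neg hc]
      apply Finset.sum_eq_zero
      intro j _
      rw [if_neg]
      rintro ⟨ha, hb, hd⟩
      apply hc
      refine ⟨by omega, by omega, by omega⟩
  simp only [h1]
  unfold TT
  have h2 : ∑ i ∈ Finset.range (N + 1),
      (if i ≤ s ∧ i ≤ 3 * (s - i) ∧ s - i ≤ 3 * i then x i * y (s - i) else 0)
      = ∑ i ∈ Finset.range (N + s + 1),
      (if i ≤ s ∧ i ≤ 3 * (s - i) ∧ s - i ≤ 3 * i then x i * y (s - i) else 0) := by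
    apply Finset.sum_subset
    · intro i hi
      rw [Finset.mem_range] at *
      omega
    · intro i _ hi
      rw [Finset.mem_range] at hi
      rw [if_neg]
      rintro ⟨ha, hb, hd⟩
      omega
  have h3 : ∑ i ∈ Finset.range (s + 1),
      (if i ≤ s ∧ i ≤ 3 * (s - i) ∧ s - i ≤ 3 * i then x i * y (s - i) else 0)
      = ∑ i ∈ Finset.range (N + s + 1),
      (if i ≤ s ∧ i ≤ 3 * (s - i) ∧ s - i ≤ 3 * i then x i * y (s - i) else 0) := by
    apply Finset.sum_subset
    · intro i hi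
      rw [Finset.mem_range] at *
      omega
    · intro i _ hi
      rw [Finset.mem_range] at hi
      rw [if_neg]
      rintro ⟨ha, hb, hd⟩
      omega
  rw [h2, ← h3]
  apply Finset.sum_congr rfl
  intro i hi
  rw [Finset.mem_range] at hi
  have h4 : i ≤ s := by omega
  simp only [h4, true_and]

theorem outer_sum (x : ℕ → ℝ) (m : ℕ) :
    ∑ j ∈ Finset.range (3 * m + 1 + 1), (if 3 * j < 3 * m + 1 then x j else 0)
      = ∑ j ∈ Finset.range (m + 1), x j := by
  symm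
  have h1 : ∑ j ∈ Finset.range (m + 1), x j
      = ∑ j ∈ Finset.range (m + 1), (if 3 * j < 3 * m + 1 then x j else 0) := by
    apply Finset.sum_congr rfl
    intro j hj
    rw [Finset.mem_range] at hj
    rw [if_pos (by omega)]
  rw [h1]
  apply Finset.sum_subset
  · intro i hi
    rw [Finset.mem_range] at *
    omega
  · intro i _ hi
    rw [Finset.mem_range] at hi
    rw [if_neg (by omega)]

theorem outerA (A B : ℕ → ℝ) (m : ℕ) :
    ∑ i ∈ Finset.range (3 * m + 1 + 1), ∑ j ∈ Finset.range (3 * m + 1 + 1),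
      (if 3 * j < i ∧ i = 3 * m + 1 then 2 * (Ga A B i * Ga A B j) else 0)
      = 2 * (Ga A B (3 * m + 1) * Bl A B m) := by
  rw [Finset.sum_eq_single (3 * m + 1)]
  · have h1 : ∀ j, (if 3 * j < 3 * m + 1 ∧ 3 * m + 1 = 3 * m + 1 then
        2 * (Ga A B (3 * m + 1) * Ga A B j) else 0)
        = 2 * Ga A B (3 * m + 1) * (if 3 * j < 3 * m + 1 then Ga A B j else 0) := by
      intro j
      by_cases h : 3 * j < 3 * m + 1
      · simp [h]; ring
      · simp [h]
    rw [Finset.sum_congr rfl (fun j _ => h1 j)]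
    rw [← Finset.mul_sum, outer_sum]
    unfold Bl
    simp only [Ga]
    ring
  · intro i _ hi
    apply Finset.sum_eq_zero
    intro j _
    rw [if_neg]
    rintro ⟨_, h⟩
    exact hi h
  · intro h
    exfalso
    apply h
    simp

theorem outerB (A B : ℕ → ℝ) (m : ℕ) :
    ∑ i ∈ Finset.range (3 * m + 1 + 1), ∑ j ∈ Finset.range (3 * m + 1 + 1),
      (if 3 * i < j ∧ j = 3 * m + 1 then 2 * (Ga A B i * Ga A B j) else 0)
      = 2 * (Ga A B (3 * m + 1) * Bl A B m) := by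
  rw [Finset.sum_comm, ← outerA]
  apply Finset.sum_congr rfl
  intro i _
  apply Finset.sum_congr rfl
  intro j _
  rw [mul_comm (Ga A B j)]

theorem FF_one (P M A B : ℕ → ℝ) (hG : ∀ i, P i + M i = A i + B i) (m : ℕ) (hm : 1 ≤ m) :
    FF P M A B (3 * m + 1) = 4 * Ga A B (3 * m + 1) * Bl A B m + TT M A (4 * m) +
      2 * TT (Ga A B) (Ga A B) (4 * m + 1) + TT P B (4 * m + 2) := by
  have h0 : FF P M A B (3 * m + 1) = ∑ i ∈ Finset.range (3 * m + 1 + 1),
      ∑ j ∈ Finset.range (3 * m + 1 + 1), ∑ e : Bool, ∑ s0 : Bool, ∑ s1 : Bool,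
      (if Lam (sg s0 * (i : ℤ)) (sg s1 * (j : ℤ)) e = ((3 * m + 1 : ℕ) : ℤ) then
      (if s0 then P i else M i) * (if s1 then A j else B j) else 0) := by
    unfold FF
    rw [Finset.sum_comm]
    apply Finset.sum_congr rfl
    intro i _
    rw [Finset.sum_comm]
  rw [h0]
  simp only [W_all1 P M A B hG m hm, Finset.sum_add_distrib]
  rw [outerA, outerB, TT_double M A (4 * m) (3 * m + 1) (by omega),
    TT_double P B (4 * m + 2) (3 * m + 1) (by omega)]
  have h2 : ∑ i ∈ Finset.range (3 * m + 1 + 1), ∑ j ∈ Finset.range (3 * m + 1 + 1),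
      2 * (if i ≤ 3 * j ∧ j ≤ 3 * i ∧ i + j = 4 * m + 1 then (Ga A B i * Ga A B j) else 0)
      = 2 * TT (Ga A B) (Ga A B) (4 * m + 1) := by
    simp only [← Finset.mul_sum]
    rw [TT_double (Ga A B) (Ga A B) (4 * m + 1) (3 * m + 1) (by omega)]
  rw [h2]
  ring

end GSR
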