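import Pool.Agent.Helper242.GSR.GDefs

namespace GSR

open Filter Topology

theorem dec_a : Dec a 1 1 true := by
  intro x v
  show aFun (x :: v) = _
  cases x <;> simp [aFun]

theorem dec_b : Dec b a c false := by
  intro x v
  show bFun (x :: v) = _
  cases x
  · show bFun (false :: v) = _
    rw [bFun]; rfl
  · show bFun (true :: v) = _
    rw [bFun]; rfl

theorem dec_c : Dec c a d false := by
  intro x v
  show cFun (x :: v) = _
  cases x
  · show cFun (false :: v) = _
    rw [cFun]; rfl
  · show cFun (true :: v) = _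
    rw [cFun]; rfl

theorem dec_d : Dec d 1 b false := by
  intro x v
  show dFun (x :: v) = _
  cases x
  · show dFun (false :: v) = _
    rw [dFun]; rfl
  · show dFun (true :: v) = _
    rw [dFun]; rfl

theorem dec_one : Dec 1 1 1 false := by
  intro x v
  cases x <;> simp

theorem dec_mul {g g0 g1 h h0 h1 : Equiv.Perm (List Bool)} {w w' : Bool} (hg : Dec g g0 g1 w)
    (hh : Dec h h0 h1 w') :
    Dec (g * h) (g0 * (if w then h1 else h0)) (g1 * (if w then h0 else h1)) (xor w w') := by
  intro x v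
  rw [Equiv.Perm.mul_apply, hh x v, hg]
  cases x <;> cases w <;> cases w' <;> simp [Equiv.Perm.mul_apply]

theorem dec_uniq {g g0 g1 h0 h1 : Equiv.Perm (List Bool)} {w w' : Bool} (hg : Dec g g0 g1 w)
    (hg' : Dec g h0 h1 w') : g0 = h0 ∧ g1 = h1 ∧ w = w' := by
  have hw : w = w' := by
    have e := (hg false []).symm.trans (hg' false [])
    have e1 := (List.cons.inj e).1
    simpa using e1
  subst hw
  refine ⟨?_, ?_, rfl⟩
  · ext1 v
    have e := (hg w v).symm.trans (hg' w v)
    have e1 := (List.cons.inj e).2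
    simpa using e1
  · ext1 v
    have e := (hg (!w) v).symm.trans (hg' (!w) v)
    have e1 := (List.cons.inj e).2
    simpa using e1

theorem dec_ext {g h g0 g1 : Equiv.Perm (List Bool)} {w : Bool} (hg0 : g [] = []) (hh0 : h [] = [])
    (hg : Dec g g0 g1 w) (hh : Dec h g0 g1 w) : g = h := by
  ext1 l
  cases l with
  | nil => rw [hg0, hh0]
  | cons x v => rw [hg x v, hh x v]

theorem Gr_nil {g : Equiv.Perm (List Bool)} (hg : g ∈ Gr) : g [] = [] := by
  unfold Gr at hg
  induction hg using Subgroup.closure_induction with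
  | mem x hx =>
    rcases hx with rfl | rfl | rfl | rfl
    · show aFun [] = []
      rw [aFun]
    · show bFun [] = []
      rw [bFun]
    · show cFun [] = []
      rw [cFun]
    · show dFun [] = []
      rw [dFun]
  | one => rfl
  | mul x y _ _ hx hy => rw [Equiv.Perm.mul_apply, hy, hx]
  | inv x _ hx => rw [Equiv.Perm.inv_eq_iff_eq, hx]

theorem Gr_dec {g : Equiv.Perm (List Bool)} (hg : g ∈ Gr) :
    ∃ g0 ∈ Gr, ∃ g1 ∈ Gr, ∃ w, Dec g g0 g1 w := by
  have ha : a ∈ Gr := Subgroup.subset_closure (by simp)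
  have hb : b ∈ Gr := Subgroup.subset_closure (by simp)
  have hc : c ∈ Gr := Subgroup.subset_closure (by simp)
  have hd : d ∈ Gr := Subgroup.subset_closure (by simp)
  unfold Gr at hg
  induction hg using Subgroup.closure_induction with
  | mem x hx =>
    rcases hx with rfl | rfl | rfl | rfl
    · exact ⟨1, one_mem _, 1, one_mem _, true, dec_a⟩
    · exact ⟨a, ha, c, hc, false, dec_b⟩
    · exact ⟨a, ha, d, hd, false, dec_c⟩
    · exact ⟨1, one_mem _, b, hb, false, dec_d⟩
  | one => exact ⟨1, one_mem _, 1, one_mem _, false, dec_one⟩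
  | mul x y _ _ hx hy =>
    obtain ⟨g0, hg0, g1, hg1, w, hw⟩ := hx
    obtain ⟨h0, hh0, h1, hh1, w', hw'⟩ := hy
    refine ⟨_, ?_, _, ?_, _, dec_mul hw hw'⟩
    · refine mul_mem hg0 ?_
      split_ifs
      · exact hh1
      · exact hh0
    · refine mul_mem hg1 ?_
      split_ifs
      · exact hh0
      · exact hh1
  | inv x _ hx =>
    obtain ⟨g0, hg0, g1, hg1, w, hw⟩ := hx
    refine ⟨if w then g1⁻¹ else g0⁻¹, ?_, if w then g0⁻¹ else g1⁻¹, ?_, w, ?_⟩
    · split_ifs
      · exact inv_mem hg1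
      · exact inv_mem hg0
    · split_ifs
      · exact inv_mem hg0
      · exact inv_mem hg1
    · intro y v
      rw [Equiv.Perm.inv_eq_iff_eq, hw]
      cases y <;> cases w <;> simp

theorem rels : a * a = 1 ∧ b * b = 1 ∧ c * c = 1 ∧ d * d = 1 ∧ b * c = d ∧ c * b = d ∧ b * d = c ∧
    d * b = c ∧ c * d = b ∧ d * c = b := by
  have key : ∀ v : List Bool, bFun (cFun v) = dFun v ∧ cFun (bFun v) = dFun v ∧
      bFun (dFun v) = cFun v ∧ dFun (bFun v) = cFun v ∧ cFun (dFun v) = bFun v ∧
      dFun (cFun v) = bFun v := by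
    intro v
    induction v with
    | nil => simp [bFun, cFun, dFun]
    | cons x v ih =>
      obtain ⟨h1, h2, h3, h4, h5, h6⟩ := ih
      cases x
      · simp [bFun, cFun, dFun, aFun_invol v]
      · simp [bFun, cFun, dFun, h1, h2, h3, h4, h5, h6]
  refine ⟨?_, ?_, ?_, ?_, ?_, ?_, ?_, ?_, ?_, ?_⟩
  · ext1 v; exact aFun_invol v
  · ext1 v; exact (bcd_invol v).1
  · ext1 v; exact (bcd_invol v).2.1
  · ext1 v; exact (bcd_invol v).2.2
  · ext1 v; exact (key v).1
  · ext1 v; exact (key v).2.1
  · ext1 v; exact (key v).2.2.1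
  · ext1 v; exact (key v).2.2.2.1
  · ext1 v; exact (key v).2.2.2.2.1
  · ext1 v; exact (key v).2.2.2.2.2

end GSR
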