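import Pool.Agent.Helper242.GSR.Defs

namespace GSR

open Filter Topology

section Growth

variable {G : Type} [Group G]

theorem len_le_iff_aux (S : Finset G) (g : G) (hS : Subgroup.closure (S : Set G) = ⊤) :
    ∃ l : List G, (∀ s ∈ l, s ∈ S ∨ s⁻¹ ∈ S) ∧ l.prod = g := by
  have hg : g ∈ Subgroup.closure (S : Set G) := by
    rw [hS]
    exact Subgroup.mem_top g
  induction hg using Subgroup.closure_induction with
  | mem x hx =>
    refine ⟨[x], ?_, by simp⟩
    intro s hs
    rw [List.mem_singleton] at hs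
    rw [hs]
    exact Or.inl (Finset.mem_coe.mp hx)
  | one => exact ⟨[], by simp, by simp⟩
  | mul x y _ _ hx hy =>
    obtain ⟨l1, h1, rfl⟩ := hx
    obtain ⟨l2, h2, rfl⟩ := hy
    refine ⟨l1 ++ l2, ?_, List.prod_append⟩
    intro s hs
    rcases List.mem_append.mp hs with h | h
    · exact h1 s h
    · exact h2 s h
  | inv x _ hx =>
    obtain ⟨l, h1, rfl⟩ := hx
    refine ⟨(l.map fun x => x⁻¹).reverse, ?_, ?_⟩
    · intro s hs
      rw [List.mem_reverse, List.mem_map] at hs
      obtain ⟨y, hy, rfl⟩ := hs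
      rcases h1 y hy with h | h
      · exact Or.inr (by rw [inv_inv]; exact h)
      · exact Or.inl h
    · rw [List.prod_inv_reverse]

theorem len_le_iff (S : Finset G) (g : G) (hS : Subgroup.closure (S : Set G) = ⊤) (n : ℕ) :
    len S g ≤ n ↔ ∃ l : List G, l.length ≤ n ∧ (∀ s ∈ l, s ∈ S ∨ s⁻¹ ∈ S) ∧ l.prod = g := by
  constructor
  · intro h
    have hne : {n : ℕ | ∃ l : List G, l.length = n ∧ (∀ s ∈ l, s ∈ S ∨ s⁻¹ ∈ S) ∧
        l.prod = g}.Nonempty := by
      obtain ⟨l, h1, h2⟩ := len_le_iff_aux S g hS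
      exact ⟨l.length, l, rfl, h1, h2⟩
    obtain ⟨l, h1, h2, h3⟩ := Nat.sInf_mem hne
    exact ⟨l, by rw [h1]; exact h, h2, h3⟩
  · rintro ⟨l, h1, h2, h3⟩
    exact le_trans (Nat.sInf_le ⟨l, rfl, h2, h3⟩) h1

theorem len_fin_aux (S : Finset G) (n : ℕ) :
    {g : G | ∃ l : List G, l.length ≤ n ∧ (∀ s ∈ l, s ∈ S ∨ s⁻¹ ∈ S) ∧ l.prod = g}.Finite := by
  induction n with
  | zero =>
    refine (Set.finite_singleton (1 : G)).subset ?_
    rintro g ⟨l, h1, -, rfl⟩
    have : l = [] := List.length_eq_zero_iff.mp (Nat.le_zero.mp h1)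
    rw [this]
    simp
  | succ n ih =>
    have hT : {s : G | s ∈ S ∨ s⁻¹ ∈ S}.Finite := by
      have h1 : {s : G | s ∈ S}.Finite := S.finite_toSet
      have h2 : {s : G | s⁻¹ ∈ S}.Finite := h1.preimage inv_injective.injOn
      exact h1.union h2
    refine ((Set.finite_singleton (1 : G)).union (hT.image2 (fun a b => a * b) ih)).subset ?_
    rintro g ⟨l, h1, h2, rfl⟩
    cases l with
    | nil =>
      left
      simp
    | cons a l =>
      right
      refine ⟨a, h2 a (by simp), l.prod, ⟨l, ?_, ?_, rfl⟩, ?_⟩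
      · rw [List.length_cons] at h1
        omega
      · intro s hs
        exact h2 s (List.mem_cons_of_mem _ hs)
      · rw [List.prod_cons]

theorem len_fin (S : Finset G) (hS : Subgroup.closure (S : Set G) = ⊤) (n : ℕ) :
    {g : G | len S g ≤ n}.Finite := by
  have h := len_fin_aux S n
  refine h.subset ?_
  intro g hg
  exact (len_le_iff S g hS n).mp hg

end Growth

end GSR
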