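import Pool.Agent.Helper242.GSR.GDefs
import Pool.Agent.Helper242.GSR.J31044
import Pool.Agent.Helper242.GSR.J31047

namespace GSR

open Filter Topology

section Growth

variable {G : Type} [Group G]

end Growth

/-- The Klein four group {e,b,c,d}. -/
inductive K4 | e | b | c | d
deriving DecidableEq

instance : Fintype K4 := ⟨{K4.e, K4.b, K4.c, K4.d}, fun x => by cases x <;> decide⟩

namespace K4

/-- multiplication table -/
def mul : K4 → K4 → K4
  | e, y => y
  | x, e => x
  | b, b => e | b, c => d | b, d => c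
  | c, b => d | c, c => e | c, d => b
  | d, b => c | d, c => b | d, d => e

/-- the right section b -> c -> d -> b -/
def th : K4 → K4
  | e => e | b => c | c => d | d => b

/-- the left section: true means the swap a -/
def al : K4 → Bool
  | e => false | b => true | c => true | d => false

/-- weights -/
def wt : K4 → ℕ
  | e => 0 | b => 3 | c => 2 | d => 1

theorem wt_mul (x y : K4) : wt (mul x y) ≤ wt x + wt y := by
  cases x <;> cases y <;> decide

theorem contr (x : K4) : 6 * (wt (th x) + (if al x then 3 else 0)) ≤ 5 * (3 + wt x) := by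
  cases x <;> decide

end K4

/-- power of a -/
def apw (t : Bool) : Equiv.Perm (List Bool) := if t then a else 1

/-- the Klein group elements as permutations -/
def kP : K4 → Equiv.Perm (List Bool)
  | K4.e => 1
  | K4.b => b
  | K4.c => c
  | K4.d => d

theorem kP_mul (x y : K4) : kP x * kP y = kP (K4.mul x y) := by
  obtain ⟨-, h1, h2, h3, h4, h5, h6, h7, h8, h9⟩ := rels
  cases x <;> cases y <;> simp [kP, K4.mul, h1, h2, h3, h4, h5, h6, h7, h8, h9]

theorem dec_kP (x : K4) : Dec (kP x) (apw (K4.al x)) (kP (K4.th x)) false := by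
  cases x
  · exact dec_one
  · exact dec_b
  · exact dec_c
  · exact dec_d

/-- weighted words -/
inductive PW : ℕ → Equiv.Perm (List Bool) → Prop
  | one : PW 0 1
  | kstep (r : ℕ) (g : Equiv.Perm (List Bool)) (x : K4) : PW r g → PW (r + K4.wt x) (g * kP x)
  | astep (r : ℕ) (g : Equiv.Perm (List Bool)) : PW r g → PW (r + 3) (g * a)

/-- alternating words -/
inductive AW : ℕ → Equiv.Perm (List Bool) → Prop
  | base (x : K4) : AW (K4.wt x) (kP x)
  | step (r : ℕ) (g : Equiv.Perm (List Bool)) (x : K4) : AW r g → AW (r + 3 + K4.wt x) (g * a * kP x)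

theorem PW.alt {r : ℕ} {g : Equiv.Perm (List Bool)} (h : PW r g) : ∃ r' ≤ r, AW r' g := by
  induction h with
  | one => exact ⟨0, le_refl _, AW.base K4.e⟩
  | kstep r g x h ih =>
    obtain ⟨r', hr', ha⟩ := ih
    cases ha with
    | base y =>
      refine ⟨K4.wt (K4.mul y x), ?_, ?_⟩
      · have := K4.wt_mul y x; omega
      · rw [kP_mul]; exact AW.base _
    | step r₁ g₁ y h₁ =>
      refine ⟨r₁ + 3 + K4.wt (K4.mul y x), ?_, ?_⟩
      · have := K4.wt_mul y x; omega
      · rw [mul_assoc (g₁ * a), kP_mul]; exact AW.step _ _ _ h₁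
  | astep r g h ih =>
    obtain ⟨r', hr', ha⟩ := ih
    refine ⟨r' + 3, by omega, ?_⟩
    have := AW.step r' g K4.e ha
    simpa [kP, K4.wt] using this

theorem PW.mul {r r' : ℕ} {g h : Equiv.Perm (List Bool)} (hg : PW r g) (hh : PW r' h) :
    PW (r + r') (g * h) := by
  induction hh with
  | one => simpa using hg
  | kstep s h x _ ih =>
    rw [← mul_assoc, ← add_assoc]
    exact PW.kstep _ _ x ih
  | astep s h _ ih =>
    rw [← mul_assoc, ← add_assoc]
    exact PW.astep _ _ ih

theorem kP_inv (x : K4) : (kP x)⁻¹ = kP x := by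
  rw [inv_eq_iff_mul_eq_one, kP_mul]
  cases x <;> rfl

theorem a_inv' : (a : Equiv.Perm (List Bool))⁻¹ = a := by
  rw [inv_eq_iff_mul_eq_one]
  exact rels.1

theorem PW.inv {r : ℕ} {g : Equiv.Perm (List Bool)} (hg : PW r g) : PW r g⁻¹ := by
  induction hg with
  | one => simpa using PW.one
  | kstep s h x _ ih =>
    rw [mul_inv_rev, kP_inv]
    have := (PW.kstep 0 1 x PW.one).mul ih
    simp only [zero_add, one_mul] at this
    rw [add_comm]
    exact this
  | astep s h _ ih =>
    rw [mul_inv_rev, a_inv']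
    have := (PW.astep 0 1 PW.one).mul ih
    simp only [zero_add, one_mul] at this
    rw [add_comm]
    exact this

theorem AW.toPW {r : ℕ} {g : Equiv.Perm (List Bool)} (h : AW r g) : PW r g := by
  induction h with
  | base x => simpa using PW.kstep 0 1 x PW.one
  | step r g x h ih => exact PW.kstep _ _ x (PW.astep _ _ ih)

theorem PW_apw (t : Bool) : PW (if t then 3 else 0) (apw t) := by
  cases t
  · simpa [apw] using PW.one
  · simpa [apw] using PW.astep 0 1 PW.one

theorem PW_kP (x : K4) : PW (K4.wt x) (kP x) := (AW.base x).toPW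

theorem AW.decomp {r : ℕ} {g : Equiv.Perm (List Bool)} (h : AW r g) :
    ∃ (s : Bool) (r0 r1 : ℕ) (h0 h1 : Equiv.Perm (List Bool)),
      PW r0 h0 ∧ PW r1 h1 ∧ 6 * (r0 + r1) ≤ 5 * (r + 3) ∧ Dec g h0 h1 s := by
  induction h with
  | base x =>
    refine ⟨false, _, _, _, _, PW_apw (K4.al x), PW_kP (K4.th x), ?_, dec_kP x⟩
    have := K4.contr x
    omega
  | step r g x h ih =>
    obtain ⟨s, r0, r1, h0, h1, hP0, hP1, hw, hd⟩ := ih
    have hd1 : Dec (g * a) h0 h1 (!s) := by
      have := dec_mul hd dec_a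
      simpa using this
    have hd2 := dec_mul hd1 (dec_kP x)
    have hc := K4.contr x
    cases s with
    | false =>
      simp only [Bool.not_false, if_true, Bool.xor_false] at hd2
      refine ⟨true, _, _, _, _, hP0.mul (PW_kP (K4.th x)), hP1.mul (PW_apw (K4.al x)), ?_, hd2⟩
      omega
    | true =>
      simp only [Bool.not_true, Bool.xor_false] at hd2
      refine ⟨false, _, _, _, _, hP0.mul (PW_apw (K4.al x)), hP1.mul (PW_kP (K4.th x)), ?_, ?_⟩
      · omega
      · simpa using hd2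

/-- elements of alternating length `k` -/
noncomputable def BB : ℕ → Finset (Equiv.Perm (List Bool))
  | 0 => by classical exact Finset.univ.image kP
  | k + 1 => by classical exact Finset.image₂ (fun g x => g * a * kP x) (BB k) Finset.univ

theorem BB_card (k : ℕ) : (BB k).card ≤ 4 ^ (k + 1) := by
  classical
  induction k with
  | zero =>
    refine (Finset.card_image_le).trans ?_
    decide
  | succ k ih =>
    refine (Finset.card_image₂_le _ _ _).trans ?_
    have h4 : (Finset.univ : Finset K4).card = 4 := by decide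
    rw [h4, pow_succ]
    exact Nat.mul_le_mul_right _ ih

theorem AW.mem_BB {r : ℕ} {g : Equiv.Perm (List Bool)} (h : AW r g) : ∃ k ≤ r, g ∈ BB k := by
  classical
  induction h with
  | base x => exact ⟨0, Nat.zero_le _, by simp [BB]⟩
  | step r g x h ih =>
    obtain ⟨k, hk, hg⟩ := ih
    refine ⟨k + 1, by omega, ?_⟩
    rw [BB]
    exact Finset.mem_image₂_of_mem hg (Finset.mem_univ x)

/-- elements of weight at most `n` -/
def EW (n : ℕ) : Set (Equiv.Perm (List Bool)) := {g | ∃ r ≤ n, PW r g}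

theorem EW_mono {m n : ℕ} (h : m ≤ n) : EW m ⊆ EW n := by
  rintro g ⟨r, hr, hg⟩
  exact ⟨r, hr.trans h, hg⟩

open Classical in
theorem EW_sub (n : ℕ) : EW n ⊆ (((Finset.range (n + 1)).biUnion BB : Finset _) : Set (Equiv.Perm (List Bool))) := by
  rintro g ⟨r, hr, hg⟩
  obtain ⟨r', hr', ha⟩ := hg.alt
  obtain ⟨k, hk, hgk⟩ := ha.mem_BB
  simp only [Finset.coe_biUnion, Set.mem_iUnion, Finset.coe_range, Set.mem_Iio]
  exact ⟨k, by omega, hgk⟩

theorem EW_fin (n : ℕ) : (EW n).Finite := (Finset.finite_toSet _).subset (EW_sub n)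

theorem sum4 (n : ℕ) : ∑ k ∈ Finset.range (n + 1), 4 ^ (k + 1) ≤ 4 ^ (n + 2) := by
  induction n with
  | zero => norm_num
  | succ n ih =>
    rw [Finset.sum_range_succ]
    calc _ ≤ 4 ^ (n + 2) + 4 ^ (n + 1 + 1) := Nat.add_le_add_right ih _
      _ = 4 ^ (n + 2) * 2 := by ring
      _ ≤ 4 ^ (n + 2) * 4 := Nat.mul_le_mul_left _ (by norm_num)
      _ = 4 ^ (n + 1 + 2) := by ring

theorem EW_card0 (n : ℕ) : (EW n).ncard ≤ 4 ^ (n + 2) := by
  classical
  calc (EW n).ncard ≤ (((Finset.range (n + 1)).biUnion BB : Finset _) : Set (Equiv.Perm (List Bool))).ncard :=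
        Set.ncard_le_ncard (EW_sub n) (Finset.finite_toSet _)
    _ = ((Finset.range (n + 1)).biUnion BB).card := Set.ncard_coe_finset _
    _ ≤ ∑ k ∈ Finset.range (n + 1), (BB k).card := Finset.card_biUnion_le
    _ ≤ ∑ k ∈ Finset.range (n + 1), 4 ^ (k + 1) := Finset.sum_le_sum fun k _ => BB_card k
    _ ≤ _ := sum4 n

theorem PW_nil {r : ℕ} {g : Equiv.Perm (List Bool)} (h : PW r g) : g [] = [] := by
  refine Gr_nil ?_
  have ha : a ∈ Gr := Subgroup.subset_closure (by simp)
  have hk : ∀ x, kP x ∈ Gr := by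
    intro x
    cases x
    · exact one_mem _
    · exact Subgroup.subset_closure (by simp [kP])
    · exact Subgroup.subset_closure (by simp [kP])
    · exact Subgroup.subset_closure (by simp [kP])
  induction h with
  | one => exact one_mem _
  | kstep r g x _ ih => exact mul_mem ih (hk x)
  | astep r g _ ih => exact mul_mem ih ha

theorem EW_rec (n : ℕ) : (EW n).ncard ≤
    2 * ∑ i ∈ Finset.range (5 * (n + 3) / 6 + 1), (EW i).ncard * (EW (5 * (n + 3) / 6 - i)).ncard := by
  classical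
  set M := 5 * (n + 3) / 6 with hM
  have key : ∀ g ∈ EW n, ∃ (i : ℕ) (s : Bool) (h0 h1 : Equiv.Perm (List Bool)),
      i ∈ Finset.range (M + 1) ∧ h0 ∈ EW i ∧ h1 ∈ EW (M - i) ∧ Dec g h0 h1 s := by
    rintro g ⟨r, hr, hg⟩
    obtain ⟨r', hr', ha⟩ := hg.alt
    obtain ⟨s, r0, r1, h0, h1, hP0, hP1, hw, hd⟩ := ha.decomp
    refine ⟨r0, s, h0, h1, ?_, ⟨r0, le_refl _, hP0⟩, ⟨r1, ?_, hP1⟩, hd⟩
    · rw [Finset.mem_range]; omega
    · omega
  choose! fi fs f0 f1 hfi hf0 hf1 hfd using key
  let T : Finset (Bool × (Σ _ : ℕ, Equiv.Perm (List Bool) × Equiv.Perm (List Bool))) :=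
    Finset.univ ×ˢ ((Finset.range (M + 1)).sigma fun i => (EW_fin i).toFinset ×ˢ (EW_fin (M - i)).toFinset)
  have hT : T.card = 2 * ∑ i ∈ Finset.range (M + 1), (EW i).ncard * (EW (M - i)).ncard := by
    simp only [T, Finset.card_product, Finset.card_sigma, Finset.card_univ, Fintype.card_bool]
    congr 1
    refine Finset.sum_congr rfl fun i _ => ?_
    rw [Set.ncard_eq_toFinset_card _ (EW_fin i), Set.ncard_eq_toFinset_card _ (EW_fin (M - i))]
  rw [← hT, Set.ncard_eq_toFinset_card _ (EW_fin n)]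
  refine Finset.card_le_card_of_injOn (fun g => (fs g, ⟨fi g, (f0 g, f1 g)⟩)) ?_ ?_
  · intro g hg
    have hg' : g ∈ EW n := by simpa using hg
    simp only [T, Finset.coe_product, Finset.coe_univ, Set.mem_prod, Set.mem_univ, true_and,
      Finset.mem_coe, Finset.mem_sigma, Finset.mem_product, Set.Finite.mem_toFinset]
    exact ⟨hfi g hg', hf0 g hg', hf1 g hg'⟩
  · intro g hg g' hg' hgg
    have hg1 : g ∈ EW n := by simpa using hg
    have hg2 : g' ∈ EW n := by simpa using hg'
    simp only [Prod.mk.injEq, Sigma.mk.injEq, heq_eq_eq] at hgg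
    obtain ⟨e1, -, e2, e3⟩ := hgg
    have d1 := hfd g hg1
    have d2 := hfd g' hg2
    rw [← e1, ← e2, ← e3] at d2
    obtain ⟨r, -, hr⟩ := hg1
    obtain ⟨r', -, hr'⟩ := hg2
    exact dec_ext (PW_nil hr) (PW_nil hr') d1 d2

theorem EW_step (t : ℝ) (ht : 0 < t) (h : ∃ C : ℝ, ∀ n : ℕ, ((EW n).ncard : ℝ) ≤ C * Real.exp (t * n)) :
    ∃ C : ℝ, ∀ n : ℕ, ((EW n).ncard : ℝ) ≤ C * Real.exp (11 / 12 * t * n) := by
  obtain ⟨C, hC⟩ := h
  have hC0 : 0 ≤ C := by
    have := hC 0
    simp only [Nat.cast_zero, mul_zero, Real.exp_zero, mul_one] at this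
    exact (Nat.cast_nonneg _).trans this
  refine ⟨2 * (12 / t + 4) * C ^ 2 * Real.exp (5 / 2 * t), fun n => ?_⟩
  set M := 5 * (n + 3) / 6 with hM
  have hMn : (M : ℝ) ≤ 5 / 6 * n + 5 / 2 := by
    have h1 : 6 * M ≤ 5 * (n + 3) := by omega
    have h2 : (6 : ℝ) * M ≤ 5 * (n + 3) := by exact_mod_cast h1
    linarith
  have hMn' : (M : ℝ) + 1 ≤ n + 4 := by
    have h1 : M + 1 ≤ n + 4 := by omega
    exact_mod_cast h1
  have h1 : ((EW n).ncard : ℝ) ≤ 2 * ∑ i ∈ Finset.range (M + 1),
      ((EW i).ncard : ℝ) * ((EW (M - i)).ncard : ℝ) := by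
    have := EW_rec n
    exact_mod_cast this
  have h2 : ∑ i ∈ Finset.range (M + 1), ((EW i).ncard : ℝ) * ((EW (M - i)).ncard : ℝ) ≤
      ∑ i ∈ Finset.range (M + 1), C ^ 2 * Real.exp (t * M) := by
    refine Finset.sum_le_sum fun i hi => ?_
    have hi' : i ≤ M := by
      rw [Finset.mem_range] at hi; omega
    have e1 := hC i
    have e2 := hC (M - i)
    calc ((EW i).ncard : ℝ) * ((EW (M - i)).ncard : ℝ)
        ≤ (C * Real.exp (t * i)) * (C * Real.exp (t * ((M - i : ℕ) : ℝ))) :=
          mul_le_mul e1 e2 (Nat.cast_nonneg _) (by positivity)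
      _ = C ^ 2 * Real.exp (t * M) := by
          rw [Nat.cast_sub hi', show t * (M : ℝ) = t * i + t * ((M : ℝ) - i) by ring, Real.exp_add]
          ring
  rw [Finset.sum_const, Finset.card_range, nsmul_eq_mul] at h2
  have h3 : Real.exp (t * M) ≤ Real.exp (5 / 6 * t * n) * Real.exp (5 / 2 * t) := by
    rw [← Real.exp_add]
    refine Real.exp_le_exp.mpr ?_
    nlinarith
  have h4 : ((n : ℝ) + 4) ≤ (12 / t + 4) * Real.exp (t / 12 * n) := by
    have h5 : t / 12 * n ≤ Real.exp (t / 12 * n) := by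
      have := Real.add_one_le_exp (t / 12 * n)
      linarith
    have h6 : (1 : ℝ) ≤ Real.exp (t / 12 * n) := Real.one_le_exp (by positivity)
    have h7 : (n : ℝ) = 12 / t * (t / 12 * n) := by field_simp
    have h8 : 12 / t * (t / 12 * n) ≤ 12 / t * Real.exp (t / 12 * n) :=
      mul_le_mul_of_nonneg_left h5 (by positivity)
    rw [add_mul]
    linarith
  have hC2 : 0 ≤ C ^ 2 := by positivity
  calc ((EW n).ncard : ℝ) ≤ 2 * (((M + 1 : ℕ) : ℝ) * (C ^ 2 * Real.exp (t * M))) := by linarith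
    _ ≤ 2 * ((n + 4) * (C ^ 2 * (Real.exp (5 / 6 * t * n) * Real.exp (5 / 2 * t)))) := by
        refine mul_le_mul_of_nonneg_left ?_ (by norm_num)
        refine mul_le_mul ?_ ?_ (by positivity) (by positivity)
        · push_cast; exact hMn'
        · exact mul_le_mul_of_nonneg_left h3 hC2
    _ ≤ 2 * (((12 / t + 4) * Real.exp (t / 12 * n)) *
          (C ^ 2 * (Real.exp (5 / 6 * t * n) * Real.exp (5 / 2 * t)))) := by
        refine mul_le_mul_of_nonneg_left ?_ (by norm_num)
        exact mul_le_mul_of_nonneg_right h4 (by positivity)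
    _ = 2 * (12 / t + 4) * C ^ 2 * Real.exp (5 / 2 * t) *
          (Real.exp (t / 12 * n) * Real.exp (5 / 6 * t * n)) := by ring
    _ = _ := by
        rw [← Real.exp_add]
        congr 2
        ring

theorem EW_subexp (t : ℝ) (ht : 0 < t) : ∃ C : ℝ, ∀ n : ℕ, ((EW n).ncard : ℝ) ≤ C * Real.exp (t * n) := by
  have hk : ∀ k : ℕ, ∃ C : ℝ, ∀ n : ℕ, ((EW n).ncard : ℝ) ≤ C * Real.exp (2 * (11 / 12) ^ k * n) := by
    intro k
    induction k with
    | zero =>
      refine ⟨16, fun n => ?_⟩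
      have h1 : ((EW n).ncard : ℝ) ≤ 4 ^ (n + 2) := by exact_mod_cast EW_card0 n
      have h2 : (4 : ℝ) ≤ Real.exp 2 := by
        have h3 : Real.exp 2 = Real.exp 1 * Real.exp 1 := by
          rw [← Real.exp_add]; norm_num
        have h4 : (2 : ℝ) ≤ Real.exp 1 := by
          have := Real.add_one_le_exp (1 : ℝ)
          linarith
        rw [h3]
        nlinarith
      calc ((EW n).ncard : ℝ) ≤ 4 ^ (n + 2) := h1
        _ = 16 * 4 ^ n := by ring
        _ ≤ 16 * (Real.exp 2) ^ n := by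
            refine mul_le_mul_of_nonneg_left ?_ (by norm_num)
            exact pow_le_pow_left₀ (by norm_num) h2 n
        _ = _ := by
            rw [← Real.exp_nat_mul]
            congr 2
            ring
    | succ k ih =>
      have := EW_step (2 * (11 / 12) ^ k) (by positivity) ih
      obtain ⟨C, hC⟩ := this
      refine ⟨C, fun n => (hC n).trans (le_of_eq ?_)⟩
      congr 2
      ring
  obtain ⟨k, hk'⟩ := exists_pow_lt_of_lt_one (show (0 : ℝ) < t / 2 by positivity)
    (show (11 / 12 : ℝ) < 1 by norm_num)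
  obtain ⟨C, hC⟩ := hk k
  have hC0 : 0 ≤ C := by
    have := hC 0
    simp only [Nat.cast_zero, mul_zero, Real.exp_zero, mul_one] at this
    exact (Nat.cast_nonneg _).trans this
  refine ⟨C, fun n => (hC n).trans ?_⟩
  refine mul_le_mul_of_nonneg_left (Real.exp_le_exp.mpr ?_) hC0
  have : 2 * (11 / 12 : ℝ) ^ k ≤ t := by linarith
  exact mul_le_mul_of_nonneg_right this (Nat.cast_nonneg _)

theorem exists_PW (g : Equiv.Perm (List Bool)) (hg : g ∈ Gr) : ∃ r, PW r g := by
  refine Subgroup.closure_induction (p := fun g _ => ∃ r, PW r g) ?_ ?_ ?_ ?_ hg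
  · intro x hx
    simp only [Set.mem_insert_iff, Set.mem_singleton_iff] at hx
    rcases hx with rfl | rfl | rfl | rfl
    · exact ⟨_, by simpa using PW.astep 0 1 PW.one⟩
    · exact ⟨_, PW_kP K4.b⟩
    · exact ⟨_, PW_kP K4.c⟩
    · exact ⟨_, PW_kP K4.d⟩
  · exact ⟨0, PW.one⟩
  · rintro x y _ _ ⟨r, hr⟩ ⟨r', hr'⟩
    exact ⟨_, hr.mul hr'⟩
  · rintro x _ ⟨r, hr⟩
    exact ⟨r, hr.inv⟩

theorem grig_sub (S : Finset Gr) (hS : Subgroup.closure (S : Set Gr) = ⊤) (ε : ℝ) (hε : 0 < ε) :
    ∃ C : ℝ, ∀ n : ℕ, (ballc S n : ℝ) ≤ C * Real.exp (ε * n) := by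
  classical
  have hex : ∀ g : Gr, ∃ r, PW r (g : Equiv.Perm (List Bool)) := fun g => exists_PW g g.2
  choose cs hcs using hex
  set M := S.sup cs with hM
  have hlist : ∀ l : List Gr, (∀ s ∈ l, s ∈ S ∨ s⁻¹ ∈ S) →
      ∃ r ≤ M * l.length, PW r ((l.prod : Gr) : Equiv.Perm (List Bool)) := by
    intro l
    induction l with
    | nil => intro _; exact ⟨0, by simp, by simpa using PW.one⟩
    | cons s l ih =>
      intro hl
      obtain ⟨r, hr, hP⟩ := ih fun x hx => hl x (List.mem_cons_of_mem _ hx)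
      have hs : ∃ q ≤ M, PW q (s : Equiv.Perm (List Bool)) := by
        rcases hl s List.mem_cons_self with h | h
        · exact ⟨cs s, Finset.le_sup h, hcs s⟩
        · refine ⟨cs s⁻¹, Finset.le_sup h, ?_⟩
          have := (hcs s⁻¹).inv
          simpa using this
      obtain ⟨q, hq, hQ⟩ := hs
      refine ⟨q + r, ?_, ?_⟩
      · rw [List.length_cons, Nat.mul_succ]; omega
      · rw [List.prod_cons, Subgroup.coe_mul]
        exact hQ.mul hP
  obtain ⟨C, hC⟩ := EW_subexp (ε / (M + 1)) (by positivity)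
  have hC0 : 0 ≤ C := by
    have := hC 0
    simp only [Nat.cast_zero, mul_zero, Real.exp_zero, mul_one] at this
    exact (Nat.cast_nonneg _).trans this
  refine ⟨C, fun n => ?_⟩
  have h1 : ballc S n ≤ (EW (M * n)).ncard := by
    have hmem : ∀ g : {g : Gr // len S g ≤ n}, ((g.1 : Gr) : Equiv.Perm (List Bool)) ∈ EW (M * n) := by
      rintro ⟨g, hg⟩
      obtain ⟨l, hl1, hl2, hl3⟩ := (len_le_iff S g hS n).mp hg
      obtain ⟨r, hr, hP⟩ := hlist l hl2
      refine ⟨r, hr.trans (Nat.mul_le_mul_left _ hl1), ?_⟩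
      rw [hl3] at hP
      exact hP
    have : Finite (EW (M * n)) := (EW_fin (M * n)).to_subtype
    have h2 : Nat.card {g : Gr // len S g ≤ n} ≤ Nat.card (EW (M * n)) := by
      refine Nat.card_le_card_of_injective
        (fun g : {g : Gr // len S g ≤ n} => (⟨((g.1 : Gr) : Equiv.Perm (List Bool)), hmem g⟩ : EW (M * n))) ?_
      intro g g' h
      have : ((g.1 : Gr) : Equiv.Perm (List Bool)) = ((g'.1 : Gr) : Equiv.Perm (List Bool)) :=
        congrArg (fun z : EW (M * n) => (z : Equiv.Perm (List Bool))) h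
      exact Subtype.ext (Subtype.ext this)
    exact h2.trans_eq (Nat.card_coe_set_eq _)
  calc (ballc S n : ℝ) ≤ ((EW (M * n)).ncard : ℝ) := by exact_mod_cast h1
    _ ≤ C * Real.exp (ε / (M + 1) * ((M * n : ℕ) : ℝ)) := hC _
    _ ≤ C * Real.exp (ε * n) := by
        refine mul_le_mul_of_nonneg_left (Real.exp_le_exp.mpr ?_) hC0
        push_cast
        have hM1 : (0 : ℝ) < (M : ℝ) + 1 := by positivity
        rw [div_mul_eq_mul_div, div_le_iff₀ hM1]
        have : (0 : ℝ) ≤ ε * n := by positivity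
        nlinarith

end GSR
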