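import Pool.Agent.Helper242.GSR.Defs
import Pool.Agent.Helper242.GSR.J31005

namespace GSR

open Filter Topology

theorem lam_00_j30973 (s0 s1 e : Bool) :
    Lam (sg s0 * ((0 : ℕ) : ℤ)) (sg s1 * ((0 : ℕ) : ℤ)) e = bi e := by
  cases s0 <;> cases s1 <;> cases e <;> simp [sg, Lam, inn, kk, bi]

theorem FF2_cond (s0 s1 e : Bool) (i j m : ℕ) (h1 : i ≤ 3 * j) (h2 : j ≤ 3 * i) :
    (Lam (sg s0 * (i : ℤ)) (sg s1 * (j : ℤ)) e = ((3 * m + 2 : ℕ) : ℤ)) ↔
      (i + j = 4 * m + 2 ∧ ¬ (s0 = true ∧ s1 = false ∧ (i + (if e then 1 else 0)) % 2 = 1)) ∨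
      (i + j = 4 * m + 3 ∧ ((s0 = true ∧ (i + (if e then 1 else 0)) % 2 = 1) ∨
        (s1 = false ∧ (i + (if e then 1 else 0)) % 2 = 0))) := by
  rcases Nat.eq_zero_or_pos i with hi0 | hi0
  · subst hi0
    have hj0 : j = 0 := by omega
    subst hj0
    rw [lam_00_j30973]
    cases e <;> simp [bi] <;> omega
  rw [lam_inner s0 s1 i j e hi0 h1 h2]
  unfold kk sg bi
  cases s0 <;> cases s1 <;> cases e <;> simp <;> omega

theorem FF2_TT (x y : ℕ → ℝ) (s N : ℕ) (h : 3 * s < 4 * (N + 1)) :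
    TT x y s = ∑ i ∈ Finset.range (N + 1), ∑ j ∈ Finset.range (N + 1),
      if (i + j = s ∧ i ≤ 3 * j ∧ j ≤ 3 * i) then x i * y j else 0 := by
  set g : ℕ → ℝ := fun i => if i ≤ s ∧ i ≤ 3 * (s - i) ∧ s - i ≤ 3 * i then x i * y (s - i) else 0
    with hg
  have e1 : TT x y s = ∑ i ∈ Finset.range (s + N + 1), g i := by
    unfold TT
    have : ∑ i ∈ Finset.range (s + N + 1), g i = ∑ i ∈ Finset.range (s + 1), g i := by
      symm
      apply Finset.sum_subset
      · intro i hi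
        rw [Finset.mem_range] at *
        omega
      · intro i _ hi
        rw [Finset.mem_range] at hi
        rw [hg]
        show (if i ≤ s ∧ i ≤ 3 * (s - i) ∧ s - i ≤ 3 * i then x i * y (s - i) else 0) = 0
        rw [if_neg (by omega)]
    rw [this]
    refine Finset.sum_congr rfl fun i hi => ?_
    rw [Finset.mem_range] at hi
    rw [hg]
    show _ = (if i ≤ s ∧ i ≤ 3 * (s - i) ∧ s - i ≤ 3 * i then x i * y (s - i) else 0)
    by_cases hc : i ≤ 3 * (s - i) ∧ s - i ≤ 3 * i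
    · rw [if_pos hc, if_pos ⟨by omega, hc⟩]
    · rw [if_neg hc, if_neg (fun h => hc h.2)]
  have e2 : ∑ i ∈ Finset.range (s + N + 1), g i = ∑ i ∈ Finset.range (N + 1), g i := by
    symm
    apply Finset.sum_subset
    · intro i hi
      rw [Finset.mem_range] at *
      omega
    · intro i _ hi
      rw [Finset.mem_range] at hi
      rw [hg]
      show (if i ≤ s ∧ i ≤ 3 * (s - i) ∧ s - i ≤ 3 * i then x i * y (s - i) else 0) = 0
      rw [if_neg (by omega)]
  rw [e1, e2]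
  refine Finset.sum_congr rfl fun i hi => ?_
  rw [Finset.mem_range] at hi
  rw [hg]
  show (if i ≤ s ∧ i ≤ 3 * (s - i) ∧ s - i ≤ 3 * i then x i * y (s - i) else 0) = _
  by_cases hc : i ≤ s ∧ i ≤ 3 * (s - i) ∧ s - i ≤ 3 * i
  · rw [if_pos hc, Finset.sum_eq_single (s - i)]
    · rw [if_pos (by omega)]
    · intro j _ hj
      rw [if_neg (by omega)]
    · intro hj
      rw [Finset.mem_range] at hj
      omega
  · rw [if_neg hc]
    symm
    apply Finset.sum_eq_zero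
    intro j _
    rw [if_neg]
    rintro ⟨q1, q2, q3⟩
    apply hc
    omega

theorem FF2_outer (f : ℕ → ℕ → ℝ) (m : ℕ) :
    ∑ i ∈ Finset.range (3 * m + 2 + 1), ∑ j ∈ Finset.range (3 * m + 2 + 1),
      (if 3 * j < i ∧ i = 3 * m + 2 then f i j else 0)
      = ∑ j ∈ Finset.range (m + 1), f (3 * m + 2) j := by
  rw [Finset.sum_eq_single (3 * m + 2)]
  · symm
    have : ∀ j ∈ Finset.range (m + 1), f (3 * m + 2) j
        = (if 3 * j < 3 * m + 2 ∧ 3 * m + 2 = 3 * m + 2 then f (3 * m + 2) j else 0) := by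
      intro j hj
      rw [Finset.mem_range] at hj
      rw [if_pos ⟨by omega, rfl⟩]
    rw [Finset.sum_congr rfl this]
    apply Finset.sum_subset
    · intro j hj
      rw [Finset.mem_range] at *
      omega
    · intro j _ hj
      rw [Finset.mem_range] at hj
      rw [if_neg (by omega)]
  · intro i _ hi
    apply Finset.sum_eq_zero
    intro j _
    rw [if_neg (by omega)]
  · intro h
    rw [Finset.mem_range] at h
    omega

theorem FF2_point (P M A B : ℕ → ℝ) (hG : ∀ i, P i + M i = A i + B i) (m i j : ℕ) :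
    (∑ s0 : Bool, ∑ s1 : Bool,
      if Lam (sg s0 * (i : ℤ)) (sg s1 * (j : ℤ)) true = ((3 * m + 2 : ℕ) : ℤ) then
      (if s0 then P i else M i) * (if s1 then A j else B j) else 0) +
    (∑ s0 : Bool, ∑ s1 : Bool,
      if Lam (sg s0 * (i : ℤ)) (sg s1 * (j : ℤ)) false = ((3 * m + 2 : ℕ) : ℤ) then
      (if s0 then P i else M i) * (if s1 then A j else B j) else 0) =
    (if 3 * j < i ∧ i = 3 * m + 2 then 2 * (Ga A B i * Ga A B j) else 0) +
    (if 3 * i < j ∧ j = 3 * m + 2 then 2 * (Ga A B i * Ga A B j) else 0) +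
    2 * (if (i + j = 4 * m + 2 ∧ i ≤ 3 * j ∧ j ≤ 3 * i) then Ga A B i * Ga A B j else 0) -
    (if (i + j = 4 * m + 2 ∧ i ≤ 3 * j ∧ j ≤ 3 * i) then P i * B j else 0) +
    (if (i + j = 4 * m + 3 ∧ i ≤ 3 * j ∧ j ≤ 3 * i) then P i * Ga A B j else 0) +
    (if (i + j = 4 * m + 3 ∧ i ≤ 3 * j ∧ j ≤ 3 * i) then Ga A B i * B j else 0) := by
  have hM : M i = A i + B i - P i := by linarith [hG i]
  simp only [Fintype.sum_bool]
  rcases lt_or_ge (3 * j) i with h | h
  · -- outer 0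
    have hL : ∀ s0 s1 e : Bool, Lam (sg s0 * (i : ℤ)) (sg s1 * (j : ℤ)) e = (i : ℤ) := by
      intro s0 s1 e
      have a1 : |sg s0 * (i : ℤ)| = (i : ℤ) := by
        cases s0 <;> simp [sg]
      have a2 : |sg s1 * (j : ℤ)| = (j : ℤ) := by
        cases s1 <;> simp [sg]
      rw [lam_outer0 e (by rw [a1, a2]; exact_mod_cast h), a1]
    simp only [hL]
    rw [if_neg (show ¬ (3 * i < j ∧ j = 3 * m + 2) by omega),
      if_neg (show ¬ (i + j = 4 * m + 2 ∧ i ≤ 3 * j ∧ j ≤ 3 * i) by omega),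
      if_neg (show ¬ (i + j = 4 * m + 2 ∧ i ≤ 3 * j ∧ j ≤ 3 * i) by omega),
      if_neg (show ¬ (i + j = 4 * m + 3 ∧ i ≤ 3 * j ∧ j ≤ 3 * i) by omega),
      if_neg (show ¬ (i + j = 4 * m + 3 ∧ i ≤ 3 * j ∧ j ≤ 3 * i) by omega)]
    by_cases hi : i = 3 * m + 2
    · rw [if_pos (show 3 * j < i ∧ i = 3 * m + 2 from ⟨h, hi⟩)]
      have : (i : ℤ) = ((3 * m + 2 : ℕ) : ℤ) := by exact_mod_cast hi
      simp only [this, if_true]
      rw [hM]
      unfold Ga
      simp
      ring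
    · rw [if_neg (show ¬ (3 * j < i ∧ i = 3 * m + 2) from fun q => hi q.2)]
      have : ¬ ((i : ℤ) = ((3 * m + 2 : ℕ) : ℤ)) := by exact_mod_cast hi
      simp only [this, if_false]
      ring
  rcases lt_or_ge (3 * i) j with h' | h'
  · have hL : ∀ s0 s1 e : Bool, Lam (sg s0 * (i : ℤ)) (sg s1 * (j : ℤ)) e = (j : ℤ) := by
      intro s0 s1 e
      have a1 : |sg s0 * (i : ℤ)| = (i : ℤ) := by
        cases s0 <;> simp [sg]
      have a2 : |sg s1 * (j : ℤ)| = (j : ℤ) := by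
        cases s1 <;> simp [sg]
      rw [lam_outer1 e (by rw [a1, a2]; exact_mod_cast h'), a2]
    simp only [hL]
    rw [if_neg (show ¬ (3 * j < i ∧ i = 3 * m + 2) by omega),
      if_neg (show ¬ (i + j = 4 * m + 2 ∧ i ≤ 3 * j ∧ j ≤ 3 * i) by omega),
      if_neg (show ¬ (i + j = 4 * m + 2 ∧ i ≤ 3 * j ∧ j ≤ 3 * i) by omega),
      if_neg (show ¬ (i + j = 4 * m + 3 ∧ i ≤ 3 * j ∧ j ≤ 3 * i) by omega),
      if_neg (show ¬ (i + j = 4 * m + 3 ∧ i ≤ 3 * j ∧ j ≤ 3 * i) by omega)]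
    by_cases hi : j = 3 * m + 2
    · rw [if_pos (show 3 * i < j ∧ j = 3 * m + 2 from ⟨h', hi⟩)]
      have : (j : ℤ) = ((3 * m + 2 : ℕ) : ℤ) := by exact_mod_cast hi
      simp only [this, if_true]
      rw [hM]
      unfold Ga
      simp
      ring
    · rw [if_neg (show ¬ (3 * i < j ∧ j = 3 * m + 2) from fun q => hi q.2)]
      have : ¬ ((j : ℤ) = ((3 * m + 2 : ℕ) : ℤ)) := by exact_mod_cast hi
      simp only [this, if_false]
      ring
  · -- inner
    rw [if_neg (show ¬ (3 * j < i ∧ i = 3 * m + 2) by omega),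
      if_neg (show ¬ (3 * i < j ∧ j = 3 * m + 2) by omega)]
    have c1 : (i + j = 4 * m + 2 ∧ i ≤ 3 * j ∧ j ≤ 3 * i) ↔ i + j = 4 * m + 2 := by
      constructor
      · exact fun h => h.1
      · exact fun q => ⟨q, h, h'⟩
    have c2 : (i + j = 4 * m + 3 ∧ i ≤ 3 * j ∧ j ≤ 3 * i) ↔ i + j = 4 * m + 3 := by
      constructor
      · exact fun h => h.1
      · exact fun q => ⟨q, h, h'⟩
    simp only [c1, c2, FF2_cond _ _ _ i j m h h']
    by_cases a2 : i + j = 4 * m + 2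
    · rcases Nat.mod_two_eq_zero_or_one i with hi | hi
      · have hi1 : (i + 1) % 2 = 1 := by omega
        simp [a2, hi, hi1, hM]
        unfold Ga
        ring
      · have hi1 : (i + 1) % 2 = 0 := by omega
        simp [a2, hi, hi1, hM]
        unfold Ga
        ring
    · by_cases a3 : i + j = 4 * m + 3
      · rcases Nat.mod_two_eq_zero_or_one i with hi | hi
        · have hi1 : (i + 1) % 2 = 1 := by omega
          simp [a3, hi, hi1, hM]
          unfold Ga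
          ring
        · have hi1 : (i + 1) % 2 = 0 := by omega
          simp [a3, hi, hi1, hM]
          unfold Ga
          ring
      · simp [a2, a3]

theorem FF_two (P M A B : ℕ → ℝ) (hG : ∀ i, P i + M i = A i + B i) (m : ℕ) (hm : 1 ≤ m) :
    FF P M A B (3 * m + 2) = 4 * Ga A B (3 * m + 2) * Bl A B m +
      2 * TT (Ga A B) (Ga A B) (4 * m + 2) - TT P B (4 * m + 2) +
      TT P (Ga A B) (4 * m + 3) + TT (Ga A B) B (4 * m + 3) := by
  have hFF : FF P M A B (3 * m + 2) = ∑ i ∈ Finset.range (3 * m + 2 + 1),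
      ∑ j ∈ Finset.range (3 * m + 2 + 1),
      ((if 3 * j < i ∧ i = 3 * m + 2 then 2 * (Ga A B i * Ga A B j) else 0) +
      (if 3 * i < j ∧ j = 3 * m + 2 then 2 * (Ga A B i * Ga A B j) else 0) +
      2 * (if (i + j = 4 * m + 2 ∧ i ≤ 3 * j ∧ j ≤ 3 * i) then Ga A B i * Ga A B j else 0) -
      (if (i + j = 4 * m + 2 ∧ i ≤ 3 * j ∧ j ≤ 3 * i) then P i * B j else 0) +
      (if (i + j = 4 * m + 3 ∧ i ≤ 3 * j ∧ j ≤ 3 * i) then P i * Ga A B j else 0) +
      (if (i + j = 4 * m + 3 ∧ i ≤ 3 * j ∧ j ≤ 3 * i) then Ga A B i * B j else 0)) := by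
    unfold FF
    rw [Fintype.sum_bool, ← Finset.sum_add_distrib]
    refine Finset.sum_congr rfl fun i _ => ?_
    rw [← Finset.sum_add_distrib]
    refine Finset.sum_congr rfl fun j _ => ?_
    exact FF2_point P M A B hG m i j
  rw [hFF]
  simp only [Finset.sum_add_distrib, Finset.sum_sub_distrib, ← Finset.mul_sum]
  rw [← FF2_TT (Ga A B) (Ga A B) (4 * m + 2) (3 * m + 2) (by omega),
    ← FF2_TT P B (4 * m + 2) (3 * m + 2) (by omega),
    ← FF2_TT P (Ga A B) (4 * m + 3) (3 * m + 2) (by omega),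
    ← FF2_TT (Ga A B) B (4 * m + 3) (3 * m + 2) (by omega),
    FF2_outer (fun i j => 2 * (Ga A B i * Ga A B j)) m]
  have h2 : ∑ i ∈ Finset.range (3 * m + 2 + 1), ∑ j ∈ Finset.range (3 * m + 2 + 1),
      (if 3 * i < j ∧ j = 3 * m + 2 then 2 * (Ga A B i * Ga A B j) else 0)
      = ∑ j ∈ Finset.range (m + 1), 2 * (Ga A B j * Ga A B (3 * m + 2)) := by
    rw [Finset.sum_comm]
    exact FF2_outer (fun i j => 2 * (Ga A B j * Ga A B i)) m
  rw [h2]
  have h3 : ∑ j ∈ Finset.range (m + 1), 2 * (Ga A B (3 * m + 2) * Ga A B j)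
      = 2 * Ga A B (3 * m + 2) * Bl A B m := by
    unfold Bl
    rw [Finset.mul_sum]
    refine Finset.sum_congr rfl fun j _ => ?_
    unfold Ga
    ring
  have h4 : ∑ j ∈ Finset.range (m + 1), 2 * (Ga A B j * Ga A B (3 * m + 2))
      = 2 * Ga A B (3 * m + 2) * Bl A B m := by
    unfold Bl
    rw [Finset.mul_sum]
    refine Finset.sum_congr rfl fun j _ => ?_
    unfold Ga
    ring
  rw [h4]
  show ∑ j ∈ Finset.range (m + 1), 2 * (Ga A B (3 * m + 2) * Ga A B j) + _ + _ - _ + _ + _ = _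
  rw [h3]
  ring

end GSR
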