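import Pool.Agent.Helper242.GSR.Defs
import Pool.Agent.Helper242.GSR.J31045

namespace GSR

open Filter Topology

theorem ld_linF (X Y n : ℤ) : Lam X Y false ≤ n ↔
    (X ≤ n ∧ -X ≤ n) ∧ (Y ≤ n ∧ -Y ≤ n) ∧
      3 * (X + Y) + 2 - X % 2 + Y % 2 ≤ 4 * n + 3 ∧
      3 * (-X + Y) + 2 + X % 2 + Y % 2 ≤ 4 * n + 3 ∧
      3 * (X - Y) + 2 - X % 2 - Y % 2 ≤ 4 * n + 3 ∧
      3 * (-X - Y) + 2 + X % 2 - Y % 2 ≤ 4 * n + 3 := by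
  rw [lam_le_iff]
  unfold inn kk bi
  simp only [Bool.false_eq_true, if_false, add_zero]
  constructor
  · rintro ⟨a, b, ⟨c1, c2⟩, c3, c4⟩
    refine ⟨a, b, ?_, ?_, ?_, ?_⟩ <;> omega
  · rintro ⟨a, b, c1, c2, c3, c4⟩
    refine ⟨a, b, ⟨?_, ?_⟩, ?_, ?_⟩ <;> omega

theorem ld_linT (X Y n : ℤ) : Lam X Y true ≤ n ↔
    (X ≤ n ∧ -X ≤ n) ∧ (Y ≤ n ∧ -Y ≤ n) ∧
      3 * (X + Y) + 2 - (X + 1) % 2 + (Y + 1) % 2 ≤ 4 * n + 3 ∧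
      3 * (-X + Y) + 2 + (X + 1) % 2 + (Y + 1) % 2 ≤ 4 * n + 3 ∧
      3 * (X - Y) + 2 - (X + 1) % 2 - (Y + 1) % 2 ≤ 4 * n + 3 ∧
      3 * (-X - Y) + 2 + (X + 1) % 2 - (Y + 1) % 2 ≤ 4 * n + 3 := by
  rw [lam_le_iff]
  unfold inn kk bi
  simp only [if_true]
  constructor
  · rintro ⟨a, b, ⟨c1, c2⟩, c3, c4⟩
    refine ⟨a, b, ?_, ?_, ?_, ?_⟩ <;> omega
  · rintro ⟨a, b, c1, c2, c3, c4⟩
    refine ⟨a, b, ⟨?_, ?_⟩, ?_, ?_⟩ <;> omega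

theorem ldF00 {X Y : ℤ} (hX : X % 2 = 0) (hY : Y % 2 = 0) (h : 2 ≤ Lam X Y false) :
    ∃ X' Y' e', Mv X Y false X' Y' e' ∧ Lam X' Y' e' ≤ Lam X Y false - 1 ∧
      ¬ (X' = 0 ∧ Y' = -1 ∧ e' = false) := by
  have h2 : ¬ (Lam X Y false ≤ 1) := by omega
  rw [ld_linF] at h2
  have hL := (ld_linF X Y (Lam X Y false)).1 le_rfl
  generalize Lam X Y false = L at *
  obtain ⟨⟨a1, a2⟩, ⟨a3, a4⟩, a5, a6, a7, a8⟩ := hL
  have hsX : sP X = X + 1 := if_pos hX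
  have htX : tP X = X - 1 := if_pos hX
  have hsY : sP Y = Y + 1 := if_pos hY
  have htY : tP Y = Y - 1 := if_pos hY
  rcases le_or_gt 0 X with sX | sX
  · rcases le_or_gt 0 Y with sY | sY
    · rcases lt_or_ge (3 * Y) X with r | r
      · exact ⟨X - 1, Y, true, Or.inl ⟨rfl, Or.inr (Or.inr (Or.inr (Or.inl ⟨htX.symm, rfl⟩)))⟩, (ld_linT _ _ _).2 (by refine ⟨⟨?_, ?_⟩, ⟨?_, ?_⟩, ?_, ?_, ?_, ?_⟩ <;> clear h2 <;> omega),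
          fun hh => absurd hh.2.2 (by decide)⟩
      · rcases lt_or_ge (3 * X) Y with r' | r'
        · exact ⟨X, Y - 1, true, Or.inl ⟨rfl, Or.inr (Or.inr (Or.inr (Or.inr ⟨rfl, htY.symm⟩)))⟩, (ld_linT _ _ _).2 (by refine ⟨⟨?_, ?_⟩, ⟨?_, ?_⟩, ?_, ?_, ?_, ?_⟩ <;> clear h2 <;> omega),
            fun hh => absurd hh.2.2 (by decide)⟩
        · have hq : (X + Y) % 4 = 0 ∨ (X + Y) % 4 = 2 := by clear h2; omega
          rcases hq with hq | hq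
          · rcases le_or_gt Y X with r3 | r3
            · exact ⟨X - 1, Y, false, Or.inr ⟨rfl, Or.inr (Or.inr (Or.inl ⟨rfl, htX.symm, rfl⟩))⟩, (ld_linF _ _ _).2 (by refine ⟨⟨?_, ?_⟩, ⟨?_, ?_⟩, ?_, ?_, ?_, ?_⟩ <;> clear h2 <;> omega),
                fun hh => by have k1 := hh.1; have k2 := hh.2.1; omega⟩
            · exact ⟨X, Y - 1, true, Or.inl ⟨rfl, Or.inr (Or.inr (Or.inr (Or.inr ⟨rfl, htY.symm⟩)))⟩, (ld_linT _ _ _).2 (by refine ⟨⟨?_, ?_⟩, ⟨?_, ?_⟩, ?_, ?_, ?_, ?_⟩ <;> clear h2 <;> omega),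
                fun hh => absurd hh.2.2 (by decide)⟩
          · exact ⟨X - 1, Y, true, Or.inl ⟨rfl, Or.inr (Or.inr (Or.inr (Or.inl ⟨htX.symm, rfl⟩)))⟩, (ld_linT _ _ _).2 (by refine ⟨⟨?_, ?_⟩, ⟨?_, ?_⟩, ?_, ?_, ?_, ?_⟩ <;> clear h2 <;> omega),
              fun hh => absurd hh.2.2 (by decide)⟩
    · rcases lt_or_ge (3 * (-Y)) X with r | r
      · exact ⟨X - 1, Y, true, Or.inl ⟨rfl, Or.inr (Or.inr (Or.inr (Or.inl ⟨htX.symm, rfl⟩)))⟩, (ld_linT _ _ _).2 (by refine ⟨⟨?_, ?_⟩, ⟨?_, ?_⟩, ?_, ?_, ?_, ?_⟩ <;> clear h2 <;> omega),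
          fun hh => absurd hh.2.2 (by decide)⟩
      · rcases lt_or_ge (3 * X) (-Y) with r' | r'
        · exact ⟨X, Y + 1, true, Or.inl ⟨rfl, Or.inr (Or.inr (Or.inl ⟨rfl, hsY.symm⟩))⟩, (ld_linT _ _ _).2 (by refine ⟨⟨?_, ?_⟩, ⟨?_, ?_⟩, ?_, ?_, ?_, ?_⟩ <;> clear h2 <;> omega),
            fun hh => absurd hh.2.2 (by decide)⟩
        · have hq : (X + Y) % 4 = 0 ∨ (X + Y) % 4 = 2 := by clear h2; omega
          rcases hq with hq | hq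
          · rcases le_or_gt (-Y) X with r3 | r3
            · exact ⟨X - 1, Y, true, Or.inl ⟨rfl, Or.inr (Or.inr (Or.inr (Or.inl ⟨htX.symm, rfl⟩)))⟩, (ld_linT _ _ _).2 (by refine ⟨⟨?_, ?_⟩, ⟨?_, ?_⟩, ?_, ?_, ?_, ?_⟩ <;> clear h2 <;> omega),
                fun hh => absurd hh.2.2 (by decide)⟩
            · exact ⟨X, Y + 1, true, Or.inl ⟨rfl, Or.inr (Or.inr (Or.inl ⟨rfl, hsY.symm⟩))⟩, (ld_linT _ _ _).2 (by refine ⟨⟨?_, ?_⟩, ⟨?_, ?_⟩, ?_, ?_, ?_, ?_⟩ <;> clear h2 <;> omega),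
                fun hh => absurd hh.2.2 (by decide)⟩
          · exact ⟨X, Y, true, Or.inl ⟨rfl, Or.inl ⟨rfl, rfl⟩⟩, (ld_linT _ _ _).2 (by refine ⟨⟨?_, ?_⟩, ⟨?_, ?_⟩, ?_, ?_, ?_, ?_⟩ <;> clear h2 <;> omega),
              fun hh => absurd hh.2.2 (by decide)⟩
  · rcases le_or_gt 0 Y with sY | sY
    · rcases lt_or_ge (3 * Y) (-X) with r | r
      · exact ⟨X + 1, Y, true, Or.inl ⟨rfl, Or.inr (Or.inl ⟨hsX.symm, rfl⟩)⟩, (ld_linT _ _ _).2 (by refine ⟨⟨?_, ?_⟩, ⟨?_, ?_⟩, ?_, ?_, ?_, ?_⟩ <;> clear h2 <;> omega),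
          fun hh => absurd hh.2.2 (by decide)⟩
      · rcases lt_or_ge (3 * (-X)) Y with r' | r'
        · exact ⟨X, Y - 1, true, Or.inl ⟨rfl, Or.inr (Or.inr (Or.inr (Or.inr ⟨rfl, htY.symm⟩)))⟩, (ld_linT _ _ _).2 (by refine ⟨⟨?_, ?_⟩, ⟨?_, ?_⟩, ?_, ?_, ?_, ?_⟩ <;> clear h2 <;> omega),
            fun hh => absurd hh.2.2 (by decide)⟩
        · have hq : (X + Y) % 4 = 0 ∨ (X + Y) % 4 = 2 := by clear h2; omega
          rcases hq with hq | hq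
          · exact ⟨X + 1, Y - 1, false, Or.inr ⟨rfl, Or.inr (Or.inr (Or.inr (Or.inl ⟨rfl, hsX.symm, htY.symm⟩)))⟩, (ld_linF _ _ _).2 (by refine ⟨⟨?_, ?_⟩, ⟨?_, ?_⟩, ?_, ?_, ?_, ?_⟩ <;> clear h2 <;> omega),
              fun hh => by have k1 := hh.1; have k2 := hh.2.1; omega⟩
          · exact ⟨X + 1, Y, true, Or.inl ⟨rfl, Or.inr (Or.inl ⟨hsX.symm, rfl⟩)⟩, (ld_linT _ _ _).2 (by refine ⟨⟨?_, ?_⟩, ⟨?_, ?_⟩, ?_, ?_, ?_, ?_⟩ <;> clear h2 <;> omega),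
              fun hh => absurd hh.2.2 (by decide)⟩
    · rcases lt_or_ge (3 * (-Y)) (-X) with r | r
      · exact ⟨X + 1, Y, true, Or.inl ⟨rfl, Or.inr (Or.inl ⟨hsX.symm, rfl⟩)⟩, (ld_linT _ _ _).2 (by refine ⟨⟨?_, ?_⟩, ⟨?_, ?_⟩, ?_, ?_, ?_, ?_⟩ <;> clear h2 <;> omega),
          fun hh => absurd hh.2.2 (by decide)⟩
      · rcases lt_or_ge (3 * (-X)) (-Y) with r' | r'
        · exact ⟨X, Y + 1, true, Or.inl ⟨rfl, Or.inr (Or.inr (Or.inl ⟨rfl, hsY.symm⟩))⟩, (ld_linT _ _ _).2 (by refine ⟨⟨?_, ?_⟩, ⟨?_, ?_⟩, ?_, ?_, ?_, ?_⟩ <;> clear h2 <;> omega),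
            fun hh => absurd hh.2.2 (by decide)⟩
        · have hq : (X + Y) % 4 = 0 ∨ (X + Y) % 4 = 2 := by clear h2; omega
          rcases hq with hq | hq
          · rcases le_or_gt (-Y) (-X) with r3 | r3
            · exact ⟨X + 1, Y, true, Or.inl ⟨rfl, Or.inr (Or.inl ⟨hsX.symm, rfl⟩)⟩, (ld_linT _ _ _).2 (by refine ⟨⟨?_, ?_⟩, ⟨?_, ?_⟩, ?_, ?_, ?_, ?_⟩ <;> clear h2 <;> omega),
                fun hh => absurd hh.2.2 (by decide)⟩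
            · exact ⟨X, Y + 1, false, Or.inr ⟨rfl, Or.inr (Or.inl ⟨rfl, hsY.symm⟩)⟩, (ld_linF _ _ _).2 (by refine ⟨⟨?_, ?_⟩, ⟨?_, ?_⟩, ?_, ?_, ?_, ?_⟩ <;> clear h2 <;> omega),
                fun hh => by have k1 := hh.1; have k2 := hh.2.1; omega⟩
          · exact ⟨X + 1, Y, true, Or.inl ⟨rfl, Or.inr (Or.inl ⟨hsX.symm, rfl⟩)⟩, (ld_linT _ _ _).2 (by refine ⟨⟨?_, ?_⟩, ⟨?_, ?_⟩, ?_, ?_, ?_, ?_⟩ <;> clear h2 <;> omega),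
              fun hh => absurd hh.2.2 (by decide)⟩

theorem ldF01 {X Y : ℤ} (hX : X % 2 = 0) (hY : Y % 2 = 1) (h : 2 ≤ Lam X Y false) :
    ∃ X' Y' e', Mv X Y false X' Y' e' ∧ Lam X' Y' e' ≤ Lam X Y false - 1 ∧
      ¬ (X' = 0 ∧ Y' = -1 ∧ e' = false) := by
  have h2 : ¬ (Lam X Y false ≤ 1) := by omega
  rw [ld_linF] at h2
  have hL := (ld_linF X Y (Lam X Y false)).1 le_rfl
  generalize Lam X Y false = L at *
  obtain ⟨⟨a1, a2⟩, ⟨a3, a4⟩, a5, a6, a7, a8⟩ := hL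
  have hsX : sP X = X + 1 := if_pos hX
  have htX : tP X = X - 1 := if_pos hX
  have hsY : sP Y = Y - 1 := if_neg (by omega)
  have htY : tP Y = Y + 1 := if_neg (by omega)
  rcases le_or_gt 0 X with sX | sX
  · rcases le_or_gt 0 Y with sY | sY
    · rcases lt_or_ge (3 * Y) X with r | r
      · exact ⟨X - 1, Y, true, Or.inl ⟨rfl, Or.inr (Or.inr (Or.inr (Or.inl ⟨htX.symm, rfl⟩)))⟩, (ld_linT _ _ _).2 (by refine ⟨⟨?_, ?_⟩, ⟨?_, ?_⟩, ?_, ?_, ?_, ?_⟩ <;> clear h2 <;> omega),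
          fun hh => absurd hh.2.2 (by decide)⟩
      · rcases lt_or_ge (3 * X) Y with r' | r'
        · exact ⟨X, Y - 1, true, Or.inl ⟨rfl, Or.inr (Or.inr (Or.inl ⟨rfl, hsY.symm⟩))⟩, (ld_linT _ _ _).2 (by refine ⟨⟨?_, ?_⟩, ⟨?_, ?_⟩, ?_, ?_, ?_, ?_⟩ <;> clear h2 <;> omega),
            fun hh => absurd hh.2.2 (by decide)⟩
        · have hq : (X + Y) % 4 = 1 ∨ (X + Y) % 4 = 3 := by clear h2; omega
          rcases hq with hq | hq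
          · exact ⟨X, Y - 1, true, Or.inl ⟨rfl, Or.inr (Or.inr (Or.inl ⟨rfl, hsY.symm⟩))⟩, (ld_linT _ _ _).2 (by refine ⟨⟨?_, ?_⟩, ⟨?_, ?_⟩, ?_, ?_, ?_, ?_⟩ <;> clear h2 <;> omega),
              fun hh => absurd hh.2.2 (by decide)⟩
          · exact ⟨X, Y, true, Or.inl ⟨rfl, Or.inl ⟨rfl, rfl⟩⟩, (ld_linT _ _ _).2 (by refine ⟨⟨?_, ?_⟩, ⟨?_, ?_⟩, ?_, ?_, ?_, ?_⟩ <;> clear h2 <;> omega),
              fun hh => absurd hh.2.2 (by decide)⟩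
    · rcases lt_or_ge (3 * (-Y)) X with r | r
      · exact ⟨X - 1, Y, true, Or.inl ⟨rfl, Or.inr (Or.inr (Or.inr (Or.inl ⟨htX.symm, rfl⟩)))⟩, (ld_linT _ _ _).2 (by refine ⟨⟨?_, ?_⟩, ⟨?_, ?_⟩, ?_, ?_, ?_, ?_⟩ <;> clear h2 <;> omega),
          fun hh => absurd hh.2.2 (by decide)⟩
      · rcases lt_or_ge (3 * X) (-Y) with r' | r'
        · exact ⟨X, Y + 1, true, Or.inl ⟨rfl, Or.inr (Or.inr (Or.inr (Or.inr ⟨rfl, htY.symm⟩)))⟩, (ld_linT _ _ _).2 (by refine ⟨⟨?_, ?_⟩, ⟨?_, ?_⟩, ?_, ?_, ?_, ?_⟩ <;> clear h2 <;> omega),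
            fun hh => absurd hh.2.2 (by decide)⟩
        · have hq : (X + Y) % 4 = 1 ∨ (X + Y) % 4 = 3 := by clear h2; omega
          rcases hq with hq | hq
          · rcases le_or_gt (-Y) X with r3 | r3
            · exact ⟨X - 1, Y, false, Or.inr ⟨rfl, Or.inr (Or.inr (Or.inl ⟨rfl, htX.symm, rfl⟩))⟩, (ld_linF _ _ _).2 (by refine ⟨⟨?_, ?_⟩, ⟨?_, ?_⟩, ?_, ?_, ?_, ?_⟩ <;> clear h2 <;> omega),
                fun hh => by have k1 := hh.1; have k2 := hh.2.1; omega⟩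
            · exact ⟨X, Y + 1, true, Or.inl ⟨rfl, Or.inr (Or.inr (Or.inr (Or.inr ⟨rfl, htY.symm⟩)))⟩, (ld_linT _ _ _).2 (by refine ⟨⟨?_, ?_⟩, ⟨?_, ?_⟩, ?_, ?_, ?_, ?_⟩ <;> clear h2 <;> omega),
                fun hh => absurd hh.2.2 (by decide)⟩
          · exact ⟨X - 1, Y, true, Or.inl ⟨rfl, Or.inr (Or.inr (Or.inr (Or.inl ⟨htX.symm, rfl⟩)))⟩, (ld_linT _ _ _).2 (by refine ⟨⟨?_, ?_⟩, ⟨?_, ?_⟩, ?_, ?_, ?_, ?_⟩ <;> clear h2 <;> omega),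
              fun hh => absurd hh.2.2 (by decide)⟩
  · rcases le_or_gt 0 Y with sY | sY
    · rcases lt_or_ge (3 * Y) (-X) with r | r
      · exact ⟨X + 1, Y, true, Or.inl ⟨rfl, Or.inr (Or.inl ⟨hsX.symm, rfl⟩)⟩, (ld_linT _ _ _).2 (by refine ⟨⟨?_, ?_⟩, ⟨?_, ?_⟩, ?_, ?_, ?_, ?_⟩ <;> clear h2 <;> omega),
          fun hh => absurd hh.2.2 (by decide)⟩
      · rcases lt_or_ge (3 * (-X)) Y with r' | r'
        · exact ⟨X, Y - 1, false, Or.inr ⟨rfl, Or.inr (Or.inl ⟨rfl, hsY.symm⟩)⟩, (ld_linF _ _ _).2 (by refine ⟨⟨?_, ?_⟩, ⟨?_, ?_⟩, ?_, ?_, ?_, ?_⟩ <;> clear h2 <;> omega),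
            fun hh => by have k1 := hh.1; have k2 := hh.2.1; omega⟩
        · have hq : (X + Y) % 4 = 1 ∨ (X + Y) % 4 = 3 := by clear h2; omega
          rcases hq with hq | hq
          · exact ⟨X + 1, Y, true, Or.inl ⟨rfl, Or.inr (Or.inl ⟨hsX.symm, rfl⟩)⟩, (ld_linT _ _ _).2 (by refine ⟨⟨?_, ?_⟩, ⟨?_, ?_⟩, ?_, ?_, ?_, ?_⟩ <;> clear h2 <;> omega),
              fun hh => absurd hh.2.2 (by decide)⟩
          · exact ⟨X + 1, Y, true, Or.inl ⟨rfl, Or.inr (Or.inl ⟨hsX.symm, rfl⟩)⟩, (ld_linT _ _ _).2 (by refine ⟨⟨?_, ?_⟩, ⟨?_, ?_⟩, ?_, ?_, ?_, ?_⟩ <;> clear h2 <;> omega),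
              fun hh => absurd hh.2.2 (by decide)⟩
    · rcases lt_or_ge (3 * (-Y)) (-X) with r | r
      · exact ⟨X + 1, Y, true, Or.inl ⟨rfl, Or.inr (Or.inl ⟨hsX.symm, rfl⟩)⟩, (ld_linT _ _ _).2 (by refine ⟨⟨?_, ?_⟩, ⟨?_, ?_⟩, ?_, ?_, ?_, ?_⟩ <;> clear h2 <;> omega),
          fun hh => absurd hh.2.2 (by decide)⟩
      · rcases lt_or_ge (3 * (-X)) (-Y) with r' | r'
        · exact ⟨X, Y + 1, true, Or.inl ⟨rfl, Or.inr (Or.inr (Or.inr (Or.inr ⟨rfl, htY.symm⟩)))⟩, (ld_linT _ _ _).2 (by refine ⟨⟨?_, ?_⟩, ⟨?_, ?_⟩, ?_, ?_, ?_, ?_⟩ <;> clear h2 <;> omega),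
            fun hh => absurd hh.2.2 (by decide)⟩
        · have hq : (X + Y) % 4 = 1 ∨ (X + Y) % 4 = 3 := by clear h2; omega
          rcases hq with hq | hq
          · exact ⟨X + 1, Y + 1, false, Or.inr ⟨rfl, Or.inr (Or.inr (Or.inr (Or.inl ⟨rfl, hsX.symm, htY.symm⟩)))⟩, (ld_linF _ _ _).2 (by refine ⟨⟨?_, ?_⟩, ⟨?_, ?_⟩, ?_, ?_, ?_, ?_⟩ <;> clear h2 <;> omega),
              fun hh => by have k1 := hh.1; have k2 := hh.2.1; omega⟩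
          · exact ⟨X + 1, Y, true, Or.inl ⟨rfl, Or.inr (Or.inl ⟨hsX.symm, rfl⟩)⟩, (ld_linT _ _ _).2 (by refine ⟨⟨?_, ?_⟩, ⟨?_, ?_⟩, ?_, ?_, ?_, ?_⟩ <;> clear h2 <;> omega),
              fun hh => absurd hh.2.2 (by decide)⟩

theorem ldF10 {X Y : ℤ} (hX : X % 2 = 1) (hY : Y % 2 = 0) (h : 2 ≤ Lam X Y false) :
    ∃ X' Y' e', Mv X Y false X' Y' e' ∧ Lam X' Y' e' ≤ Lam X Y false - 1 ∧
      ¬ (X' = 0 ∧ Y' = -1 ∧ e' = false) := by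
  have h2 : ¬ (Lam X Y false ≤ 1) := by omega
  rw [ld_linF] at h2
  have hL := (ld_linF X Y (Lam X Y false)).1 le_rfl
  generalize Lam X Y false = L at *
  obtain ⟨⟨a1, a2⟩, ⟨a3, a4⟩, a5, a6, a7, a8⟩ := hL
  have hsX : sP X = X - 1 := if_neg (by omega)
  have htX : tP X = X + 1 := if_neg (by omega)
  have hsY : sP Y = Y + 1 := if_pos hY
  have htY : tP Y = Y - 1 := if_pos hY
  rcases le_or_gt 0 X with sX | sX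
  · rcases le_or_gt 0 Y with sY | sY
    · rcases lt_or_ge (3 * Y) X with r | r
      · exact ⟨X - 1, Y, true, Or.inl ⟨rfl, Or.inr (Or.inl ⟨hsX.symm, rfl⟩)⟩, (ld_linT _ _ _).2 (by refine ⟨⟨?_, ?_⟩, ⟨?_, ?_⟩, ?_, ?_, ?_, ?_⟩ <;> clear h2 <;> omega),
          fun hh => absurd hh.2.2 (by decide)⟩
      · rcases lt_or_ge (3 * X) Y with r' | r'
        · exact ⟨X, Y - 1, true, Or.inl ⟨rfl, Or.inr (Or.inr (Or.inr (Or.inr ⟨rfl, htY.symm⟩)))⟩, (ld_linT _ _ _).2 (by refine ⟨⟨?_, ?_⟩, ⟨?_, ?_⟩, ?_, ?_, ?_, ?_⟩ <;> clear h2 <;> omega),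
            fun hh => absurd hh.2.2 (by decide)⟩
        · have hq : (X + Y) % 4 = 1 ∨ (X + Y) % 4 = 3 := by clear h2; omega
          rcases hq with hq | hq
          · exact ⟨X - 1, Y, true, Or.inl ⟨rfl, Or.inr (Or.inl ⟨hsX.symm, rfl⟩)⟩, (ld_linT _ _ _).2 (by refine ⟨⟨?_, ?_⟩, ⟨?_, ?_⟩, ?_, ?_, ?_, ?_⟩ <;> clear h2 <;> omega),
              fun hh => absurd hh.2.2 (by decide)⟩
          · exact ⟨X - 1, Y - 1, false, Or.inr ⟨rfl, Or.inr (Or.inr (Or.inr (Or.inl ⟨rfl, hsX.symm, htY.symm⟩)))⟩, (ld_linF _ _ _).2 (by refine ⟨⟨?_, ?_⟩, ⟨?_, ?_⟩, ?_, ?_, ?_, ?_⟩ <;> clear h2 <;> omega),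
              fun hh => by have k1 := hh.1; have k2 := hh.2.1; omega⟩
    · rcases lt_or_ge (3 * (-Y)) X with r | r
      · exact ⟨X - 1, Y, true, Or.inl ⟨rfl, Or.inr (Or.inl ⟨hsX.symm, rfl⟩)⟩, (ld_linT _ _ _).2 (by refine ⟨⟨?_, ?_⟩, ⟨?_, ?_⟩, ?_, ?_, ?_, ?_⟩ <;> clear h2 <;> omega),
          fun hh => absurd hh.2.2 (by decide)⟩
      · rcases lt_or_ge (3 * X) (-Y) with r' | r'
        · exact ⟨X, Y + 1, true, Or.inl ⟨rfl, Or.inr (Or.inr (Or.inl ⟨rfl, hsY.symm⟩))⟩, (ld_linT _ _ _).2 (by refine ⟨⟨?_, ?_⟩, ⟨?_, ?_⟩, ?_, ?_, ?_, ?_⟩ <;> clear h2 <;> omega),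
            fun hh => absurd hh.2.2 (by decide)⟩
        · have hq : (X + Y) % 4 = 1 ∨ (X + Y) % 4 = 3 := by clear h2; omega
          rcases hq with hq | hq
          · exact ⟨X - 1, Y, true, Or.inl ⟨rfl, Or.inr (Or.inl ⟨hsX.symm, rfl⟩)⟩, (ld_linT _ _ _).2 (by refine ⟨⟨?_, ?_⟩, ⟨?_, ?_⟩, ?_, ?_, ?_, ?_⟩ <;> clear h2 <;> omega),
              fun hh => absurd hh.2.2 (by decide)⟩
          · rcases le_or_gt (-Y) X with r3 | r3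
            · exact ⟨X - 1, Y, true, Or.inl ⟨rfl, Or.inr (Or.inl ⟨hsX.symm, rfl⟩)⟩, (ld_linT _ _ _).2 (by refine ⟨⟨?_, ?_⟩, ⟨?_, ?_⟩, ?_, ?_, ?_, ?_⟩ <;> clear h2 <;> omega),
                fun hh => absurd hh.2.2 (by decide)⟩
            · exact ⟨X, Y + 1, false, Or.inr ⟨rfl, Or.inr (Or.inl ⟨rfl, hsY.symm⟩)⟩, (ld_linF _ _ _).2 (by refine ⟨⟨?_, ?_⟩, ⟨?_, ?_⟩, ?_, ?_, ?_, ?_⟩ <;> clear h2 <;> omega),
                fun hh => by have k1 := hh.1; have k2 := hh.2.1; omega⟩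
  · rcases le_or_gt 0 Y with sY | sY
    · rcases lt_or_ge (3 * Y) (-X) with r | r
      · exact ⟨X + 1, Y, false, Or.inr ⟨rfl, Or.inr (Or.inr (Or.inl ⟨rfl, htX.symm, rfl⟩))⟩, (ld_linF _ _ _).2 (by refine ⟨⟨?_, ?_⟩, ⟨?_, ?_⟩, ?_, ?_, ?_, ?_⟩ <;> clear h2 <;> omega),
          fun hh => by have k1 := hh.1; have k2 := hh.2.1; omega⟩
      · rcases lt_or_ge (3 * (-X)) Y with r' | r'
        · exact ⟨X, Y - 1, true, Or.inl ⟨rfl, Or.inr (Or.inr (Or.inr (Or.inr ⟨rfl, htY.symm⟩)))⟩, (ld_linT _ _ _).2 (by refine ⟨⟨?_, ?_⟩, ⟨?_, ?_⟩, ?_, ?_, ?_, ?_⟩ <;> clear h2 <;> omega),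
            fun hh => absurd hh.2.2 (by decide)⟩
        · have hq : (X + Y) % 4 = 1 ∨ (X + Y) % 4 = 3 := by clear h2; omega
          rcases hq with hq | hq
          · exact ⟨X + 1, Y, true, Or.inl ⟨rfl, Or.inr (Or.inr (Or.inr (Or.inl ⟨htX.symm, rfl⟩)))⟩, (ld_linT _ _ _).2 (by refine ⟨⟨?_, ?_⟩, ⟨?_, ?_⟩, ?_, ?_, ?_, ?_⟩ <;> clear h2 <;> omega),
              fun hh => absurd hh.2.2 (by decide)⟩
          · exact ⟨X, Y - 1, true, Or.inl ⟨rfl, Or.inr (Or.inr (Or.inr (Or.inr ⟨rfl, htY.symm⟩)))⟩, (ld_linT _ _ _).2 (by refine ⟨⟨?_, ?_⟩, ⟨?_, ?_⟩, ?_, ?_, ?_, ?_⟩ <;> clear h2 <;> omega),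
              fun hh => absurd hh.2.2 (by decide)⟩
    · rcases lt_or_ge (3 * (-Y)) (-X) with r | r
      · exact ⟨X + 1, Y, true, Or.inl ⟨rfl, Or.inr (Or.inr (Or.inr (Or.inl ⟨htX.symm, rfl⟩)))⟩, (ld_linT _ _ _).2 (by refine ⟨⟨?_, ?_⟩, ⟨?_, ?_⟩, ?_, ?_, ?_, ?_⟩ <;> clear h2 <;> omega),
          fun hh => absurd hh.2.2 (by decide)⟩
      · rcases lt_or_ge (3 * (-X)) (-Y) with r' | r'
        · exact ⟨X, Y + 1, true, Or.inl ⟨rfl, Or.inr (Or.inr (Or.inl ⟨rfl, hsY.symm⟩))⟩, (ld_linT _ _ _).2 (by refine ⟨⟨?_, ?_⟩, ⟨?_, ?_⟩, ?_, ?_, ?_, ?_⟩ <;> clear h2 <;> omega),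
            fun hh => absurd hh.2.2 (by decide)⟩
        · have hq : (X + Y) % 4 = 1 ∨ (X + Y) % 4 = 3 := by clear h2; omega
          rcases hq with hq | hq
          · exact ⟨X, Y, true, Or.inl ⟨rfl, Or.inl ⟨rfl, rfl⟩⟩, (ld_linT _ _ _).2 (by refine ⟨⟨?_, ?_⟩, ⟨?_, ?_⟩, ?_, ?_, ?_, ?_⟩ <;> clear h2 <;> omega),
              fun hh => absurd hh.2.2 (by decide)⟩
          · exact ⟨X, Y + 1, true, Or.inl ⟨rfl, Or.inr (Or.inr (Or.inl ⟨rfl, hsY.symm⟩))⟩, (ld_linT _ _ _).2 (by refine ⟨⟨?_, ?_⟩, ⟨?_, ?_⟩, ?_, ?_, ?_, ?_⟩ <;> clear h2 <;> omega),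
              fun hh => absurd hh.2.2 (by decide)⟩

theorem ldF11 {X Y : ℤ} (hX : X % 2 = 1) (hY : Y % 2 = 1) (h : 2 ≤ Lam X Y false) :
    ∃ X' Y' e', Mv X Y false X' Y' e' ∧ Lam X' Y' e' ≤ Lam X Y false - 1 ∧
      ¬ (X' = 0 ∧ Y' = -1 ∧ e' = false) := by
  have h2 : ¬ (Lam X Y false ≤ 1) := by omega
  rw [ld_linF] at h2
  have hL := (ld_linF X Y (Lam X Y false)).1 le_rfl
  generalize Lam X Y false = L at *
  obtain ⟨⟨a1, a2⟩, ⟨a3, a4⟩, a5, a6, a7, a8⟩ := hL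
  have hsX : sP X = X - 1 := if_neg (by omega)
  have htX : tP X = X + 1 := if_neg (by omega)
  have hsY : sP Y = Y - 1 := if_neg (by omega)
  have htY : tP Y = Y + 1 := if_neg (by omega)
  rcases le_or_gt 0 X with sX | sX
  · rcases le_or_gt 0 Y with sY | sY
    · rcases lt_or_ge (3 * Y) X with r | r
      · exact ⟨X - 1, Y, true, Or.inl ⟨rfl, Or.inr (Or.inl ⟨hsX.symm, rfl⟩)⟩, (ld_linT _ _ _).2 (by refine ⟨⟨?_, ?_⟩, ⟨?_, ?_⟩, ?_, ?_, ?_, ?_⟩ <;> clear h2 <;> omega),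
          fun hh => absurd hh.2.2 (by decide)⟩
      · rcases lt_or_ge (3 * X) Y with r' | r'
        · exact ⟨X, Y - 1, true, Or.inl ⟨rfl, Or.inr (Or.inr (Or.inl ⟨rfl, hsY.symm⟩))⟩, (ld_linT _ _ _).2 (by refine ⟨⟨?_, ?_⟩, ⟨?_, ?_⟩, ?_, ?_, ?_, ?_⟩ <;> clear h2 <;> omega),
            fun hh => absurd hh.2.2 (by decide)⟩
        · have hq : (X + Y) % 4 = 0 ∨ (X + Y) % 4 = 2 := by clear h2; omega
          rcases hq with hq | hq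
          · rcases le_or_gt Y X with r3 | r3
            · exact ⟨X - 1, Y, true, Or.inl ⟨rfl, Or.inr (Or.inl ⟨hsX.symm, rfl⟩)⟩, (ld_linT _ _ _).2 (by refine ⟨⟨?_, ?_⟩, ⟨?_, ?_⟩, ?_, ?_, ?_, ?_⟩ <;> clear h2 <;> omega),
                fun hh => absurd hh.2.2 (by decide)⟩
            · exact ⟨X, Y - 1, false, Or.inr ⟨rfl, Or.inr (Or.inl ⟨rfl, hsY.symm⟩)⟩, (ld_linF _ _ _).2 (by refine ⟨⟨?_, ?_⟩, ⟨?_, ?_⟩, ?_, ?_, ?_, ?_⟩ <;> clear h2 <;> omega),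
                fun hh => by have k1 := hh.1; have k2 := hh.2.1; omega⟩
          · exact ⟨X - 1, Y, true, Or.inl ⟨rfl, Or.inr (Or.inl ⟨hsX.symm, rfl⟩)⟩, (ld_linT _ _ _).2 (by refine ⟨⟨?_, ?_⟩, ⟨?_, ?_⟩, ?_, ?_, ?_, ?_⟩ <;> clear h2 <;> omega),
              fun hh => absurd hh.2.2 (by decide)⟩
    · rcases lt_or_ge (3 * (-Y)) X with r | r
      · exact ⟨X - 1, Y, true, Or.inl ⟨rfl, Or.inr (Or.inl ⟨hsX.symm, rfl⟩)⟩, (ld_linT _ _ _).2 (by refine ⟨⟨?_, ?_⟩, ⟨?_, ?_⟩, ?_, ?_, ?_, ?_⟩ <;> clear h2 <;> omega),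
          fun hh => absurd hh.2.2 (by decide)⟩
      · rcases lt_or_ge (3 * X) (-Y) with r' | r'
        · exact ⟨X, Y + 1, true, Or.inl ⟨rfl, Or.inr (Or.inr (Or.inr (Or.inr ⟨rfl, htY.symm⟩)))⟩, (ld_linT _ _ _).2 (by refine ⟨⟨?_, ?_⟩, ⟨?_, ?_⟩, ?_, ?_, ?_, ?_⟩ <;> clear h2 <;> omega),
            fun hh => absurd hh.2.2 (by decide)⟩
        · have hq : (X + Y) % 4 = 0 ∨ (X + Y) % 4 = 2 := by clear h2; omega
          rcases hq with hq | hq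
          · exact ⟨X - 1, Y + 1, false, Or.inr ⟨rfl, Or.inr (Or.inr (Or.inr (Or.inl ⟨rfl, hsX.symm, htY.symm⟩)))⟩, (ld_linF _ _ _).2 (by refine ⟨⟨?_, ?_⟩, ⟨?_, ?_⟩, ?_, ?_, ?_, ?_⟩ <;> clear h2 <;> omega),
              fun hh => by have k1 := hh.1; have k2 := hh.2.1; omega⟩
          · exact ⟨X - 1, Y + 1, false, Or.inr ⟨rfl, Or.inr (Or.inr (Or.inr (Or.inl ⟨rfl, hsX.symm, htY.symm⟩)))⟩, (ld_linF _ _ _).2 (by refine ⟨⟨?_, ?_⟩, ⟨?_, ?_⟩, ?_, ?_, ?_, ?_⟩ <;> clear h2 <;> omega),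
              fun hh => by have k1 := hh.1; have k2 := hh.2.1; omega⟩
  · rcases le_or_gt 0 Y with sY | sY
    · rcases lt_or_ge (3 * Y) (-X) with r | r
      · exact ⟨X + 1, Y, true, Or.inl ⟨rfl, Or.inr (Or.inr (Or.inr (Or.inl ⟨htX.symm, rfl⟩)))⟩, (ld_linT _ _ _).2 (by refine ⟨⟨?_, ?_⟩, ⟨?_, ?_⟩, ?_, ?_, ?_, ?_⟩ <;> clear h2 <;> omega),
          fun hh => absurd hh.2.2 (by decide)⟩
      · rcases lt_or_ge (3 * (-X)) Y with r' | r'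
        · exact ⟨X, Y - 1, true, Or.inl ⟨rfl, Or.inr (Or.inr (Or.inl ⟨rfl, hsY.symm⟩))⟩, (ld_linT _ _ _).2 (by refine ⟨⟨?_, ?_⟩, ⟨?_, ?_⟩, ?_, ?_, ?_, ?_⟩ <;> clear h2 <;> omega),
            fun hh => absurd hh.2.2 (by decide)⟩
        · have hq : (X + Y) % 4 = 0 ∨ (X + Y) % 4 = 2 := by clear h2; omega
          rcases hq with hq | hq
          · exact ⟨X, Y - 1, true, Or.inl ⟨rfl, Or.inr (Or.inr (Or.inl ⟨rfl, hsY.symm⟩))⟩, (ld_linT _ _ _).2 (by refine ⟨⟨?_, ?_⟩, ⟨?_, ?_⟩, ?_, ?_, ?_, ?_⟩ <;> clear h2 <;> omega),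
              fun hh => absurd hh.2.2 (by decide)⟩
          · exact ⟨X, Y, true, Or.inl ⟨rfl, Or.inl ⟨rfl, rfl⟩⟩, (ld_linT _ _ _).2 (by refine ⟨⟨?_, ?_⟩, ⟨?_, ?_⟩, ?_, ?_, ?_, ?_⟩ <;> clear h2 <;> omega),
              fun hh => absurd hh.2.2 (by decide)⟩
    · rcases lt_or_ge (3 * (-Y)) (-X) with r | r
      · exact ⟨X + 1, Y, true, Or.inl ⟨rfl, Or.inr (Or.inr (Or.inr (Or.inl ⟨htX.symm, rfl⟩)))⟩, (ld_linT _ _ _).2 (by refine ⟨⟨?_, ?_⟩, ⟨?_, ?_⟩, ?_, ?_, ?_, ?_⟩ <;> clear h2 <;> omega),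
          fun hh => absurd hh.2.2 (by decide)⟩
      · rcases lt_or_ge (3 * (-X)) (-Y) with r' | r'
        · exact ⟨X, Y + 1, true, Or.inl ⟨rfl, Or.inr (Or.inr (Or.inr (Or.inr ⟨rfl, htY.symm⟩)))⟩, (ld_linT _ _ _).2 (by refine ⟨⟨?_, ?_⟩, ⟨?_, ?_⟩, ?_, ?_, ?_, ?_⟩ <;> clear h2 <;> omega),
            fun hh => absurd hh.2.2 (by decide)⟩
        · have hq : (X + Y) % 4 = 0 ∨ (X + Y) % 4 = 2 := by clear h2; omega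
          rcases hq with hq | hq
          · rcases le_or_gt (-Y) (-X) with r3 | r3
            · exact ⟨X + 1, Y, false, Or.inr ⟨rfl, Or.inr (Or.inr (Or.inl ⟨rfl, htX.symm, rfl⟩))⟩, (ld_linF _ _ _).2 (by refine ⟨⟨?_, ?_⟩, ⟨?_, ?_⟩, ?_, ?_, ?_, ?_⟩ <;> clear h2 <;> omega),
                fun hh => by have k1 := hh.1; have k2 := hh.2.1; omega⟩
            · exact ⟨X, Y + 1, true, Or.inl ⟨rfl, Or.inr (Or.inr (Or.inr (Or.inr ⟨rfl, htY.symm⟩)))⟩, (ld_linT _ _ _).2 (by refine ⟨⟨?_, ?_⟩, ⟨?_, ?_⟩, ?_, ?_, ?_, ?_⟩ <;> clear h2 <;> omega),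
                fun hh => absurd hh.2.2 (by decide)⟩
          · exact ⟨X + 1, Y, true, Or.inl ⟨rfl, Or.inr (Or.inr (Or.inr (Or.inl ⟨htX.symm, rfl⟩)))⟩, (ld_linT _ _ _).2 (by refine ⟨⟨?_, ?_⟩, ⟨?_, ?_⟩, ?_, ?_, ?_, ?_⟩ <;> clear h2 <;> omega),
              fun hh => absurd hh.2.2 (by decide)⟩

theorem ldT00 {X Y : ℤ} (hX : X % 2 = 0) (hY : Y % 2 = 0) (h : 2 ≤ Lam X Y true) :
    ∃ X' Y' e', Mv X Y true X' Y' e' ∧ Lam X' Y' e' ≤ Lam X Y true - 1 ∧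
      ¬ (X' = 0 ∧ Y' = -1 ∧ e' = false) := by
  have h2 : ¬ (Lam X Y true ≤ 1) := by omega
  rw [ld_linT] at h2
  have hL := (ld_linT X Y (Lam X Y true)).1 le_rfl
  generalize Lam X Y true = L at *
  obtain ⟨⟨a1, a2⟩, ⟨a3, a4⟩, a5, a6, a7, a8⟩ := hL
  have hsX : sP X = X + 1 := if_pos hX
  have htX : tP X = X - 1 := if_pos hX
  have hsY : sP Y = Y + 1 := if_pos hY
  have htY : tP Y = Y - 1 := if_pos hY
  rcases le_or_gt 0 X with sX | sX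
  · rcases le_or_gt 0 Y with sY | sY
    · rcases lt_or_ge (3 * Y) X with r | r
      · exact ⟨X - 1, Y, false, Or.inl ⟨rfl, Or.inr (Or.inr (Or.inr (Or.inl ⟨htX.symm, rfl⟩)))⟩, (ld_linF _ _ _).2 (by refine ⟨⟨?_, ?_⟩, ⟨?_, ?_⟩, ?_, ?_, ?_, ?_⟩ <;> clear h2 <;> omega),
          fun hh => by have k1 := hh.1; have k2 := hh.2.1; omega⟩
      · rcases lt_or_ge (3 * X) Y with r' | r'
        · exact ⟨X, Y - 1, true, Or.inr ⟨rfl, Or.inr (Or.inr (Or.inr (Or.inr (Or.inl ⟨rfl, rfl, htY.symm⟩))))⟩, (ld_linT _ _ _).2 (by refine ⟨⟨?_, ?_⟩, ⟨?_, ?_⟩, ?_, ?_, ?_, ?_⟩ <;> clear h2 <;> omega),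
            fun hh => absurd hh.2.2 (by decide)⟩
        · have hq : (X + Y) % 4 = 0 ∨ (X + Y) % 4 = 2 := by clear h2; omega
          rcases hq with hq | hq
          · rcases le_or_gt Y X with r3 | r3
            · exact ⟨X - 1, Y, false, Or.inl ⟨rfl, Or.inr (Or.inr (Or.inr (Or.inl ⟨htX.symm, rfl⟩)))⟩, (ld_linF _ _ _).2 (by refine ⟨⟨?_, ?_⟩, ⟨?_, ?_⟩, ?_, ?_, ?_, ?_⟩ <;> clear h2 <;> omega),
                fun hh => by have k1 := hh.1; have k2 := hh.2.1; omega⟩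
            · exact ⟨X, Y - 1, true, Or.inr ⟨rfl, Or.inr (Or.inr (Or.inr (Or.inr (Or.inl ⟨rfl, rfl, htY.symm⟩))))⟩, (ld_linT _ _ _).2 (by refine ⟨⟨?_, ?_⟩, ⟨?_, ?_⟩, ?_, ?_, ?_, ?_⟩ <;> clear h2 <;> omega),
                fun hh => absurd hh.2.2 (by decide)⟩
          · exact ⟨X, Y - 1, true, Or.inr ⟨rfl, Or.inr (Or.inr (Or.inr (Or.inr (Or.inl ⟨rfl, rfl, htY.symm⟩))))⟩, (ld_linT _ _ _).2 (by refine ⟨⟨?_, ?_⟩, ⟨?_, ?_⟩, ?_, ?_, ?_, ?_⟩ <;> clear h2 <;> omega),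
              fun hh => absurd hh.2.2 (by decide)⟩
    · rcases lt_or_ge (3 * (-Y)) X with r | r
      · exact ⟨X - 1, Y + 1, true, Or.inr ⟨rfl, Or.inr (Or.inr (Or.inr (Or.inr (Or.inr ⟨rfl, htX.symm, hsY.symm⟩))))⟩, (ld_linT _ _ _).2 (by refine ⟨⟨?_, ?_⟩, ⟨?_, ?_⟩, ?_, ?_, ?_, ?_⟩ <;> clear h2 <;> omega),
          fun hh => absurd hh.2.2 (by decide)⟩
      · rcases lt_or_ge (3 * X) (-Y) with r' | r'
        · exact ⟨X, Y + 1, true, Or.inr ⟨rfl, Or.inr (Or.inl ⟨rfl, hsY.symm⟩)⟩, (ld_linT _ _ _).2 (by refine ⟨⟨?_, ?_⟩, ⟨?_, ?_⟩, ?_, ?_, ?_, ?_⟩ <;> clear h2 <;> omega),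
            fun hh => absurd hh.2.2 (by decide)⟩
        · have hq : (X + Y) % 4 = 0 ∨ (X + Y) % 4 = 2 := by clear h2; omega
          rcases hq with hq | hq
          · exact ⟨X - 1, Y + 1, true, Or.inr ⟨rfl, Or.inr (Or.inr (Or.inr (Or.inr (Or.inr ⟨rfl, htX.symm, hsY.symm⟩))))⟩, (ld_linT _ _ _).2 (by refine ⟨⟨?_, ?_⟩, ⟨?_, ?_⟩, ?_, ?_, ?_, ?_⟩ <;> clear h2 <;> omega),
              fun hh => absurd hh.2.2 (by decide)⟩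
          · exact ⟨X - 1, Y + 1, true, Or.inr ⟨rfl, Or.inr (Or.inr (Or.inr (Or.inr (Or.inr ⟨rfl, htX.symm, hsY.symm⟩))))⟩, (ld_linT _ _ _).2 (by refine ⟨⟨?_, ?_⟩, ⟨?_, ?_⟩, ?_, ?_, ?_, ?_⟩ <;> clear h2 <;> omega),
              fun hh => absurd hh.2.2 (by decide)⟩
  · rcases le_or_gt 0 Y with sY | sY
    · rcases lt_or_ge (3 * Y) (-X) with r | r
      · exact ⟨X + 1, Y, true, Or.inr ⟨rfl, Or.inl ⟨hsX.symm, rfl⟩⟩, (ld_linT _ _ _).2 (by refine ⟨⟨?_, ?_⟩, ⟨?_, ?_⟩, ?_, ?_, ?_, ?_⟩ <;> clear h2 <;> omega),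
          fun hh => absurd hh.2.2 (by decide)⟩
      · rcases lt_or_ge (3 * (-X)) Y with r' | r'
        · exact ⟨X, Y - 1, true, Or.inr ⟨rfl, Or.inr (Or.inr (Or.inr (Or.inr (Or.inl ⟨rfl, rfl, htY.symm⟩))))⟩, (ld_linT _ _ _).2 (by refine ⟨⟨?_, ?_⟩, ⟨?_, ?_⟩, ?_, ?_, ?_, ?_⟩ <;> clear h2 <;> omega),
            fun hh => absurd hh.2.2 (by decide)⟩
        · have hq : (X + Y) % 4 = 0 ∨ (X + Y) % 4 = 2 := by clear h2; omega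
          rcases hq with hq | hq
          · exact ⟨X + 1, Y, true, Or.inr ⟨rfl, Or.inl ⟨hsX.symm, rfl⟩⟩, (ld_linT _ _ _).2 (by refine ⟨⟨?_, ?_⟩, ⟨?_, ?_⟩, ?_, ?_, ?_, ?_⟩ <;> clear h2 <;> omega),
              fun hh => absurd hh.2.2 (by decide)⟩
          · exact ⟨X + 1, Y, true, Or.inr ⟨rfl, Or.inl ⟨hsX.symm, rfl⟩⟩, (ld_linT _ _ _).2 (by refine ⟨⟨?_, ?_⟩, ⟨?_, ?_⟩, ?_, ?_, ?_, ?_⟩ <;> clear h2 <;> omega),
              fun hh => absurd hh.2.2 (by decide)⟩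
    · rcases lt_or_ge (3 * (-Y)) (-X) with r | r
      · exact ⟨X + 1, Y, true, Or.inr ⟨rfl, Or.inl ⟨hsX.symm, rfl⟩⟩, (ld_linT _ _ _).2 (by refine ⟨⟨?_, ?_⟩, ⟨?_, ?_⟩, ?_, ?_, ?_, ?_⟩ <;> clear h2 <;> omega),
          fun hh => absurd hh.2.2 (by decide)⟩
      · rcases lt_or_ge (3 * (-X)) (-Y) with r' | r'
        · exact ⟨X, Y + 1, true, Or.inr ⟨rfl, Or.inr (Or.inl ⟨rfl, hsY.symm⟩)⟩, (ld_linT _ _ _).2 (by refine ⟨⟨?_, ?_⟩, ⟨?_, ?_⟩, ?_, ?_, ?_, ?_⟩ <;> clear h2 <;> omega),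
            fun hh => absurd hh.2.2 (by decide)⟩
        · have hq : (X + Y) % 4 = 0 ∨ (X + Y) % 4 = 2 := by clear h2; omega
          rcases hq with hq | hq
          · rcases le_or_gt (-Y) (-X) with r3 | r3
            · exact ⟨X + 1, Y, true, Or.inr ⟨rfl, Or.inl ⟨hsX.symm, rfl⟩⟩, (ld_linT _ _ _).2 (by refine ⟨⟨?_, ?_⟩, ⟨?_, ?_⟩, ?_, ?_, ?_, ?_⟩ <;> clear h2 <;> omega),
                fun hh => absurd hh.2.2 (by decide)⟩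
            · exact ⟨X, Y + 1, false, Or.inl ⟨rfl, Or.inr (Or.inr (Or.inl ⟨rfl, hsY.symm⟩))⟩, (ld_linF _ _ _).2 (by refine ⟨⟨?_, ?_⟩, ⟨?_, ?_⟩, ?_, ?_, ?_, ?_⟩ <;> clear h2 <;> omega),
                fun hh => by have k1 := hh.1; have k2 := hh.2.1; omega⟩
          · exact ⟨X + 1, Y, true, Or.inr ⟨rfl, Or.inl ⟨hsX.symm, rfl⟩⟩, (ld_linT _ _ _).2 (by refine ⟨⟨?_, ?_⟩, ⟨?_, ?_⟩, ?_, ?_, ?_, ?_⟩ <;> clear h2 <;> omega),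
              fun hh => absurd hh.2.2 (by decide)⟩

theorem ldT01 {X Y : ℤ} (hX : X % 2 = 0) (hY : Y % 2 = 1) (h : 2 ≤ Lam X Y true) :
    ∃ X' Y' e', Mv X Y true X' Y' e' ∧ Lam X' Y' e' ≤ Lam X Y true - 1 ∧
      ¬ (X' = 0 ∧ Y' = -1 ∧ e' = false) := by
  have h2 : ¬ (Lam X Y true ≤ 1) := by omega
  rw [ld_linT] at h2
  have hL := (ld_linT X Y (Lam X Y true)).1 le_rfl
  generalize Lam X Y true = L at *
  obtain ⟨⟨a1, a2⟩, ⟨a3, a4⟩, a5, a6, a7, a8⟩ := hL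
  have hsX : sP X = X + 1 := if_pos hX
  have htX : tP X = X - 1 := if_pos hX
  have hsY : sP Y = Y - 1 := if_neg (by omega)
  have htY : tP Y = Y + 1 := if_neg (by omega)
  rcases le_or_gt 0 X with sX | sX
  · rcases le_or_gt 0 Y with sY | sY
    · rcases lt_or_ge (3 * Y) X with r | r
      · exact ⟨X - 1, Y - 1, true, Or.inr ⟨rfl, Or.inr (Or.inr (Or.inr (Or.inr (Or.inr ⟨rfl, htX.symm, hsY.symm⟩))))⟩, (ld_linT _ _ _).2 (by refine ⟨⟨?_, ?_⟩, ⟨?_, ?_⟩, ?_, ?_, ?_, ?_⟩ <;> clear h2 <;> omega),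
          fun hh => absurd hh.2.2 (by decide)⟩
      · rcases lt_or_ge (3 * X) Y with r' | r'
        · exact ⟨X, Y - 1, true, Or.inr ⟨rfl, Or.inr (Or.inl ⟨rfl, hsY.symm⟩)⟩, (ld_linT _ _ _).2 (by refine ⟨⟨?_, ?_⟩, ⟨?_, ?_⟩, ?_, ?_, ?_, ?_⟩ <;> clear h2 <;> omega),
            fun hh => absurd hh.2.2 (by decide)⟩
        · have hq : (X + Y) % 4 = 1 ∨ (X + Y) % 4 = 3 := by clear h2; omega
          rcases hq with hq | hq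
          · exact ⟨X, Y - 1, true, Or.inr ⟨rfl, Or.inr (Or.inl ⟨rfl, hsY.symm⟩)⟩, (ld_linT _ _ _).2 (by refine ⟨⟨?_, ?_⟩, ⟨?_, ?_⟩, ?_, ?_, ?_, ?_⟩ <;> clear h2 <;> omega),
              fun hh => absurd hh.2.2 (by decide)⟩
          · exact ⟨X - 1, Y - 1, true, Or.inr ⟨rfl, Or.inr (Or.inr (Or.inr (Or.inr (Or.inr ⟨rfl, htX.symm, hsY.symm⟩))))⟩, (ld_linT _ _ _).2 (by refine ⟨⟨?_, ?_⟩, ⟨?_, ?_⟩, ?_, ?_, ?_, ?_⟩ <;> clear h2 <;> omega),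
              fun hh => absurd hh.2.2 (by decide)⟩
    · rcases lt_or_ge (3 * (-Y)) X with r | r
      · exact ⟨X - 1, Y, false, Or.inl ⟨rfl, Or.inr (Or.inr (Or.inr (Or.inl ⟨htX.symm, rfl⟩)))⟩, (ld_linF _ _ _).2 (by refine ⟨⟨?_, ?_⟩, ⟨?_, ?_⟩, ?_, ?_, ?_, ?_⟩ <;> clear h2 <;> omega),
          fun hh => by have k1 := hh.1; have k2 := hh.2.1; omega⟩
      · rcases lt_or_ge (3 * X) (-Y) with r' | r'
        · exact ⟨X, Y + 1, true, Or.inr ⟨rfl, Or.inr (Or.inr (Or.inr (Or.inr (Or.inl ⟨rfl, rfl, htY.symm⟩))))⟩, (ld_linT _ _ _).2 (by refine ⟨⟨?_, ?_⟩, ⟨?_, ?_⟩, ?_, ?_, ?_, ?_⟩ <;> clear h2 <;> omega),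
            fun hh => absurd hh.2.2 (by decide)⟩
        · have hq : (X + Y) % 4 = 1 ∨ (X + Y) % 4 = 3 := by clear h2; omega
          rcases hq with hq | hq
          · rcases le_or_gt (-Y) X with r3 | r3
            · exact ⟨X - 1, Y, false, Or.inl ⟨rfl, Or.inr (Or.inr (Or.inr (Or.inl ⟨htX.symm, rfl⟩)))⟩, (ld_linF _ _ _).2 (by refine ⟨⟨?_, ?_⟩, ⟨?_, ?_⟩, ?_, ?_, ?_, ?_⟩ <;> clear h2 <;> omega),
                fun hh => by have k1 := hh.1; have k2 := hh.2.1; omega⟩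
            · exact ⟨X, Y + 1, true, Or.inr ⟨rfl, Or.inr (Or.inr (Or.inr (Or.inr (Or.inl ⟨rfl, rfl, htY.symm⟩))))⟩, (ld_linT _ _ _).2 (by refine ⟨⟨?_, ?_⟩, ⟨?_, ?_⟩, ?_, ?_, ?_, ?_⟩ <;> clear h2 <;> omega),
                fun hh => absurd hh.2.2 (by decide)⟩
          · exact ⟨X, Y + 1, true, Or.inr ⟨rfl, Or.inr (Or.inr (Or.inr (Or.inr (Or.inl ⟨rfl, rfl, htY.symm⟩))))⟩, (ld_linT _ _ _).2 (by refine ⟨⟨?_, ?_⟩, ⟨?_, ?_⟩, ?_, ?_, ?_, ?_⟩ <;> clear h2 <;> omega),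
              fun hh => absurd hh.2.2 (by decide)⟩
  · rcases le_or_gt 0 Y with sY | sY
    · rcases lt_or_ge (3 * Y) (-X) with r | r
      · exact ⟨X + 1, Y, true, Or.inr ⟨rfl, Or.inl ⟨hsX.symm, rfl⟩⟩, (ld_linT _ _ _).2 (by refine ⟨⟨?_, ?_⟩, ⟨?_, ?_⟩, ?_, ?_, ?_, ?_⟩ <;> clear h2 <;> omega),
          fun hh => absurd hh.2.2 (by decide)⟩
      · rcases lt_or_ge (3 * (-X)) Y with r' | r'
        · exact ⟨X, Y - 1, false, Or.inl ⟨rfl, Or.inr (Or.inr (Or.inl ⟨rfl, hsY.symm⟩))⟩, (ld_linF _ _ _).2 (by refine ⟨⟨?_, ?_⟩, ⟨?_, ?_⟩, ?_, ?_, ?_, ?_⟩ <;> clear h2 <;> omega),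
            fun hh => by have k1 := hh.1; have k2 := hh.2.1; omega⟩
        · have hq : (X + Y) % 4 = 1 ∨ (X + Y) % 4 = 3 := by clear h2; omega
          rcases hq with hq | hq
          · exact ⟨X + 1, Y, true, Or.inr ⟨rfl, Or.inl ⟨hsX.symm, rfl⟩⟩, (ld_linT _ _ _).2 (by refine ⟨⟨?_, ?_⟩, ⟨?_, ?_⟩, ?_, ?_, ?_, ?_⟩ <;> clear h2 <;> omega),
              fun hh => absurd hh.2.2 (by decide)⟩
          · exact ⟨X + 1, Y, true, Or.inr ⟨rfl, Or.inl ⟨hsX.symm, rfl⟩⟩, (ld_linT _ _ _).2 (by refine ⟨⟨?_, ?_⟩, ⟨?_, ?_⟩, ?_, ?_, ?_, ?_⟩ <;> clear h2 <;> omega),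
              fun hh => absurd hh.2.2 (by decide)⟩
    · rcases lt_or_ge (3 * (-Y)) (-X) with r | r
      · exact ⟨X + 1, Y, true, Or.inr ⟨rfl, Or.inl ⟨hsX.symm, rfl⟩⟩, (ld_linT _ _ _).2 (by refine ⟨⟨?_, ?_⟩, ⟨?_, ?_⟩, ?_, ?_, ?_, ?_⟩ <;> clear h2 <;> omega),
          fun hh => absurd hh.2.2 (by decide)⟩
      · rcases lt_or_ge (3 * (-X)) (-Y) with r' | r'
        · exact ⟨X, Y + 1, true, Or.inr ⟨rfl, Or.inr (Or.inr (Or.inr (Or.inr (Or.inl ⟨rfl, rfl, htY.symm⟩))))⟩, (ld_linT _ _ _).2 (by refine ⟨⟨?_, ?_⟩, ⟨?_, ?_⟩, ?_, ?_, ?_, ?_⟩ <;> clear h2 <;> omega),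
            fun hh => absurd hh.2.2 (by decide)⟩
        · have hq : (X + Y) % 4 = 1 ∨ (X + Y) % 4 = 3 := by clear h2; omega
          rcases hq with hq | hq
          · exact ⟨X + 1, Y, true, Or.inr ⟨rfl, Or.inl ⟨hsX.symm, rfl⟩⟩, (ld_linT _ _ _).2 (by refine ⟨⟨?_, ?_⟩, ⟨?_, ?_⟩, ?_, ?_, ?_, ?_⟩ <;> clear h2 <;> omega),
              fun hh => absurd hh.2.2 (by decide)⟩
          · exact ⟨X + 1, Y, true, Or.inr ⟨rfl, Or.inl ⟨hsX.symm, rfl⟩⟩, (ld_linT _ _ _).2 (by refine ⟨⟨?_, ?_⟩, ⟨?_, ?_⟩, ?_, ?_, ?_, ?_⟩ <;> clear h2 <;> omega),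
              fun hh => absurd hh.2.2 (by decide)⟩

theorem ldT10 {X Y : ℤ} (hX : X % 2 = 1) (hY : Y % 2 = 0) (h : 2 ≤ Lam X Y true) :
    ∃ X' Y' e', Mv X Y true X' Y' e' ∧ Lam X' Y' e' ≤ Lam X Y true - 1 ∧
      ¬ (X' = 0 ∧ Y' = -1 ∧ e' = false) := by
  have h2 : ¬ (Lam X Y true ≤ 1) := by omega
  rw [ld_linT] at h2
  have hL := (ld_linT X Y (Lam X Y true)).1 le_rfl
  generalize Lam X Y true = L at *
  obtain ⟨⟨a1, a2⟩, ⟨a3, a4⟩, a5, a6, a7, a8⟩ := hL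
  have hsX : sP X = X - 1 := if_neg (by omega)
  have htX : tP X = X + 1 := if_neg (by omega)
  have hsY : sP Y = Y + 1 := if_pos hY
  have htY : tP Y = Y - 1 := if_pos hY
  rcases le_or_gt 0 X with sX | sX
  · rcases le_or_gt 0 Y with sY | sY
    · rcases lt_or_ge (3 * Y) X with r | r
      · exact ⟨X - 1, Y, true, Or.inr ⟨rfl, Or.inl ⟨hsX.symm, rfl⟩⟩, (ld_linT _ _ _).2 (by refine ⟨⟨?_, ?_⟩, ⟨?_, ?_⟩, ?_, ?_, ?_, ?_⟩ <;> clear h2 <;> omega),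
          fun hh => absurd hh.2.2 (by decide)⟩
      · rcases lt_or_ge (3 * X) Y with r' | r'
        · exact ⟨X, Y - 1, true, Or.inr ⟨rfl, Or.inr (Or.inr (Or.inr (Or.inr (Or.inl ⟨rfl, rfl, htY.symm⟩))))⟩, (ld_linT _ _ _).2 (by refine ⟨⟨?_, ?_⟩, ⟨?_, ?_⟩, ?_, ?_, ?_, ?_⟩ <;> clear h2 <;> omega),
            fun hh => absurd hh.2.2 (by decide)⟩
        · have hq : (X + Y) % 4 = 1 ∨ (X + Y) % 4 = 3 := by clear h2; omega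
          rcases hq with hq | hq
          · exact ⟨X - 1, Y, true, Or.inr ⟨rfl, Or.inl ⟨hsX.symm, rfl⟩⟩, (ld_linT _ _ _).2 (by refine ⟨⟨?_, ?_⟩, ⟨?_, ?_⟩, ?_, ?_, ?_, ?_⟩ <;> clear h2 <;> omega),
              fun hh => absurd hh.2.2 (by decide)⟩
          · exact ⟨X - 1, Y, true, Or.inr ⟨rfl, Or.inl ⟨hsX.symm, rfl⟩⟩, (ld_linT _ _ _).2 (by refine ⟨⟨?_, ?_⟩, ⟨?_, ?_⟩, ?_, ?_, ?_, ?_⟩ <;> clear h2 <;> omega),
              fun hh => absurd hh.2.2 (by decide)⟩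
    · rcases lt_or_ge (3 * (-Y)) X with r | r
      · exact ⟨X - 1, Y, true, Or.inr ⟨rfl, Or.inl ⟨hsX.symm, rfl⟩⟩, (ld_linT _ _ _).2 (by refine ⟨⟨?_, ?_⟩, ⟨?_, ?_⟩, ?_, ?_, ?_, ?_⟩ <;> clear h2 <;> omega),
          fun hh => absurd hh.2.2 (by decide)⟩
      · rcases lt_or_ge (3 * X) (-Y) with r' | r'
        · exact ⟨X, Y + 1, true, Or.inr ⟨rfl, Or.inr (Or.inl ⟨rfl, hsY.symm⟩)⟩, (ld_linT _ _ _).2 (by refine ⟨⟨?_, ?_⟩, ⟨?_, ?_⟩, ?_, ?_, ?_, ?_⟩ <;> clear h2 <;> omega),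
            fun hh => absurd hh.2.2 (by decide)⟩
        · have hq : (X + Y) % 4 = 1 ∨ (X + Y) % 4 = 3 := by clear h2; omega
          rcases hq with hq | hq
          · exact ⟨X - 1, Y, true, Or.inr ⟨rfl, Or.inl ⟨hsX.symm, rfl⟩⟩, (ld_linT _ _ _).2 (by refine ⟨⟨?_, ?_⟩, ⟨?_, ?_⟩, ?_, ?_, ?_, ?_⟩ <;> clear h2 <;> omega),
              fun hh => absurd hh.2.2 (by decide)⟩
          · rcases le_or_gt (-Y) X with r3 | r3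
            · exact ⟨X - 1, Y, true, Or.inr ⟨rfl, Or.inl ⟨hsX.symm, rfl⟩⟩, (ld_linT _ _ _).2 (by refine ⟨⟨?_, ?_⟩, ⟨?_, ?_⟩, ?_, ?_, ?_, ?_⟩ <;> clear h2 <;> omega),
                fun hh => absurd hh.2.2 (by decide)⟩
            · exact ⟨X, Y + 1, false, Or.inl ⟨rfl, Or.inr (Or.inr (Or.inl ⟨rfl, hsY.symm⟩))⟩, (ld_linF _ _ _).2 (by refine ⟨⟨?_, ?_⟩, ⟨?_, ?_⟩, ?_, ?_, ?_, ?_⟩ <;> clear h2 <;> omega),
                fun hh => by have k1 := hh.1; have k2 := hh.2.1; omega⟩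
  · rcases le_or_gt 0 Y with sY | sY
    · rcases lt_or_ge (3 * Y) (-X) with r | r
      · exact ⟨X + 1, Y, false, Or.inl ⟨rfl, Or.inr (Or.inr (Or.inr (Or.inl ⟨htX.symm, rfl⟩)))⟩, (ld_linF _ _ _).2 (by refine ⟨⟨?_, ?_⟩, ⟨?_, ?_⟩, ?_, ?_, ?_, ?_⟩ <;> clear h2 <;> omega),
          fun hh => by have k1 := hh.1; have k2 := hh.2.1; omega⟩
      · rcases lt_or_ge (3 * (-X)) Y with r' | r'
        · exact ⟨X, Y - 1, true, Or.inr ⟨rfl, Or.inr (Or.inr (Or.inr (Or.inr (Or.inl ⟨rfl, rfl, htY.symm⟩))))⟩, (ld_linT _ _ _).2 (by refine ⟨⟨?_, ?_⟩, ⟨?_, ?_⟩, ?_, ?_, ?_, ?_⟩ <;> clear h2 <;> omega),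
            fun hh => absurd hh.2.2 (by decide)⟩
        · have hq : (X + Y) % 4 = 1 ∨ (X + Y) % 4 = 3 := by clear h2; omega
          rcases hq with hq | hq
          · exact ⟨X, Y - 1, true, Or.inr ⟨rfl, Or.inr (Or.inr (Or.inr (Or.inr (Or.inl ⟨rfl, rfl, htY.symm⟩))))⟩, (ld_linT _ _ _).2 (by refine ⟨⟨?_, ?_⟩, ⟨?_, ?_⟩, ?_, ?_, ?_, ?_⟩ <;> clear h2 <;> omega),
              fun hh => absurd hh.2.2 (by decide)⟩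
          · exact ⟨X, Y - 1, true, Or.inr ⟨rfl, Or.inr (Or.inr (Or.inr (Or.inr (Or.inl ⟨rfl, rfl, htY.symm⟩))))⟩, (ld_linT _ _ _).2 (by refine ⟨⟨?_, ?_⟩, ⟨?_, ?_⟩, ?_, ?_, ?_, ?_⟩ <;> clear h2 <;> omega),
              fun hh => absurd hh.2.2 (by decide)⟩
    · rcases lt_or_ge (3 * (-Y)) (-X) with r | r
      · exact ⟨X + 1, Y + 1, true, Or.inr ⟨rfl, Or.inr (Or.inr (Or.inr (Or.inr (Or.inr ⟨rfl, htX.symm, hsY.symm⟩))))⟩, (ld_linT _ _ _).2 (by refine ⟨⟨?_, ?_⟩, ⟨?_, ?_⟩, ?_, ?_, ?_, ?_⟩ <;> clear h2 <;> omega),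
          fun hh => absurd hh.2.2 (by decide)⟩
      · rcases lt_or_ge (3 * (-X)) (-Y) with r' | r'
        · exact ⟨X, Y + 1, true, Or.inr ⟨rfl, Or.inr (Or.inl ⟨rfl, hsY.symm⟩)⟩, (ld_linT _ _ _).2 (by refine ⟨⟨?_, ?_⟩, ⟨?_, ?_⟩, ?_, ?_, ?_, ?_⟩ <;> clear h2 <;> omega),
            fun hh => absurd hh.2.2 (by decide)⟩
        · have hq : (X + Y) % 4 = 1 ∨ (X + Y) % 4 = 3 := by clear h2; omega
          rcases hq with hq | hq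
          · exact ⟨X + 1, Y + 1, true, Or.inr ⟨rfl, Or.inr (Or.inr (Or.inr (Or.inr (Or.inr ⟨rfl, htX.symm, hsY.symm⟩))))⟩, (ld_linT _ _ _).2 (by refine ⟨⟨?_, ?_⟩, ⟨?_, ?_⟩, ?_, ?_, ?_, ?_⟩ <;> clear h2 <;> omega),
              fun hh => absurd hh.2.2 (by decide)⟩
          · exact ⟨X, Y + 1, true, Or.inr ⟨rfl, Or.inr (Or.inl ⟨rfl, hsY.symm⟩)⟩, (ld_linT _ _ _).2 (by refine ⟨⟨?_, ?_⟩, ⟨?_, ?_⟩, ?_, ?_, ?_, ?_⟩ <;> clear h2 <;> omega),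
              fun hh => absurd hh.2.2 (by decide)⟩

theorem ldT11 {X Y : ℤ} (hX : X % 2 = 1) (hY : Y % 2 = 1) (h : 2 ≤ Lam X Y true) :
    ∃ X' Y' e', Mv X Y true X' Y' e' ∧ Lam X' Y' e' ≤ Lam X Y true - 1 ∧
      ¬ (X' = 0 ∧ Y' = -1 ∧ e' = false) := by
  have h2 : ¬ (Lam X Y true ≤ 1) := by omega
  rw [ld_linT] at h2
  have hL := (ld_linT X Y (Lam X Y true)).1 le_rfl
  generalize Lam X Y true = L at *
  obtain ⟨⟨a1, a2⟩, ⟨a3, a4⟩, a5, a6, a7, a8⟩ := hL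
  have hsX : sP X = X - 1 := if_neg (by omega)
  have htX : tP X = X + 1 := if_neg (by omega)
  have hsY : sP Y = Y - 1 := if_neg (by omega)
  have htY : tP Y = Y + 1 := if_neg (by omega)
  rcases le_or_gt 0 X with sX | sX
  · rcases le_or_gt 0 Y with sY | sY
    · rcases lt_or_ge (3 * Y) X with r | r
      · exact ⟨X - 1, Y, true, Or.inr ⟨rfl, Or.inl ⟨hsX.symm, rfl⟩⟩, (ld_linT _ _ _).2 (by refine ⟨⟨?_, ?_⟩, ⟨?_, ?_⟩, ?_, ?_, ?_, ?_⟩ <;> clear h2 <;> omega),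
          fun hh => absurd hh.2.2 (by decide)⟩
      · rcases lt_or_ge (3 * X) Y with r' | r'
        · exact ⟨X, Y - 1, true, Or.inr ⟨rfl, Or.inr (Or.inl ⟨rfl, hsY.symm⟩)⟩, (ld_linT _ _ _).2 (by refine ⟨⟨?_, ?_⟩, ⟨?_, ?_⟩, ?_, ?_, ?_, ?_⟩ <;> clear h2 <;> omega),
            fun hh => absurd hh.2.2 (by decide)⟩
        · have hq : (X + Y) % 4 = 0 ∨ (X + Y) % 4 = 2 := by clear h2; omega
          rcases hq with hq | hq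
          · rcases le_or_gt Y X with r3 | r3
            · exact ⟨X - 1, Y, true, Or.inr ⟨rfl, Or.inl ⟨hsX.symm, rfl⟩⟩, (ld_linT _ _ _).2 (by refine ⟨⟨?_, ?_⟩, ⟨?_, ?_⟩, ?_, ?_, ?_, ?_⟩ <;> clear h2 <;> omega),
                fun hh => absurd hh.2.2 (by decide)⟩
            · exact ⟨X, Y - 1, false, Or.inl ⟨rfl, Or.inr (Or.inr (Or.inl ⟨rfl, hsY.symm⟩))⟩, (ld_linF _ _ _).2 (by refine ⟨⟨?_, ?_⟩, ⟨?_, ?_⟩, ?_, ?_, ?_, ?_⟩ <;> clear h2 <;> omega),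
                fun hh => by have k1 := hh.1; have k2 := hh.2.1; omega⟩
          · exact ⟨X - 1, Y, true, Or.inr ⟨rfl, Or.inl ⟨hsX.symm, rfl⟩⟩, (ld_linT _ _ _).2 (by refine ⟨⟨?_, ?_⟩, ⟨?_, ?_⟩, ?_, ?_, ?_, ?_⟩ <;> clear h2 <;> omega),
              fun hh => absurd hh.2.2 (by decide)⟩
    · rcases lt_or_ge (3 * (-Y)) X with r | r
      · exact ⟨X - 1, Y, true, Or.inr ⟨rfl, Or.inl ⟨hsX.symm, rfl⟩⟩, (ld_linT _ _ _).2 (by refine ⟨⟨?_, ?_⟩, ⟨?_, ?_⟩, ?_, ?_, ?_, ?_⟩ <;> clear h2 <;> omega),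
          fun hh => absurd hh.2.2 (by decide)⟩
      · rcases lt_or_ge (3 * X) (-Y) with r' | r'
        · exact ⟨X, Y + 1, true, Or.inr ⟨rfl, Or.inr (Or.inr (Or.inr (Or.inr (Or.inl ⟨rfl, rfl, htY.symm⟩))))⟩, (ld_linT _ _ _).2 (by refine ⟨⟨?_, ?_⟩, ⟨?_, ?_⟩, ?_, ?_, ?_, ?_⟩ <;> clear h2 <;> omega),
            fun hh => absurd hh.2.2 (by decide)⟩
        · have hq : (X + Y) % 4 = 0 ∨ (X + Y) % 4 = 2 := by clear h2; omega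
          rcases hq with hq | hq
          · exact ⟨X - 1, Y, true, Or.inr ⟨rfl, Or.inl ⟨hsX.symm, rfl⟩⟩, (ld_linT _ _ _).2 (by refine ⟨⟨?_, ?_⟩, ⟨?_, ?_⟩, ?_, ?_, ?_, ?_⟩ <;> clear h2 <;> omega),
              fun hh => absurd hh.2.2 (by decide)⟩
          · rcases le_or_gt (-Y) X with r3 | r3
            · exact ⟨X - 1, Y, true, Or.inr ⟨rfl, Or.inl ⟨hsX.symm, rfl⟩⟩, (ld_linT _ _ _).2 (by refine ⟨⟨?_, ?_⟩, ⟨?_, ?_⟩, ?_, ?_, ?_, ?_⟩ <;> clear h2 <;> omega),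
                fun hh => absurd hh.2.2 (by decide)⟩
            · exact ⟨X, Y + 1, true, Or.inr ⟨rfl, Or.inr (Or.inr (Or.inr (Or.inr (Or.inl ⟨rfl, rfl, htY.symm⟩))))⟩, (ld_linT _ _ _).2 (by refine ⟨⟨?_, ?_⟩, ⟨?_, ?_⟩, ?_, ?_, ?_, ?_⟩ <;> clear h2 <;> omega),
                fun hh => absurd hh.2.2 (by decide)⟩
  · rcases le_or_gt 0 Y with sY | sY
    · rcases lt_or_ge (3 * Y) (-X) with r | r
      · exact ⟨X + 1, Y - 1, true, Or.inr ⟨rfl, Or.inr (Or.inr (Or.inr (Or.inr (Or.inr ⟨rfl, htX.symm, hsY.symm⟩))))⟩, (ld_linT _ _ _).2 (by refine ⟨⟨?_, ?_⟩, ⟨?_, ?_⟩, ?_, ?_, ?_, ?_⟩ <;> clear h2 <;> omega),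
          fun hh => absurd hh.2.2 (by decide)⟩
      · rcases lt_or_ge (3 * (-X)) Y with r' | r'
        · exact ⟨X, Y - 1, true, Or.inr ⟨rfl, Or.inr (Or.inl ⟨rfl, hsY.symm⟩)⟩, (ld_linT _ _ _).2 (by refine ⟨⟨?_, ?_⟩, ⟨?_, ?_⟩, ?_, ?_, ?_, ?_⟩ <;> clear h2 <;> omega),
            fun hh => absurd hh.2.2 (by decide)⟩
        · have hq : (X + Y) % 4 = 0 ∨ (X + Y) % 4 = 2 := by clear h2; omega
          rcases hq with hq | hq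
          · exact ⟨X, Y - 1, true, Or.inr ⟨rfl, Or.inr (Or.inl ⟨rfl, hsY.symm⟩)⟩, (ld_linT _ _ _).2 (by refine ⟨⟨?_, ?_⟩, ⟨?_, ?_⟩, ?_, ?_, ?_, ?_⟩ <;> clear h2 <;> omega),
              fun hh => absurd hh.2.2 (by decide)⟩
          · exact ⟨X + 1, Y - 1, true, Or.inr ⟨rfl, Or.inr (Or.inr (Or.inr (Or.inr (Or.inr ⟨rfl, htX.symm, hsY.symm⟩))))⟩, (ld_linT _ _ _).2 (by refine ⟨⟨?_, ?_⟩, ⟨?_, ?_⟩, ?_, ?_, ?_, ?_⟩ <;> clear h2 <;> omega),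
              fun hh => absurd hh.2.2 (by decide)⟩
    · rcases lt_or_ge (3 * (-Y)) (-X) with r | r
      · exact ⟨X + 1, Y, false, Or.inl ⟨rfl, Or.inr (Or.inr (Or.inr (Or.inl ⟨htX.symm, rfl⟩)))⟩, (ld_linF _ _ _).2 (by refine ⟨⟨?_, ?_⟩, ⟨?_, ?_⟩, ?_, ?_, ?_, ?_⟩ <;> clear h2 <;> omega),
          fun hh => by have k1 := hh.1; have k2 := hh.2.1; omega⟩
      · rcases lt_or_ge (3 * (-X)) (-Y) with r' | r'
        · exact ⟨X, Y + 1, true, Or.inr ⟨rfl, Or.inr (Or.inr (Or.inr (Or.inr (Or.inl ⟨rfl, rfl, htY.symm⟩))))⟩, (ld_linT _ _ _).2 (by refine ⟨⟨?_, ?_⟩, ⟨?_, ?_⟩, ?_, ?_, ?_, ?_⟩ <;> clear h2 <;> omega),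
            fun hh => absurd hh.2.2 (by decide)⟩
        · have hq : (X + Y) % 4 = 0 ∨ (X + Y) % 4 = 2 := by clear h2; omega
          rcases hq with hq | hq
          · rcases le_or_gt (-Y) (-X) with r3 | r3
            · exact ⟨X + 1, Y, false, Or.inl ⟨rfl, Or.inr (Or.inr (Or.inr (Or.inl ⟨htX.symm, rfl⟩)))⟩, (ld_linF _ _ _).2 (by refine ⟨⟨?_, ?_⟩, ⟨?_, ?_⟩, ?_, ?_, ?_, ?_⟩ <;> clear h2 <;> omega),
                fun hh => by have k1 := hh.1; have k2 := hh.2.1; omega⟩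
            · exact ⟨X, Y + 1, true, Or.inr ⟨rfl, Or.inr (Or.inr (Or.inr (Or.inr (Or.inl ⟨rfl, rfl, htY.symm⟩))))⟩, (ld_linT _ _ _).2 (by refine ⟨⟨?_, ?_⟩, ⟨?_, ?_⟩, ?_, ?_, ?_, ?_⟩ <;> clear h2 <;> omega),
                fun hh => absurd hh.2.2 (by decide)⟩
          · exact ⟨X, Y + 1, true, Or.inr ⟨rfl, Or.inr (Or.inr (Or.inr (Or.inr (Or.inl ⟨rfl, rfl, htY.symm⟩))))⟩, (ld_linT _ _ _).2 (by refine ⟨⟨?_, ?_⟩, ⟨?_, ?_⟩, ?_, ?_, ?_, ?_⟩ <;> clear h2 <;> omega),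
              fun hh => absurd hh.2.2 (by decide)⟩

theorem lam_desc {X Y : ℤ} {e : Bool} (h : 2 ≤ Lam X Y e) :
    ∃ X' Y' e', Mv X Y e X' Y' e' ∧ Lam X' Y' e' ≤ Lam X Y e - 1 ∧
      ¬ (X' = 0 ∧ Y' = -1 ∧ e' = false) := by
  cases e
  · rcases Int.emod_two_eq_zero_or_one X with hX | hX <;>
      rcases Int.emod_two_eq_zero_or_one Y with hY | hY
    · exact ldF00 hX hY h
    · exact ldF01 hX hY h
    · exact ldF10 hX hY h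
    · exact ldF11 hX hY h
  · rcases Int.emod_two_eq_zero_or_one X with hX | hX <;>
      rcases Int.emod_two_eq_zero_or_one Y with hY | hY
    · exact ldT00 hX hY h
    · exact ldT01 hX hY h
    · exact ldT10 hX hY h
    · exact ldT11 hX hY h

end GSR
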