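import Pool.Agent.Helper242.GSR.Defs

namespace GSR

open Filter Topology

section Ana

variable {A B : ℕ → ℝ}

theorem An1_step (h : SmH A B) (δ : ℝ) (hδ : 0 < δ) : ∃ n0, ∀ n ≥ n0,
    |Ga A B (n + 1) - Ga A B n| ≤ δ * Ga A B n := by
  have h1 : ∀ᶠ n in atTop, |Ga A B (n + 1) / Ga A B n - 1| < δ := by
    have h2 := h.lim
    rw [Metric.tendsto_atTop] at h2
    obtain ⟨N, hN⟩ := h2 δ hδ
    filter_upwards [eventually_ge_atTop N] with n hn
    have := hN n hn
    rwa [Real.dist_eq] at this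
  obtain ⟨n0, hn0⟩ := eventually_atTop.1 h1
  refine ⟨n0, fun n hn => ?_⟩
  have hp : 0 < Ga A B n := lt_of_lt_of_le one_pos (h.pos n)
  have h3 := (hn0 n hn).le
  have h4 : Ga A B (n + 1) - Ga A B n = (Ga A B (n + 1) / Ga A B n - 1) * Ga A B n := by
    field_simp
  rw [h4, abs_mul, abs_of_pos hp]
  exact mul_le_mul_of_nonneg_right h3 hp.le

theorem An1_shift (h : SmH A B) (t : ℕ) :
    Tendsto (fun n => Ga A B (n + t) / Ga A B n) atTop (𝓝 1) := by
  have hp : ∀ n, 0 < Ga A B n := fun n => lt_of_lt_of_le one_pos (h.pos n)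
  induction t with
  | zero =>
    refine (tendsto_const_nhds (x := (1:ℝ))).congr fun n => ?_
    rw [Nat.add_zero, div_self (hp n).ne']
  | succ t ih =>
    have h1 : Tendsto (fun n => Ga A B (n + t + 1) / Ga A B (n + t)) atTop (𝓝 1) :=
      h.lim.comp (tendsto_add_atTop_nat t)
    have h2 := h1.mul ih
    rw [mul_one] at h2
    refine h2.congr fun n => ?_
    have h3 := (hp (n + t)).ne'
    have h4 := (hp n).ne'
    rw [← Nat.add_assoc]
    field_simp

theorem An1_dbl (h : SmH A B) (T : ℕ) : ∃ n0, ∀ n ≥ n0, ∀ t < T,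
    Ga A B (n + t) ≤ 2 * Ga A B n := by
  have hp : ∀ n, 0 < Ga A B n := fun n => lt_of_lt_of_le one_pos (h.pos n)
  have h1 : ∀ t ∈ Finset.range T, ∀ᶠ n in atTop, Ga A B (n + t) ≤ 2 * Ga A B n := by
    intro t _
    have h2 := (An1_shift h t).eventually_lt_const (u := 2) (by norm_num)
    filter_upwards [h2] with n hn
    rw [div_lt_iff₀ (hp n)] at hn
    exact hn.le
  have h2 := (Filter.eventually_all_finset (Finset.range T)).2 h1
  obtain ⟨n0, hn0⟩ := eventually_atTop.1 h2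
  exact ⟨n0, fun n hn t ht => hn0 n hn t (Finset.mem_range.2 ht)⟩

theorem sm_A (h : SmH A B) (δ : ℝ) (hδ : 0 < δ) : ∃ n0, ∀ n ≥ n0,
    |A (n + 1) - A n| ≤ δ * Ga A B n ∧ |B (n + 1) - B n| ≤ δ * Ga A B n ∧
      |Ga A B (n + 1) - Ga A B n| ≤ δ * Ga A B n := by
  obtain ⟨n0, hn0⟩ := An1_step h δ hδ
  refine ⟨max n0 2, fun n hn => ?_⟩
  have h1 := hn0 n ((le_max_left _ _).trans hn)
  have h2 : 2 ≤ n := (le_max_right _ _).trans hn
  have hp : 0 < Ga A B n := lt_of_lt_of_le one_pos (h.pos n)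
  have hz : 0 ≤ δ * Ga A B n := by positivity
  rcases Nat.even_or_odd' n with ⟨k, rfl | rfl⟩
  · have h3 : A (2 * k + 1) = A (2 * k) := h.Aodd k (by omega)
    have h4 : Ga A B (2 * k + 1) - Ga A B (2 * k) = B (2 * k + 1) - B (2 * k) := by
      unfold Ga; rw [h3]; ring
    refine ⟨?_, ?_, h1⟩
    · rw [h3, sub_self, abs_zero]; exact hz
    · rw [← h4]; exact h1
  · have h3 : B (2 * k + 1) = B (2 * k + 1 + 1) := h.Bodd k
    have h4 : Ga A B (2 * k + 1 + 1) - Ga A B (2 * k + 1) = A (2 * k + 1 + 1) - A (2 * k + 1) := by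
      unfold Ga; rw [h3]; ring
    refine ⟨?_, ?_, h1⟩
    · rw [← h4]; exact h1
    · rw [← h3, sub_self, abs_zero]; exact hz

theorem ga_le_bl (h : SmH A B) (δ : ℝ) (hδ : 0 < δ) : ∃ n0, ∀ n ≥ n0,
    Ga A B n ≤ δ * Bl A B n := by
  obtain ⟨T, hT⟩ := exists_nat_gt (2 / δ)
  obtain ⟨n0, hn0⟩ := An1_dbl h T
  refine ⟨n0 + T, fun n hn => ?_⟩
  have hg0 : ∀ n, 0 ≤ Ga A B n := fun n => (lt_of_lt_of_le one_pos (h.pos n)).le
  have h1 : ∀ t ∈ Finset.range T, Ga A B n / 2 ≤ Ga A B (n - t) := by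
    intro t ht
    have ht' := Finset.mem_range.1 ht
    have h2 := hn0 (n - t) (by omega) t ht'
    rw [Nat.sub_add_cancel (by omega)] at h2
    linarith
  have h2 : (T : ℝ) * (Ga A B n / 2) ≤ ∑ t ∈ Finset.range T, Ga A B (n - t) := by
    have := Finset.card_nsmul_le_sum (Finset.range T) (fun t => Ga A B (n - t)) _ h1
    rwa [Finset.card_range, nsmul_eq_mul] at this
  have h3 : ∑ t ∈ Finset.range T, Ga A B (n - t) ≤ ∑ t ∈ Finset.range (n + 1), Ga A B (n - t) := by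
    apply Finset.sum_le_sum_of_subset_of_nonneg
    · intro x hx
      rw [Finset.mem_range] at hx ⊢
      omega
    · intro i _ _
      exact hg0 _
  have h4 : ∑ t ∈ Finset.range (n + 1), Ga A B (n - t) = Bl A B n := by
    have := Finset.sum_range_reflect (fun i => Ga A B i) (n + 1)
    simp only [Nat.add_sub_cancel] at this
    unfold Bl
    exact this
  have h5 : (T : ℝ) * (Ga A B n / 2) ≤ Bl A B n := by
    rw [← h4]; exact h2.trans h3
  have h6 : 2 < T * δ := by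
    rwa [div_lt_iff₀ hδ] at hT
  have h7 : 2 * (Ga A B n / 2) ≤ (T * δ) * (Ga A B n / 2) :=
    mul_le_mul_of_nonneg_right h6.le (by linarith [hg0 n])
  calc Ga A B n = 2 * (Ga A B n / 2) := by ring
    _ ≤ (T * δ) * (Ga A B n / 2) := h7
    _ = δ * (T * (Ga A B n / 2)) := by ring
    _ ≤ δ * Bl A B n := mul_le_mul_of_nonneg_left h5 hδ.le

theorem bl_succ (h : SmH A B) (δ : ℝ) (hδ : 0 < δ) : ∃ n0, ∀ n ≥ n0,
    Bl A B (n + 1) ≤ (1 + δ) * Bl A B n := by
  obtain ⟨n1, hn1⟩ := ga_le_bl h (δ / 2) (by positivity)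
  obtain ⟨n2, hn2⟩ := An1_dbl h 2
  refine ⟨max n1 n2, fun n hn => ?_⟩
  have h1 := hn1 n ((le_max_left _ _).trans hn)
  have h2 := hn2 n ((le_max_right _ _).trans hn) 1 (by norm_num)
  have h3 : Bl A B (n + 1) = Bl A B n + Ga A B (n + 1) := by
    unfold Bl Ga
    rw [Finset.sum_range_succ]
  rw [h3]
  linarith

end Ana

end GSR
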