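import Pool.Agent.Helper242.GSR.Defs
import Pool.Agent.Helper242.GSR.J31043

namespace GSR

open Filter Topology

section Ana

variable {A B : ℕ → ℝ}

theorem TT_pr_TT (x y : ℕ → ℝ) (m r : ℕ) (hr : r ≤ 3) : TT x y (4 * m + r) =
    ∑ i ∈ Finset.Icc (m + (if r = 0 then 0 else 1)) (3 * m + (r - 1)),
      x i * y (4 * m + r - i) := by
  unfold TT
  rw [← Finset.sum_filter]
  refine Finset.sum_congr ?_ fun _ _ => rfl
  ext i
  simp only [Finset.mem_filter, Finset.mem_range, Finset.mem_Icc]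
  split_ifs <;> omega

theorem TT_pr_pr (x y : ℕ → ℝ) (m : ℕ) : pr x y m =
    x m * y (3 * m) + ∑ i ∈ Finset.Icc (m + 1) (3 * m), x i * y (4 * m - i) := by
  unfold pr
  have h1 : Finset.Icc m (3 * m) = insert m (Finset.Icc (m + 1) (3 * m)) := by
    ext i
    simp only [Finset.mem_Icc, Finset.mem_insert]
    omega
  rw [h1, Finset.sum_insert (by simp)]
  congr 3
  omega

theorem TT_pr (h : SmH A B) (δ : ℝ) (hδ : 0 < δ) : ∃ m0, ∀ m ≥ m0, ∀ r ≤ 3, ∀ x y : ℕ → ℝ,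
    (∀ i, 0 ≤ x i ∧ x i ≤ Ga A B i) → (y = A ∨ y = B ∨ y = Ga A B) →
    |TT x y (4 * m + r) - pr x y m| ≤ δ * pr (Ga A B) (Ga A B) m +
      20 * (Ga A B (3 * m) * Ga A B m) := by
  obtain ⟨η, hη⟩ : ∃ η : ℝ, η = min (δ / 10) (1 / 10) := ⟨_, rfl⟩
  have hη0 : 0 < η := by rw [hη]; exact lt_min (by linarith) (by norm_num)
  have hη1 : η ≤ δ / 10 := by rw [hη]; exact min_le_left _ _
  have hη2 : η ≤ 1 / 10 := by rw [hη]; exact min_le_right _ _
  obtain ⟨n0, hn0⟩ := sm_A h η hη0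
  refine ⟨n0, ?_⟩
  intro m hm r hr x y hx hyc
  have hG0 : ∀ j, 0 ≤ Ga A B j := fun j => add_nonneg (h.A0 j) (h.B0 j)
  have hy : ∀ j, 0 ≤ y j ∧ y j ≤ Ga A B j := by
    intro j
    rcases hyc with rfl | rfl | rfl
    · exact ⟨h.A0 j, by unfold Ga; linarith [h.B0 j]⟩
    · exact ⟨h.B0 j, by unfold Ga; linarith [h.A0 j]⟩
    · exact ⟨hG0 j, le_rfl⟩
  have hys : ∀ j, n0 ≤ j → |y (j + 1) - y j| ≤ η * Ga A B j := by
    intro j hj
    obtain ⟨h1, h2, h3⟩ := hn0 j hj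
    rcases hyc with rfl | rfl | rfl
    · exact h1
    · exact h2
    · exact h3
  have hGs : ∀ j, n0 ≤ j → Ga A B (j + 1) ≤ 11 / 10 * Ga A B j := by
    intro j hj
    obtain ⟨-, -, h3⟩ := hn0 j hj
    have h4 := (abs_le.1 h3).2
    have h5 : η * Ga A B j ≤ 1 / 10 * Ga A B j := mul_le_mul_of_nonneg_right hη2 (hG0 j)
    linarith
  have hys' : ∀ j, n0 ≤ j → |y (j + 1) - y j| ≤ δ / 10 * Ga A B j := fun j hj =>
    (hys j hj).trans (mul_le_mul_of_nonneg_right hη1 (hG0 j))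
  have hyr : ∀ j, n0 ≤ j → |y (j + r) - y j| ≤ δ * Ga A B j := by
    intro j hj
    have a1 := abs_le.1 (hys' j hj)
    have a2 := abs_le.1 (hys' (j + 1) (by omega))
    have a3 := abs_le.1 (hys' (j + 2) (by omega))
    have b1 := hGs j hj
    have b2 := hGs (j + 1) (by omega)
    have g0 := hG0 j
    have c1 : δ / 10 * Ga A B (j + 1) ≤ δ / 10 * (11 / 10 * Ga A B j) :=
      mul_le_mul_of_nonneg_left b1 (by linarith)
    have c2 : δ / 10 * Ga A B (j + 2) ≤ δ / 10 * (11 / 10 * (11 / 10 * Ga A B j)) :=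
      mul_le_mul_of_nonneg_left (b2.trans (mul_le_mul_of_nonneg_left b1 (by norm_num)))
        (by linarith)
    have c3 : 0 ≤ δ * Ga A B j := mul_nonneg hδ.le g0
    rw [abs_le]
    have e2 : j + 1 + 1 = j + 2 := rfl
    have e3 : j + 2 + 1 = j + 3 := rfl
    rw [e2] at a2
    rw [e3] at a3
    interval_cases r
    · simp only [add_zero, sub_self]
      constructor <;> linarith
    · constructor <;> linarith [a1.1, a1.2]
    · constructor <;> linarith [a1.1, a1.2, a2.1, a2.2]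
    · constructor <;> linarith [a1.1, a1.2, a2.1, a2.2, a3.1, a3.2]
  have hmain : |∑ i ∈ Finset.Icc (m + 1) (3 * m), x i * y (4 * m + r - i) -
      ∑ i ∈ Finset.Icc (m + 1) (3 * m), x i * y (4 * m - i)| ≤
      δ * ∑ i ∈ Finset.Icc (m + 1) (3 * m), Ga A B i * Ga A B (4 * m - i) := by
    rw [← Finset.sum_sub_distrib, Finset.mul_sum]
    refine (Finset.abs_sum_le_sum_abs _ _).trans (Finset.sum_le_sum fun i hi => ?_)
    rw [Finset.mem_Icc] at hi
    have e1 : 4 * m + r - i = (4 * m - i) + r := by omega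
    rw [e1, ← mul_sub, abs_mul, abs_of_nonneg (hx i).1]
    have h1 := hyr (4 * m - i) (by omega)
    calc x i * |y (4 * m - i + r) - y (4 * m - i)|
        ≤ Ga A B i * (δ * Ga A B (4 * m - i)) :=
          mul_le_mul (hx i).2 h1 (abs_nonneg _) (hG0 i)
      _ = δ * (Ga A B i * Ga A B (4 * m - i)) := by ring
  have hprG := TT_pr_pr (Ga A B) (Ga A B) m
  have hprx := TT_pr_pr x y m
  have hGG : 0 ≤ Ga A B m * Ga A B (3 * m) := mul_nonneg (hG0 _) (hG0 _)
  have hm1 := abs_le.1 hmain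
  have hsum0 : 0 ≤ ∑ i ∈ Finset.Icc (m + 1) (3 * m), Ga A B i * Ga A B (4 * m - i) :=
    Finset.sum_nonneg fun i _ => mul_nonneg (hG0 _) (hG0 _)
  have hδGG : 0 ≤ δ * (Ga A B m * Ga A B (3 * m)) := mul_nonneg hδ.le hGG
  have hδs : 0 ≤ δ * ∑ i ∈ Finset.Icc (m + 1) (3 * m), Ga A B i * Ga A B (4 * m - i) :=
    mul_nonneg hδ.le hsum0
  have hprδ : δ * pr (Ga A B) (Ga A B) m = δ * (Ga A B m * Ga A B (3 * m)) +
      δ * ∑ i ∈ Finset.Icc (m + 1) (3 * m), Ga A B i * Ga A B (4 * m - i) := by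
    rw [hprG]; ring
  have hxm0 : 0 ≤ x m * y (3 * m) := mul_nonneg (hx m).1 (hy _).1
  have hxm : x m * y (3 * m) ≤ Ga A B m * Ga A B (3 * m) :=
    mul_le_mul (hx m).2 (hy _).2 (hy _).1 (hG0 _)
  have hcomm : Ga A B (3 * m) * Ga A B m = Ga A B m * Ga A B (3 * m) := mul_comm _ _
  have hTT := TT_pr_TT x y m r hr
  -- growth bounds
  have k1 : Ga A B (m + 1) ≤ 11 / 10 * Ga A B m := hGs m hm
  have k2 : Ga A B (m + 2) ≤ 2 * Ga A B m := by
    have := hGs (m + 1) (by omega)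
    have e : m + 1 + 1 = m + 2 := rfl
    rw [e] at this
    linarith [hG0 m]
  have k3 : Ga A B (3 * m + 1) ≤ 11 / 10 * Ga A B (3 * m) := hGs (3 * m) (by omega)
  have k4 : Ga A B (3 * m + 2) ≤ 2 * Ga A B (3 * m) := by
    have := hGs (3 * m + 1) (by omega)
    have e : 3 * m + 1 + 1 = 3 * m + 2 := rfl
    rw [e] at this
    linarith [hG0 (3 * m)]
  have kb : ∀ p q : ℕ, Ga A B p ≤ 2 * Ga A B (3 * m) → Ga A B q ≤ 2 * Ga A B m →
      0 ≤ x p * y q ∧ x p * y q ≤ 4 * (Ga A B m * Ga A B (3 * m)) := by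
    intro p q hp hq
    refine ⟨mul_nonneg (hx p).1 (hy q).1, ?_⟩
    calc x p * y q ≤ (2 * Ga A B (3 * m)) * (2 * Ga A B m) :=
          mul_le_mul ((hx p).2.trans hp) ((hy q).2.trans hq) (hy q).1
            (mul_nonneg (by norm_num) (hG0 _))
      _ = 4 * (Ga A B m * Ga A B (3 * m)) := by ring
  have g3 := hG0 (3 * m)
  have g1 := hG0 m
  rw [hcomm, hprδ, hprx, hTT]
  interval_cases r
  · have e0 : ∑ i ∈ Finset.Icc (m + (if (0 : ℕ) = 0 then 0 else 1)) (3 * m + (0 - 1)),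
        x i * y (4 * m + 0 - i) = pr x y m := rfl
    rw [e0, hprx, sub_self, abs_zero]
    linarith
  · have e0 : ∑ i ∈ Finset.Icc (m + (if (1 : ℕ) = 0 then 0 else 1)) (3 * m + (1 - 1)),
        x i * y (4 * m + 1 - i) = ∑ i ∈ Finset.Icc (m + 1) (3 * m), x i * y (4 * m + 1 - i) := rfl
    rw [e0, abs_le]
    constructor <;> linarith [hm1.1, hm1.2]
  · have e0 : ∑ i ∈ Finset.Icc (m + (if (2 : ℕ) = 0 then 0 else 1)) (3 * m + (2 - 1)),
        x i * y (4 * m + 2 - i) =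
          ∑ i ∈ Finset.Icc (m + 1) (3 * m + 1), x i * y (4 * m + 2 - i) := rfl
    have e1 : 4 * m + 2 - (3 * m + 1) = m + 1 := by omega
    rw [e0, Finset.sum_Icc_succ_top (by omega), e1, abs_le]
    have q1 := kb (3 * m + 1) (m + 1) (by linarith) (by linarith)
    constructor <;> linarith [hm1.1, hm1.2, q1.1, q1.2]
  · have e0 : ∑ i ∈ Finset.Icc (m + (if (3 : ℕ) = 0 then 0 else 1)) (3 * m + (3 - 1)),
        x i * y (4 * m + 3 - i) =
          ∑ i ∈ Finset.Icc (m + 1) (3 * m + 1 + 1), x i * y (4 * m + 3 - i) := rfl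
    have e1 : 4 * m + 3 - (3 * m + 1) = m + 2 := by omega
    have e2 : 4 * m + 3 - (3 * m + 1 + 1) = m + 1 := by omega
    rw [e0, Finset.sum_Icc_succ_top (by omega), Finset.sum_Icc_succ_top (by omega), e1, e2,
      abs_le]
    have q1 := kb (3 * m + 1) (m + 2) (by linarith) (by linarith)
    have q2 := kb (3 * m + 1 + 1) (m + 1) k4 (by linarith)
    constructor <;> linarith [hm1.1, hm1.2, q1.1, q1.2, q2.1, q2.2]

end Ana

end GSR
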