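import Pool.Agent.Helper242.GSR.Defs
import Pool.Agent.Helper242.GSR.J31043

namespace GSR

open Filter Topology

section Ana

variable {A B : ℕ → ℝ}

theorem bi_box (g : ℕ → ℝ) (hg : ∀ n, 0 ≤ g n) (x x' : ℕ) (hx' : x' = 2 * x / 3 + 1)
    (n1 : ℕ) (hn1 : ∀ n ≥ n1, g n ≤ 2 * g (n + 1)) (hx1 : n1 ≤ x') :
    (∑ i ∈ Finset.Ico (x' + 1) (2 * x + 1), g i) ^ 2 ≤
      32 * ∑ m ∈ Finset.range (x + 1), pr g g m := by
  classical
  set box := Finset.Ico (x' + 1) (2 * x + 1) with hbox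
  have hstep : ∀ j, n1 ≤ j → ∀ r, r < 4 → g j ≤ 8 * g (j + r) := by
    intro j hj r hr
    have h1 := hn1 j hj
    have h2 := hn1 (j + 1) (by omega)
    have h3 := hn1 (j + 2) (by omega)
    have h0 := hg j
    interval_cases r
    · simp only [add_zero]; linarith
    · have := hg (j + 1); linarith
    · have := hg (j + 1 + 1); have e : j + 2 = j + 1 + 1 := rfl
      rw [e]; linarith
    · have := hg (j + 2 + 1); have e : j + 3 = j + 2 + 1 := rfl
      have e2 : j + 1 + 1 = j + 2 := rfl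
      rw [e2] at h2
      rw [e]; linarith
  have hsplit : (∑ i ∈ box, g i) ^ 2 = ∑ r ∈ Finset.range 4,
      ∑ q ∈ (box ×ˢ box).filter (fun q => (q.1 + q.2 + r) % 4 = 0), g q.1 * g q.2 := by
    rw [sq, Finset.sum_mul_sum, ← Finset.sum_product']
    rw [← Finset.sum_fiberwise_of_maps_to (s := box ×ˢ box) (t := Finset.range 4)
      (g := fun q : ℕ × ℕ => (4 - (q.1 + q.2) % 4) % 4)
      (fun q _ => by
        simp only [Finset.mem_range]
        exact Nat.mod_lt _ (by norm_num)) (fun q => g q.1 * g q.2)]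
    refine Finset.sum_congr rfl fun r hr => ?_
    rw [Finset.mem_range] at hr
    refine Finset.sum_congr (Finset.filter_congr fun q _ => ?_) fun _ _ => rfl
    constructor <;> intro hh <;> omega
  rw [hsplit]
  have hone : ∀ r ∈ Finset.range 4,
      ∑ q ∈ (box ×ˢ box).filter (fun q => (q.1 + q.2 + r) % 4 = 0), g q.1 * g q.2 ≤
        8 * ∑ m ∈ Finset.range (x + 1), pr g g m := by
    intro r hr
    rw [Finset.mem_range] at hr
    let φ : ℕ × ℕ → (Σ _ : ℕ, ℕ) := fun q => ⟨(q.1 + q.2 + r) / 4, q.1⟩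
    let T : Finset (Σ _ : ℕ, ℕ) := (Finset.range (x + 1)).sigma (fun m => Finset.Icc m (3 * m))
    have hmem : ∀ q ∈ (box ×ˢ box).filter (fun q => (q.1 + q.2 + r) % 4 = 0),
        (x' + 1 ≤ q.1 ∧ q.1 < 2 * x + 1) ∧ (x' + 1 ≤ q.2 ∧ q.2 < 2 * x + 1) ∧
          (q.1 + q.2 + r) % 4 = 0 := by
      intro q hq
      rw [Finset.mem_filter, Finset.mem_product, hbox, Finset.mem_Ico, Finset.mem_Ico] at hq
      exact ⟨hq.1.1, hq.1.2, hq.2⟩
    have h1 : ∑ q ∈ (box ×ˢ box).filter (fun q => (q.1 + q.2 + r) % 4 = 0), g q.1 * g q.2 ≤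
        ∑ q ∈ (box ×ˢ box).filter (fun q => (q.1 + q.2 + r) % 4 = 0),
          8 * (g (φ q).2 * g (4 * (φ q).1 - (φ q).2)) := by
      refine Finset.sum_le_sum fun q hq => ?_
      obtain ⟨⟨a1, a2⟩, ⟨a3, a4⟩, a5⟩ := hmem q hq
      have e : 4 * ((q.1 + q.2 + r) / 4) - q.1 = q.2 + r := by omega
      simp only [φ, e]
      have h2 := hstep q.2 (by omega) r hr
      have h3 := mul_le_mul_of_nonneg_left h2 (hg q.1)
      linarith
    have hinj : Set.InjOn φ ((box ×ˢ box).filter (fun q => (q.1 + q.2 + r) % 4 = 0) :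
        Finset (ℕ × ℕ)) := by
      intro p hp q hq hpq
      obtain ⟨_, _, a5⟩ := hmem p hp
      obtain ⟨_, _, b5⟩ := hmem q hq
      simp only [φ, Sigma.mk.injEq, heq_eq_eq] at hpq
      obtain ⟨h2, h3⟩ := hpq
      refine Prod.ext h3 ?_
      omega
    have h2 : ∑ q ∈ (box ×ˢ box).filter (fun q => (q.1 + q.2 + r) % 4 = 0),
          8 * (g (φ q).2 * g (4 * (φ q).1 - (φ q).2)) =
        ∑ t ∈ ((box ×ˢ box).filter (fun q => (q.1 + q.2 + r) % 4 = 0)).image φ,
          8 * (g t.2 * g (4 * t.1 - t.2)) := by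
      rw [Finset.sum_image hinj]
    have hsub : ((box ×ˢ box).filter (fun q => (q.1 + q.2 + r) % 4 = 0)).image φ ⊆ T := by
      intro t ht
      rw [Finset.mem_image] at ht
      obtain ⟨q, hq, rfl⟩ := ht
      obtain ⟨⟨a1, a2⟩, ⟨a3, a4⟩, a5⟩ := hmem q hq
      simp only [T, φ, Finset.mem_sigma, Finset.mem_range, Finset.mem_Icc]
      omega
    have h3 : ∑ t ∈ ((box ×ˢ box).filter (fun q => (q.1 + q.2 + r) % 4 = 0)).image φ,
          8 * (g t.2 * g (4 * t.1 - t.2)) ≤ ∑ t ∈ T, 8 * (g t.2 * g (4 * t.1 - t.2)) :=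
      Finset.sum_le_sum_of_subset_of_nonneg hsub
        (fun t _ _ => mul_nonneg (by norm_num) (mul_nonneg (hg _) (hg _)))
    have h4 : ∑ t ∈ T, 8 * (g t.2 * g (4 * t.1 - t.2)) =
        8 * ∑ m ∈ Finset.range (x + 1), pr g g m := by
      simp only [T]
      rw [← Finset.mul_sum, Finset.sum_sigma]
      rfl
    linarith
  calc ∑ r ∈ Finset.range 4,
      ∑ q ∈ (box ×ˢ box).filter (fun q => (q.1 + q.2 + r) % 4 = 0), g q.1 * g q.2
      ≤ ∑ _r ∈ Finset.range 4, 8 * ∑ m ∈ Finset.range (x + 1), pr g g m :=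
        Finset.sum_le_sum hone
    _ = 32 * ∑ m ∈ Finset.range (x + 1), pr g g m := by
        rw [Finset.sum_const, Finset.card_range, nsmul_eq_mul]
        push_cast
        ring

theorem bi_ge (h : SmH A B) (n : ℕ) : (n : ℝ) + 1 ≤ Bl A B n := by
  unfold Bl
  induction n with
  | zero => simpa using h.pos 0
  | succ n ih =>
    rw [Finset.sum_range_succ]
    have := h.pos (n + 1)
    push_cast
    linarith

theorem bi_mono (h : SmH A B) : Monotone (Bl A B) := by
  intro a b hab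
  unfold Bl
  refine Finset.sum_le_sum_of_subset_of_nonneg
    (Finset.range_subset_range.mpr (by omega)) (fun i _ _ => ?_)
  have := h.pos i
  linarith

theorem ball_ineq (h : SmH A B) (hd : ∀ n, 1 ≤ n → 2 * Bl A B n ≤ Bl A B (3 * n + 1))
    (hk : ∀ ε : ℝ, 0 < ε → ∃ m0, ∀ m ≥ m0,
      pr (Ga A B) (Ga A B) m ≤ ε * (Ga A B (3 * m) * Bl A B m)) (ε : ℝ) (hε : 0 < ε) :
    ∃ x0, ∀ x ≥ x0, Bl A B (2 * x) ^ 2 ≤ ε * (Bl A B (3 * x) * Bl A B x) := by
  have hgp : ∀ n, 1 ≤ Ga A B n := h.pos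
  have hg0 : ∀ n, 0 ≤ Ga A B n := fun n => by linarith [hgp n]
  obtain ⟨n1, hn1⟩ := sm_A h (1 / 2) (by norm_num)
  have hn1' : ∀ n ≥ n1, Ga A B n ≤ 2 * Ga A B (n + 1) := by
    intro n hn
    have h1 := (abs_le.mp (hn1 n hn).2.2).1
    linarith
  obtain ⟨n2, hn2⟩ := bl_succ h (1 / 16) (by norm_num)
  obtain ⟨m0, hm0⟩ := hk (ε / 576) (by positivity)
  have hprn : ∀ m, 0 ≤ pr (Ga A B) (Ga A B) m := fun m =>
    Finset.sum_nonneg fun i _ => mul_nonneg (hg0 _) (hg0 _)
  set C1 : ℝ := ∑ m ∈ Finset.range m0, pr (Ga A B) (Ga A B) m with hC1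
  have hC10 : 0 ≤ C1 := Finset.sum_nonneg fun m _ => hprn m
  obtain ⟨n3, hn3⟩ := exists_nat_ge (576 * C1 / ε)
  refine ⟨3 * n1 + n2 + n3 + 3, fun x hx => ?_⟩
  set x' := 2 * x / 3 + 1 with hx'
  have hbx : 0 ≤ Bl A B x := by
    have := bi_ge h x
    have : (0:ℝ) ≤ x := Nat.cast_nonneg x
    linarith
  have hb3x : 0 ≤ Bl A B (3 * x) := by
    have h1 := bi_ge h (3 * x)
    have : (0:ℝ) ≤ ((3 * x : ℕ) : ℝ) := Nat.cast_nonneg _
    linarith
  -- the sum of the pairings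
  have hsum : ∑ m ∈ Finset.range (x + 1), pr (Ga A B) (Ga A B) m ≤
      C1 + ε / 576 * (Bl A B (3 * x) * Bl A B x) := by
    have h1 : ∀ m ∈ Finset.range (x + 1), pr (Ga A B) (Ga A B) m ≤
        (if m < m0 then pr (Ga A B) (Ga A B) m else 0) +
          ε / 576 * (Ga A B (3 * m) * Bl A B x) := by
      intro m hm
      rw [Finset.mem_range] at hm
      have h5 : Bl A B m ≤ Bl A B x := bi_mono h (by omega)
      by_cases hmm : m < m0
      · rw [if_pos hmm]
        have : 0 ≤ ε / 576 * (Ga A B (3 * m) * Bl A B x) :=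
          mul_nonneg (by positivity) (mul_nonneg (hg0 _) hbx)
        linarith
      · rw [if_neg hmm, zero_add]
        refine (hm0 m (by omega)).trans ?_
        exact mul_le_mul_of_nonneg_left (mul_le_mul_of_nonneg_left h5 (hg0 _)) (by positivity)
    refine (Finset.sum_le_sum h1).trans ?_
    rw [Finset.sum_add_distrib]
    have h2 : ∑ m ∈ Finset.range (x + 1), (if m < m0 then pr (Ga A B) (Ga A B) m else 0) ≤ C1 := by
      rw [← Finset.sum_filter]
      refine Finset.sum_le_sum_of_subset_of_nonneg ?_ (fun m _ _ => hprn m)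
      intro m hm
      rw [Finset.mem_filter] at hm
      exact Finset.mem_range.mpr hm.2
    have h3 : ∑ m ∈ Finset.range (x + 1), ε / 576 * (Ga A B (3 * m) * Bl A B x) ≤
        ε / 576 * (Bl A B (3 * x) * Bl A B x) := by
      rw [← Finset.mul_sum, ← Finset.sum_mul]
      refine mul_le_mul_of_nonneg_left (mul_le_mul_of_nonneg_right ?_ hbx) (by positivity)
      have hinj : Set.InjOn (fun m : ℕ => 3 * m) (Finset.range (x + 1) : Finset ℕ) := by
        intro a _ b _ hab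
        simp only at hab
        omega
      have h4 : ∑ m ∈ Finset.range (x + 1), Ga A B (3 * m) =
          ∑ k ∈ (Finset.range (x + 1)).image (fun m => 3 * m), Ga A B k := by
        rw [Finset.sum_image hinj]
      rw [h4]
      refine Finset.sum_le_sum_of_subset_of_nonneg (f := fun k => A k + B k) ?_
        (fun k _ _ => hg0 k)
      intro k hk'
      rw [Finset.mem_image] at hk'
      obtain ⟨m, hm, rfl⟩ := hk'
      rw [Finset.mem_range] at hm ⊢
      omega
    linarith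
  have hbox := bi_box (Ga A B) hg0 x x' hx' n1 hn1' (by omega)
  have hboxs : ∑ i ∈ Finset.Ico (x' + 1) (2 * x + 1), Ga A B i = Bl A B (2 * x) - Bl A B x' := by
    rw [Finset.sum_Ico_eq_sub _ (by omega)]
    rfl
  rw [hboxs] at hbox
  -- comparison of `Bl x'` with `Bl (2 x)`
  have hcmp : 2 * Bl A B x' ≤ 4 / 3 * Bl A B (2 * x) := by
    have h1 := hd x' (by omega)
    have h2 : Bl A B (3 * x' + 1) ≤ Bl A B (2 * x + 3 + 1) := bi_mono h (by omega)
    have h3 := hn2 (2 * x + 3) (by omega)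
    have h4 := hn2 (2 * x + 2) (by omega)
    have h5 := hn2 (2 * x + 1) (by omega)
    have h6 := hn2 (2 * x) (by omega)
    have h7 : 0 ≤ Bl A B (2 * x) := by
      have := bi_ge h (2 * x)
      have : (0:ℝ) ≤ ((2 * x : ℕ) : ℝ) := Nat.cast_nonneg _
      linarith
    have e4 : 2 * x + 2 + 1 = 2 * x + 3 := rfl
    have e5 : 2 * x + 1 + 1 = 2 * x + 2 := rfl
    rw [e4] at h4
    rw [e5] at h5
    linarith
  have hthird : 1 / 3 * Bl A B (2 * x) ≤ Bl A B (2 * x) - Bl A B x' := by linarith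
  have hB0 : 0 ≤ Bl A B (2 * x) := by
    have := bi_ge h (2 * x)
    have : (0:ℝ) ≤ ((2 * x : ℕ) : ℝ) := Nat.cast_nonneg _
    linarith
  have hsq : (1 / 3 * Bl A B (2 * x)) ^ 2 ≤ (Bl A B (2 * x) - Bl A B x') ^ 2 :=
    pow_le_pow_left₀ (by positivity) hthird 2
  have hbig : 576 * C1 ≤ ε * (Bl A B (3 * x) * Bl A B x) := by
    have h1 : 576 * C1 ≤ ε * n3 := by
      rw [div_le_iff₀ hε] at hn3
      linarith
    have h2 : (n3 : ℝ) ≤ Bl A B (3 * x) * Bl A B x := by
      have h3 := bi_ge h x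
      have h4 := bi_ge h (3 * x)
      have h5 : (n3 : ℝ) ≤ x := by
        exact_mod_cast (by omega : n3 ≤ x)
      have h6 : (0:ℝ) ≤ ((3 * x : ℕ) : ℝ) := Nat.cast_nonneg _
      have h7 : (1:ℝ) ≤ Bl A B (3 * x) := by linarith
      have h8 : Bl A B x ≤ Bl A B (3 * x) * Bl A B x := le_mul_of_one_le_left hbx h7
      linarith
    exact h1.trans (mul_le_mul_of_nonneg_left h2 hε.le)
  have hfin : Bl A B (2 * x) ^ 2 ≤ 288 * (C1 + ε / 576 * (Bl A B (3 * x) * Bl A B x)) := by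
    nlinarith [hsq, hbox, hsum]
  linarith

end Ana

end GSR
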