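import Pool.Agent.Helper242.GSR.Defs
import Pool.Agent.Helper242.GSR.J31043

namespace GSR

open Filter Topology

section Ana

variable {A B : ℕ → ℝ}

theorem pr_par_range (x y : ℕ → ℝ) (m : ℕ) :
    pr x y m = ∑ k ∈ Finset.range (2 * m + 1), x (m + k) * y (3 * m - k) := by
  unfold pr
  have h1 : Finset.Icc m (3 * m) = Finset.Ico m (3 * m + 1) := by
    ext i; simp only [Finset.mem_Icc, Finset.mem_Ico]; omega
  rw [h1, Finset.sum_Ico_eq_sum_range]
  have h2 : 3 * m + 1 - m = 2 * m + 1 := by omega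
  rw [h2]
  refine Finset.sum_congr rfl (fun k _ => ?_)
  have h3 : 4 * m - (m + k) = 3 * m - k := by omega
  rw [h3]

theorem pr_par_id (w : ℕ → ℝ) (n : ℕ) :
    2 * ∑ k ∈ Finset.range (n + 1), (-1) ^ k * w k =
      w 0 + (-1) ^ n * w n + ∑ k ∈ Finset.range n, (-1) ^ k * (w k - w (k + 1)) := by
  induction n with
  | zero => simp; ring
  | succ n ih =>
    rw [Finset.sum_range_succ, mul_add, ih, Finset.sum_range_succ _ n]
    rw [pow_succ]
    ring

theorem pr_par_alt (w : ℕ → ℝ) (n : ℕ) :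
    2 * |∑ k ∈ Finset.range (n + 1), (-1) ^ k * w k| ≤
      |w 0| + |w n| + ∑ k ∈ Finset.range n, |w (k + 1) - w k| := by
  have h1 : ∀ k : ℕ, ∀ a : ℝ, |(-1) ^ k * a| = |a| := by
    intro k a
    rw [abs_mul, abs_pow, abs_neg, abs_one, one_pow, one_mul]
  have h2 : 2 * |∑ k ∈ Finset.range (n + 1), (-1) ^ k * w k| =
      |2 * ∑ k ∈ Finset.range (n + 1), (-1) ^ k * w k| := by
    rw [abs_mul, abs_two]
  rw [h2, pr_par_id]
  refine (abs_add_le _ _).trans (add_le_add ((abs_add_le _ _).trans (le_of_eq (by rw [h1]))) ?_)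
  refine (Finset.abs_sum_le_sum_abs _ _).trans (le_of_eq (Finset.sum_congr rfl (fun k _ => ?_)))
  rw [h1, abs_sub_comm]

theorem pr_par_Ga (h : SmH A B) (n : ℕ) : 0 < Ga A B n := by
  have := h.pos n
  unfold Ga
  linarith

theorem pr_par_Pq (i : ℕ) : Pq A B i - Ga A B i / 2 = 1 / 2 * ((-1) ^ i * (B i - A i)) := by
  unfold Pq Ga
  rcases Nat.even_or_odd i with hi | hi
  · rw [if_pos (Nat.even_iff.1 hi), hi.neg_one_pow]; ring
  · rw [if_neg (by rw [Nat.odd_iff.1 hi]; norm_num), hi.neg_one_pow]; ring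

theorem pr_par (h : SmH A B) (δ : ℝ) (hδ : 0 < δ) : ∃ m0, ∀ m ≥ m0, ∀ y : ℕ → ℝ,
    (y = A ∨ y = B) →
    |pr (Pq A B) y m - pr (Ga A B) y m / 2| ≤ δ * pr (Ga A B) (Ga A B) m +
      20 * (Ga A B (3 * m) * Ga A B m) := by
  set η : ℝ := min (δ / 6) (1 / 4) with hη
  have hη0 : 0 < η := lt_min (by linarith) (by norm_num)
  have hη1 : η ≤ δ / 6 := min_le_left _ _
  have hη2 : η ≤ 1 / 4 := min_le_right _ _
  obtain ⟨n0, hn0⟩ := sm_A h η hη0
  refine ⟨n0 + 1, fun m hm y hy => ?_⟩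
  have hGa := pr_par_Ga h
  have hy0 : ∀ n, 0 ≤ y n := by
    rcases hy with rfl | rfl
    · exact h.A0
    · exact h.B0
  have hyG : ∀ n, y n ≤ Ga A B n := by
    intro n
    have hA := h.A0 n
    have hB := h.B0 n
    unfold Ga
    rcases hy with rfl | rfl <;> linarith
  have hyd : ∀ n ≥ n0, |y (n + 1) - y n| ≤ η * Ga A B n := by
    intro n hn
    rcases hy with rfl | rfl
    · exact (hn0 n hn).1
    · exact (hn0 n hn).2.1
  have hd : ∀ n, |B n - A n| ≤ Ga A B n := by
    intro n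
    have hA := h.A0 n
    have hB := h.B0 n
    unfold Ga
    rw [abs_le]
    constructor <;> linarith
  have hdd : ∀ n ≥ n0, |(B (n + 1) - A (n + 1)) - (B n - A n)| ≤ 2 * η * Ga A B n := by
    intro n hn
    obtain ⟨h1, h2, -⟩ := hn0 n hn
    rw [abs_le] at h1 h2 ⊢
    constructor <;> linarith
  -- rewrite the difference
  have e1 : pr (Pq A B) y m - pr (Ga A B) y m / 2 =
      1 / 2 * ((-1) ^ m * ∑ k ∈ Finset.range (2 * m + 1),
        (-1) ^ k * ((B (m + k) - A (m + k)) * y (3 * m - k))) := by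
    rw [pr_par_range, pr_par_range, Finset.sum_div, ← Finset.sum_sub_distrib, Finset.mul_sum,
      Finset.mul_sum]
    refine Finset.sum_congr rfl (fun k _ => ?_)
    have := pr_par_Pq (A := A) (B := B) (m + k)
    calc Pq A B (m + k) * y (3 * m - k) - Ga A B (m + k) * y (3 * m - k) / 2
        = (Pq A B (m + k) - Ga A B (m + k) / 2) * y (3 * m - k) := by ring
      _ = _ := by rw [this, pow_add]; ring
  have e2 : |pr (Pq A B) y m - pr (Ga A B) y m / 2| =
      1 / 2 * |∑ k ∈ Finset.range (2 * m + 1),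
        (-1) ^ k * ((B (m + k) - A (m + k)) * y (3 * m - k))| := by
    rw [e1, abs_mul, abs_mul, abs_pow, abs_neg, abs_one, one_pow, one_mul]
    norm_num
  have h3 := pr_par_alt (fun k => (B (m + k) - A (m + k)) * y (3 * m - k)) (2 * m)
  simp only [add_zero, Nat.sub_zero] at h3
  have e3 : m + 2 * m = 3 * m := by ring
  have e4 : 3 * m - 2 * m = m := by omega
  rw [e3, e4] at h3
  have b0 : |(B m - A m) * y (3 * m)| ≤ Ga A B (3 * m) * Ga A B m := by
    rw [abs_mul, abs_of_nonneg (hy0 _), mul_comm]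
    exact mul_le_mul (hyG _) (hd _) (abs_nonneg _) (hGa _).le
  have b1 : |(B (3 * m) - A (3 * m)) * y m| ≤ Ga A B (3 * m) * Ga A B m := by
    rw [abs_mul, abs_of_nonneg (hy0 _)]
    exact mul_le_mul (hd _) (hyG _) (hy0 _) (hGa _).le
  have b2 : ∑ k ∈ Finset.range (2 * m), |(B (m + (k + 1)) - A (m + (k + 1))) * y (3 * m - (k + 1)) -
      (B (m + k) - A (m + k)) * y (3 * m - k)| ≤ 4 * η * pr (Ga A B) (Ga A B) m := by
    rw [pr_par_range, Finset.mul_sum]
    refine le_trans (Finset.sum_le_sum (g := fun k => 4 * η * (Ga A B (m + k) * Ga A B (3 * m - k))) ?_)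
      (Finset.sum_le_sum_of_subset_of_nonneg (Finset.range_mono (by omega)) ?_)
    · intro k hk
      have hk' : k < 2 * m := Finset.mem_range.1 hk
      obtain ⟨j, hj⟩ : ∃ j, 3 * m - k = j + 1 := ⟨3 * m - k - 1, by omega⟩
      have hj2 : 3 * m - (k + 1) = j := by omega
      have hjn : n0 ≤ j := by omega
      rw [hj2, hj, ← add_assoc]
      have c1 := hdd (m + k) (by omega)
      have c2 := hyd j hjn
      have c3 := (hn0 j hjn).2.2
      have c4 := hGa (m + k)
      have c5 := hGa j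
      have c6 : 3 / 4 * Ga A B j ≤ Ga A B (j + 1) := by
        rw [abs_le] at c3
        nlinarith
      have e5 : (B (m + k + 1) - A (m + k + 1)) * y j - (B (m + k) - A (m + k)) * y (j + 1) =
          ((B (m + k + 1) - A (m + k + 1)) - (B (m + k) - A (m + k))) * y j +
            -((B (m + k) - A (m + k)) * (y (j + 1) - y j)) := by ring
      rw [e5]
      refine (abs_add_le _ _).trans ?_
      rw [abs_neg, abs_mul, abs_mul, abs_of_nonneg (hy0 j)]
      have c7 : |(B (m + k + 1) - A (m + k + 1)) - (B (m + k) - A (m + k))| * y j ≤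
          (2 * η * Ga A B (m + k)) * Ga A B j :=
        mul_le_mul c1 (hyG j) (hy0 j) (by positivity)
      have c8 : |B (m + k) - A (m + k)| * |y (j + 1) - y j| ≤ Ga A B (m + k) * (η * Ga A B j) :=
        mul_le_mul (hd _) c2 (abs_nonneg _) c4.le
      have c9 : 3 * η * Ga A B (m + k) * Ga A B j ≤ 3 * η * Ga A B (m + k) * (4 / 3 * Ga A B (j + 1)) :=
        mul_le_mul_of_nonneg_left (by linarith) (by positivity)
      calc _ ≤ (2 * η * Ga A B (m + k)) * Ga A B j + Ga A B (m + k) * (η * Ga A B j) := add_le_add c7 c8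
        _ = 3 * η * Ga A B (m + k) * Ga A B j := by ring
        _ ≤ _ := c9
        _ = _ := by ring
    · intro k _ _
      have c4 := hGa (m + k)
      have c5 := hGa (3 * m - k)
      positivity
  have hpr : 0 ≤ pr (Ga A B) (Ga A B) m := by
    unfold pr
    exact Finset.sum_nonneg (fun i _ => mul_nonneg (hGa _).le (hGa _).le)
  have hGG : 0 ≤ Ga A B (3 * m) * Ga A B m := mul_nonneg (hGa _).le (hGa _).le
  rw [e2]
  have hfin : 4 * η * pr (Ga A B) (Ga A B) m ≤ 4 * (δ / 6) * pr (Ga A B) (Ga A B) m :=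
    mul_le_mul_of_nonneg_right (by linarith) hpr
  have hδpr : 0 ≤ δ * pr (Ga A B) (Ga A B) m := mul_nonneg hδ.le hpr
  linarith

theorem pr_B (h : SmH A B) (δ : ℝ) (hδ : 0 < δ) : ∃ m0, ∀ m ≥ m0,
    pr (Ga A B) (Ga A B) m ≤ 2 * pr (Ga A B) B m + δ * pr (Ga A B) (Ga A B) m := by
  set η : ℝ := min (δ / 2) (1 / 4) with hη
  have hη0 : 0 < η := lt_min (by linarith) (by norm_num)
  have hη1 : η ≤ δ / 2 := min_le_left _ _
  have hη2 : η ≤ 1 / 4 := min_le_right _ _
  obtain ⟨n0, hn0⟩ := sm_A h η hη0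
  refine ⟨n0 + 3, fun m hm => ?_⟩
  have hGa := pr_par_Ga h
  unfold pr
  rw [Finset.mul_sum, Finset.mul_sum, ← Finset.sum_add_distrib]
  apply Finset.sum_le_sum
  intro i hi
  rw [Finset.mem_Icc] at hi
  have hj : m ≤ 4 * m - i := by omega
  generalize 4 * m - i = j at hj
  have key : A j - B j ≤ 2 * η * Ga A B j := by
    rcases Nat.even_or_odd' j with ⟨k, hk | hk⟩
    · have h1 := h.AB k
      rw [← hk] at h1
      have := hGa j
      have : 0 ≤ 2 * η * Ga A B j := by positivity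
      linarith
    · have h1 := h.AB k
      have h2 := h.Aodd k (by omega)
      obtain ⟨-, h3, h4⟩ := hn0 (2 * k) (by omega)
      rw [← hk] at h2 h3 h4
      have h5 := hGa (2 * k)
      have h6 : 3 / 4 * Ga A B (2 * k) ≤ Ga A B j := by
        rw [abs_le] at h4
        nlinarith
      rw [abs_le] at h3
      have h7 : η * Ga A B (2 * k) ≤ η * (2 * Ga A B j) :=
        mul_le_mul_of_nonneg_left (by linarith) hη0.le
      linarith
  have h8 : A j - B j ≤ δ * Ga A B j := by
    have := hGa j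
    have : 2 * η * Ga A B j ≤ δ * Ga A B j := mul_le_mul_of_nonneg_right (by linarith) this.le
    linarith
  have h9 := mul_le_mul_of_nonneg_left h8 (hGa i).le
  have h10 : Ga A B j = A j + B j := rfl
  rw [h10] at h9 ⊢
  linarith

end Ana

end GSR
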