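import Pool.Agent.Helper242.GSR.Defs

namespace GSR

section W
variable {G : Type} [Group G] (D : Dat G)

def T2 : Set G := {h | (D.w h = false ∧ ((D.c0 h ∈ D.K ∧ D.c1 h ∈ D.U) ∨
      (D.c0 h * D.a ∈ D.U ∧ D.c1 h ∈ D.K) ∨ (D.c0 h ∈ D.U ∧ D.c1 h * D.a ∈ D.U))) ∨
    (D.w h = true ∧ ((D.c0 h ∈ D.U ∧ D.c1 h ∈ D.K) ∨ (D.c0 h ∈ D.K ∧ D.c1 h ∈ D.U) ∨
      (D.c0 h ∈ D.U ∧ D.c1 h * D.a ∈ D.U) ∨ (D.c0 h * D.a ∈ D.U ∧ D.c1 h ∈ D.U)))}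

end W

end GSR
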