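import Pool.Agent.Helper242.GSR.Defs
import Pool.Agent.Helper242.GSR.T2def
import Pool.Agent.Helper242.GSR.J30967
import Pool.Agent.Helper242.GSR.J30973
import Pool.Agent.Helper242.GSR.J30986
import Pool.Agent.Helper242.GSR.J30992
import Pool.Agent.Helper242.GSR.J31043

namespace GSR

open Filter Topology

section Ana

variable {A B : ℕ → ℝ}

theorem gsr_pq (h : SmH A B) : (∀ i, 0 ≤ Pq A B i ∧ Pq A B i ≤ Ga A B i) ∧
    (∀ i, 0 ≤ Mq A B i ∧ Mq A B i ≤ Ga A B i) ∧ ∀ i, Pq A B i + Mq A B i = A i + B i := by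
  refine ⟨fun i => ?_, fun i => ?_, fun i => ?_⟩
  · have := h.A0 i; have := h.B0 i
    unfold Pq Ga
    split_ifs <;> constructor <;> linarith
  · have := h.A0 i; have := h.B0 i
    unfold Mq Ga
    split_ifs <;> constructor <;> linarith
  · unfold Pq Mq
    split_ifs <;> ring

theorem gsr_pr_le (x y x' y' : ℕ → ℝ) (m : ℕ) (hx : ∀ i, 0 ≤ x i ∧ x i ≤ x' i)
    (hy : ∀ i, 0 ≤ y i ∧ y i ≤ y' i) : pr x y m ≤ pr x' y' m := by
  unfold pr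
  apply Finset.sum_le_sum
  intro i _
  exact mul_le_mul (hx i).2 (hy _).2 (hy _).1 ((hx i).1.trans (hx i).2)

theorem gsr_pr_nonneg (x y : ℕ → ℝ) (m : ℕ) (hx : ∀ i, 0 ≤ x i) (hy : ∀ i, 0 ≤ y i) :
    0 ≤ pr x y m := by
  unfold pr
  exact Finset.sum_nonneg fun i _ => mul_nonneg (hx i) (hy _)

theorem gsr_TT_nonneg (x y : ℕ → ℝ) (m : ℕ) (hx : ∀ i, 0 ≤ x i) (hy : ∀ i, 0 ≤ y i) :
    0 ≤ TT x y m := by
  unfold TT
  apply Finset.sum_nonneg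
  intro i _
  split_ifs
  · exact mul_nonneg (hx i) (hy _)
  · exact le_rfl

theorem gsr_pr_left (x x' z y : ℕ → ℝ) (m : ℕ) (h : ∀ i, x i + x' i = z i) :
    pr x y m + pr x' y m = pr z y m := by
  unfold pr
  rw [← Finset.sum_add_distrib]
  refine Finset.sum_congr rfl fun i _ => ?_
  rw [← h i]; ring

theorem gsr_pr_right (y y' z x : ℕ → ℝ) (m : ℕ) (h : ∀ i, y i + y' i = z i) :
    pr x y m + pr x y' m = pr x z m := by
  unfold pr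
  rw [← Finset.sum_add_distrib]
  refine Finset.sum_congr rfl fun i _ => ?_
  rw [← h _]; ring

theorem gsr_arith (δ ε Q R E FF1 FF2 prGB prPB prPA prMA prMB prGA prPG T1 T2 T3 T4 T5 T6 dG : ℝ)
    (hδ : 0 < δ) (hδ1 : δ ≤ 1 / 100) (hδ2 : δ ≤ ε / 4000) (hQ : 0 ≤ Q) (hR : 0 ≤ R)
    (hE : E ≤ δ * R)
    (hdG : -(2 * δ * R) ≤ dG)
    (hdiff : FF2 - FF1 = 4 * dG + (2 * T1 - 2 * T2 + T3 + T4 - T5 - 2 * T6))
    (hT1 : |T1 - Q| ≤ δ * Q + 20 * E) (hT2 : |T2 - prPB| ≤ δ * Q + 20 * E)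
    (hT3 : |T3 - prPG| ≤ δ * Q + 20 * E) (hT4 : |T4 - prGB| ≤ δ * Q + 20 * E)
    (hT5 : |T5 - prMA| ≤ δ * Q + 20 * E) (hT6 : |T6 - Q| ≤ δ * Q + 20 * E)
    (hPG : prPA + prPB = prPG) (hGB : prPB + prMB = prGB) (hGA : prPA + prMA = prGA)
    (hpA : |prPA - prGA / 2| ≤ δ * Q + 20 * E) (hpB : |prPB - prGB / 2| ≤ δ * Q + 20 * E)
    (hB : Q ≤ 2 * prGB + δ * Q)
    (hup : FF1 ≤ 8 * R + 4 * Q + 4 * (δ * Q + 20 * E))
    (hF : FF2 - FF1 ≤ δ * FF1) : Q ≤ ε * R := by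
  rw [abs_le] at hT1 hT2 hT3 hT4 hT5 hT6 hpA hpB
  have h1 : (2 * T1 - 2 * T2 + T3 + T4 - T5 - 2 * T6) ≥ prGB / 2 - 12 * (δ * Q + 20 * E) := by
    linarith [hT1.1, hT2.2, hT3.1, hT4.1, hT5.2, hT6.2, hpA.1, hpB.2]
  have h2 : prGB ≥ (Q - δ * Q) / 2 := by linarith
  have hF' : FF2 - FF1 ≤ δ * (8 * R + 4 * Q + 4 * (δ * Q + 20 * E)) :=
    hF.trans (mul_le_mul_of_nonneg_left hup hδ.le)
  have hE2 : δ * E ≤ δ * (δ * R) := mul_le_mul_of_nonneg_left hE hδ.le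
  have hdR : 0 ≤ δ * R := by positivity
  have hdQ : δ * Q ≤ 1 / 100 * Q := mul_le_mul_of_nonneg_right hδ1 hQ
  have hddQ : δ * (δ * Q) ≤ 1 / 100 * (1 / 100 * Q) :=
    (mul_le_mul_of_nonneg_left hdQ hδ.le).trans
      (mul_le_mul_of_nonneg_right hδ1 (by positivity))
  have hddR : δ * (δ * R) ≤ 1 / 100 * (δ * R) := mul_le_mul_of_nonneg_right hδ1 hdR
  have hdR2 : δ * R ≤ ε / 4000 * R := mul_le_mul_of_nonneg_right hδ2 hR
  nlinarith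

theorem key (h : SmH A B) (hF : Tendsto (fun n => FF (Pq A B) (Mq A B) A B (n + 1) /
      FF (Pq A B) (Mq A B) A B n) atTop (𝓝 1)) (ε : ℝ) (hε : 0 < ε) : ∃ m0, ∀ m ≥ m0,
    pr (Ga A B) (Ga A B) m ≤ ε * (Ga A B (3 * m) * Bl A B m) := by
  obtain ⟨hP, hM, hPM⟩ := gsr_pq h
  have hA0 := h.A0
  have hB0 := h.B0
  have hG1 : ∀ n, 1 ≤ Ga A B n := h.pos
  have hG0 : ∀ n, 0 ≤ Ga A B n := fun n => zero_le_one.trans (hG1 n)
  have hA : ∀ n, 0 ≤ A n ∧ A n ≤ Ga A B n := fun n =>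
    ⟨hA0 n, by unfold Ga; linarith [hB0 n]⟩
  have hB : ∀ n, 0 ≤ B n ∧ B n ≤ Ga A B n := fun n =>
    ⟨hB0 n, by unfold Ga; linarith [hA0 n]⟩
  have hG : ∀ n, 0 ≤ Ga A B n ∧ Ga A B n ≤ Ga A B n := fun n => ⟨hG0 n, le_rfl⟩
  set δ : ℝ := min (1 / 100) (ε / 4000) with hδdef
  have hδ : 0 < δ := lt_min (by norm_num) (by positivity)
  have hδ1 : δ ≤ 1 / 100 := min_le_left _ _
  have hδ2 : δ ≤ ε / 4000 := min_le_right _ _
  obtain ⟨n1, h1⟩ := sm_A h δ hδ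
  obtain ⟨n2, h2⟩ := ga_le_bl h δ hδ
  obtain ⟨n3, h3⟩ := TT_pr h δ hδ
  obtain ⟨n4, h4⟩ := pr_par h δ hδ
  obtain ⟨n5, h5⟩ := pr_B h δ hδ
  obtain ⟨n6, h6⟩ := (Metric.tendsto_atTop.1 hF) δ hδ
  refine ⟨n1 + n2 + n3 + n4 + n5 + n6 + 1, fun m hm => ?_⟩
  have hBl : 1 ≤ Bl A B m := by
    unfold Bl
    have : (A 0 + B 0) ≤ ∑ i ∈ Finset.range (m + 1), (A i + B i) :=
      Finset.single_le_sum (f := fun i => A i + B i) (fun i _ => by linarith [hA0 i, hB0 i])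
        (Finset.mem_range.2 (by omega))
    linarith [h.pos 0]
  have hBl0 : 0 ≤ Bl A B m := by linarith
  have s1 := (h1 (3 * m) (by omega)).2.2
  have s2 := (h1 (3 * m + 1) (by omega)).2.2
  have s2' : 3 * m + 1 + 1 = 3 * m + 2 := by ring
  rw [s2'] at s2
  have e2 := h2 m (by omega)
  have F1 := FF_one (Pq A B) (Mq A B) A B hPM m (by omega)
  have F2 := FF_two (Pq A B) (Mq A B) A B hPM m (by omega)
  have f6 := h6 (3 * m + 1) (by omega)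
  rw [s2', Real.dist_eq] at f6
  have t1 := h3 m (by omega) 2 (by norm_num) (Ga A B) (Ga A B) hG (Or.inr (Or.inr rfl))
  have t2 := h3 m (by omega) 2 (by norm_num) (Pq A B) B hP (Or.inr (Or.inl rfl))
  have t3 := h3 m (by omega) 3 (by norm_num) (Pq A B) (Ga A B) hP (Or.inr (Or.inr rfl))
  have t4 := h3 m (by omega) 3 (by norm_num) (Ga A B) B hG (Or.inr (Or.inl rfl))
  have t5 := h3 m (by omega) 0 (by norm_num) (Mq A B) A hM (Or.inl rfl)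
  have t6 := h3 m (by omega) 1 (by norm_num) (Ga A B) (Ga A B) hG (Or.inr (Or.inr rfl))
  rw [add_zero] at t5
  have pA := h4 m (by omega) A (Or.inl rfl)
  have pB := h4 m (by omega) B (Or.inr rfl)
  have b5 := h5 m (by omega)
  have hR : 0 ≤ Ga A B (3 * m) * Bl A B m := mul_nonneg (hG0 _) hBl0
  have hE : Ga A B (3 * m) * Ga A B m ≤ δ * (Ga A B (3 * m) * Bl A B m) := by
    have := mul_le_mul_of_nonneg_left e2 (hG0 (3 * m))
    linarith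
  have hQ : 0 ≤ pr (Ga A B) (Ga A B) m := gsr_pr_nonneg _ _ _ hG0 hG0
  have hMA : pr (Mq A B) A m ≤ pr (Ga A B) (Ga A B) m := gsr_pr_le _ _ _ _ _ hM hA
  have hPB : pr (Pq A B) B m ≤ pr (Ga A B) (Ga A B) m := gsr_pr_le _ _ _ _ _ hP hB
  rw [abs_le] at s1 s2
  have g1 : Ga A B (3 * m + 1) ≤ 2 * Ga A B (3 * m) := by
    have : δ * Ga A B (3 * m) ≤ 1 * Ga A B (3 * m) :=
      mul_le_mul_of_nonneg_right (by linarith) (hG0 _)
    linarith [s1.2]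
  have g1B : Ga A B (3 * m + 1) * Bl A B m ≤ 2 * (Ga A B (3 * m) * Bl A B m) := by
    have := mul_le_mul_of_nonneg_right g1 hBl0
    linarith
  have hpos : 0 < FF (Pq A B) (Mq A B) A B (3 * m + 1) := by
    rw [F1]
    have a1 := gsr_TT_nonneg (Mq A B) A (4 * m) (fun i => (hM i).1) hA0
    have a2 := gsr_TT_nonneg (Ga A B) (Ga A B) (4 * m + 1) hG0 hG0
    have a3 := gsr_TT_nonneg (Pq A B) B (4 * m + 2) (fun i => (hP i).1) hB0
    have a4 : 0 < Ga A B (3 * m + 1) * Bl A B m :=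
      mul_pos (by linarith [hG1 (3 * m + 1)]) (by linarith)
    linarith
  have hFF : FF (Pq A B) (Mq A B) A B (3 * m + 2) - FF (Pq A B) (Mq A B) A B (3 * m + 1) ≤
      δ * FF (Pq A B) (Mq A B) A B (3 * m + 1) := by
    have := (abs_lt.1 f6).2
    have h7 : FF (Pq A B) (Mq A B) A B (3 * m + 2) / FF (Pq A B) (Mq A B) A B (3 * m + 1) ≤
        1 + δ := by linarith
    rw [div_le_iff₀ hpos] at h7
    linarith
  have hdG : -(2 * δ * (Ga A B (3 * m) * Bl A B m)) ≤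
      (Ga A B (3 * m + 2) - Ga A B (3 * m + 1)) * Bl A B m := by
    have h8 : -(δ * Ga A B (3 * m + 1)) * Bl A B m ≤
        (Ga A B (3 * m + 2) - Ga A B (3 * m + 1)) * Bl A B m :=
      mul_le_mul_of_nonneg_right s2.1 hBl0
    have h9 : δ * (Ga A B (3 * m + 1) * Bl A B m) ≤ δ * (2 * (Ga A B (3 * m) * Bl A B m)) :=
      mul_le_mul_of_nonneg_left g1B hδ.le
    linarith
  refine gsr_arith δ ε (pr (Ga A B) (Ga A B) m) (Ga A B (3 * m) * Bl A B m)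
    (Ga A B (3 * m) * Ga A B m) (FF (Pq A B) (Mq A B) A B (3 * m + 1))
    (FF (Pq A B) (Mq A B) A B (3 * m + 2)) (pr (Ga A B) B m) (pr (Pq A B) B m)
    (pr (Pq A B) A m) (pr (Mq A B) A m) (pr (Mq A B) B m) (pr (Ga A B) A m)
    (pr (Pq A B) (Ga A B) m) (TT (Ga A B) (Ga A B) (4 * m + 2)) (TT (Pq A B) B (4 * m + 2))
    (TT (Pq A B) (Ga A B) (4 * m + 3)) (TT (Ga A B) B (4 * m + 3)) (TT (Mq A B) A (4 * m))
    (TT (Ga A B) (Ga A B) (4 * m + 1))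
    ((Ga A B (3 * m + 2) - Ga A B (3 * m + 1)) * Bl A B m)
    hδ hδ1 hδ2 hQ hR hE hdG ?_ t1 t2 t3 t4 t5 t6 ?_ ?_ ?_ pA pB b5 ?_ hFF
  · rw [F1, F2]; ring
  · exact gsr_pr_right _ _ _ _ _ fun i => rfl
  · exact gsr_pr_left _ _ _ _ _ hPM
  · exact gsr_pr_left _ _ _ _ _ hPM
  · rw [F1]
    have u1 := (abs_le.1 t5).2
    have u2 := (abs_le.1 t6).2
    have u3 := (abs_le.1 t2).2
    linarith

end Ana

end GSR
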