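import Pool.Agent.Helper242.GSR.Defs

namespace GSR

open Filter Topology

section W

variable {G : Type} [Group G] (D : Dat G)

theorem H_count (e : Bool) (p q : G → Prop) (hp : ∀ x, ∀ u ∈ D.U, p x → p (x * u))
    (hq : ∀ x, ∀ u ∈ D.U, q x → q (x * u)) (hpf : {x | p x}.Finite) (hqf : {x | q x}.Finite) :
    Nat.card {g : G // D.w g = e ∧ p (D.c0 g) ∧ q (D.c1 g)} * (Nat.card D.U * Nat.card D.U) =
      Nat.card {g : G // D.w g = false ∧ D.c0 g ∈ D.U ∧ D.c1 g ∈ D.U} *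
        (Nat.card {x // p x} * Nat.card {x // q x}) := by
  classical
  have hw1 : D.w 1 = false := by
    have h := D.w_mul 1 1
    rw [mul_one] at h
    cases h1 : D.w 1
    · rfl
    · rw [h1] at h; simp at h
  have hc01 : D.c0 1 = 1 := by
    have h := D.c0_mul 1 1
    rw [mul_one, hw1] at h
    simpa using h
  have hc11 : D.c1 1 = 1 := by
    have h := D.c1_mul 1 1
    rw [mul_one, hw1] at h
    simpa using h
  have hττ : D.τ * D.τ = 1 := by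
    refine D.dec_inj _ _ ?_ ?_ ?_
    · rw [D.c0_mul, D.w_τ, D.c0_τ, D.c1_τ, hc01]; simp
    · rw [D.c1_mul, D.w_τ, D.c0_τ, D.c1_τ, hc11]; simp
    · rw [D.w_mul, D.w_τ, hw1]; rfl
  obtain ⟨te, ht0, ht1, htw, htt⟩ : ∃ te : G, D.c0 te = 1 ∧ D.c1 te = 1 ∧ D.w te = e ∧
      te * te = 1 := by
    cases e
    · exact ⟨1, hc01, hc11, hw1, mul_one 1⟩
    · exact ⟨D.τ, D.c0_τ, D.c1_τ, D.w_τ, hττ⟩
  have hte0 : ∀ h, D.c0 (h * te) = D.c0 h := by
    intro h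
    rw [D.c0_mul, ht0, ht1]; simp
  have hte1 : ∀ h, D.c1 (h * te) = D.c1 h := by
    intro h
    rw [D.c1_mul, ht0, ht1]; simp
  have hk0 : ∀ k h, D.w k = false → D.c0 (k * h) = D.c0 k * D.c0 h := by
    intro k h hk
    rw [D.c0_mul, hk]; simp
  have hk1 : ∀ k h, D.w k = false → D.c1 (k * h) = D.c1 k * D.c1 h := by
    intro k h hk
    rw [D.c1_mul, hk]; simp
  have hi0 : ∀ k h, D.w k = false → D.c0 (k⁻¹ * h) = (D.c0 k)⁻¹ * D.c0 h := by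
    intro k h hk
    have h1 := hk0 k (k⁻¹ * h) hk
    rw [mul_inv_cancel_left] at h1
    rw [h1, inv_mul_cancel_left]
  have hi1 : ∀ k h, D.w k = false → D.c1 (k⁻¹ * h) = (D.c1 k)⁻¹ * D.c1 h := by
    intro k h hk
    have h1 := hk1 k (k⁻¹ * h) hk
    rw [mul_inv_cancel_left] at h1
    rw [h1, inv_mul_cancel_left]
  have hiw : ∀ k h, D.w k = false → D.w (k⁻¹ * h) = D.w h := by
    intro k h hk
    have h1 := D.w_mul k (k⁻¹ * h)
    rw [mul_inv_cancel_left, hk] at h1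
    simpa using h1.symm
  choose u hu v hv g0 h0 h1 hw using D.H0
  -- the two maps
  have hF : ∀ (g : G) (a b : G), D.w g = e → a ∈ D.U → b ∈ D.U →
      D.w ((g0 (D.c0 g * a) (D.c1 g * b))⁻¹ * g * te) = false ∧
      D.c0 ((g0 (D.c0 g * a) (D.c1 g * b))⁻¹ * g * te) ∈ D.U ∧
      D.c1 ((g0 (D.c0 g * a) (D.c1 g * b))⁻¹ * g * te) ∈ D.U := by
    intro g a b hg ha hb
    refine ⟨?_, ?_, ?_⟩
    · rw [D.w_mul, hiw _ _ (hw _ _), hg, htw]; simp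
    · rw [hte0, hi0 _ _ (hw _ _), h0]
      have : (D.c0 g * a * u (D.c0 g * a) (D.c1 g * b))⁻¹ * D.c0 g =
          (u (D.c0 g * a) (D.c1 g * b))⁻¹ * a⁻¹ := by group
      rw [this]
      exact D.U.mul_mem (D.U.inv_mem (hu _ _)) (D.U.inv_mem ha)
    · rw [hte1, hi1 _ _ (hw _ _), h1]
      have : (D.c1 g * b * v (D.c0 g * a) (D.c1 g * b))⁻¹ * D.c1 g =
          (v (D.c0 g * a) (D.c1 g * b))⁻¹ * b⁻¹ := by group
      rw [this]
      exact D.U.mul_mem (D.U.inv_mem (hv _ _)) (D.U.inv_mem hb)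
  have hG : ∀ (f x y : G), D.w f = false → D.c0 f ∈ D.U → D.c1 f ∈ D.U →
      D.w (g0 x y * f * te) = e ∧ D.c0 (g0 x y * f * te) = x * (u x y * D.c0 f) ∧
      D.c1 (g0 x y * f * te) = y * (v x y * D.c1 f) := by
    intro f x y hf hf0 hf1
    refine ⟨?_, ?_, ?_⟩
    · rw [D.w_mul, D.w_mul, hw, hf, htw]; simp
    · rw [hte0, hk0 _ _ (hw _ _), h0, mul_assoc]
    · rw [hte1, hk1 _ _ (hw _ _), h1, mul_assoc]
  have key : ({g : G // D.w g = e ∧ p (D.c0 g) ∧ q (D.c1 g)} × (D.U × D.U)) ≃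
      ({g : G // D.w g = false ∧ D.c0 g ∈ D.U ∧ D.c1 g ∈ D.U} × ({x // p x} × {x // q x})) :=
    { toFun := fun z => (⟨_, hF z.1.1 z.2.1.1 z.2.2.1 z.1.2.1 z.2.1.2 z.2.2.2⟩,
        (⟨D.c0 z.1.1 * z.2.1.1, hp _ _ z.2.1.2 z.1.2.2.1⟩,
          ⟨D.c1 z.1.1 * z.2.2.1, hq _ _ z.2.2.2 z.1.2.2.2⟩))
      invFun := fun z => (⟨g0 z.2.1.1 z.2.2.1 * z.1.1 * te, by
            obtain ⟨k1, k2, k3⟩ := hG z.1.1 z.2.1.1 z.2.2.1 z.1.2.1 z.1.2.2.1 z.1.2.2.2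
            refine ⟨k1, ?_, ?_⟩
            · rw [k2]; exact hp _ _ (D.U.mul_mem (hu _ _) z.1.2.2.1) z.2.1.2
            · rw [k3]; exact hq _ _ (D.U.mul_mem (hv _ _) z.1.2.2.2) z.2.2.2⟩,
          (⟨(D.c0 (g0 z.2.1.1 z.2.2.1 * z.1.1 * te))⁻¹ * z.2.1.1, by
            obtain ⟨k1, k2, k3⟩ := hG z.1.1 z.2.1.1 z.2.2.1 z.1.2.1 z.1.2.2.1 z.1.2.2.2
            rw [k2, mul_inv_rev, mul_assoc, inv_mul_cancel, mul_one]
            exact D.U.inv_mem (D.U.mul_mem (hu _ _) z.1.2.2.1)⟩,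
          ⟨(D.c1 (g0 z.2.1.1 z.2.2.1 * z.1.1 * te))⁻¹ * z.2.2.1, by
            obtain ⟨k1, k2, k3⟩ := hG z.1.1 z.2.1.1 z.2.2.1 z.1.2.1 z.1.2.2.1 z.1.2.2.2
            rw [k3, mul_inv_rev, mul_assoc, inv_mul_cancel, mul_one]
            exact D.U.inv_mem (D.U.mul_mem (hv _ _) z.1.2.2.2)⟩))
      left_inv := by
        rintro ⟨⟨g, hg⟩, ⟨a, ha⟩, ⟨b, hb⟩⟩
        have e1 : g0 (D.c0 g * a) (D.c1 g * b) *
            ((g0 (D.c0 g * a) (D.c1 g * b))⁻¹ * g * te) * te = g := by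
          rw [← mul_assoc, ← mul_assoc, mul_inv_cancel, one_mul, mul_assoc, htt, mul_one]
        refine Prod.ext (Subtype.ext e1) (Prod.ext (Subtype.ext ?_) (Subtype.ext ?_))
        · show (D.c0 _)⁻¹ * (D.c0 g * a) = a
          rw [e1, inv_mul_cancel_left]
        · show (D.c1 _)⁻¹ * (D.c1 g * b) = b
          rw [e1, inv_mul_cancel_left]
      right_inv := by
        rintro ⟨⟨f, hf⟩, ⟨x, hx⟩, ⟨y, hy⟩⟩
        have e1 : D.c0 (g0 x y * f * te) * ((D.c0 (g0 x y * f * te))⁻¹ * x) = x :=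
          mul_inv_cancel_left _ _
        have e2 : D.c1 (g0 x y * f * te) * ((D.c1 (g0 x y * f * te))⁻¹ * y) = y :=
          mul_inv_cancel_left _ _
        refine Prod.ext (Subtype.ext ?_) (Prod.ext (Subtype.ext e1) (Subtype.ext e2))
        show (g0 (D.c0 (g0 x y * f * te) * ((D.c0 (g0 x y * f * te))⁻¹ * x))
          (D.c1 (g0 x y * f * te) * ((D.c1 (g0 x y * f * te))⁻¹ * y)))⁻¹ *
            (g0 x y * f * te) * te = f
        rw [e1, e2, mul_assoc, mul_assoc, mul_assoc, htt, mul_one, inv_mul_cancel_left] }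
  have hc := Nat.card_congr key
  rw [Nat.card_prod, Nat.card_prod, Nat.card_prod, Nat.card_prod] at hc
  exact hc

end W

end GSR
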