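import Pool.Agent.Helper242.GSR.Defs

namespace GSR

open Filter Topology

section W

variable {G : Type} [Group G] (D : Dat G)

theorem W1_nat (n : ℕ) : D.W (n : ℤ) = D.Wp n := by
  unfold Dat.W
  rw [if_pos (Int.natCast_nonneg n), Int.toNat_natCast]

theorem W1_neg (n : ℕ) : D.W (-(n : ℤ)) = D.Wn n := by
  rcases Nat.eq_zero_or_pos n with rfl | hn
  · unfold Dat.W
    simp [Dat.Wp, Dat.Wn]
  · unfold Dat.W
    rw [if_neg (by omega), neg_neg, Int.toNat_natCast]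

theorem W1_pe (k : ℕ) (g : G) : g ∈ D.Wp (2 * k + 1) ↔ g * D.a ∈ D.Wp (2 * k) := by
  have h : (2 * k) % 2 = 0 := by omega
  simp only [Dat.Wp, h, if_true]
  rfl

theorem W1_po (k : ℕ) (g : G) : g ∈ D.Wp (2 * k + 2) ↔ ∃ x ∈ D.K, g * x ∈ D.Wp (2 * k + 1) := by
  have h : ¬ (2 * k + 1) % 2 = 0 := by omega
  change g ∈ (if (2 * k + 1) % 2 = 0 then {g | g * D.a ∈ D.Wp (2 * k + 1)} else
    {g | ∃ x ∈ D.K, g * x ∈ D.Wp (2 * k + 1)}) ↔ _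
  rw [if_neg h]
  rfl

theorem W1_ne (k : ℕ) (g : G) : g ∈ D.Wn (2 * k + 1) ↔ ∃ x ∈ D.K, g * x ∈ D.Wn (2 * k) := by
  have h : (2 * k) % 2 = 0 := by omega
  change g ∈ (if (2 * k) % 2 = 0 then {g | ∃ x ∈ D.K, g * x ∈ D.Wn (2 * k)} else
    {g | g * D.a ∈ D.Wn (2 * k)}) ↔ _
  rw [if_pos h]
  rfl

theorem W1_no (k : ℕ) (g : G) : g ∈ D.Wn (2 * k + 2) ↔ g * D.a ∈ D.Wn (2 * k + 1) := by
  have h : ¬ (2 * k + 1) % 2 = 0 := by omega
  change g ∈ (if (2 * k + 1) % 2 = 0 then {g | ∃ x ∈ D.K, g * x ∈ D.Wn (2 * k + 1)} else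
    {g | g * D.a ∈ D.Wn (2 * k + 1)}) ↔ _
  rw [if_neg h]
  rfl

theorem W1_ua {g u : G} : g * u * D.a = g * D.a * (D.a * u * D.a) := by
  have h := D.a_sq
  calc g * u * D.a = g * 1 * u * D.a := by rw [mul_one]
    _ = g * (D.a * D.a) * u * D.a := by rw [h]
    _ = g * D.a * (D.a * u * D.a) := by group

theorem W1_pU (n : ℕ) : ∀ g u : G, g ∈ D.Wp n → u ∈ D.U → g * u ∈ D.Wp n := by
  induction n with
  | zero =>
    intro g u hg hu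
    exact D.U.mul_mem hg hu
  | succ n ih =>
    intro g u hg hu
    rcases Nat.even_or_odd' n with ⟨k, rfl | rfl⟩
    · rw [W1_pe] at hg ⊢
      rw [W1_ua]
      exact ih _ _ hg (D.a_norm u hu)
    · rw [W1_po] at hg ⊢
      obtain ⟨x, hx, hgx⟩ := hg
      refine ⟨u⁻¹ * x, D.K.mul_mem (D.K.inv_mem (D.U_le hu)) hx, ?_⟩
      have e : g * u * (u⁻¹ * x) = g * x := by group
      rw [e]
      exact hgx

theorem W1_nU (n : ℕ) : ∀ g u : G, g ∈ D.Wn n → u ∈ D.U → g * u ∈ D.Wn n := by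
  induction n with
  | zero =>
    intro g u hg hu
    exact D.U.mul_mem hg hu
  | succ n ih =>
    intro g u hg hu
    rcases Nat.even_or_odd' n with ⟨k, rfl | rfl⟩
    · rw [W1_ne] at hg ⊢
      obtain ⟨x, hx, hgx⟩ := hg
      refine ⟨u⁻¹ * x, D.K.mul_mem (D.K.inv_mem (D.U_le hu)) hx, ?_⟩
      have e : g * u * (u⁻¹ * x) = g * x := by group
      rw [e]
      exact hgx
    · rw [W1_no] at hg ⊢
      rw [W1_ua]
      exact ih _ _ hg (D.a_norm u hu)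

theorem W1_aa (g : G) : g * D.a * D.a = g := by
  rw [mul_assoc, D.a_sq, mul_one]

theorem W_mulU {X : ℤ} {g u : G} (hg : g ∈ D.W X) (hu : u ∈ D.U) : g * u ∈ D.W X := by
  unfold Dat.W at hg ⊢
  split_ifs at hg ⊢ with h
  · exact W1_pU D _ g u hg hu
  · exact W1_nU D _ g u hg hu

theorem W_mula {X : ℤ} {g : G} (hg : g ∈ D.W X) : g * D.a ∈ D.W (sP X) := by
  have hX : (∃ k : ℕ, X = ((2 * k : ℕ) : ℤ)) ∨ (∃ k : ℕ, X = ((2 * k + 1 : ℕ) : ℤ)) ∨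
      (∃ k : ℕ, X = -((2 * k + 1 : ℕ) : ℤ)) ∨ (∃ k : ℕ, X = -((2 * k + 2 : ℕ) : ℤ)) := by
    rcases Int.even_or_odd' X with ⟨c, hc⟩
    rcases le_or_gt 0 X with h | h
    · rcases hc with hc | hc
      · exact Or.inl ⟨c.toNat, by push_cast; omega⟩
      · exact Or.inr (Or.inl ⟨c.toNat, by push_cast; omega⟩)
    · rcases hc with hc | hc
      · exact Or.inr (Or.inr (Or.inr ⟨(-c - 1).toNat, by push_cast; omega⟩))
      · exact Or.inr (Or.inr (Or.inl ⟨(-c - 1).toNat, by push_cast; omega⟩))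
  rcases hX with ⟨k, rfl⟩ | ⟨k, rfl⟩ | ⟨k, rfl⟩ | ⟨k, rfl⟩
  · have e : sP ((2 * k : ℕ) : ℤ) = ((2 * k + 1 : ℕ) : ℤ) := by
      unfold sP
      rw [if_pos (by omega)]
      push_cast
      ring
    rw [e, W1_nat, W1_pe, W1_aa]
    rwa [W1_nat] at hg
  · have e : sP ((2 * k + 1 : ℕ) : ℤ) = ((2 * k : ℕ) : ℤ) := by
      unfold sP
      rw [if_neg (by omega)]
      push_cast
      ring
    rw [e, W1_nat]
    rwa [W1_nat, W1_pe] at hg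
  · have e : sP (-((2 * k + 1 : ℕ) : ℤ)) = -((2 * k + 2 : ℕ) : ℤ) := by
      unfold sP
      rw [if_neg (by omega)]
      push_cast
      ring
    rw [e, W1_neg, W1_no, W1_aa]
    rwa [W1_neg] at hg
  · have e : sP (-((2 * k + 2 : ℕ) : ℤ)) = -((2 * k + 1 : ℕ) : ℤ) := by
      unfold sP
      rw [if_pos (by omega)]
      push_cast
      ring
    rw [e, W1_neg]
    rwa [W1_neg, W1_no] at hg

theorem W1_casesK (X : ℤ) : (∃ k : ℕ, X = ((2 * k + 2 : ℕ) : ℤ)) ∨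
    (∃ k : ℕ, X = ((2 * k + 1 : ℕ) : ℤ)) ∨
      (∃ k : ℕ, X = -((2 * k : ℕ) : ℤ)) ∨ (∃ k : ℕ, X = -((2 * k + 1 : ℕ) : ℤ)) := by
  rcases Int.even_or_odd' X with ⟨c, hc⟩
  rcases le_or_gt X 0 with h | h
  · rcases hc with hc | hc
    · exact Or.inr (Or.inr (Or.inl ⟨(-c).toNat, by push_cast; omega⟩))
    · exact Or.inr (Or.inr (Or.inr ⟨(-c - 1).toNat, by push_cast; omega⟩))
  · rcases hc with hc | hc
    · exact Or.inl ⟨(c - 1).toNat, by push_cast; omega⟩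
    · exact Or.inr (Or.inl ⟨c.toNat, by push_cast; omega⟩)

theorem W1_t1 (k : ℕ) : tP ((2 * k + 2 : ℕ) : ℤ) = ((2 * k + 1 : ℕ) : ℤ) := by
  unfold tP
  rw [if_pos (by omega)]
  push_cast
  ring

theorem W1_t2 (k : ℕ) : tP ((2 * k + 1 : ℕ) : ℤ) = ((2 * k + 2 : ℕ) : ℤ) := by
  unfold tP
  rw [if_neg (by omega)]
  push_cast
  ring

theorem W1_t3 (k : ℕ) : tP (-((2 * k : ℕ) : ℤ)) = -((2 * k + 1 : ℕ) : ℤ) := by
  unfold tP
  rw [if_pos (by omega)]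
  push_cast
  ring

theorem W1_t4 (k : ℕ) : tP (-((2 * k + 1 : ℕ) : ℤ)) = -((2 * k : ℕ) : ℤ) := by
  unfold tP
  rw [if_neg (by omega)]
  push_cast
  ring

theorem W_mulK {X : ℤ} {g k : G} (hg : g ∈ D.W X) (hk : k ∈ D.K) :
    g * k ∈ D.W X ∨ g * k ∈ D.W (tP X) := by
  rcases W1_casesK X with ⟨m, rfl⟩ | ⟨m, rfl⟩ | ⟨m, rfl⟩ | ⟨m, rfl⟩
  · left
    rw [W1_nat, W1_po] at hg ⊢
    obtain ⟨x, hx, hgx⟩ := hg
    refine ⟨k⁻¹ * x, D.K.mul_mem (D.K.inv_mem hk) hx, ?_⟩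
    have e : g * k * (k⁻¹ * x) = g * x := by group
    rw [e]
    exact hgx
  · right
    rw [W1_t2, W1_nat, W1_po]
    rw [W1_nat] at hg
    refine ⟨k⁻¹, D.K.inv_mem hk, ?_⟩
    rw [mul_inv_cancel_right]
    exact hg
  · right
    rw [W1_t3, W1_neg, W1_ne]
    rw [W1_neg] at hg
    refine ⟨k⁻¹, D.K.inv_mem hk, ?_⟩
    rw [mul_inv_cancel_right]
    exact hg
  · left
    rw [W1_neg, W1_ne] at hg ⊢
    obtain ⟨x, hx, hgx⟩ := hg
    refine ⟨k⁻¹ * x, D.K.mul_mem (D.K.inv_mem hk) hx, ?_⟩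
    have e : g * k * (k⁻¹ * x) = g * x := by group
    rw [e]
    exact hgx

theorem W_t {X : ℤ} {g : G} (hg : g ∈ D.W X) : ∃ k ∈ D.K, g * k ∈ D.W (tP X) := by
  rcases W1_casesK X with ⟨m, rfl⟩ | ⟨m, rfl⟩ | ⟨m, rfl⟩ | ⟨m, rfl⟩
  · rw [W1_t1, W1_nat]
    rwa [W1_nat, W1_po] at hg
  · rw [W1_t2, W1_nat]
    rw [W1_nat] at hg
    refine ⟨1, D.K.one_mem, (W1_po D _ _).2 ⟨1, D.K.one_mem, ?_⟩⟩
    rwa [mul_one, mul_one]
  · rw [W1_t3, W1_neg]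
    rw [W1_neg] at hg
    refine ⟨1, D.K.one_mem, (W1_ne D _ _).2 ⟨1, D.K.one_mem, ?_⟩⟩
    rwa [mul_one, mul_one]
  · rw [W1_t4, W1_neg]
    rwa [W1_neg, W1_ne] at hg

theorem W_zero {g : G} : g ∈ D.W 0 ↔ g ∈ D.U := by
  have h := W1_nat D 0
  rw [Nat.cast_zero] at h
  rw [h]
  rfl

theorem W_one {g : G} : g ∈ D.W 1 ↔ g * D.a ∈ D.U := by
  have h := W1_nat D 1
  rw [Nat.cast_one] at h
  rw [h]
  exact W1_pe D 0 g

theorem W_neg_one {g : G} : g ∈ D.W (-1) ↔ g ∈ D.K := by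
  have h := W1_neg D 1
  rw [Nat.cast_one] at h
  rw [h]
  refine (W1_ne D 0 g).trans ⟨?_, ?_⟩
  · rintro ⟨x, hx, hgx⟩
    have h1 : g * x ∈ D.K := D.U_le hgx
    exact (Subgroup.mul_mem_cancel_right D.K hx).1 h1
  · intro hg
    refine ⟨g⁻¹, D.K.inv_mem hg, ?_⟩
    rw [mul_inv_cancel]
    exact D.U.one_mem

end W

end GSR
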