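import Pool.Agent.Helper242.GSR.Defs
import Pool.Agent.Helper242.GSR.J31004

namespace GSR

open Filter Topology

section W

variable {G : Type} [Group G] (D : Dat G)

theorem W_chi_Wp (n : ℕ) : ∀ {g : G}, g ∈ D.Wp n → (D.χ g = true ↔ ((n + 1) / 2) % 2 = 1) := by
  induction n with
  | zero =>
    intro g hg
    have hg' : g ∈ D.U := hg
    rw [D.χ_K g (D.U_le hg')]
    simp
  | succ n ih =>
    intro g hg
    by_cases hn : n % 2 = 0
    · have hg' : g * D.a ∈ D.Wp n := by
        have h1 : D.Wp (n + 1) = {g | g * D.a ∈ D.Wp n} := by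
          show (if n % 2 = 0 then _ else _) = _
          rw [if_pos hn]
        rw [h1] at hg
        exact hg
      have h2 := ih hg'
      rw [D.χ_mul, D.χ_a] at h2
      cases h : D.χ g
      · rw [h] at h2
        simp only [Bool.false_xor, true_iff] at h2
        constructor
        · intro h3; exact absurd h3 (by decide)
        · intro h3; omega
      · rw [h] at h2
        simp only [Bool.xor_self, Bool.false_eq_true, false_iff] at h2
        constructor
        · intro _; omega
        · intro _; rfl
    · have hg' : ∃ k ∈ D.K, g * k ∈ D.Wp n := by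
        have h1 : D.Wp (n + 1) = {g | ∃ k ∈ D.K, g * k ∈ D.Wp n} := by
          show (if n % 2 = 0 then _ else _) = _
          rw [if_neg hn]
        rw [h1] at hg
        exact hg
      obtain ⟨k, hk, hgk⟩ := hg'
      have h2 := ih hgk
      rw [D.χ_mul, D.χ_K k hk, Bool.xor_false] at h2
      rw [h2]
      omega

theorem W_chi_Wn (n : ℕ) : ∀ {g : G}, g ∈ D.Wn n → (D.χ g = true ↔ (n / 2) % 2 = 1) := by
  induction n with
  | zero =>
    intro g hg
    have hg' : g ∈ D.U := hg
    rw [D.χ_K g (D.U_le hg')]
    simp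
  | succ n ih =>
    intro g hg
    by_cases hn : n % 2 = 0
    · have hg' : ∃ k ∈ D.K, g * k ∈ D.Wn n := by
        have h1 : D.Wn (n + 1) = {g | ∃ k ∈ D.K, g * k ∈ D.Wn n} := by
          show (if n % 2 = 0 then _ else _) = _
          rw [if_pos hn]
        rw [h1] at hg
        exact hg
      obtain ⟨k, hk, hgk⟩ := hg'
      have h2 := ih hgk
      rw [D.χ_mul, D.χ_K k hk, Bool.xor_false] at h2
      rw [h2]
      omega
    · have hg' : g * D.a ∈ D.Wn n := by
        have h1 : D.Wn (n + 1) = {g | g * D.a ∈ D.Wn n} := by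
          show (if n % 2 = 0 then _ else _) = _
          rw [if_neg hn]
        rw [h1] at hg
        exact hg
      have h2 := ih hg'
      rw [D.χ_mul, D.χ_a] at h2
      cases h : D.χ g
      · rw [h] at h2
        simp only [Bool.false_xor, true_iff] at h2
        constructor
        · intro h3; exact absurd h3 (by decide)
        · intro h3; omega
      · rw [h] at h2
        simp only [Bool.xor_self, Bool.false_eq_true, false_iff] at h2
        constructor
        · intro _; omega
        · intro _; rfl

theorem W_chi {X : ℤ} {g : G} (hg : g ∈ D.W X) : D.χ g = decide (((X + 1) / 2) % 2 = 1) := by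
  rw [Bool.eq_iff_iff, decide_eq_true_iff]
  unfold Dat.W at hg
  by_cases hX : 0 ≤ X
  · rw [if_pos hX] at hg
    rw [W_chi_Wp D _ hg]
    omega
  · rw [if_neg hX] at hg
    rw [W_chi_Wn D _ hg]
    omega

theorem W_ex (g : G) : ∃ X, g ∈ D.W X := by
  have hg : g ∈ Subgroup.closure ((D.K : Set G) ∪ {D.a}) := by rw [D.gen]; trivial
  have step : ∀ x y : G, y ∈ (D.K : Set G) ∪ {D.a} → (∃ X, x ∈ D.W X) → ∃ X, x * y ∈ D.W X := by
    rintro x y (hy | hy) ⟨X, hX⟩
    · rcases W_mulK D hX hy with h | h
      · exact ⟨_, h⟩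
      · exact ⟨_, h⟩
    · rw [Set.mem_singleton_iff] at hy
      rw [hy]
      exact ⟨_, W_mula D hX⟩
  have hai : D.a⁻¹ = D.a := inv_eq_of_mul_eq_one_left D.a_sq
  induction hg using Subgroup.closure_induction_right with
  | one => exact ⟨0, (W_zero D).mpr D.U.one_mem⟩
  | mul_right x hx y hy ih => exact step x y hy ih
  | mul_inv_cancel x hx y hy ih =>
    refine step x y⁻¹ ?_ ih
    rcases hy with hy | hy
    · exact Or.inl (D.K.inv_mem hy)
    · rw [Set.mem_singleton_iff] at hy
      right
      rw [hy, hai]
      rfl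

theorem W_fin (X : ℤ) : (D.W X).Finite := by
  have hU : (D.U : Set G).Finite := D.K_fin.subset D.U_le
  have ha : ∀ S : Set G, S.Finite → {g | g * D.a ∈ S}.Finite := by
    intro S hS
    exact hS.preimage (mul_left_injective D.a).injOn
  have hk : ∀ S : Set G, S.Finite → {g | ∃ k ∈ D.K, g * k ∈ S}.Finite := by
    intro S hS
    have h1 : {g | ∃ k ∈ D.K, g * k ∈ S} = ⋃ k ∈ (D.K : Set G), {g | g * k ∈ S} := by
      ext g
      simp
    rw [h1]
    exact D.K_fin.biUnion fun k _ => hS.preimage (mul_left_injective k).injOn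
  have hp : ∀ n, (D.Wp n).Finite := by
    intro n
    induction n with
    | zero => exact hU
    | succ n ih =>
      show (if n % 2 = 0 then {g | g * D.a ∈ D.Wp n} else {g | ∃ k ∈ D.K, g * k ∈ D.Wp n}).Finite
      split_ifs
      · exact ha _ ih
      · exact hk _ ih
  have hn : ∀ n, (D.Wn n).Finite := by
    intro n
    induction n with
    | zero => exact hU
    | succ n ih =>
      show (if n % 2 = 0 then {g | ∃ k ∈ D.K, g * k ∈ D.Wn n} else {g | g * D.a ∈ D.Wn n}).Finite
      split_ifs
      · exact hk _ ih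
      · exact ha _ ih
  unfold Dat.W
  split_ifs
  · exact hp _
  · exact hn _

end W

end GSR
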