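import Pool.Agent.Helper242.GSR.Defs
import Pool.Agent.Helper242.GSR.T2def
import Pool.Agent.Helper242.GSR.J31004

namespace GSR

open Filter Topology

section W

variable {G : Type} [Group G] (D : Dat G)

theorem T2_w_one : D.w 1 = false := by
  have h := D.w_mul 1 1
  rw [one_mul] at h
  rw [h]; cases D.w 1 <;> rfl

theorem T2_c0_one : D.c0 1 = 1 := by
  have h := D.c0_mul 1 1
  rw [one_mul, T2_w_one D] at h
  simp only [Bool.false_eq_true, if_false] at h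
  exact left_eq_mul.1 h

theorem T2_c1_one : D.c1 1 = 1 := by
  have h := D.c1_mul 1 1
  rw [one_mul, T2_w_one D] at h
  simp only [Bool.false_eq_true, if_false] at h
  exact left_eq_mul.1 h

theorem T2_w_inv (h : G) : D.w h⁻¹ = D.w h := by
  have h1 := D.w_mul h h⁻¹
  rw [mul_inv_cancel, T2_w_one D] at h1
  revert h1
  cases D.w h <;> cases D.w h⁻¹ <;> simp

theorem T2_inv_false {h : G} (hw : D.w h = false) :
    D.c0 h⁻¹ = (D.c0 h)⁻¹ ∧ D.c1 h⁻¹ = (D.c1 h)⁻¹ := by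
  have h1 := D.c0_mul h h⁻¹
  have h2 := D.c1_mul h h⁻¹
  rw [mul_inv_cancel, T2_c0_one D, hw] at h1
  rw [mul_inv_cancel, T2_c1_one D, hw] at h2
  simp only [Bool.false_eq_true, if_false] at h1 h2
  exact ⟨(inv_eq_of_mul_eq_one_right h1.symm).symm, (inv_eq_of_mul_eq_one_right h2.symm).symm⟩

theorem T2_inv_true {h : G} (hw : D.w h = true) :
    D.c0 h⁻¹ = (D.c1 h)⁻¹ ∧ D.c1 h⁻¹ = (D.c0 h)⁻¹ := by
  have h1 := D.c0_mul h h⁻¹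
  have h2 := D.c1_mul h h⁻¹
  rw [mul_inv_cancel, T2_c0_one D, hw] at h1
  rw [mul_inv_cancel, T2_c1_one D, hw] at h2
  simp only [if_true] at h1 h2
  exact ⟨(inv_eq_of_mul_eq_one_right h2.symm).symm, (inv_eq_of_mul_eq_one_right h1.symm).symm⟩

theorem T2_a_inv : D.a⁻¹ = D.a := inv_eq_of_mul_eq_one_right D.a_sq

theorem T2_Ua {x : G} (hx : x * D.a ∈ D.U) : x⁻¹ * D.a ∈ D.U := by
  have h1 := D.a_norm _ (D.U.inv_mem hx)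
  have e : D.a * (x * D.a)⁻¹ * D.a = x⁻¹ * D.a := by
    rw [mul_inv_rev, T2_a_inv D, ← mul_assoc, D.a_sq, one_mul]
  rw [e] at h1
  exact h1

theorem T2_fin : (T2 D).Finite := by
  have hU : (D.U : Set G).Finite := D.K_fin.subset D.U_le
  have hF : ((D.K : Set G) ∪ {x | x * D.a ∈ D.U}).Finite := by
    apply D.K_fin.union
    exact hU.preimage (f := fun x => x * D.a) ((mul_left_injective D.a).injOn)
  have hbig : (((D.K : Set G) ∪ {x | x * D.a ∈ D.U}) ×ˢ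
      (((D.K : Set G) ∪ {x | x * D.a ∈ D.U}) ×ˢ (Set.univ : Set Bool))).Finite :=
    hF.prod (hF.prod Set.finite_univ)
  have hinj : Function.Injective (fun h : G => (D.c0 h, D.c1 h, D.w h)) := by
    intro g h hgh
    simp only [Prod.mk.injEq] at hgh
    exact D.dec_inj g h hgh.1 hgh.2.1 hgh.2.2
  refine (hbig.preimage (f := fun h : G => (D.c0 h, D.c1 h, D.w h)) hinj.injOn).subset ?_
  intro h hh
  rw [Set.mem_preimage, Set.mem_prod, Set.mem_prod]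
  dsimp only
  have hUK : ∀ x, x ∈ D.U → x ∈ (D.K : Set G) := fun x hx => D.U_le hx
  rcases hh with ⟨_, (⟨h1, h2⟩ | ⟨h1, h2⟩ | ⟨h1, h2⟩)⟩ |
    ⟨_, (⟨h1, h2⟩ | ⟨h1, h2⟩ | ⟨h1, h2⟩ | ⟨h1, h2⟩)⟩
  · exact ⟨Or.inl h1, Or.inl (hUK _ h2), trivial⟩
  · exact ⟨Or.inr h1, Or.inl h2, trivial⟩
  · exact ⟨Or.inl (hUK _ h1), Or.inr h2, trivial⟩
  · exact ⟨Or.inl (hUK _ h1), Or.inl h2, trivial⟩
  · exact ⟨Or.inl h1, Or.inl (hUK _ h2), trivial⟩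
  · exact ⟨Or.inl (hUK _ h1), Or.inr h2, trivial⟩
  · exact ⟨Or.inr h1, Or.inl (hUK _ h2), trivial⟩

theorem T2_inv {h : G} (hh : h ∈ T2 D) : h⁻¹ ∈ T2 D := by
  rcases hh with ⟨hw, hc⟩ | ⟨hw, hc⟩
  · left
    refine ⟨by rw [T2_w_inv D, hw], ?_⟩
    obtain ⟨e0, e1⟩ := T2_inv_false D hw
    rw [e0, e1]
    rcases hc with ⟨h1, h2⟩ | ⟨h1, h2⟩ | ⟨h1, h2⟩
    · exact Or.inl ⟨D.K.inv_mem h1, D.U.inv_mem h2⟩
    · exact Or.inr (Or.inl ⟨T2_Ua D h1, D.K.inv_mem h2⟩)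
    · exact Or.inr (Or.inr ⟨D.U.inv_mem h1, T2_Ua D h2⟩)
  · right
    refine ⟨by rw [T2_w_inv D, hw], ?_⟩
    obtain ⟨e0, e1⟩ := T2_inv_true D hw
    rw [e0, e1]
    rcases hc with ⟨h1, h2⟩ | ⟨h1, h2⟩ | ⟨h1, h2⟩ | ⟨h1, h2⟩
    · exact Or.inr (Or.inl ⟨D.K.inv_mem h2, D.U.inv_mem h1⟩)
    · exact Or.inl ⟨D.U.inv_mem h2, D.K.inv_mem h1⟩
    · exact Or.inr (Or.inr (Or.inr ⟨T2_Ua D h2, D.U.inv_mem h1⟩))
    · exact Or.inr (Or.inr (Or.inl ⟨D.U.inv_mem h2, T2_Ua D h1⟩))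

theorem T2_base {g : G} (h0 : D.c0 g ∈ D.W 0) (h1 : D.c1 g ∈ D.W 0) (hw : D.w g = false) :
    g ∈ T2 D :=
  Or.inl ⟨hw, Or.inl ⟨D.U_le ((W_zero D).1 h0), (W_zero D).1 h1⟩⟩

theorem T2_absorb {g h : G} (h0 : D.c0 g ∈ D.U) (h1 : D.c1 g ∈ D.U) (hw : D.w g = false)
    (hh : h ∈ T2 D) : g * h ∈ T2 D := by
  have e0 : D.c0 (g * h) = D.c0 g * D.c0 h := by
    rw [D.c0_mul, hw]; simp
  have e1 : D.c1 (g * h) = D.c1 g * D.c1 h := by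
    rw [D.c1_mul, hw]; simp
  have ew : D.w (g * h) = D.w h := by
    rw [D.w_mul, hw]; simp
  have hK0 := D.U_le h0
  have hK1 := D.U_le h1
  rcases hh with ⟨hw', hc⟩ | ⟨hw', hc⟩
  · left
    refine ⟨by rw [ew, hw'], ?_⟩
    rw [e0, e1, mul_assoc, mul_assoc]
    rcases hc with ⟨k1, k2⟩ | ⟨k1, k2⟩ | ⟨k1, k2⟩
    · exact Or.inl ⟨D.K.mul_mem hK0 k1, D.U.mul_mem h1 k2⟩
    · exact Or.inr (Or.inl ⟨D.U.mul_mem h0 k1, D.K.mul_mem hK1 k2⟩)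
    · exact Or.inr (Or.inr ⟨D.U.mul_mem h0 k1, D.U.mul_mem h1 k2⟩)
  · right
    refine ⟨by rw [ew, hw'], ?_⟩
    rw [e0, e1, mul_assoc, mul_assoc]
    rcases hc with ⟨k1, k2⟩ | ⟨k1, k2⟩ | ⟨k1, k2⟩ | ⟨k1, k2⟩
    · exact Or.inl ⟨D.U.mul_mem h0 k1, D.K.mul_mem hK1 k2⟩
    · exact Or.inr (Or.inl ⟨D.K.mul_mem hK0 k1, D.U.mul_mem h1 k2⟩)
    · exact Or.inr (Or.inr (Or.inl ⟨D.U.mul_mem h0 k1, D.U.mul_mem h1 k2⟩))
    · exact Or.inr (Or.inr (Or.inr ⟨D.U.mul_mem h0 k1, D.U.mul_mem h1 k2⟩))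

end W

end GSR
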