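import Pool.Agent.Helper242.GSR.Defs
import Pool.Agent.Helper242.GSR.T2def
import Pool.Agent.Helper242.GSR.J31004

namespace GSR

open Filter Topology

section W

variable {G : Type} [Group G] (D : Dat G)

theorem T2_step_a {X : ℤ} {g x : G} (hg : g ∈ D.W X) (hx : x * D.a ∈ D.U) :
    g * x ∈ D.W (sP X) := by
  have h1 := W_mula D (W_mulU D hg hx)
  have h2 : g * (x * D.a) * D.a = g * x := by
    rw [mul_assoc, mul_assoc, D.a_sq, mul_one]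
  rwa [h2] at h1

theorem T2_step {g h : G} {X Y : ℤ} (hh : h ∈ T2 D) (hX : D.c0 g ∈ D.W X) (hY : D.c1 g ∈ D.W Y) :
    ∃ X' Y', D.c0 (g * h) ∈ D.W X' ∧ D.c1 (g * h) ∈ D.W Y' ∧
      (Mv X Y (D.w g) X' Y' (D.w (g * h)) ∨ (X' = X ∧ Y' = Y ∧ D.w (g * h) = D.w g)) := by
  have h0 := D.c0_mul g h
  have h1 := D.c1_mul g h
  have hw := D.w_mul g h
  rw [h0, h1, hw]
  cases hg : D.w g
  · simp only [if_false, Bool.false_eq_true]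
    rcases hh with ⟨hwh, (⟨a1, a2⟩ | ⟨a1, a2⟩ | ⟨a1, a2⟩)⟩ |
      ⟨hwh, (⟨a1, a2⟩ | ⟨a1, a2⟩ | ⟨a1, a2⟩ | ⟨a1, a2⟩)⟩
    · rcases W_mulK D hX a1 with b | b
      · exact ⟨X, Y, b, W_mulU D hY a2, by simp [Mv, hwh]⟩
      · exact ⟨tP X, Y, b, W_mulU D hY a2, by simp [Mv, hwh]⟩
    · rcases W_mulK D hY a2 with b | b
      · exact ⟨sP X, Y, T2_step_a D hX a1, b, by simp [Mv, hwh]⟩
      · exact ⟨sP X, tP Y, T2_step_a D hX a1, b, by simp [Mv, hwh]⟩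
    · exact ⟨X, sP Y, W_mulU D hX a1, T2_step_a D hY a2, by simp [Mv, hwh]⟩
    · rcases W_mulK D hY a2 with b | b
      · exact ⟨X, Y, W_mulU D hX a1, b, by simp [Mv, hwh]⟩
      · exact ⟨X, tP Y, W_mulU D hX a1, b, by simp [Mv, hwh]⟩
    · rcases W_mulK D hX a1 with b | b
      · exact ⟨X, Y, b, W_mulU D hY a2, by simp [Mv, hwh]⟩
      · exact ⟨tP X, Y, b, W_mulU D hY a2, by simp [Mv, hwh]⟩
    · exact ⟨X, sP Y, W_mulU D hX a1, T2_step_a D hY a2, by simp [Mv, hwh]⟩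
    · exact ⟨sP X, Y, T2_step_a D hX a1, W_mulU D hY a2, by simp [Mv, hwh]⟩
  · simp only [if_true]
    rcases hh with ⟨hwh, (⟨a1, a2⟩ | ⟨a1, a2⟩ | ⟨a1, a2⟩)⟩ |
      ⟨hwh, (⟨a1, a2⟩ | ⟨a1, a2⟩ | ⟨a1, a2⟩ | ⟨a1, a2⟩)⟩
    · rcases W_mulK D hY a1 with b | b
      · exact ⟨X, Y, W_mulU D hX a2, b, by simp [Mv, hwh]⟩
      · exact ⟨X, tP Y, W_mulU D hX a2, b, by simp [Mv, hwh]⟩
    · rcases W_mulK D hX a2 with b | b
      · exact ⟨X, sP Y, b, T2_step_a D hY a1, by simp [Mv, hwh]⟩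
      · exact ⟨tP X, sP Y, b, T2_step_a D hY a1, by simp [Mv, hwh]⟩
    · exact ⟨sP X, Y, T2_step_a D hX a2, W_mulU D hY a1, by simp [Mv, hwh]⟩
    · rcases W_mulK D hX a2 with b | b
      · exact ⟨X, Y, b, W_mulU D hY a1, by simp [Mv, hwh]⟩
      · exact ⟨tP X, Y, b, W_mulU D hY a1, by simp [Mv, hwh]⟩
    · rcases W_mulK D hY a1 with b | b
      · exact ⟨X, Y, W_mulU D hX a2, b, by simp [Mv, hwh]⟩
      · exact ⟨X, tP Y, W_mulU D hX a2, b, by simp [Mv, hwh]⟩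
    · exact ⟨sP X, Y, T2_step_a D hX a2, W_mulU D hY a1, by simp [Mv, hwh]⟩
    · exact ⟨X, sP Y, W_mulU D hX a2, T2_step_a D hY a1, by simp [Mv, hwh]⟩

end W

end GSR
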