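import Pool.Agent.Helper242.GSR.Defs
import Pool.Agent.Helper242.GSR.T2def
import Pool.Agent.Helper242.GSR.J31004

namespace GSR

open Filter Topology

section W

variable {G : Type} [Group G] (D : Dat G)

theorem T2_lift_ex (x y : G) (b : Bool) :
    ∃ u ∈ D.U, ∃ v ∈ D.U, ∃ h, D.c0 h = x * u ∧ D.c1 h = y * v ∧ D.w h = b := by
  obtain ⟨u, hu, v, hv, g', h1, h2, h3⟩ := D.H0 x y
  cases b
  · exact ⟨u, hu, v, hv, g', h1, h2, h3⟩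
  · refine ⟨u, hu, v, hv, g' * D.τ, ?_, ?_, ?_⟩
    · rw [D.c0_mul, h3, h1]
      simp [D.c0_τ]
    · rw [D.c1_mul, h3, h2]
      simp [D.c1_τ]
    · rw [D.w_mul, h3, D.w_τ]
      rfl

theorem T2_lift_ex2 (g x y : G) (b : Bool) :
    ∃ u ∈ D.U, ∃ v ∈ D.U, ∃ h, D.c0 (g * h) = D.c0 g * (x * u) ∧
      D.c1 (g * h) = D.c1 g * (y * v) ∧ D.w (g * h) = xor (D.w g) b ∧ D.w h = b ∧
      ((D.w g = false ∧ D.c0 h = x * u ∧ D.c1 h = y * v) ∨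
        (D.w g = true ∧ D.c1 h = x * u ∧ D.c0 h = y * v)) := by
  cases hw : D.w g
  · obtain ⟨u, hu, v, hv, h, h1, h2, h3⟩ := T2_lift_ex D x y b
    refine ⟨u, hu, v, hv, h, ?_, ?_, ?_, h3, Or.inl ⟨rfl, h1, h2⟩⟩
    · rw [D.c0_mul, hw, h1]; simp
    · rw [D.c1_mul, hw, h2]; simp
    · rw [D.w_mul, hw, h3]
  · obtain ⟨v, hv, u, hu, h, h1, h2, h3⟩ := T2_lift_ex D y x b
    refine ⟨u, hu, v, hv, h, ?_, ?_, ?_, h3, Or.inr ⟨rfl, h2, h1⟩⟩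
    · rw [D.c0_mul, hw, h2]; simp
    · rw [D.c1_mul, hw, h1]; simp
    · rw [D.w_mul, hw, h3]

theorem T2_lift {g : G} {X Y X' Y' : ℤ} {e' : Bool} (hX : D.c0 g ∈ D.W X) (hY : D.c1 g ∈ D.W Y)
    (hm : Mv X Y (D.w g) X' Y' e') :
    ∃ h ∈ T2 D, D.c0 (g * h) ∈ D.W X' ∧ D.c1 (g * h) ∈ D.W Y' ∧ D.w (g * h) = e' := by
  have a1 : ∀ {Z : ℤ} {x u : G}, x ∈ D.W Z → u ∈ D.U → x * (1 * u) ∈ D.W Z := by
    intro Z x u hx hu
    rw [one_mul]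
    exact W_mulU D hx hu
  have a2 : ∀ {Z : ℤ} {x u : G}, x ∈ D.W Z → u ∈ D.U → x * (D.a * u) ∈ D.W (sP Z) := by
    intro Z x u hx hu
    rw [← mul_assoc]
    exact W_mulU D (W_mula D hx) hu
  have a3 : ∀ {Z : ℤ} {x k u : G}, x * k ∈ D.W (tP Z) → u ∈ D.U →
      x * (k * u) ∈ D.W (tP Z) := by
    intro Z x k u hx hu
    rw [← mul_assoc]
    exact W_mulU D hx hu
  have b1 : ∀ {u : G}, u ∈ D.U → 1 * u ∈ D.U := by
    intro u hu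
    rwa [one_mul]
  have b2 : ∀ {u : G}, u ∈ D.U → 1 * u ∈ D.K := fun hu => D.U_le (b1 hu)
  have b3 : ∀ {u : G}, u ∈ D.U → (D.a * u) * D.a ∈ D.U := fun hu => D.a_norm _ hu
  have b4 : ∀ {k u : G}, k ∈ D.K → u ∈ D.U → k * u ∈ D.K := fun hk hu =>
    D.K.mul_mem hk (D.U_le hu)
  obtain ⟨kx, hkx, hkx2⟩ := W_t D hX
  obtain ⟨ky, hky, hky2⟩ := W_t D hY
  have hT : ∀ (h : G), (h ∈ T2 D) ↔ ((D.w h = false ∧ ((D.c0 h ∈ D.K ∧ D.c1 h ∈ D.U) ∨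
      (D.c0 h * D.a ∈ D.U ∧ D.c1 h ∈ D.K) ∨ (D.c0 h ∈ D.U ∧ D.c1 h * D.a ∈ D.U))) ∨
    (D.w h = true ∧ ((D.c0 h ∈ D.U ∧ D.c1 h ∈ D.K) ∨ (D.c0 h ∈ D.K ∧ D.c1 h ∈ D.U) ∨
      (D.c0 h ∈ D.U ∧ D.c1 h * D.a ∈ D.U) ∨ (D.c0 h * D.a ∈ D.U ∧ D.c1 h ∈ D.U)))) :=
    fun h => Iff.rfl
  rcases hm with ⟨he, hm⟩ | ⟨he, hm⟩
  · rcases hm with ⟨rfl, rfl⟩ | ⟨rfl, rfl⟩ | ⟨rfl, rfl⟩ | ⟨rfl, rfl⟩ | ⟨rfl, rfl⟩
    · obtain ⟨u, hu, v, hv, h, h1, h2, h3, h4, h5⟩ := T2_lift_ex2 D g 1 1 true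
      refine ⟨h, ?_, by rw [h1]; exact a1 hX hu, by rw [h2]; exact a1 hY hv, ?_⟩
      · rw [hT]
        right
        refine ⟨h4, ?_⟩
        rcases h5 with ⟨_, q0, q1⟩ | ⟨_, q0, q1⟩
        · left; rw [q0, q1]; exact ⟨b1 hu, b2 hv⟩
        · left; rw [q0, q1]; exact ⟨b1 hv, b2 hu⟩
      · rw [h3, he]; simp
    · obtain ⟨u, hu, v, hv, h, h1, h2, h3, h4, h5⟩ := T2_lift_ex2 D g D.a 1 true
      refine ⟨h, ?_, by rw [h1]; exact a2 hX hu, by rw [h2]; exact a1 hY hv, ?_⟩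
      · rw [hT]
        right
        refine ⟨h4, ?_⟩
        rcases h5 with ⟨_, q0, q1⟩ | ⟨_, q0, q1⟩
        · right; right; right; rw [q0, q1]; exact ⟨b3 hu, b1 hv⟩
        · right; right; left; rw [q0, q1]; exact ⟨b1 hv, b3 hu⟩
      · rw [h3, he]; simp
    · obtain ⟨u, hu, v, hv, h, h1, h2, h3, h4, h5⟩ := T2_lift_ex2 D g 1 D.a true
      refine ⟨h, ?_, by rw [h1]; exact a1 hX hu, by rw [h2]; exact a2 hY hv, ?_⟩
      · rw [hT]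
        right
        refine ⟨h4, ?_⟩
        rcases h5 with ⟨_, q0, q1⟩ | ⟨_, q0, q1⟩
        · right; right; left; rw [q0, q1]; exact ⟨b1 hu, b3 hv⟩
        · right; right; right; rw [q0, q1]; exact ⟨b3 hv, b1 hu⟩
      · rw [h3, he]; simp
    · obtain ⟨u, hu, v, hv, h, h1, h2, h3, h4, h5⟩ := T2_lift_ex2 D g kx 1 true
      refine ⟨h, ?_, by rw [h1]; exact a3 hkx2 hu, by rw [h2]; exact a1 hY hv, ?_⟩
      · rw [hT]
        right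
        refine ⟨h4, ?_⟩
        rcases h5 with ⟨_, q0, q1⟩ | ⟨_, q0, q1⟩
        · right; left; rw [q0, q1]; exact ⟨b4 hkx hu, b1 hv⟩
        · left; rw [q0, q1]; exact ⟨b1 hv, b4 hkx hu⟩
      · rw [h3, he]; simp
    · obtain ⟨u, hu, v, hv, h, h1, h2, h3, h4, h5⟩ := T2_lift_ex2 D g 1 ky true
      refine ⟨h, ?_, by rw [h1]; exact a1 hX hu, by rw [h2]; exact a3 hky2 hv, ?_⟩
      · rw [hT]
        right
        refine ⟨h4, ?_⟩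
        rcases h5 with ⟨_, q0, q1⟩ | ⟨_, q0, q1⟩
        · left; rw [q0, q1]; exact ⟨b1 hu, b4 hky hv⟩
        · right; left; rw [q0, q1]; exact ⟨b4 hky hv, b1 hu⟩
      · rw [h3, he]; simp
  · rcases hm with ⟨rfl, rfl⟩ | ⟨rfl, rfl⟩ | ⟨hw, rfl, rfl⟩ | ⟨hw, rfl, rfl⟩ | ⟨hw, rfl, rfl⟩ |
      ⟨hw, rfl, rfl⟩
    · obtain ⟨u, hu, v, hv, h, h1, h2, h3, h4, h5⟩ := T2_lift_ex2 D g D.a 1 false
      refine ⟨h, ?_, by rw [h1]; exact a2 hX hu, by rw [h2]; exact a1 hY hv, ?_⟩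
      · rw [hT]
        left
        refine ⟨h4, ?_⟩
        rcases h5 with ⟨_, q0, q1⟩ | ⟨_, q0, q1⟩
        · right; left; rw [q0, q1]; exact ⟨b3 hu, b2 hv⟩
        · right; right; rw [q0, q1]; exact ⟨b1 hv, b3 hu⟩
      · rw [h3, he]; simp
    · obtain ⟨u, hu, v, hv, h, h1, h2, h3, h4, h5⟩ := T2_lift_ex2 D g 1 D.a false
      refine ⟨h, ?_, by rw [h1]; exact a1 hX hu, by rw [h2]; exact a2 hY hv, ?_⟩
      · rw [hT]
        left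
        refine ⟨h4, ?_⟩
        rcases h5 with ⟨_, q0, q1⟩ | ⟨_, q0, q1⟩
        · right; right; rw [q0, q1]; exact ⟨b1 hu, b3 hv⟩
        · right; left; rw [q0, q1]; exact ⟨b3 hv, b2 hu⟩
      · rw [h3, he]; simp
    · obtain ⟨u, hu, v, hv, h, h1, h2, h3, h4, h5⟩ := T2_lift_ex2 D g kx 1 false
      refine ⟨h, ?_, by rw [h1]; exact a3 hkx2 hu, by rw [h2]; exact a1 hY hv, ?_⟩
      · rw [hT]
        left
        refine ⟨h4, ?_⟩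
        rcases h5 with ⟨_, q0, q1⟩ | ⟨hw', q0, q1⟩
        · left; rw [q0, q1]; exact ⟨b4 hkx hu, b1 hv⟩
        · rw [hw] at hw'; exact absurd hw' (by simp)
      · rw [h3, he]; simp
    · obtain ⟨u, hu, v, hv, h, h1, h2, h3, h4, h5⟩ := T2_lift_ex2 D g D.a ky false
      refine ⟨h, ?_, by rw [h1]; exact a2 hX hu, by rw [h2]; exact a3 hky2 hv, ?_⟩
      · rw [hT]
        left
        refine ⟨h4, ?_⟩
        rcases h5 with ⟨_, q0, q1⟩ | ⟨hw', q0, q1⟩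
        · right; left; rw [q0, q1]; exact ⟨b3 hu, b4 hky hv⟩
        · rw [hw] at hw'; exact absurd hw' (by simp)
      · rw [h3, he]; simp
    · obtain ⟨u, hu, v, hv, h, h1, h2, h3, h4, h5⟩ := T2_lift_ex2 D g 1 ky false
      refine ⟨h, ?_, by rw [h1]; exact a1 hX hu, by rw [h2]; exact a3 hky2 hv, ?_⟩
      · rw [hT]
        left
        refine ⟨h4, ?_⟩
        rcases h5 with ⟨hw', q0, q1⟩ | ⟨hw', q0, q1⟩
        · rw [hw] at hw'; exact absurd hw' (by simp)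
        · left; rw [q0, q1]; exact ⟨b4 hky hv, b1 hu⟩
      · rw [h3, he]; simp
    · obtain ⟨u, hu, v, hv, h, h1, h2, h3, h4, h5⟩ := T2_lift_ex2 D g kx D.a false
      refine ⟨h, ?_, by rw [h1]; exact a3 hkx2 hu, by rw [h2]; exact a2 hY hv, ?_⟩
      · rw [hT]
        left
        refine ⟨h4, ?_⟩
        rcases h5 with ⟨hw', q0, q1⟩ | ⟨hw', q0, q1⟩
        · rw [hw] at hw'; exact absurd hw' (by simp)
        · right; left; rw [q0, q1]; exact ⟨b3 hv, b4 hkx hu⟩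
      · rw [h3, he]; simp

end W

end GSR
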