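import Pool.Agent.Helper242.GSR.Defs
import Pool.Agent.Helper242.GSR.T2def
import Pool.Agent.Helper242.GSR.J30974
import Pool.Agent.Helper242.GSR.J31004
import Pool.Agent.Helper242.GSR.J31006
import Pool.Agent.Helper242.GSR.J31014
import Pool.Agent.Helper242.GSR.J31015
import Pool.Agent.Helper242.GSR.J31016
import Pool.Agent.Helper242.GSR.J31045
import Pool.Agent.Helper242.GSR.J31047

namespace GSR

open Filter Topology

section W

variable {G : Type} [Group G] (D : Dat G)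

end W

section W

variable {G : Type} [Group G] (D : Dat G)

end W

section Growth

variable {G : Type} [Group G]

end Growth

section W

variable {G : Type} [Group G] (D : Dat G)

theorem s2_w_one : D.w 1 = false := by
  have h := D.w_mul 1 1
  rw [mul_one] at h
  rw [h]
  cases D.w 1 <;> rfl

theorem s2_c0_one : D.c0 1 = 1 := by
  have h := D.c0_mul 1 1
  rw [mul_one, s2_w_one D] at h
  simpa using h

theorem s2_c1_one : D.c1 1 = 1 := by
  have h := D.c1_mul 1 1
  rw [mul_one, s2_w_one D] at h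
  simpa using h

theorem s2_low (l : List G) (hl : ∀ s ∈ l, s ∈ T2 D) (g : G) (X Y : ℤ) (hX : D.c0 g ∈ D.W X)
    (hY : D.c1 g ∈ D.W Y) :
    ∃ X' Y', D.c0 (g * l.prod) ∈ D.W X' ∧ D.c1 (g * l.prod) ∈ D.W Y' ∧
      Lam X' Y' (D.w (g * l.prod)) ≤ Lam X Y (D.w g) + l.length := by
  induction l generalizing g X Y with
  | nil =>
    refine ⟨X, Y, ?_, ?_, ?_⟩
    · simpa using hX
    · simpa using hY
    · simp
  | cons s l ih =>
    obtain ⟨X1, Y1, h1, h2, h3⟩ := T2_step D (hl s (by simp)) hX hY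
    obtain ⟨X2, Y2, h4, h5, h6⟩ := ih (fun t ht => hl t (by simp [ht])) (g * s) X1 Y1 h1 h2
    rw [List.prod_cons, ← mul_assoc]
    refine ⟨X2, Y2, h4, h5, ?_⟩
    have h7 : Lam X1 Y1 (D.w (g * s)) ≤ Lam X Y (D.w g) + 1 := by
      rcases h3 with h3 | ⟨rfl, rfl, h3⟩
      · exact lam_lip h3
      · rw [h3]
        linarith
    rw [List.length_cons]
    push_cast
    linarith

theorem s2_up (n : ℕ) : ∀ (g : G) (X Y : ℤ), D.c0 g ∈ D.W X → D.c1 g ∈ D.W Y →
    Lam X Y (D.w g) ≤ (n : ℤ) + 1 → ¬ (X = 0 ∧ Y = -1 ∧ D.w g = false) →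
    ∃ l : List G, l.length ≤ n + 1 ∧ (∀ s ∈ l, s ∈ T2 D) ∧ l.prod = g := by
  have base : ∀ (n : ℕ) (g : G) (X Y : ℤ), D.c0 g ∈ D.W X → D.c1 g ∈ D.W Y →
      Lam X Y (D.w g) ≤ 1 → ¬ (X = 0 ∧ Y = -1 ∧ D.w g = false) →
      ∃ l : List G, l.length ≤ n + 1 ∧ (∀ s ∈ l, s ∈ T2 D) ∧ l.prod = g := by
    intro n g X Y hX hY hL hn
    refine ⟨[g], by simp, ?_, by simp⟩
    intro s hs
    rw [List.mem_singleton] at hs
    subst hs
    by_cases h0 : X = 0 ∧ Y = 0 ∧ D.w s = false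
    · obtain ⟨rfl, rfl, h0⟩ := h0
      exact T2_base D hX hY h0
    · have hm := lam_one hL hn h0
      obtain ⟨h, hh, h1, h2, h3⟩ := T2_lift D hX hY hm
      have h4 := T2_absorb D ((W_zero D).1 h1) ((W_zero D).1 h2) h3 (T2_inv D hh)
      rwa [mul_inv_cancel_right] at h4
  induction n with
  | zero =>
    intro g X Y hX hY hL hn
    exact base 0 g X Y hX hY (by simpa using hL) hn
  | succ n ih =>
    intro g X Y hX hY hL hn
    by_cases h1 : Lam X Y (D.w g) ≤ 1
    · exact base (n + 1) g X Y hX hY h1 hn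
    · obtain ⟨X', Y', e', hm, hL', hn'⟩ := lam_desc (X := X) (Y := Y) (e := D.w g) (by omega)
      obtain ⟨h, hh, h3, h4, h5⟩ := T2_lift D hX hY hm
      push_cast at hL
      obtain ⟨l, hl1, hl2, hl3⟩ := ih (g * h) X' Y' h3 h4 (by rw [h5]; linarith)
        (by rw [h5]; exact hn')
      refine ⟨l ++ [h⁻¹], ?_, ?_, ?_⟩
      · rw [List.length_append, List.length_singleton]
        omega
      · intro s hs
        rw [List.mem_append, List.mem_singleton] at hs
        rcases hs with hs | rfl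
        · exact hl2 s hs
        · exact T2_inv D hh
      · rw [List.prod_append, List.prod_singleton, hl3, mul_inv_cancel_right]

theorem s2_up2 (n : ℕ) (hn : 2 ≤ n) (g : G) (X Y : ℤ) (hX : D.c0 g ∈ D.W X)
    (hY : D.c1 g ∈ D.W Y) (hL : Lam X Y (D.w g) ≤ (n : ℤ)) :
    ∃ l : List G, l.length ≤ n ∧ (∀ s ∈ l, s ∈ T2 D) ∧ l.prod = g := by
  by_cases hex : X = 0 ∧ Y = -1 ∧ D.w g = false
  · obtain ⟨rfl, rfl, hw⟩ := hex
    have hm : Mv 0 (-1) (D.w g) 0 0 true := by
      rw [hw]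
      left
      refine ⟨rfl, ?_⟩
      right; right; right; right
      exact ⟨rfl, by norm_num [tP]⟩
    obtain ⟨h, hh, h3, h4, h5⟩ := T2_lift D hX hY hm
    have hL0 : Lam 0 0 true ≤ 1 := by decide
    obtain ⟨l, hl1, hl2, hl3⟩ := s2_up D 0 (g * h) 0 0 h3 h4
      (by rw [h5]; simpa using hL0) (by rintro ⟨_, h6, _⟩; norm_num at h6)
    refine ⟨l ++ [h⁻¹], ?_, ?_, ?_⟩
    · rw [List.length_append, List.length_singleton]
      omega
    · intro s hs
      rw [List.mem_append, List.mem_singleton] at hs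
      rcases hs with hs | rfl
      · exact hl2 s hs
      · exact T2_inv D hh
    · rw [List.prod_append, List.prod_singleton, hl3, mul_inv_cancel_right]
  · obtain ⟨k, rfl⟩ : ∃ k, n = k + 1 := ⟨n - 1, by omega⟩
    exact s2_up D k g X Y hX hY (by push_cast at hL; exact hL) hex

theorem S2_ex : ∃ S : Finset G, Subgroup.closure (S : Set G) = ⊤ ∧
    ∀ (g : G) (n : ℕ), 2 ≤ n → (len S g ≤ n ↔
      ∃ X Y : ℤ, D.c0 g ∈ D.W X ∧ D.c1 g ∈ D.W Y ∧ Lam X Y (D.w g) ≤ (n : ℤ)) := by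
  have hcl : Subgroup.closure (((T2_fin D).toFinset : Finset G) : Set G) = ⊤ := by
    rw [Set.Finite.coe_toFinset, eq_top_iff]
    intro g _
    obtain ⟨X, hX⟩ := W_ex D (D.c0 g)
    obtain ⟨Y, hY⟩ := W_ex D (D.c1 g)
    obtain ⟨l, _, hl2, hl3⟩ := s2_up2 D (max 2 (Lam X Y (D.w g)).toNat) (le_max_left _ _) g X Y
      hX hY (by
        have h1 := Int.self_le_toNat (Lam X Y (D.w g))
        have h2 : ((Lam X Y (D.w g)).toNat : ℤ) ≤ ((max 2 (Lam X Y (D.w g)).toNat : ℕ) : ℤ) := by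
          exact_mod_cast le_max_right _ _
        exact h1.trans h2)
    rw [← hl3]
    exact Subgroup.list_prod_mem _ fun s hs => Subgroup.subset_closure (hl2 s hs)
  refine ⟨(T2_fin D).toFinset, hcl, fun g n hn => ?_⟩
  rw [len_le_iff _ g hcl n]
  constructor
  · rintro ⟨l, hl1, hl2, rfl⟩
    have hl3 : ∀ s ∈ l, s ∈ T2 D := by
      intro s hs
      rcases hl2 s hs with h | h
      · exact (Set.Finite.mem_toFinset _).1 h
      · have := T2_inv D ((Set.Finite.mem_toFinset _).1 h)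
        rwa [inv_inv] at this
    obtain ⟨X, Y, h1, h2, h3⟩ := s2_low D l hl3 1 0 0
      (by rw [s2_c0_one, W_zero]; exact D.U.one_mem)
      (by rw [s2_c1_one, W_zero]; exact D.U.one_mem)
    rw [one_mul, s2_w_one] at *
    have hL0 : Lam 0 0 false ≤ 0 := by decide
    refine ⟨X, Y, h1, h2, ?_⟩
    have h4 : (l.length : ℤ) ≤ n := by exact_mod_cast hl1
    linarith
  · rintro ⟨X, Y, hX, hY, hL⟩
    obtain ⟨l, hl1, hl2, hl3⟩ := s2_up2 D n hn g X Y hX hY hL
    exact ⟨l, hl1, fun s hs => Or.inl ((Set.Finite.mem_toFinset _).2 (hl2 s hs)), hl3⟩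

end W

end GSR
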