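import Pool.Agent.Helper242.GSR.GDefs
import Pool.Agent.Helper242.GSR.J31044

namespace GSR

open Filter Topology

theorem K_memGr : a ∈ Gr ∧ b ∈ Gr ∧ c ∈ Gr ∧ d ∈ Gr := by
  refine ⟨?_, ?_, ?_, ?_⟩ <;> exact Subgroup.subset_closure (by simp)

theorem K_pow {g g0 g1 : Equiv.Perm (List Bool)} (h : Dec g g0 g1 false) (n : ℕ) :
    Dec (g ^ n) (g0 ^ n) (g1 ^ n) false := by
  induction n with
  | zero =>
    simp only [pow_zero]
    exact dec_one
  | succ n ih =>
    simp only [pow_succ]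
    have := dec_mul ih h
    simpa using this

theorem K_one {g : Equiv.Perm (List Bool)} (hg : g ∈ Gr) (h : Dec g 1 1 false) : g = 1 :=
  dec_ext (Gr_nil hg) rfl h dec_one

theorem ad_four : (a * d) ^ 4 = 1 := by
  obtain ⟨ha, hb, hc, hd⟩ := K_memGr
  have h1 : Dec (a * d) b 1 true := by
    have := dec_mul dec_a dec_d
    simpa using this
  have h2 : Dec ((a * d) ^ 2) b b false := by
    have := dec_mul h1 h1
    rw [pow_two]
    simpa using this
  have h3 : Dec (((a * d) ^ 2) ^ 2) (b ^ 2) (b ^ 2) false := K_pow h2 2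
  have h4 : b ^ 2 = 1 := by
    rw [pow_two]
    exact rels.2.1
  rw [h4, ← pow_mul] at h3
  exact K_one (pow_mem (mul_mem ha hd) _) h3

theorem ac_eight : (a * c) ^ 8 = 1 := by
  obtain ⟨ha, hb, hc, hd⟩ := K_memGr
  have h1 : Dec (a * c) d a true := by
    have := dec_mul dec_a dec_c
    simpa using this
  have h2 : Dec ((a * c) ^ 2) (d * a) (a * d) false := by
    have := dec_mul h1 h1
    rw [pow_two]
    simpa using this
  have h3 : Dec (((a * c) ^ 2) ^ 4) ((d * a) ^ 4) ((a * d) ^ 4) false := K_pow h2 4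
  have h4 : (d * a) = (a * d)⁻¹ := by
    rw [eq_inv_iff_mul_eq_one, mul_assoc, ← mul_assoc a, rels.1, one_mul, rels.2.2.2.1]
  rw [h4, inv_pow, ad_four, inv_one, ← pow_mul] at h3
  exact K_one (pow_mem (mul_mem ha hc) _) h3

theorem ab_sixteen : (a * b) ^ 16 = 1 := by
  obtain ⟨ha, hb, hc, hd⟩ := K_memGr
  have h1 : Dec (a * b) c a true := by
    have := dec_mul dec_a dec_b
    simpa using this
  have h2 : Dec ((a * b) ^ 2) (c * a) (a * c) false := by
    have := dec_mul h1 h1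
    rw [pow_two]
    simpa using this
  have h3 : Dec (((a * b) ^ 2) ^ 8) ((c * a) ^ 8) ((a * c) ^ 8) false := K_pow h2 8
  have h4 : (c * a) = (a * c)⁻¹ := by
    rw [eq_inv_iff_mul_eq_one, mul_assoc, ← mul_assoc a, rels.1, one_mul, rels.2.2.1]
  rw [h4, inv_pow, ac_eight, inv_one, ← pow_mul] at h3
  exact K_one (pow_mem (mul_mem ha hb) _) h3

theorem K_inv {g g0 g1 : Equiv.Perm (List Bool)} (h : Dec g g0 g1 false) :
    Dec g⁻¹ g0⁻¹ g1⁻¹ false := by
  intro x v
  rw [Equiv.Perm.inv_eq_iff_eq, h]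
  cases x <;> simp

theorem K_dihedral {G : Type*} [Group G] (x y : G) (hx : x * x = 1) (hy : y * y = 1) (n : ℕ)
    (hn : 0 < n) (hxy : (x * y) ^ n = 1) :
    ((Subgroup.closure {x, y} : Subgroup G) : Set G).Finite := by
  have hxi : x⁻¹ = x := inv_eq_of_mul_eq_one_left hx
  have hyi : y⁻¹ = y := inv_eq_of_mul_eq_one_left hy
  have hconj : ∀ j : ℤ, x * (x * y) ^ j = (x * y) ^ (-j) * x := by
    intro j
    have h1 : x * (x * y) * x⁻¹ = (x * y)⁻¹ := by
      rw [mul_inv_rev, hxi, hyi, ← mul_assoc, hx, one_mul]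
    have h2 := conj_zpow (i := j) (a := x) (b := x * y)
    rw [h1, inv_zpow, ← zpow_neg] at h2
    rw [h2, mul_assoc, mul_assoc, inv_mul_cancel, mul_one]
  let S : Subgroup G :=
    { carrier := {g | ∃ i : ℤ, g = (x * y) ^ i ∨ g = (x * y) ^ i * x}
      one_mem' := ⟨0, Or.inl (zpow_zero _).symm⟩
      mul_mem' := by
        rintro g h ⟨i, rfl | rfl⟩ ⟨j, rfl | rfl⟩
        · exact ⟨i + j, Or.inl (zpow_add _ _ _).symm⟩
        · exact ⟨i + j, Or.inr (by rw [zpow_add, mul_assoc])⟩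
        · exact ⟨i + -j, Or.inr (by rw [zpow_add, mul_assoc, hconj, ← mul_assoc])⟩
        · refine ⟨i + -j, Or.inl ?_⟩
          rw [zpow_add, mul_assoc, ← mul_assoc x, hconj, mul_assoc, hx, mul_one]
      inv_mem' := by
        rintro g ⟨i, rfl | rfl⟩
        · exact ⟨-i, Or.inl (zpow_neg _ _).symm⟩
        · refine ⟨i, Or.inr ?_⟩
          rw [mul_inv_rev, ← zpow_neg, hxi, hconj, neg_neg] }
  have hle : Subgroup.closure {x, y} ≤ S := by
    rw [Subgroup.closure_le]
    rintro g (rfl | rfl)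
    · exact ⟨0, Or.inr (by simp)⟩
    · refine ⟨-1, Or.inr ?_⟩
      rw [zpow_neg_one, mul_inv_rev, hxi, hyi, mul_assoc, hx, mul_one]
  have hfin : IsOfFinOrder (x * y) := isOfFinOrder_iff_pow_eq_one.2 ⟨n, hn, hxy⟩
  have h1 : ((Subgroup.zpowers (x * y) : Subgroup G) : Set G).Finite :=
    hfin.finite_zpowers
  refine (h1.union (h1.image fun g => g * x)).subset ?_
  intro g hg
  obtain ⟨i, rfl | rfl⟩ := hle hg
  · exact Or.inl (Subgroup.zpow_mem_zpowers _ _)
  · exact Or.inr ⟨_, Subgroup.zpow_mem_zpowers _ _, rfl⟩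

theorem K_V_fin : ((Subgroup.closure {b, c, d} : Subgroup (Equiv.Perm (List Bool))) :
    Set (Equiv.Perm (List Bool))).Finite := by
  obtain ⟨haa, hbb, hcc, hdd, hbc, hcb, hbd, hdb, hcd, hdc⟩ := rels
  let S : Subgroup (Equiv.Perm (List Bool)) :=
    { carrier := {1, b, c, d}
      one_mem' := by simp
      mul_mem' := by
        rintro g h (rfl | rfl | rfl | rfl) (rfl | rfl | rfl | rfl) <;> simp [*]
      inv_mem' := by
        have hb : b⁻¹ = b := inv_eq_of_mul_eq_one_left hbb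
        have hc : c⁻¹ = c := inv_eq_of_mul_eq_one_left hcc
        have hd : d⁻¹ = d := inv_eq_of_mul_eq_one_left hdd
        rintro g (rfl | rfl | rfl | rfl) <;> simp [hb, hc, hd] }
  have hle : Subgroup.closure {b, c, d} ≤ S := by
    rw [Subgroup.closure_le]
    rintro g (rfl | rfl | rfl)
    · exact Or.inr (Or.inl rfl)
    · exact Or.inr (Or.inr (Or.inl rfl))
    · exact Or.inr (Or.inr (Or.inr rfl))
  have h1 : ({1, b, c, d} : Set (Equiv.Perm (List Bool))).Finite := by simp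
  exact h1.subset hle

theorem K_finite : ((Subgroup.closure {b, d, a * d * a} : Subgroup (Equiv.Perm (List Bool))) :
    Set (Equiv.Perm (List Bool))).Finite := by
  obtain ⟨ha, hb, hc, hd⟩ := K_memGr
  have hD1 := K_dihedral a b rels.1 rels.2.1 16 (by norm_num) ab_sixteen
  have hD2 := K_V_fin
  have h1 : Dec (a * d * a) b 1 false := by
    have h2 : Dec (a * d) b 1 true := by
      have := dec_mul dec_a dec_d
      simpa using this
    have := dec_mul h2 dec_a
    simpa using this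
  have hmem : ∀ g ∈ Subgroup.closure ({b, d, a * d * a} : Set (Equiv.Perm (List Bool))),
      g ∈ Gr ∧ ∃ g0 ∈ Subgroup.closure ({a, b} : Set (Equiv.Perm (List Bool))),
        ∃ g1 ∈ Subgroup.closure ({b, c, d} : Set (Equiv.Perm (List Bool))), Dec g g0 g1 false := by
    intro g hg
    induction hg using Subgroup.closure_induction with
    | mem g hg =>
      rcases hg with rfl | rfl | rfl
      · exact ⟨hb, a, Subgroup.subset_closure (by simp), c, Subgroup.subset_closure (by simp), dec_b⟩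
      · exact ⟨hd, 1, one_mem _, b, Subgroup.subset_closure (by simp), dec_d⟩
      · exact ⟨mul_mem (mul_mem ha hd) ha, b, Subgroup.subset_closure (by simp), 1, one_mem _, h1⟩
    | one => exact ⟨one_mem _, 1, one_mem _, 1, one_mem _, dec_one⟩
    | mul g h _ _ ihg ihh =>
      obtain ⟨hg, g0, hg0, g1, hg1, hgd⟩ := ihg
      obtain ⟨hh, h0, hh0, h1, hh1, hhd⟩ := ihh
      refine ⟨mul_mem hg hh, g0 * h0, mul_mem hg0 hh0, g1 * h1, mul_mem hg1 hh1, ?_⟩
      have := dec_mul hgd hhd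
      simpa using this
    | inv g _ ihg =>
      obtain ⟨hg, g0, hg0, g1, hg1, hgd⟩ := ihg
      exact ⟨inv_mem hg, g0⁻¹, inv_mem hg0, g1⁻¹, inv_mem hg1, K_inv hgd⟩
  have hfin : (⋃ p ∈ (((Subgroup.closure {a, b} : Subgroup (Equiv.Perm (List Bool))) :
      Set (Equiv.Perm (List Bool))) ×ˢ ((Subgroup.closure {b, c, d} :
      Subgroup (Equiv.Perm (List Bool))) : Set (Equiv.Perm (List Bool)))),
      {g : Equiv.Perm (List Bool) | g ∈ Gr ∧ Dec g p.1 p.2 false}).Finite := by
    refine (hD1.prod hD2).biUnion ?_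
    intro p _
    apply Set.Subsingleton.finite
    intro g hg h hh
    exact dec_ext (Gr_nil hg.1) (Gr_nil hh.1) hg.2 hh.2
  refine hfin.subset ?_
  intro g hg
  obtain ⟨hG, g0, hg0, g1, hg1, hd⟩ := hmem g hg
  exact Set.mem_biUnion (x := (g0, g1)) ⟨hg0, hg1⟩ ⟨hG, hd⟩

end GSR
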