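import Pool.Agent.Helper242.GSR.GDefs
import Pool.Agent.Helper242.GSR.J31044

namespace GSR

open Filter Topology

theorem hg_inv {h g0 g1 : Equiv.Perm (List Bool)} (hh : Dec h g0 g1 false) :
    Dec h⁻¹ g0⁻¹ g1⁻¹ false := by
  intro x v
  rw [Equiv.Perm.inv_eq_iff_eq]
  have := hh (xor x false) (if xor x false then g1⁻¹ v else g0⁻¹ v)
  rw [this]
  cases x <;> simp

theorem hg_aGr : a ∈ Gr := Subgroup.subset_closure (by simp)

theorem hg_bGr : b ∈ Gr := Subgroup.subset_closure (by simp)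

theorem hg_cGr : c ∈ Gr := Subgroup.subset_closure (by simp)

theorem hg_dGr : d ∈ Gr := Subgroup.subset_closure (by simp)

/-- the first level stabiliser as a subgroup of the product -/
def HS : Subgroup (Equiv.Perm (List Bool) × Equiv.Perm (List Bool)) where
  carrier := {p | ∃ h ∈ Gr, Dec h p.1 p.2 false}
  one_mem' := ⟨1, Gr.one_mem, dec_one⟩
  mul_mem' := by
    rintro p q ⟨h, hh, h1⟩ ⟨k, hk, h2⟩
    refine ⟨h * k, Gr.mul_mem hh hk, ?_⟩
    have := dec_mul h1 h2
    simpa using this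
  inv_mem' := by
    rintro p ⟨h, hh, h1⟩
    exact ⟨h⁻¹, Gr.inv_mem hh, hg_inv h1⟩

theorem HS_mk {g0 g1 : Equiv.Perm (List Bool)} : (g0, g1) ∈ HS ↔ ∃ h ∈ Gr, Dec h g0 g1 false := Iff.rfl

theorem HS_swap {g0 g1 : Equiv.Perm (List Bool)} (h : (g0, g1) ∈ HS) : (g1, g0) ∈ HS := by
  obtain ⟨k, hk, h1⟩ := HS_mk.1 h
  refine HS_mk.2 ⟨a * k * a, Gr.mul_mem (Gr.mul_mem hg_aGr hk) hg_aGr, ?_⟩
  have := dec_mul (dec_mul dec_a h1) dec_a
  simpa using this

theorem HS_ac : (a, c) ∈ HS := HS_mk.2 ⟨b, hg_bGr, dec_b⟩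

theorem HS_ad : (a, d) ∈ HS := HS_mk.2 ⟨c, hg_cGr, dec_c⟩

theorem HS_b1 : (b, 1) ∈ HS := HS_swap (HS_mk.2 ⟨d, hg_dGr, dec_d⟩)

theorem HS_onto {g : Equiv.Perm (List Bool)} (hg : g ∈ Gr) : ∃ h1 ∈ Gr, (g, h1) ∈ HS := by
  unfold Gr at hg
  induction hg using Subgroup.closure_induction with
  | mem x hx =>
    simp only [Set.mem_insert_iff, Set.mem_singleton_iff] at hx
    rcases hx with rfl | rfl | rfl | rfl
    · exact ⟨c, hg_cGr, HS_ac⟩
    · exact ⟨1, Gr.one_mem, HS_b1⟩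
    · exact ⟨a, hg_aGr, HS_swap HS_ac⟩
    · exact ⟨a, hg_aGr, HS_swap HS_ad⟩
  | one => exact ⟨1, Gr.one_mem, HS.one_mem⟩
  | mul x y _ _ hx hy =>
    obtain ⟨h1, hh1, h1'⟩ := hx
    obtain ⟨h2, hh2, h2'⟩ := hy
    exact ⟨h1 * h2, Gr.mul_mem hh1 hh2, HS.mul_mem h1' h2'⟩
  | inv x _ hx =>
    obtain ⟨h1, hh1, h1'⟩ := hx
    exact ⟨h1⁻¹, Gr.inv_mem hh1, HS.inv_mem h1'⟩

theorem HS_conj {g n : Equiv.Perm (List Bool)} (hg : g ∈ Gr) (hn : (n, 1) ∈ HS) :
    (g * n * g⁻¹, 1) ∈ HS := by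
  obtain ⟨h1, hh1, h1'⟩ := HS_onto hg
  have := HS.mul_mem (HS.mul_mem h1' hn) (HS.inv_mem h1')
  have e : (g, h1) * (n, (1 : Equiv.Perm (List Bool))) * (g, h1)⁻¹ = (g * n * g⁻¹, 1) := by
    ext1
    · rfl
    · show h1 * 1 * h1⁻¹ = 1
      group
  rwa [e] at this

theorem hg_D_le : Subgroup.closure {a, d} ≤ Gr := by
  rw [Subgroup.closure_le]
  rintro x (rfl | rfl)
  · exact hg_aGr
  · exact hg_dGr

theorem hg_fact {x : Equiv.Perm (List Bool)} (hx : x ∈ Gr) :
    ∃ n, (n, (1 : Equiv.Perm (List Bool))) ∈ HS ∧ ∃ u ∈ Subgroup.closure {a, d}, x = n * u := by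
  have ha : a ∈ Subgroup.closure {a, d} := Subgroup.subset_closure (by simp)
  have hd : d ∈ Subgroup.closure {a, d} := Subgroup.subset_closure (by simp)
  have h1 : (1 : Equiv.Perm (List Bool)) ∈ Subgroup.closure {a, d} := Subgroup.one_mem _
  unfold Gr at hx
  induction hx using Subgroup.closure_induction with
  | mem x hx =>
    simp only [Set.mem_insert_iff, Set.mem_singleton_iff] at hx
    rcases hx with rfl | rfl | rfl | rfl
    · exact ⟨1, HS.one_mem, a, ha, (one_mul _).symm⟩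
    · exact ⟨b, HS_b1, 1, h1, (mul_one _).symm⟩
    · exact ⟨b, HS_b1, d, hd, rels.2.2.2.2.2.2.1.symm⟩
    · exact ⟨1, HS.one_mem, d, hd, (one_mul _).symm⟩
  | one => exact ⟨1, HS.one_mem, 1, h1, (one_mul _).symm⟩
  | mul x y _ _ hx hy =>
    obtain ⟨n, hn, u, hu, rfl⟩ := hx
    obtain ⟨m, hm, w, hw, rfl⟩ := hy
    refine ⟨n * (u * m * u⁻¹), ?_, u * w, Subgroup.mul_mem _ hu hw, by group⟩
    have := HS.mul_mem hn (HS_conj (hg_D_le hu) hm)
    simpa using this
  | inv x _ hx =>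
    obtain ⟨n, hn, u, hu, rfl⟩ := hx
    refine ⟨u⁻¹ * n⁻¹ * u⁻¹⁻¹, ?_, u⁻¹, Subgroup.inv_mem _ hu, by group⟩
    apply HS_conj (hg_D_le (Subgroup.inv_mem _ hu))
    have := HS.inv_mem hn
    simpa using this

theorem hg_aU {u : Equiv.Perm (List Bool)} (hu : u ∈ Subgroup.closure {d, a * d * a}) :
    a * u * a ∈ Subgroup.closure {d, a * d * a} := by
  have haa := rels.1
  induction hu using Subgroup.closure_induction with
  | mem x hx =>
    simp only [Set.mem_insert_iff, Set.mem_singleton_iff] at hx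
    rcases hx with rfl | rfl
    · exact Subgroup.subset_closure (by simp)
    · have e : a * (a * d * a) * a = d := by
        calc a * (a * d * a) * a = (a * a) * d * (a * a) := by simp only [mul_assoc]
          _ = d := by rw [haa, one_mul, mul_one]
      rw [e]
      exact Subgroup.subset_closure (by simp)
  | one =>
    rw [mul_one, haa]
    exact Subgroup.one_mem _
  | mul x y _ _ hx hy =>
    have e : a * (x * y) * a = (a * x * a) * (a * y * a) := by
      calc a * (x * y) * a = a * x * 1 * y * a := by simp only [mul_assoc, one_mul]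
        _ = a * x * (a * a) * y * a := by rw [haa]
        _ = _ := by simp only [mul_assoc]
    rw [e]
    exact Subgroup.mul_mem _ hx hy
  | inv x _ hx =>
    have hinv : a⁻¹ = a := inv_eq_of_mul_eq_one_right haa
    have e : a * x⁻¹ * a = (a * x * a)⁻¹ := by
      rw [mul_inv_rev, mul_inv_rev, hinv, mul_assoc]
    rw [e]
    exact Subgroup.inv_mem _ hx

theorem hg_DU {u : Equiv.Perm (List Bool)} (hu : u ∈ Subgroup.closure {a, d}) :
    ∃ i : Bool, ∃ v ∈ Subgroup.closure {d, a * d * a}, u = (if i then a else 1) * v := by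
  have haa := rels.1
  have hinv : a⁻¹ = a := inv_eq_of_mul_eq_one_right haa
  have h1 : (1 : Equiv.Perm (List Bool)) ∈ Subgroup.closure {d, a * d * a} := Subgroup.one_mem _
  induction hu using Subgroup.closure_induction with
  | mem x hx =>
    simp only [Set.mem_insert_iff, Set.mem_singleton_iff] at hx
    rcases hx with rfl | rfl
    · exact ⟨true, 1, h1, by simp⟩
    · exact ⟨false, d, Subgroup.subset_closure (by simp), by simp⟩
  | one => exact ⟨false, 1, h1, by simp⟩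
  | mul x y _ _ hx hy =>
    obtain ⟨i, v, hv, rfl⟩ := hx
    obtain ⟨j, w, hw, rfl⟩ := hy
    cases i <;> cases j
    · exact ⟨false, v * w, Subgroup.mul_mem _ hv hw, by simp⟩
    · refine ⟨true, (a * v * a) * w, Subgroup.mul_mem _ (hg_aU hv) hw, ?_⟩
      simp only [if_true, one_mul, if_false, Bool.false_eq_true]
      calc v * (a * w) = 1 * v * a * w := by simp only [one_mul, mul_assoc]
        _ = (a * a) * v * a * w := by rw [haa]
        _ = _ := by simp only [mul_assoc]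
    · exact ⟨true, v * w, Subgroup.mul_mem _ hv hw, by simp [mul_assoc]⟩
    · refine ⟨false, (a * v * a) * w, Subgroup.mul_mem _ (hg_aU hv) hw, ?_⟩
      simp only [if_true, one_mul, if_false, Bool.false_eq_true, mul_assoc]
  | inv x _ hx =>
    obtain ⟨i, v, hv, rfl⟩ := hx
    cases i
    · exact ⟨false, v⁻¹, Subgroup.inv_mem _ hv, by simp⟩
    · refine ⟨true, a * v⁻¹ * a, hg_aU (Subgroup.inv_mem _ hv), ?_⟩
      simp only [if_true, mul_inv_rev, hinv]
      calc v⁻¹ * a = 1 * v⁻¹ * a := by rw [one_mul]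
        _ = (a * a) * v⁻¹ * a := by rw [haa]
        _ = _ := by simp only [mul_assoc]

theorem hg_four (i j : Bool) : ∃ u ∈ Subgroup.closure {d, a * d * a}, 
    ∃ v ∈ Subgroup.closure {d, a * d * a}, 
      (((if i then a else 1) * u, (if j then a else 1) * v) : Equiv.Perm (List Bool) × Equiv.Perm (List Bool)) ∈ HS := by
  have haa := rels.1
  have h1 : (1 : Equiv.Perm (List Bool)) ∈ Subgroup.closure {d, a * d * a} := Subgroup.one_mem _
  have hd : d ∈ Subgroup.closure {d, a * d * a} := Subgroup.subset_closure (by simp)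
  have hada : a * d * a ∈ Subgroup.closure {d, a * d * a} := Subgroup.subset_closure (by simp)
  cases i <;> cases j
  · exact ⟨1, h1, 1, h1, HS.one_mem⟩
  · exact ⟨d, hd, 1, h1, by simpa using HS_swap HS_ad⟩
  · exact ⟨1, h1, d, hd, by simpa using HS_ad⟩
  · refine ⟨d, hd, a * d * a, hada, ?_⟩
    have := HS.mul_mem HS_ad (HS_swap HS_ad)
    have e : a * (a * d * a) = d * a := by
      calc a * (a * d * a) = (a * a) * d * a := by simp only [mul_assoc]
        _ = d * a := by rw [haa, one_mul]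
    simp only [if_true, e]
    exact this

theorem sec_onto {g : Equiv.Perm (List Bool)} (hg : g ∈ Gr) :
    ∃ h ∈ Gr, ∃ h1 ∈ Gr, Dec h g h1 false := by
  obtain ⟨h1, hh1, h, hh, h'⟩ := HS_onto hg
  exact ⟨h, hh, h1, hh1, h'⟩

theorem bconj {g : Equiv.Perm (List Bool)} (hg : g ∈ Gr) :
    ∃ h ∈ Gr, Dec h (g * b * g⁻¹) 1 false := by
  exact HS_mk.1 (HS_conj hg HS_b1)

theorem H0_grig {x y : Equiv.Perm (List Bool)} (hx : x ∈ Gr) (hy : y ∈ Gr) :
    ∃ u ∈ Subgroup.closure {d, a * d * a}, ∃ v ∈ Subgroup.closure {d, a * d * a},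
      ∃ g ∈ Gr, Dec g (x * u) (y * v) false := by
  obtain ⟨n, hn, u0, hu0, rfl⟩ := hg_fact hx
  obtain ⟨m, hm, w0, hw0, rfl⟩ := hg_fact hy
  obtain ⟨i, u, hu, rfl⟩ := hg_DU hu0
  obtain ⟨j, v, hv, rfl⟩ := hg_DU hw0
  obtain ⟨p, hp, q, hq, hpq⟩ := hg_four i j
  refine ⟨u⁻¹ * p, Subgroup.mul_mem _ (Subgroup.inv_mem _ hu) hp, v⁻¹ * q, 
    Subgroup.mul_mem _ (Subgroup.inv_mem _ hv) hq, ?_⟩
  apply HS_mk.1
  have := HS.mul_mem (HS.mul_mem hn (HS_swap hm)) hpq
  have e : (n, (1 : Equiv.Perm (List Bool))) * (1, m) * ((if i then a else 1) * p, (if j then a else 1) * q) =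
      (n * ((if i then a else 1) * u) * (u⁻¹ * p), m * ((if j then a else 1) * v) * (v⁻¹ * q)) := by
    ext1
    · show n * 1 * ((if i then a else 1) * p) = n * ((if i then a else 1) * u) * (u⁻¹ * p)
      group
    · show 1 * m * ((if j then a else 1) * q) = m * ((if j then a else 1) * v) * (v⁻¹ * q)
      group
  rwa [e] at this

end GSR
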