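import Pool.Agent.Helper242.GSR.GDefs
import Pool.Agent.Helper242.GSR.J30998
import Pool.Agent.Helper242.GSR.J30999
import Pool.Agent.Helper242.GSR.J31044

namespace GSR

open Filter Topology

theorem h940_a_mem : a ∈ Gr := Subgroup.subset_closure (by simp)

theorem h940_b_mem : b ∈ Gr := Subgroup.subset_closure (by simp)

theorem h940_c_mem : c ∈ Gr := Subgroup.subset_closure (by simp)

theorem h940_d_mem : d ∈ Gr := Subgroup.subset_closure (by simp)

theorem h940_K_le : (Subgroup.closure {b, d, a * d * a} : Subgroup (Equiv.Perm (List Bool))) ≤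
    Gr := by
  rw [Subgroup.closure_le]
  rintro x (rfl | rfl | rfl)
  · exact h940_b_mem
  · exact h940_d_mem
  · exact Gr.mul_mem (Gr.mul_mem h940_a_mem h940_d_mem) h940_a_mem

theorem h940_U_le : (Subgroup.closure {d, a * d * a} : Subgroup (Equiv.Perm (List Bool))) ≤
    Subgroup.closure {b, d, a * d * a} := by
  apply Subgroup.closure_mono
  rintro x (rfl | rfl)
  · simp
  · simp

theorem h940_norm (u : Equiv.Perm (List Bool))
    (hu : u ∈ (Subgroup.closure {d, a * d * a} : Subgroup (Equiv.Perm (List Bool)))) :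
    a * u * a ∈ (Subgroup.closure {d, a * d * a} : Subgroup (Equiv.Perm (List Bool))) := by
  have ha : a * a = 1 := rels.1
  have hainv : a⁻¹ = a := inv_eq_of_mul_eq_one_left ha
  refine Subgroup.closure_induction (p := fun u _ => a * u * a ∈
    (Subgroup.closure {d, a * d * a} : Subgroup (Equiv.Perm (List Bool)))) ?_ ?_ ?_ ?_ hu
  · rintro x (rfl | rfl)
    · exact Subgroup.subset_closure (by simp)
    · have : a * (a * d * a) * a = d := by
        have h1 : a * (a * d * a) * a = (a * a) * d * (a * a) := by group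
        rw [h1, ha, one_mul, mul_one]
      rw [this]
      exact Subgroup.subset_closure (by simp)
  · rw [mul_one, ha]
    exact Subgroup.one_mem _
  · intro x y _ _ hx hy
    have h1 : a * (x * y) * a = (a * x * a) * (a * y * a) := by
      have h2 : (a * x * a) * (a * y * a) = a * x * (a * a) * y * a := by group
      rw [h2, ha, mul_one]
      group
    rw [h1]
    exact Subgroup.mul_mem _ hx hy
  · intro x _ hx
    have h1 : a * x⁻¹ * a = (a * x * a)⁻¹ := by
      rw [mul_inv_rev, mul_inv_rev, hainv, mul_assoc]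
    rw [h1]
    exact Subgroup.inv_mem _ hx

theorem grig_dat : Nonempty (Dat Gr) := by
  have hdec : ∀ g : Gr, ∃ g0 : Gr, ∃ g1 : Gr, ∃ w : Bool,
      Dec (g : Equiv.Perm (List Bool)) g0 g1 w := by
    rintro ⟨g, hg⟩
    obtain ⟨g0, h0, g1, h1, w, hw⟩ := Gr_dec hg
    exact ⟨⟨g0, h0⟩, ⟨g1, h1⟩, w, hw⟩
  choose c0 c1 w hw using hdec
  have haa : a * a = 1 := rels.1
  have hun : ∀ (g g0 g1 : Gr) (w' : Bool), Dec (g : Equiv.Perm (List Bool)) g0 g1 w' →
      c0 g = g0 ∧ c1 g = g1 ∧ w g = w' := by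
    intro g g0 g1 w' h
    obtain ⟨h0, h1, h2⟩ := dec_uniq (hw g) h
    exact ⟨Subtype.ext h0, Subtype.ext h1, h2⟩
  have hmul : ∀ g h : Gr, c0 (g * h) = c0 g * (if w g then c1 h else c0 h) ∧
      c1 (g * h) = c1 g * (if w g then c0 h else c1 h) ∧ w (g * h) = xor (w g) (w h) := by
    intro g h
    apply hun
    have h1 := dec_mul (hw g) (hw h)
    cases hwg : w g
    · simp only [hwg, Bool.false_eq_true, if_false] at h1 ⊢
      exact h1
    · simp only [hwg, if_true] at h1 ⊢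
      exact h1
  have ha := hun ⟨a, h940_a_mem⟩ 1 1 true dec_a
  have hwb := (hun ⟨b, h940_b_mem⟩ ⟨a, h940_a_mem⟩ ⟨c, h940_c_mem⟩ false dec_b).2.2
  have hwd := (hun ⟨d, h940_d_mem⟩ 1 ⟨b, h940_b_mem⟩ false dec_d).2.2
  have hw1 : w 1 = false := (hun 1 1 1 false dec_one).2.2
  have hwK : ∀ k : Gr, (k : Equiv.Perm (List Bool)) ∈
      (Subgroup.closure {b, d, a * d * a} : Subgroup (Equiv.Perm (List Bool))) → w k = false := by
    rintro ⟨k, hk⟩ hkK
    have key : ∀ (k : Equiv.Perm (List Bool)) (_ : k ∈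
      (Subgroup.closure {b, d, a * d * a} : Subgroup (Equiv.Perm (List Bool)))),
      ∃ hk : k ∈ Gr, w ⟨k, hk⟩ = false := by
      intro k hk
      refine Subgroup.closure_induction (p := fun k _ => ∃ hk : k ∈ Gr, w ⟨k, hk⟩ = false)
        ?_ ?_ ?_ ?_ hk
      · rintro x (rfl | rfl | rfl)
        · exact ⟨h940_b_mem, hwb⟩
        · exact ⟨h940_d_mem, hwd⟩
        · refine ⟨Gr.mul_mem (Gr.mul_mem h940_a_mem h940_d_mem) h940_a_mem, ?_⟩
          have h1 : w ((⟨a, h940_a_mem⟩ : Gr) * ⟨d, h940_d_mem⟩ * ⟨a, h940_a_mem⟩) = false := by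
            rw [(hmul _ _).2.2, (hmul _ _).2.2, ha.2.2, hwd]
            rfl
          exact h1
      · exact ⟨Gr.one_mem, hw1⟩
      · rintro x y _ _ ⟨hx, hx'⟩ ⟨hy, hy'⟩
        refine ⟨Gr.mul_mem hx hy, ?_⟩
        have h1 : w ((⟨x, hx⟩ : Gr) * ⟨y, hy⟩) = false := by
          rw [(hmul _ _).2.2, hx', hy']
          rfl
        exact h1
      · rintro x _ ⟨hx, hx'⟩
        refine ⟨Gr.inv_mem hx, ?_⟩
        have h1 : w ((⟨x, hx⟩ : Gr) * (⟨x, hx⟩ : Gr)⁻¹) = false := by
          rw [mul_inv_cancel]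
          exact hw1
        rw [(hmul _ _).2.2, hx', Bool.false_xor] at h1
        exact h1
    obtain ⟨_, h⟩ := key k hkK
    exact h
  refine ⟨{
    K := (Subgroup.closure {b, d, a * d * a} : Subgroup (Equiv.Perm (List Bool))).comap Gr.subtype
    U := (Subgroup.closure {d, a * d * a} : Subgroup (Equiv.Perm (List Bool))).comap Gr.subtype
    a := ⟨a, h940_a_mem⟩
    χ := w
    c0 := c0
    c1 := c1
    w := w
    τ := ⟨a, h940_a_mem⟩
    K_fin := ?_
    U_le := ?_
    a_sq := ?_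
    a_norm := ?_
    χ_mul := fun g h => (hmul g h).2.2
    χ_K := ?_
    χ_a := ha.2.2
    gen := ?_
    c0_mul := fun g h => (hmul g h).1
    c1_mul := fun g h => (hmul g h).2.1
    w_mul := fun g h => (hmul g h).2.2
    dec_inj := ?_
    c0_τ := ha.1
    c1_τ := ha.2.1
    w_τ := ha.2.2
    H0 := ?_ }⟩
  · have h1 : ((Subtype.val : Gr → Equiv.Perm (List Bool)) ⁻¹'
      ((Subgroup.closure {b, d, a * d * a} : Subgroup (Equiv.Perm (List Bool))) :
        Set (Equiv.Perm (List Bool)))).Finite :=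
      Set.Finite.preimage (Subtype.val_injective.injOn) K_finite
    exact h1
  · exact Subgroup.comap_mono h940_U_le
  · exact Subtype.ext haa
  · intro u hu
    exact h940_norm _ hu
  · intro k hk
    exact hwK k hk
  · rw [eq_top_iff]
    rintro ⟨g, hg⟩ -
    set C : Subgroup Gr := Subgroup.closure (((Subgroup.closure {b, d, a * d * a} :
      Subgroup (Equiv.Perm (List Bool))).comap Gr.subtype : Set Gr) ∪
        {(⟨a, h940_a_mem⟩ : Gr)}) with hC
    have hbC : (⟨b, h940_b_mem⟩ : Gr) ∈ C := Subgroup.subset_closure (Or.inl (by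
      show b ∈ (Subgroup.closure {b, d, a * d * a} : Subgroup (Equiv.Perm (List Bool)))
      exact Subgroup.subset_closure (by simp)))
    have hdC : (⟨d, h940_d_mem⟩ : Gr) ∈ C := Subgroup.subset_closure (Or.inl (by
      show d ∈ (Subgroup.closure {b, d, a * d * a} : Subgroup (Equiv.Perm (List Bool)))
      exact Subgroup.subset_closure (by simp)))
    have haC : (⟨a, h940_a_mem⟩ : Gr) ∈ C := Subgroup.subset_closure (Or.inr rfl)
    have key : ∃ hg : g ∈ Gr, (⟨g, hg⟩ : Gr) ∈ C := by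
      refine Subgroup.closure_induction (p := fun g _ => ∃ hg : g ∈ Gr, (⟨g, hg⟩ : Gr) ∈ C)
        ?_ ?_ ?_ ?_ hg
      · rintro x (rfl | rfl | rfl | rfl)
        · exact ⟨h940_a_mem, haC⟩
        · exact ⟨h940_b_mem, hbC⟩
        · refine ⟨h940_c_mem, ?_⟩
          have h1 : (⟨c, h940_c_mem⟩ : Gr) = ⟨b, h940_b_mem⟩ * ⟨d, h940_d_mem⟩ :=
            Subtype.ext rels.2.2.2.2.2.2.1.symm
          rw [h1]
          exact C.mul_mem hbC hdC
        · exact ⟨h940_d_mem, hdC⟩
      · exact ⟨Gr.one_mem, C.one_mem⟩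
      · rintro x y _ _ ⟨hx, hx'⟩ ⟨hy, hy'⟩
        exact ⟨Gr.mul_mem hx hy, C.mul_mem hx' hy'⟩
      · rintro x _ ⟨hx, hx'⟩
        exact ⟨Gr.inv_mem hx, C.inv_mem hx'⟩
    obtain ⟨_, h⟩ := key
    exact h
  · intro g h h0 h1 h2
    apply Subtype.ext
    refine dec_ext (Gr_nil g.2) (Gr_nil h.2) (hw g) ?_
    rw [h0, h1, h2]
    exact hw h
  · intro x y
    obtain ⟨u, hu, v, hv, g, hg, hdec⟩ := H0_grig x.2 y.2
    refine ⟨⟨u, h940_K_le (h940_U_le hu)⟩, hu, ⟨v, h940_K_le (h940_U_le hv)⟩, hv, ⟨g, hg⟩, ?_⟩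
    exact hun ⟨g, hg⟩ (x * ⟨u, h940_K_le (h940_U_le hu)⟩) (y * ⟨v, h940_K_le (h940_U_le hv)⟩)
      false hdec

end GSR
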