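import Pool.Agent.Helper242.GSR.GDefs
import Pool.Agent.Helper242.GSR.J30999
import Pool.Agent.Helper242.GSR.J31044

namespace GSR

open Filter Topology

theorem grig_inf : Infinite Gr := by
  by_contra hcon
  rw [not_infinite_iff_finite] at hcon
  have hsec : ∀ g : Gr, ∃ h : Gr, ∃ h1 : Equiv.Perm (List Bool),
      Dec (h : Equiv.Perm (List Bool)) g h1 false := by
    intro g
    obtain ⟨h, hh, h1, _, hd⟩ := sec_onto g.2
    exact ⟨⟨h, hh⟩, h1, hd⟩
  choose f f1 hf using hsec
  have hinj : Function.Injective f := by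
    intro g g' hgg
    have h1 := hf g
    have h2 := hf g'
    rw [← hgg] at h2
    exact Subtype.ext (dec_uniq h1 h2).1
  have hsurj := Finite.surjective_of_injective hinj
  have ha : a ∈ Gr := Subgroup.subset_closure (by simp)
  obtain ⟨g, hg⟩ := hsurj ⟨a, ha⟩
  have h1 := hf g
  rw [hg] at h1
  have h2 := (dec_uniq dec_a h1).2.2
  exact absurd h2 (by decide)

end GSR
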