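import Pool.Agent.Helper242.GSR.Defs

namespace GSR

open Filter Topology

section Ana

variable {A B : ℕ → ℝ}

theorem max_principle (H : ℕ → ℝ) (x0 : ℕ) (h1 : ∀ x ≥ x0, 2 * H (2 * x) ≤ H (3 * x) + H x - 3)
    (h2 : ∀ n ≥ x0, H (n + 1) ≤ H n + 1) (h3 : ∀ ε : ℝ, 0 < ε → ∃ C : ℝ, ∀ n : ℕ, H n ≤ C + ε * n) :
    ∃ M : ℝ, ∀ n, H n ≤ M := by
  obtain ⟨M0, hM0⟩ : ∃ M0 : ℝ, ∀ z < 2 * x0 + 2, H z ≤ M0 := by
    refine ⟨∑ z ∈ Finset.range (2 * x0 + 2), |H z|, fun z hz => ?_⟩
    exact (le_abs_self _).trans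
      (Finset.single_le_sum (f := fun z => |H z|) (fun i _ => abs_nonneg _) (Finset.mem_range.2 hz))
  have key : ∀ η : ℝ, 0 < η → ∀ n : ℕ, x0 ≤ n → H n ≤ M0 + η * n := by
    intro η hη n hn
    obtain ⟨C, hC⟩ := h3 (η / 2) (by positivity)
    obtain ⟨N, hN⟩ := exists_nat_gt ((C - (H x0 - η * x0)) / (η / 2))
    have hN' : C - (H x0 - η * x0) < η / 2 * N := by
      rw [div_lt_iff₀ (by positivity)] at hN
      linarith
    obtain ⟨z, hz, hzmax⟩ := Finset.exists_max_image (Finset.Icc x0 (x0 + N))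
      (fun z => H z - η * (z : ℝ)) ⟨x0, Finset.mem_Icc.2 ⟨le_refl _, by omega⟩⟩
    have hz0 : x0 ≤ z := (Finset.mem_Icc.1 hz).1
    have hmax : ∀ y, x0 ≤ y → H y - η * (y : ℝ) ≤ H z - η * (z : ℝ) := by
      intro y hy
      by_cases hyN : y ≤ x0 + N
      · exact hzmax y (Finset.mem_Icc.2 ⟨hy, hyN⟩)
      · have e1 := hzmax x0 (Finset.mem_Icc.2 ⟨le_refl _, by omega⟩)
        have e2 := hC y
        have e3 : (N : ℝ) ≤ y := by
          have : N ≤ y := by omega
          exact_mod_cast this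
        have e4 : η / 2 * (N : ℝ) ≤ η / 2 * y := mul_le_mul_of_nonneg_left e3 (by positivity)
        linarith
    have hzlt : z < 2 * x0 + 2 := by
      by_contra hcon
      rw [not_lt] at hcon
      obtain ⟨x, hx⟩ : ∃ x, z = 2 * x ∨ z = 2 * x + 1 := ⟨z / 2, by omega⟩
      have hx0 : x0 ≤ x := by omega
      have f1 := h1 x hx0
      have f2 := hmax (3 * x) (by omega)
      have f3 := hmax x hx0
      have f4 : H z - η * (z : ℝ) ≤ H (2 * x) - η * ((2 * x : ℕ) : ℝ) + 1 := by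
        rcases hx with hx | hx
        · rw [hx]
          linarith
        · rw [hx]
          have := h2 (2 * x) (by omega)
          push_cast
          nlinarith
      push_cast at f2 f4
      linarith
    have g1 := hmax n hn
    have g2 := hM0 z hzlt
    have g3 : 0 ≤ η * (z : ℝ) := by positivity
    linarith
  refine ⟨M0, fun n => ?_⟩
  by_cases hn : x0 ≤ n
  · refine le_of_forall_pos_le_add fun ε hε => ?_
    have hp : (0 : ℝ) < (n : ℝ) + 1 := by positivity
    have := key (ε / (n + 1)) (div_pos hε hp) n hn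
    have h5 : ε / (n + 1) * (n : ℝ) ≤ ε := by
      rw [div_mul_eq_mul_div, div_le_iff₀ hp]
      nlinarith
    linarith
  · exact hM0 n (by omega)

end Ana

end GSR
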