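import Pool.Agent.Helper242.GSR.Defs
import Pool.Agent.Helper242.GSR.J30990
import Pool.Agent.Helper242.GSR.J30993
import Pool.Agent.Helper242.GSR.J31043
import Pool.Agent.Helper242.GSR.J31046

namespace GSR

open Filter Topology

section Ana

variable {A B : ℕ → ℝ}

theorem analysis (h : SmH A B) (hd : ∀ n, 1 ≤ n → 2 * Bl A B n ≤ Bl A B (3 * n + 1))
    (hsub : ∀ ε : ℝ, 0 < ε → ∃ C : ℝ, ∀ n : ℕ, Bl A B n ≤ C * Real.exp (ε * n))
    (hF : Tendsto (fun n => FF (Pq A B) (Mq A B) A B (n + 1) /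
      FF (Pq A B) (Mq A B) A B n) atTop (𝓝 1)) : False := by
  have hBln : ∀ n : ℕ, (n : ℝ) + 1 ≤ Bl A B n := by
    intro n
    unfold Bl
    calc (n : ℝ) + 1 = ∑ i ∈ Finset.range (n + 1), (1 : ℝ) := by simp
      _ ≤ _ := Finset.sum_le_sum (fun i _ => h.pos i)
  have hBl1 : ∀ n : ℕ, 1 ≤ Bl A B n := fun n => by
    have h1 := hBln n
    have h2 : (0:ℝ) ≤ n := n.cast_nonneg
    linarith
  have hBl0 : ∀ n : ℕ, 0 < Bl A B n := fun n => lt_of_lt_of_le one_pos (hBl1 n)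
  obtain ⟨x1, hx1⟩ := ball_ineq h hd (fun ε hε => key h hF ε hε) (Real.exp (-3)) (Real.exp_pos _)
  obtain ⟨n1, hn1⟩ := bl_succ h 1 one_pos
  have H1 : ∀ x ≥ max x1 n1, 2 * Real.log (Bl A B (2 * x)) ≤
      Real.log (Bl A B (3 * x)) + Real.log (Bl A B x) - 3 := by
    intro x hx
    have h1 := hx1 x (le_trans (le_max_left _ _) hx)
    have h2 := Real.log_le_log (pow_pos (hBl0 (2 * x)) 2) h1
    rw [Real.log_pow, Real.log_mul (Real.exp_pos _).ne' (mul_pos (hBl0 _) (hBl0 _)).ne',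
      Real.log_mul (hBl0 _).ne' (hBl0 _).ne', Real.log_exp] at h2
    push_cast at h2
    linarith
  have H2 : ∀ n ≥ max x1 n1, Real.log (Bl A B (n + 1)) ≤ Real.log (Bl A B n) + 1 := by
    intro n hn
    have h1 := hn1 n (le_trans (le_max_right _ _) hn)
    have h2 := Real.log_le_log (hBl0 (n + 1)) h1
    rw [Real.log_mul (by norm_num) (hBl0 _).ne'] at h2
    have h3 : Real.log (1 + 1) ≤ 1 := by
      have := Real.log_two_lt_d9
      norm_num at this ⊢
      linarith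
    linarith
  have H3 : ∀ ε : ℝ, 0 < ε → ∃ C : ℝ, ∀ n : ℕ, Real.log (Bl A B n) ≤ C + ε * n := by
    intro ε hε
    obtain ⟨C, hC⟩ := hsub ε hε
    have hC0 : 0 < C := by
      have h1 := hC 0
      have h2 := hBl0 0
      simp only [Nat.cast_zero, mul_zero, Real.exp_zero, mul_one] at h1
      linarith
    refine ⟨Real.log C, fun n => ?_⟩
    have h2 := Real.log_le_log (hBl0 n) (hC n)
    rw [Real.log_mul hC0.ne' (Real.exp_pos _).ne', Real.log_exp] at h2
    exact h2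
  obtain ⟨M, hM⟩ := max_principle (fun n => Real.log (Bl A B n)) (max x1 n1) H1 H2 H3
  obtain ⟨n, hn⟩ := exists_nat_gt (Real.exp M)
  have h1 : Real.log (Bl A B n) ≤ M := hM n
  have h2 : Bl A B n ≤ Real.exp M := by
    rw [← Real.exp_log (hBl0 n)]
    exact Real.exp_le_exp.mpr h1
  have h3 := hBln n
  linarith

end Ana

end GSR
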