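import Pool.Agent.Helper242.GSR.Defs
import Pool.Agent.Helper242.GSR.J31045

namespace GSR

open Filter Topology

theorem lam_mono_left {X X' Y : ℤ} {e : Bool} (h : |X| < |X'|) : Lam X Y e ≤ Lam X' Y e := by
  have h0 := (lam_le_iff X' Y (Lam X' Y e) e).1 le_rfl
  rw [lam_le_iff]
  generalize Lam X' Y e = n at *
  obtain ⟨⟨a1, a2⟩, ⟨a3, a4⟩, ⟨a5, a6⟩, ⟨a7, a8⟩⟩ := h0
  have h1 := (abs_lt.1 h).1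
  have h2 := (abs_lt.1 h).2
  rcases abs_cases X' with ⟨hx, hx'⟩ | ⟨hx, hx'⟩ <;> rw [hx] at h1 h2 <;>
    simp only [inn, kk] at a5 a6 a7 a8 ⊢ <;> cases e <;>
    simp only [bi, if_true, Bool.false_eq_true, if_false] at a5 a6 a7 a8 ⊢ <;>
    refine ⟨⟨?_, ?_⟩, ⟨?_, ?_⟩, ⟨?_, ?_⟩, ⟨?_, ?_⟩⟩ <;> omega

theorem lam_mono_right {X Y Y' : ℤ} {e : Bool} (h : |Y| < |Y'|) : Lam X Y e ≤ Lam X Y' e := by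
  have h0 := (lam_le_iff X Y' (Lam X Y' e) e).1 le_rfl
  rw [lam_le_iff]
  generalize Lam X Y' e = n at *
  obtain ⟨⟨a1, a2⟩, ⟨a3, a4⟩, ⟨a5, a6⟩, ⟨a7, a8⟩⟩ := h0
  have h1 := (abs_lt.1 h).1
  have h2 := (abs_lt.1 h).2
  rcases abs_cases Y' with ⟨hx, hx'⟩ | ⟨hx, hx'⟩ <;> rw [hx] at h1 h2 <;>
    simp only [inn, kk] at a5 a6 a7 a8 ⊢ <;> cases e <;>
    simp only [bi, if_true, Bool.false_eq_true, if_false] at a5 a6 a7 a8 ⊢ <;>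
    refine ⟨⟨?_, ?_⟩, ⟨?_, ?_⟩, ⟨?_, ?_⟩, ⟨?_, ?_⟩⟩ <;> omega

theorem lam_sign_left {i : ℤ} (hi : 0 ≤ i) (Y : ℤ) (e : Bool) : Lam i Y e ≤ Lam (-i) Y e := by
  have h0 := (lam_le_iff (-i) Y (Lam (-i) Y e) e).1 le_rfl
  rw [lam_le_iff]
  generalize Lam (-i) Y e = n at *
  obtain ⟨⟨a1, a2⟩, ⟨a3, a4⟩, ⟨a5, a6⟩, ⟨a7, a8⟩⟩ := h0
  simp only [inn, kk] at a5 a6 a7 a8 ⊢
  cases e <;>
    simp only [bi, if_true, Bool.false_eq_true, if_false] at a5 a6 a7 a8 ⊢ <;>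
    refine ⟨⟨?_, ?_⟩, ⟨?_, ?_⟩, ⟨?_, ?_⟩, ⟨?_, ?_⟩⟩ <;> omega

theorem lam_sign_right {j : ℤ} (hj : 0 ≤ j) (X : ℤ) (e : Bool) : Lam X (-j) e ≤ Lam X j e := by
  have h0 := (lam_le_iff X j (Lam X j e) e).1 le_rfl
  rw [lam_le_iff]
  generalize Lam X j e = n at *
  obtain ⟨⟨a1, a2⟩, ⟨a3, a4⟩, ⟨a5, a6⟩, ⟨a7, a8⟩⟩ := h0
  simp only [inn, kk] at a5 a6 a7 a8 ⊢
  cases e <;>
    simp only [bi, if_true, Bool.false_eq_true, if_false] at a5 a6 a7 a8 ⊢ <;>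
    refine ⟨⟨?_, ?_⟩, ⟨?_, ?_⟩, ⟨?_, ?_⟩, ⟨?_, ?_⟩⟩ <;> omega

end GSR
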