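import Pool.Agent.Helper242.GSR.Defs
import Pool.Agent.Helper242.GSR.J31004

namespace GSR

open Filter Topology

section W

variable {G : Type} [Group G] (D : Dat G)

theorem W3_pos (n : ℕ) : D.W (n : ℤ) = D.Wp n := by
  unfold Dat.W
  rw [if_pos (by omega)]
  simp

theorem W3_neg (n : ℕ) : D.W (-(n : ℤ)) = D.Wn n := by
  rcases Nat.eq_zero_or_pos n with h | h
  · subst h
    unfold Dat.W
    rw [if_pos (by simp)]
    simp [Dat.Wp, Dat.Wn]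
  · unfold Dat.W
    rw [if_neg (by omega)]
    simp

theorem W3_Wp_odd (k : ℕ) (g : G) : g ∈ D.Wp (2 * k + 1) ↔ g * D.a ∈ D.Wp (2 * k) := by
  have h : (2 * k) % 2 = 0 := by omega
  show g ∈ (if (2 * k) % 2 = 0 then {g | g * D.a ∈ D.Wp (2 * k)}
    else {g | ∃ k' ∈ D.K, g * k' ∈ D.Wp (2 * k)}) ↔ _
  rw [if_pos h]; rfl

theorem W3_Wp_even (k : ℕ) (g : G) :
    g ∈ D.Wp (2 * k + 2) ↔ ∃ k' ∈ D.K, g * k' ∈ D.Wp (2 * k + 1) := by
  have h : ¬ (2 * k + 1) % 2 = 0 := by omega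
  show g ∈ (if (2 * k + 1) % 2 = 0 then {g | g * D.a ∈ D.Wp (2 * k + 1)}
    else {g | ∃ k' ∈ D.K, g * k' ∈ D.Wp (2 * k + 1)}) ↔ _
  rw [if_neg h]; rfl

theorem W3_Wn_odd (k : ℕ) (g : G) :
    g ∈ D.Wn (2 * k + 1) ↔ ∃ k' ∈ D.K, g * k' ∈ D.Wn (2 * k) := by
  have h : (2 * k) % 2 = 0 := by omega
  show g ∈ (if (2 * k) % 2 = 0 then {g | ∃ k' ∈ D.K, g * k' ∈ D.Wn (2 * k)}
    else {g | g * D.a ∈ D.Wn (2 * k)}) ↔ _
  rw [if_pos h]; rfl

theorem W3_Wn_even (k : ℕ) (g : G) : g ∈ D.Wn (2 * k + 2) ↔ g * D.a ∈ D.Wn (2 * k + 1) := by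
  have h : ¬ (2 * k + 1) % 2 = 0 := by omega
  show g ∈ (if (2 * k + 1) % 2 = 0 then {g | ∃ k' ∈ D.K, g * k' ∈ D.Wn (2 * k + 1)}
    else {g | g * D.a ∈ D.Wn (2 * k + 1)}) ↔ _
  rw [if_neg h]; rfl

theorem W3_aa (x : G) : x * D.a * D.a = x := by
  rw [mul_assoc, D.a_sq, mul_one]

theorem W3_conj (k : ℕ) : (∀ g, g ∈ D.Wp (2 * k) → D.a * g * D.a ∈ D.Wn (2 * k)) ∧
    (∀ g, g ∈ D.Wn (2 * k) → D.a * g * D.a ∈ D.Wp (2 * k)) := by
  induction k with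
  | zero =>
    exact ⟨fun g hg => D.a_norm g hg, fun g hg => D.a_norm g hg⟩
  | succ k ih =>
    have e : 2 * (k + 1) = 2 * k + 2 := by ring
    rw [e]
    constructor
    · intro g hg
      rw [W3_Wp_even] at hg
      obtain ⟨k', hk', h1⟩ := hg
      rw [W3_Wp_odd] at h1
      have h2 := ih.1 _ h1
      rw [W3_Wn_even, W3_aa, W3_Wn_odd]
      refine ⟨k', hk', ?_⟩
      have e2 : D.a * (g * k' * D.a) * D.a = D.a * g * k' := by
        rw [← mul_assoc, W3_aa, mul_assoc]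
      rwa [e2] at h2
    · intro g hg
      rw [W3_Wn_even, W3_Wn_odd] at hg
      obtain ⟨k', hk', h1⟩ := hg
      have h2 := ih.2 _ h1
      rw [W3_Wp_even]
      refine ⟨k', hk', ?_⟩
      rw [W3_Wp_odd]
      have e2 : D.a * (g * D.a * k') * D.a = D.a * g * D.a * k' * D.a := by
        simp only [mul_assoc]
      rwa [e2] at h2

theorem W_conj_even {X : ℤ} {g : G} (hX : X % 2 = 0) (hg : g ∈ D.W X) :
    D.a * g * D.a ∈ D.W (-X) := by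
  rcases le_total 0 X with h | h
  · obtain ⟨k, rfl⟩ : ∃ k : ℕ, X = ((2 * k : ℕ) : ℤ) := ⟨(X / 2).toNat, by omega⟩
    rw [W3_pos] at hg
    rw [W3_neg]
    exact (W3_conj D k).1 g hg
  · obtain ⟨k, rfl⟩ : ∃ k : ℕ, X = -((2 * k : ℕ) : ℤ) := ⟨((-X) / 2).toNat, by omega⟩
    rw [W3_neg] at hg
    rw [neg_neg, W3_pos]
    exact (W3_conj D k).2 g hg

theorem W_conj_odd {X : ℤ} {g : G} (hX : X % 2 = 1) (hg : g ∈ D.W X) :
    D.a * g * D.a ∈ D.W (2 - X) := by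
  rcases le_total 0 X with h | h
  · obtain ⟨k, rfl⟩ : ∃ k : ℕ, X = ((2 * k + 1 : ℕ) : ℤ) := ⟨(X / 2).toNat, by omega⟩
    rw [W3_pos, W3_Wp_odd, ← W3_pos] at hg
    have h1 := W_conj_even D (by omega) hg
    have e2 : D.a * (g * D.a) * D.a = D.a * g := by
      rw [← mul_assoc, W3_aa]
    rw [e2] at h1
    have h2 := W_mula D h1
    have e3 : sP (-((2 * k : ℕ) : ℤ)) = 2 - ((2 * k + 1 : ℕ) : ℤ) := by
      unfold sP
      rw [if_pos (by omega)]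
      push_cast; ring
    rwa [e3] at h2
  · obtain ⟨k, rfl⟩ : ∃ k : ℕ, X = -((2 * k + 1 : ℕ) : ℤ) := ⟨((-X) / 2).toNat, by omega⟩
    rw [W3_neg, W3_Wn_odd] at hg
    obtain ⟨k', hk', h1⟩ := hg
    rw [← W3_neg] at h1
    have h2 := W_mula D (W_conj_even D (by omega) h1)
    rw [W3_aa, neg_neg] at h2
    have e3 : sP (((2 * k : ℕ) : ℤ)) = ((2 * k + 1 : ℕ) : ℤ) := by
      unfold sP
      rw [if_pos (by omega)]
      push_cast; ring
    rw [e3, W3_pos, ← mul_assoc] at h2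
    have h3 : D.a * g ∈ D.Wp (2 * k + 2) := by
      rw [W3_Wp_even]
      exact ⟨k', hk', h2⟩
    rw [← W3_pos] at h3
    have h4 := W_mula D h3
    have e4 : sP (((2 * k + 2 : ℕ) : ℤ)) = 2 - -((2 * k + 1 : ℕ) : ℤ) := by
      unfold sP
      rw [if_pos (by omega)]
      push_cast; ring
    rwa [e4] at h4

end W

end GSR
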