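import Pool.Agent.Helper242.GSR.Defs
import Pool.Agent.Helper242.GSR.J31006

namespace GSR

open Filter Topology

section W

variable {G : Type} [Group G] (D : Dat G)

theorem lW_le {X : ℤ} {g : G} (hg : g ∈ D.W X) : D.lW g ≤ X.natAbs :=
  Nat.sInf_le ⟨X, hg, rfl⟩

theorem lW_spec (g : G) : ∃ X, g ∈ D.W X ∧ X.natAbs = D.lW g := by
  have h : ({n : ℕ | ∃ X : ℤ, g ∈ D.W X ∧ X.natAbs = n}).Nonempty := by
    obtain ⟨X, hX⟩ := W_ex D g
    exact ⟨X.natAbs, X, hX, rfl⟩
  exact Nat.sInf_mem h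

theorem lW_fin (n : ℕ) : {g : G | D.lW g ≤ n}.Finite := by
  have h : {g : G | D.lW g ≤ n} ⊆ ⋃ X ∈ (Finset.Icc (-(n : ℤ)) n : Finset ℤ), D.W X := by
    intro g hg
    obtain ⟨X, hX, hXn⟩ := lW_spec D g
    have hg' : D.lW g ≤ n := hg
    simp only [Set.mem_iUnion]
    refine ⟨X, ?_, hX⟩
    rw [Finset.mem_Icc]
    omega
  refine Set.Finite.subset ?_ h
  exact Set.Finite.biUnion (Finset.finite_toSet _) (fun X _ => W_fin D X)

theorem card_split {p q : G → Prop} (hf : {g | p g}.Finite) :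
    Nat.card {g : G // p g} = Nat.card {g : G // p g ∧ ¬ q g} + Nat.card {g : G // p g ∧ q g} := by
  classical
  haveI : Finite {g : G // p g} := hf
  have h1 : {g : G | p g ∧ q g}.Finite := hf.subset (fun g hg => hg.1)
  have h2 : {g : G | p g ∧ ¬ q g}.Finite := hf.subset (fun g hg => hg.1)
  have e : {g | p g} = {g : G | p g ∧ ¬ q g} ∪ {g : G | p g ∧ q g} := by
    ext g
    simp only [Set.mem_setOf_eq, Set.mem_union]
    tauto
  have hd : Disjoint {g : G | p g ∧ ¬ q g} {g : G | p g ∧ q g} := by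
    rw [Set.disjoint_left]
    rintro g ⟨_, h⟩ ⟨_, h'⟩
    exact h h'
  have := Set.ncard_union_eq hd h2 h1
  rw [← e] at this
  exact this

theorem sph_fin (n : ℕ) : {g : G | D.lW g = n}.Finite :=
  (lW_fin D n).subset (fun g hg => le_of_eq hg)

theorem Gam_eq_AB (n : ℕ) : D.Gam n = D.A n + D.B n :=
  card_split (q := fun g => g ∈ D.W (-(n : ℤ))) (sph_fin D n)

theorem Gam_eq_PM (n : ℕ) : D.Gam n = D.P n + D.M n := by
  rw [add_comm]
  exact card_split (q := fun g => g ∈ D.W (n : ℤ)) (sph_fin D n)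

end W

end GSR
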