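import Pool.Agent.Helper242.GSR.Defs
import Pool.Agent.Helper242.GSR.J31004
import Pool.Agent.Helper242.GSR.J31006
import Pool.Agent.Helper242.GSR.J31008

namespace GSR

open Filter Topology

section W

variable {G : Type} [Group G] (D : Dat G)

theorem L2_aa (g : G) : g * D.a * D.a = g := by rw [mul_assoc, D.a_sq, mul_one]

theorem L2_back {X : ℤ} {g : G} (h : g * D.a ∈ D.W X) : g ∈ D.W (sP X) := by
  have h1 := W_mula D h
  rwa [L2_aa] at h1

theorem L2_eq {g : G} {n : ℕ} (X0 : ℤ) (h0 : g ∈ D.W X0) (hn : X0.natAbs = n)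
    (h : ∀ X, g ∈ D.W X → n ≤ X.natAbs) : D.lW g = n := by
  apply le_antisymm
  · rw [← hn]
    exact lW_le D h0
  · obtain ⟨X, hX, hXn⟩ := lW_spec D g
    rw [← hXn]
    exact h X hX

theorem L2_par {X Y : ℤ} {g : G} (h : g ∈ D.W X) (h' : g ∈ D.W Y) :
    (((X + 1) / 2) % 2 = 1 ↔ ((Y + 1) / 2) % 2 = 1) := by
  have h1 := (W_chi D h).symm.trans (W_chi D h')
  exact decide_eq_decide.1 h1

theorem L2_card (p q : G → Prop) (hpq : ∀ g, p g → q (g * D.a)) (hqp : ∀ g, q g → p (g * D.a)) :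
    Nat.card {g : G // p g} = Nat.card {g : G // q g} :=
  Nat.card_congr
    { toFun := fun g => ⟨g.1 * D.a, hpq g.1 g.2⟩
      invFun := fun g => ⟨g.1 * D.a, hqp g.1 g.2⟩
      left_inv := fun g => Subtype.ext (L2_aa D g.1)
      right_inv := fun g => Subtype.ext (L2_aa D g.1) }

theorem A_odd (k : ℕ) (hk : 1 ≤ k) : D.A (2 * k + 1) = D.A (2 * k) := by
  unfold Dat.A
  refine L2_card D _ _ (fun g hg => ?_) (fun g hg => ?_)
  · obtain ⟨h1, h2⟩ := hg
    have hg0 : g ∈ D.W (2 * (k : ℤ) + 1) := by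
      obtain ⟨X, hX, hXn⟩ := lW_spec D g
      rw [h1] at hXn
      have h3 : X = 2 * (k : ℤ) + 1 ∨ X = -((2 * k + 1 : ℕ) : ℤ) := by omega
      rcases h3 with h3 | h3
      · rwa [h3] at hX
      · rw [h3] at hX
        exact absurd hX h2
    have hga : g * D.a ∈ D.W (2 * (k : ℤ)) := by
      have h3 := W_mula D hg0
      have h4 : sP (2 * (k : ℤ) + 1) = 2 * (k : ℤ) := by
        unfold sP
        split_ifs <;> omega
      rwa [h4] at h3
    refine ⟨L2_eq D _ hga (by omega) (fun X hX => ?_), fun hX => ?_⟩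
    · have hY := L2_back D hX
      have h5 := lW_le D hY
      have h6 : sP X ≠ -((2 * k + 1 : ℕ) : ℤ) := fun h => h2 (h ▸ hY)
      rw [h1] at h5
      unfold sP at h5 h6
      split_ifs at h5 h6 <;> omega
    · have hY := L2_back D hX
      have h5 := lW_le D hY
      rw [h1] at h5
      unfold sP at h5
      split_ifs at h5 <;> omega
  · obtain ⟨h1, h2⟩ := hg
    have hg0 : g ∈ D.W (2 * (k : ℤ)) := by
      obtain ⟨X, hX, hXn⟩ := lW_spec D g
      rw [h1] at hXn
      have h3 : X = 2 * (k : ℤ) ∨ X = -((2 * k : ℕ) : ℤ) := by omega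
      rcases h3 with h3 | h3
      · rwa [h3] at hX
      · rw [h3] at hX
        exact absurd hX h2
    have hga : g * D.a ∈ D.W (2 * (k : ℤ) + 1) := by
      have h3 := W_mula D hg0
      have h4 : sP (2 * (k : ℤ)) = 2 * (k : ℤ) + 1 := by
        unfold sP
        split_ifs <;> omega
      rwa [h4] at h3
    refine ⟨L2_eq D _ hga (by omega) (fun X hX => ?_), fun hX => ?_⟩
    · have hY := L2_back D hX
      have h5 := lW_le D hY
      have h6 : sP X ≠ -((2 * k : ℕ) : ℤ) := fun h => h2 (h ▸ hY)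
      have h7 := L2_par D hY hg0
      rw [h1] at h5
      unfold sP at h5 h6 h7
      split_ifs at h5 h6 h7 <;> omega
    · have hY := L2_back D hX
      have h7 := L2_par D hY hg0
      unfold sP at h7
      split_ifs at h7 <;> omega

theorem B_odd (k : ℕ) : D.B (2 * k + 1) = D.B (2 * k + 2) := by
  unfold Dat.B
  refine L2_card D _ _ (fun g hg => ?_) (fun g hg => ?_)
  · obtain ⟨h1, h2⟩ := hg
    have hga : g * D.a ∈ D.W (-((2 * k + 2 : ℕ) : ℤ)) := by
      have h3 := W_mula D h2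
      have h4 : sP (-((2 * k + 1 : ℕ) : ℤ)) = -((2 * k + 2 : ℕ) : ℤ) := by
        unfold sP
        split_ifs <;> omega
      rwa [h4] at h3
    refine ⟨L2_eq D _ hga (by omega) (fun X hX => ?_), hga⟩
    have hY := L2_back D hX
    have h5 := lW_le D hY
    have h7 := L2_par D hY h2
    rw [h1] at h5
    unfold sP at h5 h7
    split_ifs at h5 h7 <;> omega
  · obtain ⟨h1, h2⟩ := hg
    have hga : g * D.a ∈ D.W (-((2 * k + 1 : ℕ) : ℤ)) := by
      have h3 := W_mula D h2
      have h4 : sP (-((2 * k + 2 : ℕ) : ℤ)) = -((2 * k + 1 : ℕ) : ℤ) := by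
        unfold sP
        split_ifs <;> omega
      rwa [h4] at h3
    refine ⟨L2_eq D _ hga (by omega) (fun X hX => ?_), hga⟩
    have hY := L2_back D hX
    have h5 := lW_le D hY
    rw [h1] at h5
    unfold sP at h5
    split_ifs at h5 <;> omega

end W

end GSR
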