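import Pool.Agent.Helper242.GSR.Defs
import Pool.Agent.Helper242.GSR.J31006
import Pool.Agent.Helper242.GSR.J31007
import Pool.Agent.Helper242.GSR.J31008

namespace GSR

open Filter Topology

section W

variable {G : Type} [Group G] (D : Dat G)

theorem h396_conj_conj (g : G) : D.a * (D.a * g * D.a) * D.a = g := by
  have h : D.a * (D.a * g * D.a) * D.a = (D.a * D.a) * g * (D.a * D.a) := by group
  rw [h, D.a_sq, one_mul, mul_one]

theorem h396_chi_eq {X Y : ℤ} {g : G} (hX : g ∈ D.W X) (hY : g ∈ D.W Y) :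
    (((X + 1) / 2) % 2 = 1 ↔ ((Y + 1) / 2) % 2 = 1) := by
  have h1 := W_chi D hX
  have h2 := W_chi D hY
  rw [h1] at h2
  exact decide_eq_decide.1 h2

theorem h396_lW_conj (k : ℕ) (g : G) (h : D.lW g = 2 * k) : D.lW (D.a * g * D.a) = 2 * k := by
  obtain ⟨X, hX, hXn⟩ := lW_spec D g
  have hXe : X % 2 = 0 := by omega
  have h1 := lW_le D (W_conj_even D hXe hX)
  have h2 : D.lW (D.a * g * D.a) ≤ 2 * k := by omega
  by_contra hne
  obtain ⟨Y, hY, hYn⟩ := lW_spec D (D.a * g * D.a)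
  rcases Int.emod_two_eq_zero_or_one Y with hYe | hYe
  · have h3 := W_conj_even D hYe hY
    rw [h396_conj_conj D g] at h3
    have h4 := lW_le D h3
    omega
  · have h3 := W_conj_odd D hYe hY
    rw [h396_conj_conj D g] at h3
    have h4 := lW_le D h3
    have h5 := h396_chi_eq D hX h3
    have h6 : Y = 1 - 2 * (k : ℤ) := by omega
    have h7 : X = 2 * (k : ℤ) ∨ X = -(2 * (k : ℤ)) := by omega
    subst h6
    rcases h7 with h7 | h7
    · subst h7
      omega
    · subst h7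
      omega

theorem h396_pos_of_not_neg (n : ℕ) (g : G) (h : D.lW g = n) (h' : g ∉ D.W (-(n : ℤ))) :
    g ∈ D.W (n : ℤ) := by
  obtain ⟨X, hX, hXn⟩ := lW_spec D g
  have h7 : X = (n : ℤ) ∨ X = -(n : ℤ) := by omega
  rcases h7 with h7 | h7
  · rw [← h7]; exact hX
  · exact absurd (h7 ▸ hX) h'

theorem h396_conj_pos (k : ℕ) (g : G) (h' : g ∈ D.W ((2 * k : ℕ) : ℤ)) :
    D.a * g * D.a ∈ D.W (-((2 * k : ℕ) : ℤ)) :=
  W_conj_even D (by omega) h'

theorem h396_conj_neg (k : ℕ) (g : G) (h' : g ∈ D.W (-((2 * k : ℕ) : ℤ))) :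
    D.a * g * D.a ∈ D.W ((2 * k : ℕ) : ℤ) := by
  have h := W_conj_even D (by omega) h'
  rwa [neg_neg] at h

theorem A_le_B (k : ℕ) : D.A (2 * k) ≤ D.B (2 * k) := by
  have hf : Finite {g : G // D.lW g = 2 * k ∧ g ∈ D.W (-((2 * k : ℕ) : ℤ))} := by
    refine Set.Finite.to_subtype ((lW_fin D (2 * k)).subset ?_)
    intro g hg
    exact le_of_eq hg.1
  unfold Dat.A Dat.B
  refine Nat.card_le_card_of_injective
    (fun g : {g : G // D.lW g = 2 * k ∧ g ∉ D.W (-((2 * k : ℕ) : ℤ))} =>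
      (⟨D.a * g.1 * D.a, h396_lW_conj D k g.1 g.2.1,
        h396_conj_pos D k g.1 (h396_pos_of_not_neg D (2 * k) g.1 g.2.1 g.2.2)⟩ :
        {g : G // D.lW g = 2 * k ∧ g ∈ D.W (-((2 * k : ℕ) : ℤ))})) ?_
  intro g h hgh
  have h1 : D.a * g.1 * D.a = D.a * h.1 * D.a := congrArg Subtype.val hgh
  have h2 : g.1 = h.1 := by
    rw [← h396_conj_conj D g.1, h1, h396_conj_conj D h.1]
  exact Subtype.ext h2

theorem P_even (k : ℕ) : D.P (2 * k) = D.B (2 * k) := by
  unfold Dat.P Dat.B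
  refine Nat.card_congr
    { toFun := fun g => ⟨D.a * g.1 * D.a, h396_lW_conj D k g.1 g.2.1,
        h396_conj_pos D k g.1 g.2.2⟩
      invFun := fun g => ⟨D.a * g.1 * D.a, h396_lW_conj D k g.1 g.2.1,
        h396_conj_neg D k g.1 g.2.2⟩
      left_inv := fun g => Subtype.ext (h396_conj_conj D g.1)
      right_inv := fun g => Subtype.ext (h396_conj_conj D g.1) }

theorem P_odd (k : ℕ) : D.P (2 * k + 1) = D.A (2 * k + 1) := by
  unfold Dat.P Dat.A
  refine Nat.card_congr (Equiv.subtypeEquivRight fun g => ?_)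
  refine and_congr_right fun h => ⟨fun h1 h2 => ?_, fun h1 =>
    h396_pos_of_not_neg D (2 * k + 1) g h h1⟩
  have h5 := h396_chi_eq D h1 h2
  push_cast at h5
  omega

end W

end GSR
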