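import Pool.Agent.Helper242.GSR.Defs
import Pool.Agent.Helper242.GSR.J31004
import Pool.Agent.Helper242.GSR.J31008
import Pool.Agent.Helper242.GSR.J31047

namespace GSR

open Filter Topology

section W

variable {G : Type} [Group G] (D : Dat G)

end W

section Growth

variable {G : Type} [Group G]

end Growth

section W

variable {G : Type} [Group G] (D : Dat G)

/-- the letters -/
def TS : Set G := {s | s ∈ D.K ∨ ∃ u ∈ D.U, s = u * D.a}

theorem TS_inv {s : G} (hs : s ∈ TS D) : s⁻¹ ∈ TS D := by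
  rcases hs with hs | ⟨u, hu, rfl⟩
  · exact Or.inl (D.K.inv_mem hs)
  · have ha : D.a⁻¹ = D.a := inv_eq_of_mul_eq_one_left D.a_sq
    refine Or.inr ⟨D.a * u⁻¹ * D.a, D.a_norm _ (D.U.inv_mem hu), ?_⟩
    rw [mul_inv_rev, ha]
    have : D.a * u⁻¹ * D.a * D.a = D.a * u⁻¹ * (D.a * D.a) := by group
    rw [this, D.a_sq, mul_one]

theorem TS_upper : ∀ (n : ℕ) (X : ℤ) (g : G), X.natAbs = n + 1 → g ∈ D.W X →
    ∃ l : List G, l.length = n + 1 ∧ (∀ s ∈ l, s ∈ TS D) ∧ l.prod = g := by
  intro n
  induction n with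
  | zero =>
    intro X g hX hg
    have h1 : X = 1 ∨ X = -1 := by omega
    refine ⟨[g], rfl, ?_, by simp⟩
    intro s hs
    rw [List.mem_singleton] at hs
    subst hs
    rcases h1 with rfl | rfl
    · refine Or.inr ⟨s * D.a, (W_one D).1 hg, ?_⟩
      rw [mul_assoc, D.a_sq, mul_one]
    · exact Or.inl ((W_neg_one D).1 hg)
  | succ n ih =>
    intro X g hX hg
    have hcase : (tP X).natAbs = n + 1 ∨ (sP X).natAbs = n + 1 := by
      unfold tP sP
      split_ifs <;> omega
    rcases hcase with h | h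
    · obtain ⟨k, hk, hgk⟩ := W_t D hg
      obtain ⟨l, hl1, hl2, hl3⟩ := ih (tP X) (g * k) h hgk
      refine ⟨l ++ [k⁻¹], by simp [hl1], ?_, by simp [hl3]⟩
      intro s hs
      rcases List.mem_append.1 hs with hs | hs
      · exact hl2 s hs
      · rw [List.mem_singleton] at hs
        subst hs
        exact Or.inl (D.K.inv_mem hk)
    · obtain ⟨l, hl1, hl2, hl3⟩ := ih (sP X) (g * D.a) h (W_mula D hg)
      refine ⟨l ++ [D.a], by simp [hl1], ?_, by simp [hl3, mul_assoc, D.a_sq]⟩
      intro s hs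
      rcases List.mem_append.1 hs with hs | hs
      · exact hl2 s hs
      · rw [List.mem_singleton] at hs
        subst hs
        exact Or.inr ⟨1, D.U.one_mem, by simp⟩

theorem TS_lower (l : List G) (hl : ∀ s ∈ l, s ∈ TS D) :
    ∃ X : ℤ, X.natAbs ≤ l.length ∧ l.prod ∈ D.W X := by
  induction l using List.reverseRecOn with
  | nil => exact ⟨0, by simp, (W_zero D).2 (by simpa using D.U.one_mem)⟩
  | append_singleton l s ih =>
    obtain ⟨X, hX, hg⟩ := ih fun t ht => hl t (List.mem_append_left _ ht)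
    have hs : s ∈ TS D := hl s (by simp)
    have e : (l ++ [s]).prod = l.prod * s := by simp
    rw [e]
    have hlen : (l ++ [s]).length = l.length + 1 := by simp
    rw [hlen]
    rcases hs with hs | ⟨u, hu, rfl⟩
    · rcases W_mulK D hg hs with h | h
      · exact ⟨X, by omega, h⟩
      · refine ⟨tP X, ?_, h⟩
        unfold tP
        split_ifs <;> omega
    · refine ⟨sP X, ?_, ?_⟩
      · unfold sP
        split_ifs <;> omega
      · rw [← mul_assoc]
        exact W_mula D (W_mulU D hg hu)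

theorem S1_ex : ∃ S : Finset G, Subgroup.closure (S : Set G) = ⊤ ∧
    ∀ (g : G) (n : ℕ), 1 ≤ n → (len S g ≤ n ↔ D.lW g ≤ n) := by
  classical
  have hfin : (TS D).Finite := by
    refine (D.K_fin.union ((D.K_fin.subset (fun x hx => D.U_le hx :
      (D.U : Set G) ⊆ D.K)).image fun u => u * D.a)).subset ?_
    rintro s (hs | ⟨u, hu, rfl⟩)
    · exact Or.inl hs
    · exact Or.inr ⟨u, hu, rfl⟩
  have hmem : ∀ s, s ∈ hfin.toFinset ↔ s ∈ TS D := fun s => Set.Finite.mem_toFinset _
  have hcl : Subgroup.closure ((hfin.toFinset : Finset G) : Set G) = ⊤ := by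
    rw [eq_top_iff, ← D.gen]
    refine Subgroup.closure_mono ?_
    rintro s (hs | hs)
    · exact (hmem s).2 (Or.inl hs)
    · have : s = D.a := hs
      subst this
      exact (hmem _).2 (Or.inr ⟨1, D.U.one_mem, by simp⟩)
  refine ⟨hfin.toFinset, hcl, fun g n hn => ?_⟩
  rw [len_le_iff _ g hcl n]
  constructor
  · rintro ⟨l, hl1, hl2, rfl⟩
    obtain ⟨X, hX, hg⟩ := TS_lower D l (by
      intro s hs
      rcases hl2 s hs with h | h
      · exact (hmem s).1 h
      · have := TS_inv D ((hmem _).1 h)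
        simpa using this)
    exact (lW_le D hg).trans (hX.trans hl1)
  · intro h
    obtain ⟨X, hg, hX⟩ := lW_spec D g
    rcases Nat.eq_zero_or_pos X.natAbs with h0 | h0
    · have hX0 : X = 0 := by omega
      subst hX0
      refine ⟨[g], by simpa using hn, ?_, by simp⟩
      intro s hs
      rw [List.mem_singleton] at hs
      subst hs
      exact Or.inl ((hmem s).2 (Or.inl (D.U_le ((W_zero D).1 hg))))
    · obtain ⟨l, hl1, hl2, hl3⟩ := TS_upper D (X.natAbs - 1) X g (by omega) hg
      exact ⟨l, by omega, fun s hs => Or.inl ((hmem s).2 (hl2 s hs)), hl3⟩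

end W

end GSR
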