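import Pool.Agent.Helper242.GSR.Defs
import Pool.Agent.Helper242.GSR.J31047

namespace GSR

open Filter Topology

section Growth

variable {G : Type} [Group G]

theorem g2_word (S : Finset G) (hS : Subgroup.closure (S : Set G) = ⊤) (g : G) :
    ∃ l : List G, l.length ≤ len S g ∧ (∀ s ∈ l, s ∈ S ∨ s⁻¹ ∈ S) ∧ l.prod = g :=
  (len_le_iff S g hS (len S g)).1 (le_refl _)

theorem g2_mul (S : Finset G) (hS : Subgroup.closure (S : Set G) = ⊤) (g h : G) :
    len S (g * h) ≤ len S g + len S h := by
  obtain ⟨l, h1, h2, h3⟩ := g2_word S hS g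
  obtain ⟨l', h1', h2', h3'⟩ := g2_word S hS h
  rw [len_le_iff S _ hS]
  refine ⟨l ++ l', ?_, ?_, ?_⟩
  · rw [List.length_append]; omega
  · intro s hs
    rcases List.mem_append.1 hs with h | h
    · exact h2 s h
    · exact h2' s h
  · rw [List.prod_append, h3, h3']

theorem g2_inv (S : Finset G) (hS : Subgroup.closure (S : Set G) = ⊤) (g : G) :
    len S g⁻¹ ≤ len S g := by
  obtain ⟨l, h1, h2, h3⟩ := g2_word S hS g
  rw [len_le_iff S _ hS]
  refine ⟨(l.map (fun x => x⁻¹)).reverse, ?_, ?_, ?_⟩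
  · rw [List.length_reverse, List.length_map]; exact h1
  · intro s hs
    rw [List.mem_reverse, List.mem_map] at hs
    obtain ⟨x, hx, rfl⟩ := hs
    rcases h2 x hx with h | h
    · right; rw [inv_inv]; exact h
    · left; exact h
  · rw [← h3, List.prod_inv_reverse]

theorem g2_ex (S : Finset G) (hS : Subgroup.closure (S : Set G) = ⊤) (hinf : Infinite G) (n : ℕ) :
    ∃ g : G, len S g = n := by
  obtain ⟨g, hg⟩ : ∃ g : G, g ∉ {g : G | len S g ≤ n} := (len_fin S hS n).exists_notMem
  have hg' : n < len S g := not_le.1 hg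
  obtain ⟨l, h1, h2, h3⟩ := g2_word S hS g
  have hp : len S (l.take n).prod ≤ n := by
    rw [len_le_iff S _ hS]
    exact ⟨l.take n, by rw [List.length_take]; exact min_le_left _ _,
      fun s hs => h2 s (List.mem_of_mem_take hs), rfl⟩
  have hq : len S (l.drop n).prod ≤ len S g - n := by
    rw [len_le_iff S _ hS]
    exact ⟨l.drop n, by rw [List.length_drop]; omega,
      fun s hs => h2 s (List.mem_of_mem_drop hs), rfl⟩
  have hpq : (l.take n).prod * (l.drop n).prod = g := by
    rw [← List.prod_append, List.take_append_drop, h3]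
  have h4 := g2_mul S hS (l.take n).prod (l.drop n).prod
  rw [hpq] at h4
  exact ⟨(l.take n).prod, by omega⟩

theorem sph_pos (S : Finset G) (hS : Subgroup.closure (S : Set G) = ⊤) (hinf : Infinite G) (n : ℕ) :
    1 ≤ sph S n := by
  obtain ⟨g, hg⟩ := g2_ex S hS hinf n
  unfold sph
  have hfin : {g : G | len S g = n}.Finite :=
    (len_fin S hS n).subset (fun x hx => le_of_eq hx)
  haveI : Finite {g : G // len S g = n} := hfin.to_subtype
  haveI : Nonempty {g : G // len S g = n} := ⟨⟨g, hg⟩⟩
  exact Nat.card_pos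

theorem ball_dbl (S : Finset G) (hS : Subgroup.closure (S : Set G) = ⊤) (hinf : Infinite G) (n : ℕ) :
    2 * ballc S n ≤ ballc S (3 * n + 1) := by
  obtain ⟨g, hg⟩ := g2_ex S hS hinf (2 * n + 1)
  have hb : ∀ m, ballc S m = ({h : G | len S h ≤ m} : Set G).ncard := fun m =>
    Nat.card_coe_set_eq ({h : G | len S h ≤ m} : Set G)
  rw [hb, hb]
  obtain ⟨A, hA⟩ : ∃ A : Set G, A = {h : G | len S h ≤ n} := ⟨_, rfl⟩
  have hAf : A.Finite := by rw [hA]; exact len_fin S hS n
  have hinj : Function.Injective (fun h : G => g * h) := mul_right_injective g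
  have hdis : Disjoint A ((fun h : G => g * h) '' A) := by
    rw [Set.disjoint_left]
    rintro x hx ⟨h, hh, rfl⟩
    rw [hA] at hx hh
    have h1 : len S (g * h) ≤ n := hx
    have h2 : len S h ≤ n := hh
    have h3 := g2_mul S hS (g * h) h⁻¹
    have h4 := g2_inv S hS h
    rw [mul_inv_cancel_right] at h3
    omega
  have hsub : A ∪ ((fun h : G => g * h) '' A) ⊆ {h : G | len S h ≤ 3 * n + 1} := by
    rintro x (hx | ⟨h, hh, rfl⟩)
    · rw [hA] at hx
      have h1 : len S x ≤ n := hx
      change len S x ≤ 3 * n + 1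
      omega
    · rw [hA] at hh
      have h2 : len S h ≤ n := hh
      have h3 := g2_mul S hS g h
      change len S (g * h) ≤ 3 * n + 1
      omega
  have hle := Set.ncard_le_ncard hsub (len_fin S hS (3 * n + 1))
  rw [Set.ncard_union_eq hdis hAf (hAf.image _), Set.ncard_image_of_injective A hinj] at hle
  rw [← hA]
  omega

end Growth

end GSR
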