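import Pool.Agent.Helper242.GSR.Defs
import Pool.Agent.Helper242.GSR.J31004
import Pool.Agent.Helper242.GSR.J31008
import Pool.Agent.Helper242.GSR.J31012
import Pool.Agent.Helper242.GSR.J31018

namespace GSR

open Filter Topology

section W

variable {G : Type} [Group G] (D : Dat G)

end W

section Growth

variable {G : Type} [Group G]

end Growth

section W

variable {G : Type} [Group G] (D : Dat G)

theorem Gam_pos_iff (S : Finset G)
    (h : ∀ (g : G) (n : ℕ), 1 ≤ n → (len S g ≤ n ↔ D.lW g ≤ n)) (g : G) (n : ℕ) (hn : 2 ≤ n) :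
    len S g = n ↔ D.lW g = n := by
  have h1 := h g n (by omega)
  have h2 := h g (n - 1) (by omega)
  omega

theorem Gam_pos_fin (n : ℕ) : {g : G | D.lW g = n}.Finite :=
  (lW_fin D n).subset fun g hg => le_of_eq hg

theorem Gam_pos (hinf : Infinite G) (n : ℕ) : 1 ≤ D.Gam n := by
  by_cases hn : 2 ≤ n
  · obtain ⟨S, hS, h⟩ := S1_ex D
    have h1 := sph_pos S hS hinf n
    have h2 : sph S n = D.Gam n :=
      Nat.card_congr (Equiv.subtypeEquivRight fun g => Gam_pos_iff D S h g n hn)
    rw [← h2]
    exact h1
  · haveI : Finite {g : G // D.lW g = n} := (Gam_pos_fin D n).to_subtype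
    have hne : Nonempty {g : G // D.lW g = n} := by
      have hn' : n = 0 ∨ n = 1 := by omega
      rcases hn' with rfl | rfl
      · refine ⟨⟨1, ?_⟩⟩
        have := lW_le D (X := 0) (g := 1) ((W_zero D).2 D.U.one_mem)
        simpa using this
      · refine ⟨⟨D.a, ?_⟩⟩
        have h1 := lW_le D (X := 1) (g := D.a) ((W_one D).2 (by rw [D.a_sq]; exact D.U.one_mem))
        have h2 : D.lW D.a ≠ 0 := by
          intro h0
          obtain ⟨X, hX, hX2⟩ := lW_spec D D.a
          rw [h0] at hX2
          have hX3 : X = 0 := by omega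
          rw [hX3] at hX
          have h4 := D.χ_K _ (D.U_le ((W_zero D).1 hX))
          rw [D.χ_a] at h4
          exact Bool.noConfusion h4
        have h3 : (1 : ℤ).natAbs = 1 := rfl
        omega
    exact Nat.card_pos

theorem S1_count : ∃ S : Finset G, Subgroup.closure (S : Set G) = ⊤ ∧
    (∀ n : ℕ, 2 ≤ n → sph S n = D.Gam n) ∧
    (∀ n : ℕ, 1 ≤ n → ballc S n = ∑ i ∈ Finset.range (n + 1), D.Gam i) := by
  classical
  obtain ⟨S, hS, h⟩ := S1_ex D
  refine ⟨S, hS, ?_, ?_⟩
  · intro n hn
    exact Nat.card_congr (Equiv.subtypeEquivRight fun g => Gam_pos_iff D S h g n hn)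
  · intro n hn
    have h1 : ballc S n = (lW_fin D n).toFinset.card :=
      Nat.subtype_card _ fun g => by
        rw [Set.Finite.mem_toFinset, Set.mem_setOf_eq]
        exact (h g n hn).symm
    rw [h1, Finset.card_eq_sum_card_fiberwise (f := D.lW) (t := Finset.range (n + 1))]
    · refine Finset.sum_congr rfl fun i hi => ?_
      symm
      refine Nat.subtype_card _ fun g => ?_
      rw [Finset.mem_filter, Set.Finite.mem_toFinset, Set.mem_setOf_eq]
      rw [Finset.mem_range] at hi
      constructor
      · exact fun hg => hg.2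
      · intro hg
        exact ⟨by omega, hg⟩
    · intro g hg
      rw [Finset.mem_coe, Set.Finite.mem_toFinset, Set.mem_setOf_eq] at hg
      rw [Finset.mem_coe, Finset.mem_range]
      omega

end W

end GSR
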