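import Pool.Agent.Helper242.GSR.Defs
import Pool.Agent.Helper242.GSR.J31018
import Pool.Agent.Helper242.GSR.J31047

namespace GSR

open Filter Topology

section Growth

variable {G : Type} [Group G]

theorem limit_one_aux (a : ℕ → ℝ) (ha : ∀ n, 1 ≤ a n)
    (hsub : ∀ ε : ℝ, 0 < ε → ∃ C : ℝ, ∀ n : ℕ, a n ≤ C * Real.exp (ε * n))
    (L : ℝ) (hL : Tendsto (fun n => a (n + 1) / a n) atTop (𝓝 L)) : L = 1 := by
  have hpos : ∀ n, 0 < a n := fun n => lt_of_lt_of_le one_pos (ha n)
  have hL0 : 0 ≤ L := ge_of_tendsto' hL (fun n => (div_pos (hpos _) (hpos _)).le)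
  rcases lt_trichotomy L 1 with h | h | h
  · exfalso
    obtain ⟨ρ, h1, h2⟩ := exists_between h
    have hρ : 0 < ρ := lt_of_le_of_lt hL0 h1
    obtain ⟨N, hN⟩ := eventually_atTop.1 (hL.eventually (gt_mem_nhds h1))
    have hk : ∀ k : ℕ, a (N + k) ≤ ρ ^ k * a N := by
      intro k
      induction k with
      | zero => simp
      | succ k ih =>
        have h3 := hN (N + k) (Nat.le_add_right _ _)
        rw [div_lt_iff₀ (hpos _)] at h3
        calc a (N + (k + 1)) = a (N + k + 1) := by rw [Nat.add_assoc]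
          _ ≤ ρ * a (N + k) := h3.le
          _ ≤ ρ * (ρ ^ k * a N) := mul_le_mul_of_nonneg_left ih hρ.le
          _ = ρ ^ (k + 1) * a N := by ring
    obtain ⟨k, hk2⟩ := exists_pow_lt_of_lt_one (show (0 : ℝ) < 1 / a N from
      one_div_pos.2 (hpos N)) h2
    have h4 := hk k
    have h5 := ha (N + k)
    rw [lt_div_iff₀ (hpos N)] at hk2
    linarith
  · exact h
  · exfalso
    obtain ⟨ρ, h1, h2⟩ := exists_between h
    have hρ : 0 < ρ := lt_trans one_pos h1
    obtain ⟨N, hN⟩ := eventually_atTop.1 (hL.eventually (lt_mem_nhds h2))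
    have hk : ∀ k : ℕ, ρ ^ k ≤ a (N + k) := by
      intro k
      induction k with
      | zero => simpa using ha N
      | succ k ih =>
        have h3 := hN (N + k) (Nat.le_add_right _ _)
        rw [lt_div_iff₀ (hpos _)] at h3
        calc ρ ^ (k + 1) = ρ * ρ ^ k := by ring
          _ ≤ ρ * a (N + k) := mul_le_mul_of_nonneg_left ih hρ.le
          _ ≤ a (N + k + 1) := h3.le
          _ = a (N + (k + 1)) := by rw [Nat.add_assoc]
    have hlog : 0 < Real.log ρ := Real.log_pos h1
    obtain ⟨C, hC⟩ := hsub (Real.log ρ / 2) (by positivity)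
    set r := Real.exp (Real.log ρ / 2) with hr
    have hr1 : 1 < r := Real.one_lt_exp_iff.2 (by positivity)
    have hr0 : 0 < r := lt_trans one_pos hr1
    have hrr : r * r = ρ := by
      rw [hr, ← Real.exp_add, add_halves, Real.exp_log hρ]
    have hexp : ∀ n : ℕ, Real.exp (Real.log ρ / 2 * n) = r ^ n := by
      intro n
      rw [hr, ← Real.exp_nat_mul, mul_comm]
    obtain ⟨k, hk2⟩ := pow_unbounded_of_one_lt (C * r ^ N) hr1
    have h6 := hk k
    have h7 := hC (N + k)
    rw [hexp] at h7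
    have h8 : r ^ k * r ^ k ≤ C * r ^ N * r ^ k := by
      calc r ^ k * r ^ k = ρ ^ k := by rw [← mul_pow, hrr]
        _ ≤ a (N + k) := h6
        _ ≤ C * r ^ (N + k) := h7
        _ = C * r ^ N * r ^ k := by ring
    have h9 : r ^ k ≤ C * r ^ N := le_of_mul_le_mul_right h8 (pow_pos hr0 k)
    linarith

theorem limit_one (S : Finset G) (hS : Subgroup.closure (S : Set G) = ⊤) (hinf : Infinite G)
    (hsub : ∀ ε : ℝ, 0 < ε → ∃ C : ℝ, ∀ n : ℕ, (ballc S n : ℝ) ≤ C * Real.exp (ε * n))
    (L : ℝ) (hL : Tendsto (fun n => (sph S (n + 1) : ℝ) / (sph S n : ℝ)) atTop (𝓝 L)) : L = 1 := by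
  refine limit_one_aux (fun n => (sph S n : ℝ)) (fun n => by exact_mod_cast sph_pos S hS hinf n)
    (fun ε hε => ?_) L hL
  obtain ⟨C, hC⟩ := hsub ε hε
  refine ⟨C, fun n => le_trans ?_ (hC n)⟩
  have h1 : sph S n ≤ ballc S n := by
    unfold sph ballc
    haveI : Finite {g : G // len S g ≤ n} := len_fin S hS n
    exact Nat.card_le_card_of_injective
      (fun g : {g : G // len S g = n} => (⟨g.1, g.2.le⟩ : {g : G // len S g ≤ n}))
      (fun g g' h => Subtype.ext (congrArg (fun z : {g : G // len S g ≤ n} => z.1) h))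
  exact_mod_cast h1

end Growth

end GSR
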