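import Pool.Agent.Helper242.GSR.Defs
import Pool.Agent.Helper242.GSR.J31003
import Pool.Agent.Helper242.GSR.J31008

namespace GSR

open Filter Topology

section W

variable {G : Type} [Group G] (D : Dat G)

theorem natAbs_cases {X : ℤ} {m : ℕ} (h : X.natAbs = m) : X = (m : ℤ) ∨ X = -(m : ℤ) := by
  omega

open Classical in
theorem lamG_iff (x y : G) (e : Bool) (n : ℤ) :
    (∃ X Y : ℤ, x ∈ D.W X ∧ y ∈ D.W Y ∧ Lam X Y e ≤ n) ↔
      Lam (if x ∈ D.W (D.lW x : ℤ) then (D.lW x : ℤ) else -(D.lW x : ℤ))
        (if y ∈ D.W (-(D.lW y : ℤ)) then -(D.lW y : ℤ) else (D.lW y : ℤ)) e ≤ n := by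
  constructor
  · rintro ⟨X, Y, hX, hY, hn⟩
    have hlx := lW_le D hX
    have hly := lW_le D hY
    have s1 : Lam (if x ∈ D.W (D.lW x : ℤ) then (D.lW x : ℤ) else -(D.lW x : ℤ)) Y e ≤ Lam X Y e := by
      rcases hlx.lt_or_eq with hlt | heq
      · apply lam_mono_left
        have h1 : |(if x ∈ D.W (D.lW x : ℤ) then (D.lW x : ℤ) else -(D.lW x : ℤ))| = (D.lW x : ℤ) := by
          split_ifs
          · exact abs_of_nonneg (Int.natCast_nonneg _)
          · rw [abs_neg]; exact abs_of_nonneg (Int.natCast_nonneg _)
        rw [h1, Int.abs_eq_natAbs]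
        exact_mod_cast hlt
      · rcases natAbs_cases heq.symm with h | h
        · split_ifs with hx
          · rw [← h]
          · rw [h] at hX
            exact absurd hX hx
        · split_ifs with hx
          · rw [h]
            exact lam_sign_left (Int.natCast_nonneg _) Y e
          · rw [← h]
    have s2 : ∀ X0 : ℤ, Lam X0 (if y ∈ D.W (-(D.lW y : ℤ)) then -(D.lW y : ℤ) else (D.lW y : ℤ)) e ≤
        Lam X0 Y e := by
      intro X0
      rcases hly.lt_or_eq with hlt | heq
      · apply lam_mono_right
        have h1 : |(if y ∈ D.W (-(D.lW y : ℤ)) then -(D.lW y : ℤ) else (D.lW y : ℤ))| = (D.lW y : ℤ) := by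
          split_ifs
          · rw [abs_neg]; exact abs_of_nonneg (Int.natCast_nonneg _)
          · exact abs_of_nonneg (Int.natCast_nonneg _)
        rw [h1, Int.abs_eq_natAbs]
        exact_mod_cast hlt
      · rcases natAbs_cases heq.symm with h | h
        · split_ifs with hy
          · rw [h]
            exact lam_sign_right (Int.natCast_nonneg _) X0 e
          · rw [← h]
        · split_ifs with hy
          · rw [← h]
          · rw [h] at hY
            exact absurd hY hy
    exact ((s2 _).trans s1).trans hn
  · intro h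
    refine ⟨_, _, ?_, ?_, h⟩
    · split_ifs with hx
      · exact hx
      · obtain ⟨X, hX, hXa⟩ := lW_spec D x
        rcases natAbs_cases hXa with h1 | h1
        · rw [h1] at hX
          exact absurd hX hx
        · rw [h1] at hX
          exact hX
    · split_ifs with hy
      · exact hy
      · obtain ⟨Y, hY, hYa⟩ := lW_spec D y
        rcases natAbs_cases hYa with h1 | h1
        · rw [h1] at hY
          exact hY
        · rw [h1] at hY
          exact absurd hY hy

end W

end GSR
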