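import Pool.Agent.Helper242.GSR.Defs
import Pool.Agent.Helper242.GSR.J30996
import Pool.Agent.Helper242.GSR.J30997
import Pool.Agent.Helper242.GSR.J31004
import Pool.Agent.Helper242.GSR.J31008
import Pool.Agent.Helper242.GSR.J31047
import Pool.Agent.Helper242.GSR.J31048

namespace GSR

open Filter Topology

section W

variable {G : Type} [Group G] (D : Dat G)

end W

section Growth

variable {G : Type} [Group G]

end Growth

section W

variable {G : Type} [Group G] (D : Dat G)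

end W

section W

variable {G : Type} [Group G] (D : Dat G)

theorem S2c_Wiff (X : ℤ) (x u : G) (hu : u ∈ D.U) : x * u ∈ D.W X ↔ x ∈ D.W X := by
  constructor
  · intro h
    have h1 := W_mulU D h (D.U.inv_mem hu)
    rwa [mul_assoc, mul_inv_cancel, mul_one] at h1
  · intro h
    exact W_mulU D h hu

theorem S2c_lU (x u : G) (hu : u ∈ D.U) : D.lW (x * u) = D.lW x := by
  unfold Dat.lW
  congr 1
  ext n
  simp only [Set.mem_setOf_eq]
  constructor
  · rintro ⟨X, h1, h2⟩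
    exact ⟨X, (S2c_Wiff D X x u hu).1 h1, h2⟩
  · rintro ⟨X, h1, h2⟩
    exact ⟨X, (S2c_Wiff D X x u hu).2 h1, h2⟩

open Classical in
noncomputable def S2c_s0 (x : G) : Bool := decide (x ∈ D.W (D.lW x : ℤ))

open Classical in
noncomputable def S2c_s1 (y : G) : Bool := decide (y ∉ D.W (-(D.lW y : ℤ)))

theorem S2c_s0U (x u : G) (hu : u ∈ D.U) : S2c_s0 D (x * u) = S2c_s0 D x := by
  unfold S2c_s0
  rw [S2c_lU D x u hu]
  exact decide_eq_decide.2 (S2c_Wiff D _ x u hu)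

theorem S2c_s1U (x u : G) (hu : u ∈ D.U) : S2c_s1 D (x * u) = S2c_s1 D x := by
  unfold S2c_s1
  rw [S2c_lU D x u hu]
  exact decide_eq_decide.2 (not_congr (S2c_Wiff D _ x u hu))

theorem S2c_cardp (i : ℕ) (s : Bool) :
    Nat.card {x : G // D.lW x = i ∧ S2c_s0 D x = s} = if s then D.P i else D.M i := by
  classical
  cases s
  · simp only [Bool.false_eq_true, if_false]
    unfold Dat.M
    apply Nat.card_congr
    refine Equiv.subtypeEquivRight fun x => ?_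
    unfold S2c_s0
    constructor
    · rintro ⟨rfl, h2⟩
      exact ⟨rfl, of_decide_eq_false h2⟩
    · rintro ⟨rfl, h2⟩
      exact ⟨rfl, decide_eq_false h2⟩
  · simp only [if_true]
    unfold Dat.P
    apply Nat.card_congr
    refine Equiv.subtypeEquivRight fun x => ?_
    unfold S2c_s0
    constructor
    · rintro ⟨rfl, h2⟩
      exact ⟨rfl, of_decide_eq_true h2⟩
    · rintro ⟨rfl, h2⟩
      exact ⟨rfl, decide_eq_true h2⟩

theorem S2c_cardq (i : ℕ) (s : Bool) :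
    Nat.card {x : G // D.lW x = i ∧ S2c_s1 D x = s} = if s then D.A i else D.B i := by
  classical
  cases s
  · simp only [Bool.false_eq_true, if_false]
    unfold Dat.B
    apply Nat.card_congr
    refine Equiv.subtypeEquivRight fun x => ?_
    unfold S2c_s1
    constructor
    · rintro ⟨rfl, h2⟩
      exact ⟨rfl, not_not.1 (of_decide_eq_false h2)⟩
    · rintro ⟨rfl, h2⟩
      exact ⟨rfl, decide_eq_false (not_not.2 h2)⟩
  · simp only [if_true]
    unfold Dat.A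
    apply Nat.card_congr
    refine Equiv.subtypeEquivRight fun x => ?_
    unfold S2c_s1
    constructor
    · rintro ⟨rfl, h2⟩
      exact ⟨rfl, of_decide_eq_true h2⟩
    · rintro ⟨rfl, h2⟩
      exact ⟨rfl, decide_eq_true h2⟩

theorem S2c_len (S : Finset G) (hlen : ∀ (g : G) (n : ℕ), 2 ≤ n → (len S g ≤ n ↔
      ∃ X Y : ℤ, D.c0 g ∈ D.W X ∧ D.c1 g ∈ D.W Y ∧ Lam X Y (D.w g) ≤ (n : ℤ))) (g : G) (n : ℕ)
    (hn : 2 ≤ n) : len S g ≤ n ↔ Lam (sg (S2c_s0 D (D.c0 g)) * (D.lW (D.c0 g) : ℤ))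
      (sg (S2c_s1 D (D.c1 g)) * (D.lW (D.c1 g) : ℤ)) (D.w g) ≤ (n : ℤ) := by
  classical
  rw [hlen g n hn, lamG_iff D]
  have h1 : (if D.c0 g ∈ D.W (D.lW (D.c0 g) : ℤ) then (D.lW (D.c0 g) : ℤ)
      else -(D.lW (D.c0 g) : ℤ)) = sg (S2c_s0 D (D.c0 g)) * (D.lW (D.c0 g) : ℤ) := by
    unfold S2c_s0 sg
    by_cases h : D.c0 g ∈ D.W (D.lW (D.c0 g) : ℤ)
    · simp [h]
    · simp [h]
  have h2 : (if D.c1 g ∈ D.W (-(D.lW (D.c1 g) : ℤ)) then -(D.lW (D.c1 g) : ℤ)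
      else (D.lW (D.c1 g) : ℤ)) = sg (S2c_s1 D (D.c1 g)) * (D.lW (D.c1 g) : ℤ) := by
    unfold S2c_s1 sg
    by_cases h : D.c1 g ∈ D.W (-(D.lW (D.c1 g) : ℤ))
    · simp [h]
    · simp [h]
  rw [h1, h2]

theorem S2c_abs (X Y : ℤ) (e : Bool) : |X| ≤ Lam X Y e ∧ |Y| ≤ Lam X Y e := by
  unfold Lam
  exact ⟨(le_max_left _ _).trans (le_max_left _ _), (le_max_right _ _).trans (le_max_left _ _)⟩

theorem S2c_sgabs (s : Bool) (i : ℕ) : |sg s * (i : ℤ)| = (i : ℤ) := by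
  unfold sg
  cases s <;> simp

theorem S2c_eq (S : Finset G) (hlen : ∀ (g : G) (n : ℕ), 2 ≤ n → (len S g ≤ n ↔
      ∃ X Y : ℤ, D.c0 g ∈ D.W X ∧ D.c1 g ∈ D.W Y ∧ Lam X Y (D.w g) ≤ (n : ℤ))) (g : G) (n : ℕ)
    (hn : 3 ≤ n) : len S g = n ↔ Lam (sg (S2c_s0 D (D.c0 g)) * (D.lW (D.c0 g) : ℤ))
      (sg (S2c_s1 D (D.c1 g)) * (D.lW (D.c1 g) : ℤ)) (D.w g) = (n : ℤ) := by
  have h1 := S2c_len D S hlen g n (by omega)
  have h2 := S2c_len D S hlen g (n - 1) (by omega)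
  have h3 : ((n - 1 : ℕ) : ℤ) = (n : ℤ) - 1 := by omega
  rw [h3] at h2
  constructor
  · intro h
    have h4 := h1.1 h.le
    have h5 : ¬ (len S g ≤ n - 1) := by omega
    rw [h2] at h5
    omega
  · intro h
    have h4 := h1.2 h.le
    have h5 : ¬ (len S g ≤ n - 1) := by
      rw [h2]
      omega
    omega

theorem S2c_fiber (e : Bool) (i j : ℕ) (s0 s1 : Bool) :
    Nat.card {g : G // D.w g = e ∧ (D.lW (D.c0 g) = i ∧ S2c_s0 D (D.c0 g) = s0) ∧
      (D.lW (D.c1 g) = j ∧ S2c_s1 D (D.c1 g) = s1)} * (Nat.card D.U * Nat.card D.U) =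
      Nat.card {g : G // D.w g = false ∧ D.c0 g ∈ D.U ∧ D.c1 g ∈ D.U} *
        ((if s0 then D.P i else D.M i) * (if s1 then D.A j else D.B j)) := by
  rw [← S2c_cardp D i s0, ← S2c_cardq D j s1]
  apply H_count D e (fun x => D.lW x = i ∧ S2c_s0 D x = s0)
    (fun x => D.lW x = j ∧ S2c_s1 D x = s1)
  · rintro x u hu ⟨h1, h2⟩
    exact ⟨(S2c_lU D x u hu).trans h1, (S2c_s0U D x u hu).trans h2⟩
  · rintro x u hu ⟨h1, h2⟩
    exact ⟨(S2c_lU D x u hu).trans h1, (S2c_s1U D x u hu).trans h2⟩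
  · exact (lW_fin D i).subset fun x hx => hx.1.le
  · exact (lW_fin D j).subset fun x hx => hx.1.le

noncomputable def S2c_io (g : G) : Bool × ℕ × ℕ × Bool × Bool :=
  (D.w g, D.lW (D.c0 g), D.lW (D.c1 g), S2c_s0 D (D.c0 g), S2c_s1 D (D.c1 g))

def S2c_F (n : ℕ) : Finset (Bool × ℕ × ℕ × Bool × Bool) :=
  Finset.univ ×ˢ (Finset.range (n + 1) ×ˢ (Finset.range (n + 1) ×ˢ
    ((Finset.univ : Finset Bool) ×ˢ (Finset.univ : Finset Bool))))

noncomputable def S2c_v (n : ℕ) (t : Bool × ℕ × ℕ × Bool × Bool) : ℕ :=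
  if Lam (sg t.2.2.2.1 * (t.2.1 : ℤ)) (sg t.2.2.2.2 * (t.2.2.1 : ℤ)) t.1 = (n : ℤ) then
    (if t.2.2.2.1 then D.P t.2.1 else D.M t.2.1) * (if t.2.2.2.2 then D.A t.2.2.1 else D.B t.2.2.1)
  else 0

theorem S2c_nat (S : Finset G) (hS : Subgroup.closure (S : Set G) = ⊤)
    (hlen : ∀ (g : G) (n : ℕ), 2 ≤ n → (len S g ≤ n ↔
      ∃ X Y : ℤ, D.c0 g ∈ D.W X ∧ D.c1 g ∈ D.W Y ∧ Lam X Y (D.w g) ≤ (n : ℤ))) (n : ℕ)
    (hn : 3 ≤ n) : sph S n * (Nat.card D.U * Nat.card D.U) =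
      Nat.card {g : G // D.w g = false ∧ D.c0 g ∈ D.U ∧ D.c1 g ∈ D.U} *
        ∑ t ∈ S2c_F n, S2c_v D n t := by
  classical
  have hfin : {g : G | len S g = n}.Finite := (len_fin S hS n).subset fun g hg => le_of_eq hg
  have h1 : sph S n = hfin.toFinset.card := by
    unfold sph
    exact Nat.subtype_card _ fun x => hfin.mem_toFinset
  have h2 : hfin.toFinset.card = ∑ t ∈ S2c_F n, (hfin.toFinset.filter
      (fun g => S2c_io D g = t)).card := by
    apply Finset.card_eq_sum_card_fiberwise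
    intro g hg
    have hg' : len S g = n := hfin.mem_toFinset.1 hg
    rw [S2c_eq D S hlen g n hn] at hg'
    have h3 := S2c_abs (sg (S2c_s0 D (D.c0 g)) * (D.lW (D.c0 g) : ℤ))
      (sg (S2c_s1 D (D.c1 g)) * (D.lW (D.c1 g) : ℤ)) (D.w g)
    rw [S2c_sgabs, S2c_sgabs, hg'] at h3
    have h4 : D.lW (D.c0 g) < n + 1 := by omega
    have h5 : D.lW (D.c1 g) < n + 1 := by omega
    show S2c_io D g ∈ S2c_F n
    unfold S2c_io S2c_F
    simp only [Finset.mem_product, Finset.mem_univ, Finset.mem_range, true_and, and_true]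
    exact ⟨h4, h5⟩
  rw [h1, h2, Finset.sum_mul, Finset.mul_sum]
  refine Finset.sum_congr rfl fun t _ => ?_
  obtain ⟨e, i, j, s0, s1⟩ := t
  unfold S2c_v
  by_cases hL : Lam (sg s0 * (i : ℤ)) (sg s1 * (j : ℤ)) e = (n : ℤ)
  · simp only [hL, if_true]
    rw [← S2c_fiber D e i j s0 s1]
    congr 1
    symm
    apply Nat.subtype_card
    intro g
    rw [Finset.mem_filter, hfin.mem_toFinset]
    constructor
    · rintro ⟨-, h3⟩
      unfold S2c_io at h3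
      simp only [Prod.mk.injEq] at h3
      exact ⟨h3.1, ⟨h3.2.1, h3.2.2.2.1⟩, ⟨h3.2.2.1, h3.2.2.2.2⟩⟩
    · rintro ⟨h3, ⟨h4, h5⟩, ⟨h6, h7⟩⟩
      constructor
      · show len S g = n
        rw [S2c_eq D S hlen g n hn, h3, h4, h5, h6, h7]
        exact hL
      · unfold S2c_io
        rw [h3, h4, h5, h6, h7]
  · simp only [hL, if_false, mul_zero]
    have h3 : hfin.toFinset.filter (fun g => S2c_io D g = (e, i, j, s0, s1)) = ∅ := by
      rw [Finset.filter_eq_empty_iff]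
      intro g hg h4
      have hg' : len S g = n := hfin.mem_toFinset.1 hg
      rw [S2c_eq D S hlen g n hn] at hg'
      unfold S2c_io at h4
      simp only [Prod.mk.injEq] at h4
      rw [h4.1, h4.2.1, h4.2.2.1, h4.2.2.2.1, h4.2.2.2.2] at hg'
      exact hL hg'
    rw [h3, Finset.card_empty, zero_mul]

theorem S2c_FF (n : ℕ) : ((∑ t ∈ S2c_F n, S2c_v D n t : ℕ) : ℝ) =
    FF (fun i => (D.P i : ℝ)) (fun i => (D.M i : ℝ)) (fun i => (D.A i : ℝ))
        (fun i => (D.B i : ℝ)) n := by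
  rw [Nat.cast_sum]
  unfold S2c_F FF
  rw [Finset.sum_product]
  refine Finset.sum_congr rfl fun e _ => ?_
  rw [Finset.sum_product]
  refine Finset.sum_congr rfl fun i _ => ?_
  rw [Finset.sum_product]
  refine Finset.sum_congr rfl fun j _ => ?_
  rw [Finset.sum_product]
  refine Finset.sum_congr rfl fun s0 _ => ?_
  refine Finset.sum_congr rfl fun s1 _ => ?_
  unfold S2c_v
  simp only
  split_ifs <;> push_cast <;> rfl

theorem S2_count : ∃ S : Finset G, Subgroup.closure (S : Set G) = ⊤ ∧ ∃ c d : ℝ, 0 < c ∧ 0 < d ∧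
    ∀ n : ℕ, 3 ≤ n → c * (sph S n : ℝ) =
      d * FF (fun i => (D.P i : ℝ)) (fun i => (D.M i : ℝ)) (fun i => (D.A i : ℝ))
        (fun i => (D.B i : ℝ)) n := by
  obtain ⟨S, hS, hlen⟩ := S2_ex D
  have hUfin : Finite D.U := (D.K_fin.subset D.U_le).to_subtype
  have hU : 0 < Nat.card D.U := Nat.card_pos
  have hFfin : Finite {g : G // D.w g = false ∧ D.c0 g ∈ D.U ∧ D.c1 g ∈ D.U} := by
    apply Finite.of_injective (fun g : {g : G // D.w g = false ∧ D.c0 g ∈ D.U ∧ D.c1 g ∈ D.U} =>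
      ((⟨D.c0 g.1, g.2.2.1⟩, ⟨D.c1 g.1, g.2.2.2⟩) : D.U × D.U))
    intro g h hgh
    simp only [Prod.mk.injEq, Subtype.mk.injEq] at hgh
    exact Subtype.ext (D.dec_inj _ _ hgh.1 hgh.2 (g.2.1.trans h.2.1.symm))
  have hFne : Nonempty {g : G // D.w g = false ∧ D.c0 g ∈ D.U ∧ D.c1 g ∈ D.U} := by
    obtain ⟨u, hu, v, hv, g, h1, h2, h3⟩ := D.H0 1 1
    refine ⟨⟨g, h3, ?_, ?_⟩⟩
    · rw [h1, one_mul]
      exact hu
    · rw [h2, one_mul]
      exact hv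
  have hF : 0 < Nat.card {g : G // D.w g = false ∧ D.c0 g ∈ D.U ∧ D.c1 g ∈ D.U} := Nat.card_pos
  refine ⟨S, hS, (Nat.card D.U : ℝ) * (Nat.card D.U : ℝ),
    (Nat.card {g : G // D.w g = false ∧ D.c0 g ∈ D.U ∧ D.c1 g ∈ D.U} : ℝ), ?_, ?_, ?_⟩
  · exact mul_pos (Nat.cast_pos.2 hU) (Nat.cast_pos.2 hU)
  · exact Nat.cast_pos.2 hF
  · intro n hn
    have h1 := congrArg (Nat.cast : ℕ → ℝ) (S2c_nat D S hS hlen n hn)
    rw [Nat.cast_mul, Nat.cast_mul, Nat.cast_mul, S2c_FF] at h1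
    rw [← h1]
    ring

end W

end GSR
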