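import Pool.Agent.Helper242.GSR.Defs
import Pool.Agent.Helper242.GSR.J31002
import Pool.Agent.Helper242.GSR.J31008
import Pool.Agent.Helper242.GSR.J31010
import Pool.Agent.Helper242.GSR.J31011
import Pool.Agent.Helper242.GSR.J31013
import Pool.Agent.Helper242.GSR.J31018
import Pool.Agent.Helper242.GSR.J31019
import Pool.Agent.Helper242.GSR.J31049

namespace GSR

open Filter Topology

section W

variable {G : Type} [Group G] (D : Dat G)

end W

section Growth

variable {G : Type} [Group G]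

end Growth

section Ana

variable {A B : ℕ → ℝ}

end Ana

theorem main_abs {G : Type} [Group G] (D : Dat G) (hinf : Infinite G)
    (hsub : ∀ S : Finset G, Subgroup.closure (S : Set G) = ⊤ → ∀ ε : ℝ, 0 < ε →
      ∃ C : ℝ, ∀ n : ℕ, (ballc S n : ℝ) ≤ C * Real.exp (ε * n)) :
    ∃ S : Finset G, Subgroup.closure (S : Set G) = ⊤ ∧
      ¬ ∃ L : ℝ, Tendsto (fun n => (sph S (n + 1) : ℝ) / (sph S n : ℝ)) atTop (𝓝 L) := by
  by_contra hcon
  push Not at hcon
  obtain ⟨S1, hS1, h1, h1b⟩ := S1_count D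
  obtain ⟨L1, hL1⟩ := hcon S1 hS1
  have hL1' := limit_one S1 hS1 hinf (hsub S1 hS1) L1 hL1
  subst hL1'
  obtain ⟨S2, hS2, c, d, hc, hd, h2⟩ := S2_count D
  obtain ⟨L2, hL2⟩ := hcon S2 hS2
  have hL2' := limit_one S2 hS2 hinf (hsub S2 hS2) L2 hL2
  subst hL2'
  have hGa : ∀ n, Ga (fun i => (D.A i : ℝ)) (fun i => (D.B i : ℝ)) n = (D.Gam n : ℝ) := by
    intro n
    rw [Gam_eq_AB]
    push_cast
    rfl
  have hBl : ∀ n, 1 ≤ n → Bl (fun i => (D.A i : ℝ)) (fun i => (D.B i : ℝ)) n =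
      (ballc S1 n : ℝ) := by
    intro n hn
    rw [h1b n hn]
    push_cast
    unfold Bl
    refine Finset.sum_congr rfl fun i _ => ?_
    rw [← hGa i]
    rfl
  have hSm : SmH (fun i => (D.A i : ℝ)) (fun i => (D.B i : ℝ)) := by
    refine ⟨fun n => by positivity, fun n => by positivity, ?_, ?_, ?_, ?_, ?_⟩
    · intro k hk
      show (D.A (2 * k + 1) : ℝ) = (D.A (2 * k) : ℝ)
      rw [A_odd D k hk]
    · intro k
      show (D.B (2 * k + 1) : ℝ) = (D.B (2 * k + 2) : ℝ)
      rw [B_odd D k]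
    · intro k
      show (D.A (2 * k) : ℝ) ≤ (D.B (2 * k) : ℝ)
      exact_mod_cast A_le_B D k
    · intro n
      have h3 := hGa n
      have h4 := Gam_pos D hinf n
      show (1 : ℝ) ≤ Ga (fun i => (D.A i : ℝ)) (fun i => (D.B i : ℝ)) n
      rw [h3]
      exact_mod_cast h4
    · refine hL1.congr' ?_
      filter_upwards [eventually_ge_atTop 2] with n hn
      rw [hGa, hGa, h1 n hn, h1 (n + 1) (by omega)]
  have hP : (fun i => (D.P i : ℝ)) = Pq (fun i => (D.A i : ℝ)) (fun i => (D.B i : ℝ)) := by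
    funext i
    unfold Pq
    by_cases hi : i % 2 = 0
    · rw [if_pos hi]
      have h3 := P_even D (i / 2)
      have h4 : 2 * (i / 2) = i := by omega
      rw [h4] at h3
      rw [h3]
    · rw [if_neg hi]
      have h3 := P_odd D (i / 2)
      have h4 : 2 * (i / 2) + 1 = i := by omega
      rw [h4] at h3
      rw [h3]
  have hM : (fun i => (D.M i : ℝ)) = Mq (fun i => (D.A i : ℝ)) (fun i => (D.B i : ℝ)) := by
    funext i
    have h5 : (D.P i : ℝ) = Pq (fun i => (D.A i : ℝ)) (fun i => (D.B i : ℝ)) i := congrFun hP i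
    have h6 : (D.P i : ℝ) + (D.M i : ℝ) = (D.A i : ℝ) + (D.B i : ℝ) := by
      have h7 := Gam_eq_PM D i
      rw [Gam_eq_AB] at h7
      exact_mod_cast h7.symm
    unfold Mq
    unfold Pq at h5
    by_cases hi : i % 2 = 0
    · rw [if_pos hi] at h5 ⊢
      simp only at h5 ⊢
      linarith
    · rw [if_neg hi] at h5 ⊢
      simp only at h5 ⊢
      linarith
  refine analysis hSm ?_ ?_ ?_
  · intro n hn
    rw [hBl n hn, hBl (3 * n + 1) (by omega)]
    exact_mod_cast ball_dbl S1 hS1 hinf n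
  · intro ε hε
    obtain ⟨C, hC⟩ := hsub S1 hS1 ε hε
    have h0 : 0 ≤ Bl (fun i => (D.A i : ℝ)) (fun i => (D.B i : ℝ)) 0 := by
      unfold Bl
      positivity
    refine ⟨|C| + Bl (fun i => (D.A i : ℝ)) (fun i => (D.B i : ℝ)) 0, ?_⟩
    intro n
    rcases Nat.eq_zero_or_pos n with hn | hn
    · subst hn
      simp only [Nat.cast_zero, mul_zero, Real.exp_zero, mul_one]
      have := abs_nonneg C
      linarith
    · rw [hBl n hn]
      refine (hC n).trans ?_
      apply mul_le_mul_of_nonneg_right _ (Real.exp_pos _).le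
      have := le_abs_self C
      linarith
  · rw [← hP, ← hM]
    refine hL2.congr' ?_
    filter_upwards [eventually_ge_atTop 3] with n hn
    have h3 := h2 n hn
    have h4 := h2 (n + 1) (by omega)
    rw [← mul_div_mul_left (sph S2 (n + 1) : ℝ) (sph S2 n : ℝ) hc.ne', h3, h4,
      mul_div_mul_left _ _ hd.ne']

end GSR
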